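import Pool.Agent.Lib.P07318v.Geo

/-!
# Module AbsV: the form with absolute values

PROOF.  `Fintype.card ι = 2 * n + 2 = card (Fin (n + 1) ⊕ Fin (n + 1))`, so there is an equivalence `e : Fin (n + 1) ⊕ Fin (n + 1) ≃ ι`
(`Fintype.equivOfCardEq`).  `FA L κ Z = ∫⁻ x, (∏ i, ‖Z (e (inl i)) (pt ..)‖ₑ) * ∏ i, ‖Z (e (inr i)) (pt ..)‖ₑ` (`FA_equiv`, or `Fintype.prod_equiv`, and
`Fintype.prod_sum_type`).  Cauchy-Schwarz (`ENNReal.lintegral_mul_le_Lp_mul_Lq` with `2, 2`; measurability: `pt_cont`):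
`FA ^ 2 ≤ (∫⁻ x, ∏ i, ‖Z (e (inl i)) (pt ..)‖ₑ ^ 2) * ∫⁻ x, ∏ i, ‖Z (e (inr i)) (pt ..)‖ₑ ^ 2`, and by `indep_v` (with the constant `C₁`) twice, for
`σ = e ∘ inl` and `σ = e ∘ inr`, this is `≤ ofReal C₁ * ofReal C₁ * (∏ i, nm (Z (e (inl i)))) * ∏ i, nm (Z (e (inr i))) = ofReal (C₁ ^ 2) * ∏ j, nm (Z j)`.
-/

set_option autoImplicit false

namespace Pool.Agent.P07318v

open MeasureTheory Complex Pool.Agent.P07318s Pool.Agent.P07318f Pool.Agent.P07318h Pool.Agent.P07318o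

namespace AbsVAux

/-- Cauchy-Schwarz -/
lemma cs {X : Type} [MeasurableSpace X] (μ : Measure X) (f g : X → ENNReal) (hf : Measurable f) (hg : Measurable g) :
    (∫⁻ t, f t * g t ∂μ) ^ 2 ≤ (∫⁻ t, f t ^ 2 ∂μ) * ∫⁻ t, g t ^ 2 ∂μ := by
  have hpq : (2 : ℝ).HolderConjugate 2 := Real.HolderConjugate.two_two
  have h1 := ENNReal.lintegral_mul_le_Lp_mul_Lq μ hpq hf.aemeasurable hg.aemeasurable
  simp only [Pi.mul_apply, ENNReal.rpow_two] at h1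
  calc (∫⁻ t, f t * g t ∂μ) ^ 2
      ≤ ((∫⁻ t, f t ^ 2 ∂μ) ^ (1 / 2 : ℝ) * (∫⁻ t, g t ^ 2 ∂μ) ^ (1 / 2 : ℝ)) ^ 2 := by
        gcongr
    _ = (∫⁻ t, f t ^ 2 ∂μ) * ∫⁻ t, g t ^ 2 ∂μ := by
        rw [mul_pow, ← ENNReal.rpow_two, ← ENNReal.rpow_two, ← ENNReal.rpow_mul, ← ENNReal.rpow_mul]
        norm_num

end AbsVAux

open AbsVAux

theorem abs_v {n : ℕ} {ι : Type} [Fintype ι] [DecidableEq ι] (hι : Fintype.card ι = 2 * n + 2) (L : ι → Fin (n + 1) → ℝ) (hL : GP L) :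
    ∃ C : ℝ, 0 < C ∧ ∀ (κ : ι → ℝ) (Z : ι → ℝ → ℂ), (∀ j, Measurable (Z j)) →
    FA L κ Z ^ 2 ≤ ENNReal.ofReal C * ∏ j, nm (Z j) := by
  classical
  obtain ⟨C, hC, hI⟩ := indep_v L hL
  have hcard : Fintype.card (Fin (n + 1) ⊕ Fin (n + 1)) = Fintype.card ι := by
    rw [Fintype.card_sum, Fintype.card_fin, hι]
    ring
  obtain ⟨e⟩ : Nonempty (Fin (n + 1) ⊕ Fin (n + 1) ≃ ι) := ⟨Fintype.equivOfCardEq hcard⟩
  refine ⟨C ^ 2, by positivity, fun κ Z hZ => ?_⟩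
  have hprod : ∀ F : ι → ENNReal, ∏ j, F j = (∏ i, F (e (Sum.inl i))) * ∏ i, F (e (Sum.inr i)) := by
    intro F
    rw [← Fintype.prod_equiv e (fun s => F (e s)) F (fun s => rfl), Fintype.prod_sum_type]
  have hm : ∀ j, Measurable fun x : Fin (n + 1) → ℝ => ‖Z j (pt L κ x j)‖ₑ := by
    intro j
    exact (hZ j).enorm.comp (pt_cont L κ j).measurable
  have hg : ∀ j, Measurable fun y => ‖Z j y‖ₑ ^ 2 := fun j => (hZ j).enorm.pow_const 2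
  have hinl : Function.Injective fun i : Fin (n + 1) => e (Sum.inl i) := e.injective.comp Sum.inl_injective
  have hinr : Function.Injective fun i : Fin (n + 1) => e (Sum.inr i) := e.injective.comp Sum.inr_injective
  have hF : FA L κ Z = ∫⁻ x : Fin (n + 1) → ℝ, (∏ i, ‖Z (e (Sum.inl i)) (pt L κ x (e (Sum.inl i)))‖ₑ) *
      ∏ i, ‖Z (e (Sum.inr i)) (pt L κ x (e (Sum.inr i)))‖ₑ := by
    unfold FA
    exact lintegral_congr fun x => hprod fun j => ‖Z j (pt L κ x j)‖ₑ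
  rw [hF]
  refine (cs volume _ _ (Finset.measurable_fun_prod _ fun i _ => hm _) (Finset.measurable_fun_prod _ fun i _ => hm _)).trans ?_
  have h1 := hI κ (fun i => e (Sum.inl i)) (fun i y => ‖Z (e (Sum.inl i)) y‖ₑ ^ 2) hinl (fun i => hg _)
  have h2 := hI κ (fun i => e (Sum.inr i)) (fun i y => ‖Z (e (Sum.inr i)) y‖ₑ ^ 2) hinr (fun i => hg _)
  simp only [← Finset.prod_pow]
  refine (mul_le_mul' h1 h2).trans (le_of_eq ?_)
  rw [hprod fun j => nm (Z j), ENNReal.ofReal_pow hC.le]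
  unfold nm
  ring

end Pool.Agent.P07318v
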