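import Pool.Agent.Lib.P07318v.LinD
import Pool.Agent.Lib.P07318o.Expand

/-!
# Module ExpandV: expansion of one slot (compare Lib/P07318o/Expand.lean)

PROOF.  `R x = ∏ j ∈ univ.erase r, Z j (pt L κ x j)` is continuous (`pt_cont`), and it vanishes outside the compact set
`K = iv L κ σ '' (Set.univ.pi fun i => Set.Icc (a i) (b i))` (`isCompact_univ_pi`, `iv` is continuous, `iv_pt`, `(Mx L σ).det ≠ 0` is `hL σ hσ`): if `x ∉ K` then some
`pt L κ x (σ i) ∉ Icc (a i) (b i)`, so `Z (σ i) (..) = 0`, and `σ i ≠ r`.  So `R` is integrable (`Continuous.integrable_of_hasCompactSupport`,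
`HasCompactSupport.intro`).  For every `x` `∏ j, Z j (pt ..) = Z r (pt L κ x r) * R x` (`Finset.mul_prod_erase`) and
`∏ j, (update Z r (b i)) j (pt ..) = b i (pt L κ x r) * R x`.  If `R x ≠ 0` then all `Z (σ i) (..) ≠ 0`, so `hsum` gives
`HasSum (fun i => b i (pt L κ x r) * R x) (Z r (pt L κ x r) * R x)` (also if `R x = 0`).  `‖b i (..) * R x‖ ≤ β i * ‖R x‖`, so
`hasSum_integral_of_summable_integral_norm` (`∫ ‖b i * R‖ ≤ β i * ∫ ‖R‖`, summable) gives `HasSum (fun i => FF L κ (update Z r (b i))) (FF L κ Z)`.  Then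
`‖FF L κ Z‖ₑ ≤ ∑' i, ‖FF L κ (update Z r (b i))‖ₑ` (`enorm_tsum_le_tsum_enorm`) and `ExpandAux.cs_tsum` of Lib/P07318o/Expand.
(The hypothesis `hZb` is not needed.)
-/

set_option autoImplicit false

namespace Pool.Agent.P07318v

open MeasureTheory Complex Pool.Agent.P07318s Pool.Agent.P07318f Pool.Agent.P07318h Pool.Agent.P07318o

namespace ExpandVAux

/-- the product without the slot `r` -/
noncomputable def Rst {n : ℕ} {ι : Type} [Fintype ι] [DecidableEq ι] (L : ι → Fin (n + 1) → ℝ) (κ : ι → ℝ) (Z : ι → ℝ → ℂ)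
    (r : ι) (x : Fin (n + 1) → ℝ) : ℂ :=
  ∏ j ∈ Finset.univ.erase r, Z j (pt L κ x j)

lemma prod_update {n : ℕ} {ι : Type} [Fintype ι] [DecidableEq ι] (L : ι → Fin (n + 1) → ℝ) (κ : ι → ℝ) (Z : ι → ℝ → ℂ)
    (r : ι) (b : ℝ → ℂ) (x : Fin (n + 1) → ℝ) :
    ∏ j, (Function.update Z r b) j (pt L κ x j) = b (pt L κ x r) * Rst L κ Z r x := by
  rw [← Finset.mul_prod_erase Finset.univ _ (Finset.mem_univ r), Function.update_self]
  congr 1
  refine Finset.prod_congr rfl fun j hj => ?_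
  rw [Function.update_of_ne (Finset.ne_of_mem_erase hj)]

lemma prod_self {n : ℕ} {ι : Type} [Fintype ι] [DecidableEq ι] (L : ι → Fin (n + 1) → ℝ) (κ : ι → ℝ) (Z : ι → ℝ → ℂ)
    (r : ι) (x : Fin (n + 1) → ℝ) :
    ∏ j, Z j (pt L κ x j) = Z r (pt L κ x r) * Rst L κ Z r x :=
  (Finset.mul_prod_erase Finset.univ _ (Finset.mem_univ r)).symm

lemma Rst_cont {n : ℕ} {ι : Type} [Fintype ι] [DecidableEq ι] (L : ι → Fin (n + 1) → ℝ) (κ : ι → ℝ) (Z : ι → ℝ → ℂ)
    (r : ι) (hZ : ∀ j, j ≠ r → Continuous (Z j)) : Continuous (Rst L κ Z r) := by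
  unfold Rst
  refine continuous_finsetProd _ fun j hj => ?_
  exact (hZ j (Finset.ne_of_mem_erase hj)).comp (pt_cont L κ j)

end ExpandVAux

open ExpandVAux

theorem expand_v {n : ℕ} {ι : Type} [Fintype ι] [DecidableEq ι] (L : ι → Fin (n + 1) → ℝ) (hL : GP L) {ι' : Type} [Countable ι']
    (κ : ι → ℝ) (Z : ι → ℝ → ℂ) (r : ι) (σ : Fin (n + 1) → ι) (hσ : Function.Injective σ) (hσr : ∀ i, σ i ≠ r)
    (hZ : ∀ j, j ≠ r → Continuous (Z j)) (hZb : ∀ j, j ≠ r → ∃ B : ℝ, ∀ y, ‖Z j y‖ ≤ B)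
    (hs : ∀ i, ∃ a b : ℝ, ∀ y, y ∉ Set.Icc a b → Z (σ i) y = 0)
    (b : ι' → ℝ → ℂ) (β w : ι' → ℝ) (P : ℝ) (hb : ∀ i, Continuous (b i)) (hβ : ∀ i y, ‖b i y‖ ≤ β i) (hβs : Summable β)
    (hsum : ∀ x, (∀ i, Z (σ i) (pt L κ x (σ i)) ≠ 0) → HasSum (fun i => b i (pt L κ x r)) (Z r (pt L κ x r))) (hw : ∀ i, 0 < w i)
    (hwP : ∀ s : Finset ι', ∑ i ∈ s, w i ≤ P) :
    ‖FF L κ Z‖ₑ ^ 2 ≤ ENNReal.ofReal P * ∑' i, (ENNReal.ofReal (w i))⁻¹ * ‖FF L κ (Function.update Z r (b i))‖ₑ ^ 2 := by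
  classical
  have _ := hZb
  have hM : (Mx L σ).det ≠ 0 := hL σ hσ
  choose a c hac using hs
  -- the compact set
  have hivc : Continuous (iv L κ σ) := by
    unfold iv
    exact Continuous.matrix_mulVec continuous_const (by fun_prop)
  obtain ⟨K, hK⟩ : ∃ K, K = iv L κ σ '' (Set.univ.pi fun i => Set.Icc (a i) (c i)) := ⟨_, rfl⟩
  have hKc : IsCompact K := by
    rw [hK]
    exact (isCompact_univ_pi fun i => isCompact_Icc).image hivc
  have hR0 : ∀ x, x ∉ K → Rst L κ Z r x = 0 := by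
    intro x hx
    have h1 : ∃ i, pt L κ x (σ i) ∉ Set.Icc (a i) (c i) := by
      by_contra h2
      push Not at h2
      apply hx
      rw [hK]
      exact ⟨fun i => pt L κ x (σ i), fun i _ => h2 i, iv_pt L κ σ hM x⟩
    obtain ⟨i, hi⟩ := h1
    exact Finset.prod_eq_zero (i := σ i) (Finset.mem_erase.2 ⟨hσr i, Finset.mem_univ _⟩) (hac i _ hi)
  have hRc : Continuous (Rst L κ Z r) := Rst_cont L κ Z r hZ
  have hRi : Integrable (Rst L κ Z r) :=
    hRc.integrable_of_hasCompactSupport (HasCompactSupport.intro hKc hR0)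
  have hβ0 : ∀ i, 0 ≤ β i := fun i => (norm_nonneg _).trans (hβ i 0)
  have hFi : ∀ i, Integrable fun x => b i (pt L κ x r) * Rst L κ Z r x := by
    intro i
    refine Continuous.integrable_of_hasCompactSupport (((hb i).comp (pt_cont L κ r)).mul hRc)
      (HasCompactSupport.intro hKc fun x hx => ?_)
    rw [hR0 x hx, mul_zero]
  have hFn : ∀ i, ∫ x, ‖b i (pt L κ x r) * Rst L κ Z r x‖ ≤ β i * ∫ x, ‖Rst L κ Z r x‖ := by
    intro i
    rw [← integral_const_mul]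
    refine integral_mono (hFi i).norm (hRi.norm.const_mul _) fun x => ?_
    simp only
    rw [norm_mul]
    exact mul_le_mul_of_nonneg_right (hβ i _) (norm_nonneg _)
  have hmain := hasSum_integral_of_summable_integral_norm hFi
    (Summable.of_nonneg_of_le (fun i => integral_nonneg fun x => norm_nonneg _) hFn (hβs.mul_right _))
  have e1 : ∀ i, FF L κ (Function.update Z r (b i)) = ∫ x, b i (pt L κ x r) * Rst L κ Z r x := by
    intro i
    unfold FF
    simp only [prod_update]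
  have e2 : FF L κ Z = ∫ x, ∑' i, b i (pt L κ x r) * Rst L κ Z r x := by
    unfold FF
    congr 1
    funext x
    rw [prod_self L κ Z r x]
    by_cases hx : Rst L κ Z r x = 0
    · rw [hx]
      simp
    · have h1 : ∀ i, Z (σ i) (pt L κ x (σ i)) ≠ 0 := by
        intro i h2
        exact hx (Finset.prod_eq_zero (i := σ i) (Finset.mem_erase.2 ⟨hσr i, Finset.mem_univ _⟩) h2)
      exact (((hsum x h1).mul_right _).tsum_eq).symm
  have h3 : ‖FF L κ Z‖ₑ ≤ ∑' i, ‖FF L κ (Function.update Z r (b i))‖ₑ := by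
    rw [e2, ← hmain.tsum_eq]
    simp only [e1]
    exact enorm_tsum_le_tsum_enorm
  exact (pow_le_pow_left' h3 2).trans (ExpandAux.cs_tsum w P hw hwP _)

end Pool.Agent.P07318v
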