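import Mathlib

/-!
# Module EqV: equivalences with prescribed values (only Mathlib)

PROOF.  Start with `e₀ : α ≃ β` (`Fintype.equivOfCardEq`), `e₁ = e₀.trans (Equiv.swap (e₀ c) c')` has `e₁ c = c'`; for `eqv3` go on with
`e₂ = e₁.trans (Equiv.swap (e₁ a) a')`: `e₂ a = a'` and `e₂ c = c'`, since `c' ≠ a'` and `c' = e₁ c ≠ e₁ a` (`Equiv.swap_apply_of_ne_of_ne`); then
`e₃ = e₂.trans (Equiv.swap (e₂ b) b')`: `e₃ b = b'`, `e₃ a = a'` (`a' ≠ b'`, `a' = e₂ a ≠ e₂ b`), `e₃ c = c'`.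
-/

set_option autoImplicit false

namespace Pool.Agent.P07318v

theorem eqv1 {α β : Type} [Fintype α] [Fintype β] [DecidableEq β] (h : Fintype.card α = Fintype.card β) (c : α) (c' : β) :
    ∃ e : α ≃ β, e c = c' := by
  obtain ⟨e⟩ := Fintype.card_eq.1 h
  exact ⟨e.trans (Equiv.swap (e c) c'), by simp⟩

theorem eqv3 {α β : Type} [Fintype α] [Fintype β] [DecidableEq β] (h : Fintype.card α = Fintype.card β) (a b c : α) (a' b' c' : β)
    (hab : a ≠ b) (hac : a ≠ c) (hbc : b ≠ c) (hab' : a' ≠ b') (hac' : a' ≠ c') (hbc' : b' ≠ c') :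
    ∃ e : α ≃ β, e a = a' ∧ e b = b' ∧ e c = c' := by
  obtain ⟨e1, h1⟩ := eqv1 h c c'
  obtain ⟨e2, h2a, h2c⟩ : ∃ e : α ≃ β, e a = a' ∧ e c = c' := by
    refine ⟨e1.trans (Equiv.swap (e1 a) a'), by simp, ?_⟩
    rw [Equiv.trans_apply, h1]
    refine Equiv.swap_apply_of_ne_of_ne ?_ hac'.symm
    intro h4
    exact hac (e1.injective (by rw [h1, h4]))
  refine ⟨e2.trans (Equiv.swap (e2 b) b'), ?_, by simp, ?_⟩
  · rw [Equiv.trans_apply, h2a]
    refine Equiv.swap_apply_of_ne_of_ne ?_ hab'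
    intro h4
    exact hab (e2.injective (by rw [h2a, h4]))
  · rw [Equiv.trans_apply, h2c]
    refine Equiv.swap_apply_of_ne_of_ne ?_ hbc'.symm
    intro h4
    exact hbc (e2.injective (by rw [h2c, h4]))

end Pool.Agent.P07318v
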