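import Pool.Agent.Lib.P07318v.MixF0
import Pool.Agent.Lib.P07318v.EqV

/-!
# Module MixFV: one slot is a character

PROOF.  As HFormV: for every triple `t = (i, r, p)` of different slots choose `e t : Fin n ⊕ Fin (n + 2) ≃ ι` with `e t (inr 0) = i`, `e t (inr 1) = p`,
`e t (inr last) = r` (`eqv3`; `inr (0 : Fin (n + 1)).castSucc`, `inr (1 : Fin (n + 1)).castSucc`, `inr (Fin.last (n + 1))` are different since `n ≥ 1`) and the
constant of `mix_form_0` for `fun j => L (e t j)` (`GP_equiv`); `C = 1 + ∑ t, C t` (for the triples which are not of this kind `C t = 0`, or prove for all `t` the existence of a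
nonnegative `C t` such that the conclusion holds if the triple is good).  `FF_equiv`, and
`∏ j ∈ (univ.erase i).erase r, nm (Z j) = (∏ a, nm (Z (e (inl a)))) * ∏ b ∈ univ.erase (0 : Fin (n + 1)), nm (Z (e (inr b.castSucc)))` (write both sides
with `f j = if j = i ∨ j = r then 1 else nm (Z j)`).  The interval of integration grows with `C` (`0 ≤ W`), `lintegral_mono_set`.
-/

set_option autoImplicit false

namespace Pool.Agent.P07318v

open MeasureTheory Complex Pool.Agent.P07318s Pool.Agent.P07318f Pool.Agent.P07318h Pool.Agent.P07318o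

theorem mix_form_v {n : ℕ} (hn : 1 ≤ n) {ι : Type} [Fintype ι] [DecidableEq ι] (hι : Fintype.card ι = 2 * n + 2)
    (L : ι → Fin (n + 1) → ℝ) (hL : GP L) : ∃ C : ℝ, 0 < C ∧
    ∀ (κ : ι → ℝ) (Z : ι → ℝ → ℂ) (i r p : ι) (ξ a W : ℝ), i ≠ r → p ≠ i → p ≠ r → 0 ≤ W →
    (∀ j, Measurable (Z j)) → (∀ j, j ≠ i → nm (Z j) ≠ ⊤) → (Z i = fun y : ℝ => cexp (((ξ * y : ℝ) : ℂ) * I)) →
    (∀ y, y ∉ Set.Icc a (a + W) → Z p y = 0) →
    ‖FF L κ Z‖ₑ ^ 2 ≤ ENNReal.ofReal C * (∏ j ∈ (Finset.univ.erase i).erase r, nm (Z j)) *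
      ∫⁻ τ in Set.Icc (-(C * W)) (C * W), ‖ac (Z r) τ‖ₑ := by
  classical
  have hcard : Fintype.card (Fin n ⊕ Fin (n + 2)) = Fintype.card ι := by
    rw [hι]
    simp
    omega
  have key : ∀ t : ι × ι × ι, ∃ C : ℝ, 0 ≤ C ∧ (t.1 ≠ t.2.1 → t.2.2 ≠ t.1 → t.2.2 ≠ t.2.1 →
      ∀ (κ : ι → ℝ) (Z : ι → ℝ → ℂ) (ξ a W : ℝ), 0 ≤ W → (∀ j, Measurable (Z j)) →
      (∀ j, j ≠ t.1 → nm (Z j) ≠ ⊤) → (Z t.1 = fun y : ℝ => cexp (((ξ * y : ℝ) : ℂ) * I)) →
      (∀ y, y ∉ Set.Icc a (a + W) → Z t.2.2 y = 0) →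
      ‖FF L κ Z‖ₑ ^ 2 ≤ ENNReal.ofReal C * (∏ j ∈ (Finset.univ.erase t.1).erase t.2.1, nm (Z j)) *
        ∫⁻ τ in Set.Icc (-(C * W)) (C * W), ‖ac (Z t.2.1) τ‖ₑ) := by
    rintro ⟨i, r, p⟩
    by_cases h : i ≠ r ∧ p ≠ i ∧ p ≠ r
    · obtain ⟨h1, h2, h3⟩ := h
      have hn0 : (0 : Fin (n + 1)) ≠ 1 := by
        intro h
        have h' := congrArg Fin.val h
        rw [Fin.val_zero, Fin.val_one', Nat.mod_eq_of_lt (by omega)] at h'
        omega
      have hd1 : (Sum.inr (0 : Fin (n + 1)).castSucc : Fin n ⊕ Fin (n + 2)) ≠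
          Sum.inr (1 : Fin (n + 1)).castSucc := fun h =>
        hn0 (Fin.castSucc_injective _ (Sum.inr_injective h))
      have hd2 : (Sum.inr (0 : Fin (n + 1)).castSucc : Fin n ⊕ Fin (n + 2)) ≠
          Sum.inr (Fin.last (n + 1)) := fun h =>
        (Fin.castSucc_lt_last (0 : Fin (n + 1))).ne (Sum.inr_injective h)
      have hd3 : (Sum.inr (1 : Fin (n + 1)).castSucc : Fin n ⊕ Fin (n + 2)) ≠
          Sum.inr (Fin.last (n + 1)) := fun h =>
        (Fin.castSucc_lt_last (1 : Fin (n + 1))).ne (Sum.inr_injective h)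
      obtain ⟨e, ei, ep, er⟩ := eqv3 hcard (Sum.inr (0 : Fin (n + 1)).castSucc)
        (Sum.inr (1 : Fin (n + 1)).castSucc) (Sum.inr (Fin.last (n + 1))) i p r hd1 hd2 hd3 h2.symm h1 h3
      obtain ⟨C, hC, hmain⟩ := mix_form_0 hn (fun j => L (e j)) (GP_equiv e hL)
      refine ⟨C, hC.le, fun _ _ _ κ Z ξ a W hW hm hnm hZi hZp => ?_⟩
      have h4 := hmain (fun j => κ (e j)) (fun j => Z (e j)) ξ a W hW (fun j => hm _)
        (fun j hj => hnm _ fun h5 => hj (e.injective (by rw [h5, ei])))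
        (by simp only [ei]; exact hZi) (fun y hy => by simp only [ep]; exact hZp y hy)
      rw [FF_equiv e L κ Z] at h4
      simp only [er] at h4
      have hprod : (∏ j ∈ (Finset.univ.erase i).erase r, nm (Z j)) =
          (∏ a : Fin n, nm (Z (e (Sum.inl a)))) *
            ∏ b ∈ (Finset.univ : Finset (Fin (n + 1))).erase 0, nm (Z (e (Sum.inr b.castSucc))) := by
        obtain ⟨f, hf⟩ : ∃ f : ι → ENNReal, ∀ j, f j = if j = i ∨ j = r then 1 else nm (Z j) :=
          ⟨_, fun j => rfl⟩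
        have hfi : f i = 1 := by rw [hf, if_pos (Or.inl rfl)]
        have hfr : f r = 1 := by rw [hf, if_pos (Or.inr rfl)]
        have hfo : ∀ k, k ≠ Sum.inr (0 : Fin (n + 1)).castSucc → k ≠ Sum.inr (Fin.last (n + 1)) →
            nm (Z (e k)) = f (e k) := by
          intro k hk1 hk2
          rw [hf, if_neg]
          rintro (h5 | h5)
          · exact hk1 (e.injective (by rw [h5, ei]))
          · exact hk2 (e.injective (by rw [h5, er]))
        have e1 : (∏ j ∈ (Finset.univ.erase i).erase r, nm (Z j)) =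
            ∏ j ∈ (Finset.univ.erase i).erase r, f j := by
          refine Finset.prod_congr rfl fun j hj => ?_
          rw [Finset.mem_erase, Finset.mem_erase] at hj
          rw [hf, if_neg]
          rintro (h5 | h5)
          · exact hj.2.1 h5
          · exact hj.1 h5
        have e2 : (∏ a : Fin n, nm (Z (e (Sum.inl a)))) = ∏ a : Fin n, f (e (Sum.inl a)) :=
          Finset.prod_congr rfl fun a _ => hfo _ (by simp) (by simp)
        have e3 : (∏ b ∈ (Finset.univ : Finset (Fin (n + 1))).erase 0,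
            nm (Z (e (Sum.inr b.castSucc)))) =
            ∏ b ∈ (Finset.univ : Finset (Fin (n + 1))).erase 0, f (e (Sum.inr b.castSucc)) := by
          refine Finset.prod_congr rfl fun b hb => hfo _ ?_ ?_
          · intro h5
            exact (Finset.mem_erase.1 hb).1 (Fin.castSucc_injective _ (Sum.inr_injective h5))
          · intro h5
            exact (Fin.castSucc_lt_last b).ne (Sum.inr_injective h5)
        rw [e1, e2, e3, Finset.prod_erase _ hfr, Finset.prod_erase _ hfi,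
          Finset.prod_erase (f := fun b : Fin (n + 1) => f (e (Sum.inr b.castSucc))) _
            (by simp only [ei]; exact hfi)]
        rw [← Fintype.prod_equiv e (fun k => f (e k)) f (fun k => rfl), Fintype.prod_sum_type,
          Fin.prod_univ_castSucc (n := n + 1), er, hfr, mul_one]
      rw [hprod]
      exact h4
    · exact ⟨0, le_rfl, fun h1 h2 h3 => absurd ⟨h1, h2, h3⟩ h⟩
  choose C hC hmain using key
  have hsum : 0 ≤ ∑ t, C t := Finset.sum_nonneg fun t _ => hC t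
  refine ⟨1 + ∑ t, C t, by linarith, ?_⟩
  intro κ Z i r p ξ a W h1 h2 h3 hW hm hnm hZi hZp
  have h4 := hmain (i, r, p) h1 h2 h3 κ Z ξ a W hW hm hnm hZi hZp
  have hle : C (i, r, p) ≤ 1 + ∑ t, C t := by
    have := Finset.single_le_sum (f := C) (fun t _ => hC t) (Finset.mem_univ (i, r, p))
    linarith
  refine h4.trans ?_
  have hsub : Set.Icc (-(C (i, r, p) * W)) (C (i, r, p) * W) ⊆
      Set.Icc (-((1 + ∑ t, C t) * W)) ((1 + ∑ t, C t) * W) := by
    have h5 : C (i, r, p) * W ≤ (1 + ∑ t, C t) * W := mul_le_mul_of_nonneg_right hle hW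
    exact Set.Icc_subset_Icc (neg_le_neg h5) h5
  exact mul_le_mul' (mul_le_mul' (ENNReal.ofReal_le_ofReal hle) le_rfl) (lintegral_mono_set hsub)

end Pool.Agent.P07318v
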