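import Pool.Agent.Lib.P07318v.Geo
import Pool.Agent.Lib.P07318v.ExpandV
import Pool.Agent.Lib.P07318v.MixFV
import Pool.Agent.Lib.P07318o.BandExp
import Pool.Agent.Lib.P07318o.AcBk
import Pool.Agent.Lib.P07318o.NmBk
import Pool.Agent.Lib.P07318o.LLcut
import Pool.Agent.Lib.P07318o.Mixed

/-!
# A slot with small heights together with a slot with top heights

PROOF (compare `Mixed` of P07318o, whose text can be followed). `U = T/4`, `C_s` the constant of `short_v`, `C_m` the constant of `mix_form_v`, `c₀ = min (1/(4 C_s)) (15/(4 C_m))`. Choose `σ : Fin (n+1) → ι` injective with values `≠ i, r` (`card ι - 2 = 2n ≥ n+1`) and a slot `p ≠ i, r`.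
(1) Slot `i`. If there is no `x` with `Z (σ k) (pt x (σ k)) ≠ 0` for all `k` and `pt x i ∈ [T/2, 3T]` then `FF = 0`. Otherwise, as in `MidV`, `pt x i ∈ [T/4, 13T/4]` for all `x` with `Z (σ k) (pt x (σ k)) ≠ 0`, and `char_exp` is valid there. `expand_v` for the slot `i` with `ι' = ℤ × {q // q ∈ qs 0 Y}`
(`w p = pk p.1`, `P = C Y²`, as in `Mixed`): `‖FF Z‖² ≤ C Y⁴ Λ² L² sup_χ ‖FF (update Z i χ)‖²`, `χ y = exp(iξy)`. (The slot `r` is continuous: `ct_cont`, `ct_supp`, `bd_contOn`, and bounded: `bounded_of`.)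
(2) Slot `r`, for fixed `χ`: the same alternative for `pt x r` (with `c'`), then `expand_v` with `band_exp` (`J ≤ 3L`, `B ≤ T²`).
(3) `mix_form_v` with `p`, `a p`, `W = ℓ`: the range of `τ` is `[-C_m ℓ, C_m ℓ] ⊆ [-15U, 15U]`; `ac_bk` as in `Mixed`. Total `C Λ⁴ L^7 Y⁴ T² A^(-1/2) G^(2n)`.
-/

set_option autoImplicit false

namespace Pool.Agent.P07318v

open MeasureTheory Complex Pool.Agent.P07318s Pool.Agent.P07318f Pool.Agent.P07318h Pool.Agent.P07318o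

namespace MixedVAux

/-- `n + 1` slots which avoid two given slots -/
theorem exists_sigma {n : ℕ} (hn : 1 ≤ n) {ι : Type} [Fintype ι] [DecidableEq ι]
    (hι : Fintype.card ι = 2 * n + 2) {i r : ι} (hir : i ≠ r) :
    ∃ σ : Fin (n + 1) → ι, Function.Injective σ ∧ (∀ k, σ k ≠ i) ∧ ∀ k, σ k ≠ r := by
  classical
  have hcard : ((Finset.univ.erase i).erase r).card = 2 * n := by
    rw [Finset.card_erase_of_mem (Finset.mem_erase.2 ⟨hir.symm, Finset.mem_univ _⟩),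
      Finset.card_erase_of_mem (Finset.mem_univ _), Finset.card_univ, hι]
    omega
  have hle : n + 1 ≤ ((Finset.univ.erase i).erase r).card := by omega
  let f : Fin (n + 1) → ((Finset.univ.erase i).erase r : Finset ι) := fun k =>
    ((Finset.univ.erase i).erase r).equivFin.symm (Fin.castLE hle k)
  have hf : Function.Injective f :=
    ((Finset.univ.erase i).erase r).equivFin.symm.injective.comp (Fin.castLE_injective hle)
  refine ⟨fun k => (f k).1, fun a b h => hf (Subtype.ext h), fun k => ?_, fun k => ?_⟩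
  · exact Finset.ne_of_mem_erase (Finset.mem_of_mem_erase (f k).2)
  · exact Finset.ne_of_mem_erase (f k).2

theorem prod_bound_v {n : ℕ} {ι : Type} [Fintype ι] [DecidableEq ι]
    (hι : Fintype.card ι = 2 * n + 2) (Z : ι → ℝ → ℂ) (i r : ι) (hir : i ≠ r) (G : ℝ)
    (h : ∀ j, j ≠ i → j ≠ r → nm (Z j) ≤ ENNReal.ofReal G) :
    ∏ j ∈ (Finset.univ.erase i).erase r, nm (Z j) ≤ ENNReal.ofReal G ^ (2 * n) := by
  have hcard : ((Finset.univ.erase i).erase r).card = 2 * n := by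
    rw [Finset.card_erase_of_mem (Finset.mem_erase.2 ⟨hir.symm, Finset.mem_univ _⟩),
      Finset.card_erase_of_mem (Finset.mem_univ _), Finset.card_univ, hι]
    omega
  have h1 : ∀ j ∈ (Finset.univ.erase i).erase r, nm (Z j) ≤ ENNReal.ofReal G := by
    intro j hj
    rw [Finset.mem_erase, Finset.mem_erase] at hj
    exact h j hj.2.1 hj.1
  refine (Finset.prod_le_prod' h1).trans (le_of_eq ?_)
  rw [Finset.prod_const, hcard]

/-- either the form vanishes or the slot `r` is restricted to a short interval -/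
theorem dich {n : ℕ} {ι : Type} [Fintype ι] [DecidableEq ι] (L : ι → Fin (n + 1) → ℝ)
    (κ : ι → ℝ) (T ℓ Cs : ℝ) (a : ι → ℝ) (Z : ι → ℝ → ℂ) (σ : Fin (n + 1) → ι) (r : ι)
    (hshort : ∀ (x x' : Fin (n + 1) → ℝ),
      (∀ i, |pt L κ x (σ i) - pt L κ x' (σ i)| ≤ ℓ) → ∀ j, |pt L κ x j - pt L κ x' j| ≤ Cs * ℓ)
    (hℓ : Cs * ℓ ≤ T / 4)
    (hs : ∀ k y, y ∉ Set.Icc (a (σ k)) (a (σ k) + ℓ) → Z (σ k) y = 0)
    (hr : ∀ y, y ∉ Set.Icc (T / 2) (3 * T) → Z r y = 0) :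
    FF L κ Z = 0 ∨ ∀ x, (∀ k, Z (σ k) (pt L κ x (σ k)) ≠ 0) →
      T / 4 ≤ pt L κ x r ∧ pt L κ x r ≤ 13 * T / 4 := by
  by_cases h : ∃ x₀ : Fin (n + 1) → ℝ, (∀ k, Z (σ k) (pt L κ x₀ (σ k)) ≠ 0) ∧
      pt L κ x₀ r ∈ Set.Icc (T / 2) (3 * T)
  · right
    obtain ⟨x₀, h1, h2⟩ := h
    intro x hx
    have h3 := hshort x x₀ (fun k => by
      have h4 : pt L κ x (σ k) ∈ Set.Icc (a (σ k)) (a (σ k) + ℓ) := by
        by_contra hcon
        exact hx k (hs k _ hcon)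
      have h5 : pt L κ x₀ (σ k) ∈ Set.Icc (a (σ k)) (a (σ k) + ℓ) := by
        by_contra hcon
        exact h1 k (hs k _ hcon)
      rw [abs_le]
      constructor <;> linarith [h4.1, h4.2, h5.1, h5.2]) r
    rw [abs_le] at h3
    constructor
    · linarith [h3.1, h2.1]
    · linarith [h3.2, h2.2]
  · left
    unfold FF
    have h1 : ∀ x : Fin (n + 1) → ℝ, ∏ j, Z j (pt L κ x j) = 0 := by
      intro x
      by_cases hx : ∀ k, Z (σ k) (pt L κ x (σ k)) ≠ 0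
      · have h2 : pt L κ x r ∉ Set.Icc (T / 2) (3 * T) := fun h3 => h ⟨x, hx, h3⟩
        exact Finset.prod_eq_zero (Finset.mem_univ r) (hr _ h2)
      · push Not at hx
        obtain ⟨k, hk⟩ := hx
        exact Finset.prod_eq_zero (Finset.mem_univ (σ k)) hk
    simp only [h1, integral_zero]

theorem FF_const {n : ℕ} {ι : Type} [Fintype ι] [DecidableEq ι] (L : ι → Fin (n + 1) → ℝ)
    (κ : ι → ℝ) (Z : ι → ℝ → ℂ) (i : ι) (z : ℂ) (χ : ℝ → ℂ) :
    FF L κ (Function.update Z i fun y => z * χ y) = z * FF L κ (Function.update Z i χ) := by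
  unfold FF
  rw [← integral_const_mul]
  congr 1
  funext t
  rw [← Finset.mul_prod_erase Finset.univ _ (Finset.mem_univ i),
    ← Finset.mul_prod_erase Finset.univ _ (Finset.mem_univ i), Function.update_self,
    Function.update_self, mul_assoc]
  congr 2
  refine Finset.prod_congr rfl fun j hj => ?_
  rw [Function.update_of_ne (Finset.mem_erase.1 hj).1, Function.update_of_ne
    (Finset.mem_erase.1 hj).1]

theorem inner_v {n : ℕ} (hn : 1 ≤ n) {ι : Type} [Fintype ι] [DecidableEq ι]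
    (hι : Fintype.card ι = 2 * n + 2) (L : ι → Fin (n + 1) → ℝ) (hL : GP L) :
    ∃ c₀ C : ℝ, 0 < c₀ ∧ 0 < C ∧
    ∀ (κ : ι → ℝ) (T Λ A B G ξ ℓ : ℝ) (a : ι → ℝ) (c' : ℝ → ℝ) (Z : ι → ℝ → ℂ) (i r : ι), 4 ≤ T →
    1 ≤ Λ → 0 ≤ ℓ → ℓ ≤ c₀ * T → Cut (T / 4) Λ c' → (∀ y, y ∉ Set.Icc (T / 2) (3 * T) → c' y = 0) →
    1 ≤ A → B ≤ T ^ 2 → 0 ≤ G → i ≠ r →
    (∀ j, j ≠ i → j ≠ r → Continuous (Z j)) →
    (∀ j, j ≠ i → j ≠ r → ∀ y, y ∉ Set.Icc (a j) (a j + ℓ) → Z j y = 0) →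
    (∀ j, j ≠ i → j ≠ r → nm (Z j) ≤ ENNReal.ofReal G) →
    (Z i = fun y : ℝ => cexp (((ξ * y : ℝ) : ℂ) * I)) → (Z r = ct c' (bd A B)) →
    ‖FF L κ Z‖ₑ ^ 2 ≤
      ENNReal.ofReal (C * Λ ^ 2 * lg T ^ 5 * T ^ 2 * A ^ (-(1 / 2) : ℝ) * G ^ (2 * n)) := by
  obtain ⟨Cs, hCs, hshort⟩ := short_v L hL
  obtain ⟨C2, hC2, hband⟩ := band_exp
  obtain ⟨C3, hC3, hmix⟩ := mix_form_v hn hι L hL
  obtain ⟨C4, hC4, hac⟩ := ac_bk
  obtain ⟨C5, hC5, hnm⟩ := nm_bk
  obtain ⟨Cp, hCp, hpk⟩ := pk_sum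
  refine ⟨min (1 / (4 * Cs)) (15 / (4 * C3)), 9 * Cp ^ 2 * (C3 * (C4 * (C2 ^ 2 * 8))),
    lt_min (by positivity) (by positivity), by positivity, ?_⟩
  intro κ T Λ A B G ξ ℓ a c' Z i r hT hΛ hℓ0 hℓ hcut hc's hA hB hG hir hZc hZs hZn hZi hZr
  have hCs0 : 0 < Cs := by linarith
  have hT0 : 0 < T := by linarith
  have hℓs : Cs * ℓ ≤ T / 4 := by
    have h1 : ℓ ≤ 1 / (4 * Cs) * T := hℓ.trans (mul_le_mul_of_nonneg_right (min_le_left _ _) hT0.le)
    calc Cs * ℓ ≤ Cs * (1 / (4 * Cs) * T) := mul_le_mul_of_nonneg_left h1 hCs0.le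
      _ = T / 4 := by field_simp
  have hℓm : C3 * ℓ ≤ 15 * (T / 4) := by
    have h1 : ℓ ≤ 15 / (4 * C3) * T := hℓ.trans (mul_le_mul_of_nonneg_right (min_le_right _ _) hT0.le)
    calc C3 * ℓ ≤ C3 * (15 / (4 * C3) * T) := mul_le_mul_of_nonneg_left h1 hC3.le
      _ = 15 * (T / 4) := by field_simp
  obtain ⟨U, hUdef⟩ : ∃ U : ℝ, U = T / 4 := ⟨_, rfl⟩
  have hU : 1 ≤ U := by rw [hUdef]; linarith
  have hU0 : 0 < U := by linarith
  have hL1 := MixedAux.lg_ge_one hT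
  obtain ⟨σ, hσ, hσi, hσr⟩ := exists_sigma hn hι hir
  obtain ⟨J, hJ1, hJ2⟩ := MixedAux.exists_J hT hA hB
  rcases dich L κ T ℓ Cs a Z σ r (fun x x' h => hshort κ σ x x' ℓ hσ h) hℓs
    (fun k => hZs _ (hσi k) (hσr k)) (by
      intro y hy
      rw [hZr]
      unfold ct
      rw [hc's y hy]
      simp) with h0 | hrange
  · rw [h0, enorm_zero]
    simp
  rw [← hUdef] at hcut
  obtain ⟨cf, hcf, hsum⟩ := hband U Λ A B J c' hU hΛ hcut hA hJ1
  have hA12 : 0 ≤ A ^ (-(1 / 2) : ℝ) := Real.rpow_nonneg (by linarith) _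
  let cst : Fin J → ℝ := fun a => ∑ q ∈ blk A B a, C2 * Λ * kl U (hgt q.1) *
    (hgt q.1) ^ (-(1 / 2) : ℝ)
  have hcst0 : ∀ a, 0 ≤ cst a := fun a => Finset.sum_nonneg fun q _ =>
    mul_nonneg (mul_nonneg (by positivity) (kl_nonneg hU (hgt_pos q.1)))
      (Real.rpow_nonneg (hgt_pos q.1).le _)
  let b : ℤ × Fin J → ℝ → ℂ := fun x =>
    bk U (2 * Real.pi * x.1 / (32 * U)) (blk A B x.2) (cf x.1)
  have hβ : ∀ (x : ℤ × Fin J) (y : ℝ), ‖b x y‖ ≤ pk x.1 * cst x.2 := by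
    intro x y
    refine (MixedAux.norm_bk_le _ _ _ _ _).trans ?_
    rw [Finset.mul_sum]
    refine Finset.sum_le_sum fun q _ => (hcf x.1 q).trans (le_of_eq ?_)
    ring
  have hZcr : ∀ j, j ≠ r → Continuous (Z j) := by
    intro j hj
    by_cases hji : j = i
    · rw [hji, hZi]
      exact MixedAux.char_cont ξ
    · exact hZc j hji hj
  have hexp := expand_v L hL (ι' := ℤ × Fin J) κ Z r σ hσ hσr hZcr (by
      intro j hj
      by_cases hji : j = i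
      · refine ⟨1, fun y => ?_⟩
        rw [hji, hZi]
        exact (MixedAux.norm_char ξ y).le
      · exact bounded_of (hZc j hji hj) (hZs j hji hj)) (by
      intro k
      exact ⟨a (σ k), a (σ k) + ℓ, hZs _ (hσi k) (hσr k)⟩) b (fun x => pk x.1 * cst x.2)
    (fun x => pk x.1) (J * Cp)
    (fun x => MixedAux.bk_cont _ _ _ _) hβ
    (MixedAux.summable_pk.mul_of_nonneg (f := pk) (g := cst) (Summable.of_finite)
      (fun k => (pk_pos k).le) hcst0) (by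
      intro x hx
      obtain ⟨h1, h2⟩ := hrange x hx
      rw [hZr]
      exact hsum _ (by rw [hUdef]; linarith) (by rw [hUdef]; linarith)) (fun x => pk_pos _) (by
      intro s
      have h1 := MixedAux.sum_fst_le (κ' := Fin J) (fun k => (pk_pos k).le) hpk s
      rw [Fintype.card_fin] at h1
      exact h1)
  obtain ⟨X, hXdef⟩ : ∃ X : ℝ, X = C3 * G ^ (2 * n) *
    (C4 * (C2 ^ 2 * 8) * Λ ^ 2 * lg T ^ 3 * U ^ 2 * A ^ (-(1 / 2) : ℝ)) := ⟨_, rfl⟩
  have hX : 0 ≤ X := by rw [hXdef]; positivity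
  have hterm : ∀ x : ℤ × Fin J,
      ‖FF L κ (Function.update Z r (b x))‖ₑ ^ 2 ≤ ENNReal.ofReal (X * pk x.1 ^ 2) := by
    rintro ⟨k, e⟩
    obtain ⟨Aa, hAadef⟩ : ∃ Aa : ℝ, Aa = 2 ^ (e : ℕ) * A := ⟨_, rfl⟩
    have h2a : (1 : ℝ) ≤ 2 ^ (e : ℕ) := one_le_pow₀ (by norm_num)
    have hAA : A ≤ Aa := by rw [hAadef]; nlinarith
    have hAa1 : 1 ≤ Aa := hA.trans hAA
    have hAa0 : 0 < Aa := by linarith
    have hk0 := pk_pos k
    have hkl0 := kl_nonneg hU hAa0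
    obtain ⟨K, hKdef⟩ : ∃ K : ℝ, K = C2 * Λ * pk k * kl U Aa := ⟨_, rfl⟩
    have hK0 : 0 ≤ K := by rw [hKdef]; positivity
    have hblk : ∀ q ∈ blk A B e, Aa ≤ hgt q.1 ∧ hgt q.1 ≤ 2 * Aa := by
      intro q hq
      obtain ⟨-, h1, h2⟩ := MixedAux.mem_blk hq
      rw [hAadef]
      refine ⟨h1.le, h2.trans (le_of_eq ?_)⟩
      rw [pow_succ]
      ring
    have hco : ∀ q ∈ blk A B e, ‖cf k q‖ ≤ K * Aa ^ (-(1 / 2) : ℝ) := by
      intro q hq
      refine (hcf k q).trans ?_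
      rw [hKdef]
      have h1 := (hblk q hq).1
      have h2 : kl U (hgt q.1) ≤ kl U Aa := kl_anti hU hAa0 h1
      have h3 : (hgt q.1) ^ (-(1 / 2) : ℝ) ≤ Aa ^ (-(1 / 2) : ℝ) :=
        Real.rpow_le_rpow_of_nonpos hAa0 h1 (by norm_num)
      have h4 := kl_nonneg hU (hgt_pos q.1)
      exact mul_le_mul (mul_le_mul_of_nonneg_left h2 (by positivity)) h3
        (Real.rpow_nonneg (hgt_pos q.1).le _) (by positivity)
    have hnmfin : nm (b (k, e)) ≠ ⊤ :=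
      ne_top_of_le_ne_top ENNReal.ofReal_ne_top (hnm U Aa K _ _ _ hU hAa1 hK0 hblk hco)
    have hacb : ∫⁻ τ in Set.Icc (-(15 * U)) (15 * U), ‖ac (b (k, e)) τ‖ₑ ≤
        ENNReal.ofReal (C4 * (C2 ^ 2 * 8) * Λ ^ 2 * lg T ^ 3 * U ^ 2 * A ^ (-(1 / 2) : ℝ) *
          pk k ^ 2) := by
      rcases (blk A B e).eq_empty_or_nonempty with h0 | ⟨q, hq⟩
      · have h1 := hac U 1 0 (2 * Real.pi * k / (32 * U)) (blk A B e) (cf k) hU le_rfl le_rfl
          (by rw [h0]; intro q hq; exact absurd hq (Finset.notMem_empty q))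
          (by rw [h0]; intro q hq; exact absurd hq (Finset.notMem_empty q))
        refine h1.trans (ENNReal.ofReal_le_ofReal ?_)
        have h2 : 0 ≤ C4 * (C2 ^ 2 * 8) * Λ ^ 2 * lg T ^ 3 * U ^ 2 * A ^ (-(1 / 2) : ℝ) *
          pk k ^ 2 := by positivity
        refine le_trans (le_of_eq ?_) h2
        ring
      · refine (hac U Aa K _ _ _ hU hAa1 hK0 hblk hco).trans (ENNReal.ofReal_le_ofReal ?_)
        have hAT : Aa ≤ T ^ 2 := by
          obtain ⟨h1, h2, -⟩ := MixedAux.mem_blk hq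
          have h3 := (mem_qs.1 h1).2
          rw [hAadef]
          linarith
        have hlogA : 1 + Real.log Aa ≤ 2 * lg T := by
          have h1 := Real.log_le_log hAa0 hAT
          rw [Real.log_pow] at h1
          unfold lg
          push_cast at h1
          linarith
        have hlogA0 : 0 ≤ 1 + Real.log Aa := by
          have := Real.log_nonneg hAa1
          linarith
        have hpow : Aa ^ (-(1 / 2) : ℝ) ≤ A ^ (-(1 / 2) : ℝ) :=
          Real.rpow_le_rpow_of_nonpos (by linarith) hAA (by norm_num)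
        have hpow0 : 0 ≤ Aa ^ (-(1 / 2) : ℝ) := Real.rpow_nonneg hAa0.le _
        have hkm := MixedAux.kl_mul hT hUdef hAa1
        have hkm0 : 0 ≤ kl U Aa * (1 + Aa / U) := by positivity
        calc C4 * K ^ 2 * U ^ 2 * Aa ^ (-(1 / 2) : ℝ) * (1 + Real.log Aa) * (1 + Aa / U) ^ 2
            = (C4 * C2 ^ 2 * Λ ^ 2 * U ^ 2 * pk k ^ 2) * (kl U Aa * (1 + Aa / U)) ^ 2 *
                (Aa ^ (-(1 / 2) : ℝ) * (1 + Real.log Aa)) := by rw [hKdef]; ring
          _ ≤ (C4 * C2 ^ 2 * Λ ^ 2 * U ^ 2 * pk k ^ 2) * (2 * lg T) ^ 2 *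
                (A ^ (-(1 / 2) : ℝ) * (2 * lg T)) := by
              refine mul_le_mul ?_ (mul_le_mul hpow hlogA hlogA0 hA12) (by positivity)
                (by positivity)
              exact mul_le_mul_of_nonneg_left (pow_le_pow_left₀ hkm0 hkm 2) (by positivity)
          _ = _ := by ring
    have hmix' := hmix κ (Function.update Z r (b (k, e))) i r (σ 0) ξ (a (σ 0)) ℓ hir (hσi 0)
      (hσr 0) hℓ0 (by
        intro j
        by_cases hj : j = r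
        · rw [hj, Function.update_self]
          exact (MixedAux.bk_cont _ _ _ _).measurable
        · rw [Function.update_of_ne hj]
          exact (hZcr j hj).measurable) (by
        intro j hji
        by_cases hj : j = r
        · rw [hj, Function.update_self]
          exact hnmfin
        · rw [Function.update_of_ne hj]
          exact ne_top_of_le_ne_top ENNReal.ofReal_ne_top (hZn j hji hj)) (by
        rw [Function.update_of_ne hir]
        exact hZi) (by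
        intro y hy
        rw [Function.update_of_ne (hσr 0)]
        exact hZs _ (hσi 0) (hσr 0) y hy)
    rw [Function.update_self] at hmix'
    have hprod := prod_bound_v hι (Function.update Z r (b (k, e))) i r hir G (by
      intro j hji hjr
      rw [Function.update_of_ne hjr]
      exact hZn j hji hjr)
    have hsub : ∫⁻ τ in Set.Icc (-(C3 * ℓ)) (C3 * ℓ), ‖ac (b (k, e)) τ‖ₑ ≤
        ∫⁻ τ in Set.Icc (-(15 * U)) (15 * U), ‖ac (b (k, e)) τ‖ₑ := by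
      refine lintegral_mono_set (Set.Icc_subset_Icc ?_ ?_)
      · rw [hUdef]
        linarith
      · rw [hUdef]
        exact hℓm
    calc ‖FF L κ (Function.update Z r (b (k, e)))‖ₑ ^ 2
        ≤ _ := hmix'
      _ ≤ ENNReal.ofReal C3 * ENNReal.ofReal G ^ (2 * n) * ENNReal.ofReal
          (C4 * (C2 ^ 2 * 8) * Λ ^ 2 * lg T ^ 3 * U ^ 2 * A ^ (-(1 / 2) : ℝ) * pk k ^ 2) :=
          mul_le_mul' (mul_le_mul' le_rfl hprod) (hsub.trans hacb)
      _ = ENNReal.ofReal (X * pk k ^ 2) := by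
          rw [← ENNReal.ofReal_pow hG, ← ENNReal.ofReal_mul hC3.le,
            ← ENNReal.ofReal_mul (by positivity), hXdef]
          congr 1
          ring
  have hts := MixedAux.tsum_bound (ι := ℤ × Fin J) (w := fun x => pk x.1) (P := J * Cp) (X := X)
    (fun x => pk_pos _) (by
      intro s
      have h1 := MixedAux.sum_fst_le (κ' := Fin J) (fun k => (pk_pos k).le) hpk s
      rw [Fintype.card_fin] at h1
      exact h1) hX _ hterm
  refine hexp.trans ((mul_le_mul' le_rfl hts).trans ?_)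
  rw [← ENNReal.ofReal_mul (by positivity)]
  refine ENNReal.ofReal_le_ofReal ?_
  have hJ0 : (0 : ℝ) ≤ J := Nat.cast_nonneg J
  have hUT : U ^ 2 ≤ T ^ 2 := pow_le_pow_left₀ hU0.le (by rw [hUdef]; linarith) 2
  calc (J : ℝ) * Cp * (X * (J * Cp)) = (J : ℝ) ^ 2 * (Cp ^ 2 * X) := by ring
    _ ≤ (3 * lg T) ^ 2 * (Cp ^ 2 * X) :=
        mul_le_mul_of_nonneg_right (pow_le_pow_left₀ hJ0 hJ2 2) (by positivity)
    _ = (9 * Cp ^ 2 * (C3 * (C4 * (C2 ^ 2 * 8))) * Λ ^ 2 * lg T ^ 5 * A ^ (-(1 / 2) : ℝ) *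
          G ^ (2 * n)) * U ^ 2 := by rw [hXdef]; ring
    _ ≤ (9 * Cp ^ 2 * (C3 * (C4 * (C2 ^ 2 * 8))) * Λ ^ 2 * lg T ^ 5 * A ^ (-(1 / 2) : ℝ) *
          G ^ (2 * n)) * T ^ 2 := mul_le_mul_of_nonneg_left hUT (by positivity)
    _ = _ := by ring

end MixedVAux

theorem mixed_v {n : ℕ} (hn : 1 ≤ n) {ι : Type} [Fintype ι] [DecidableEq ι] (hι : Fintype.card ι = 2 * n + 2)
    (L : ι → Fin (n + 1) → ℝ) (hL : GP L) : ∃ c₀ C : ℝ, 0 < c₀ ∧ 0 < C ∧
    ∀ (κ : ι → ℝ) (T Λ Y A B G ℓ : ℝ) (a : ι → ℝ) (c c' : ℝ → ℝ) (Z : ι → ℝ → ℂ) (i r : ι), 4 ≤ T → 1 ≤ Λ → 0 ≤ ℓ → ℓ ≤ c₀ * T →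
    Cut (T / 4) Λ c → (∀ y, y ∉ Set.Icc (T / 2) (3 * T) → c y = 0) → Cut (T / 4) Λ c' → (∀ y, y ∉ Set.Icc (T / 2) (3 * T) → c' y = 0) →
    1 ≤ Y → 1 ≤ A → B ≤ T ^ 2 → 0 ≤ G → i ≠ r → (∀ j, j ≠ i → j ≠ r → Continuous (Z j)) →
    (∀ j, j ≠ i → j ≠ r → ∀ y, y ∉ Set.Icc (a j) (a j + ℓ) → Z j y = 0) →
    (∀ j, j ≠ i → j ≠ r → nm (Z j) ≤ ENNReal.ofReal G) → (Z i = ct c (bd 0 Y)) → (Z r = ct c' (bd A B)) →
    ‖FF L κ Z‖ₑ ^ 2 ≤ ENNReal.ofReal (C * Λ ^ 4 * lg T ^ 7 * Y ^ 4 * T ^ 2 * A ^ (-(1 / 2) : ℝ) * G ^ (2 * n)) := by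
  obtain ⟨Cs, hCs, hshort⟩ := short_v L hL
  obtain ⟨C1, hC1, hchar⟩ := char_exp
  obtain ⟨c1, Ci, hc1, hCi, hinner⟩ := MixedVAux.inner_v hn hι L hL
  obtain ⟨Cp, hCp, hpk⟩ := pk_sum
  refine ⟨min c1 (1 / (4 * Cs)), Cp ^ 2 * C1 ^ 2 * Ci, lt_min hc1 (by positivity), by positivity, ?_⟩
  intro κ T Λ Y A B G ℓ a c c' Z i r hT hΛ hℓ0 hℓ hc hcs hc' hc's hY hA hB hG hir hZc hZs hZn hZi hZr
  have hCs0 : 0 < Cs := by linarith
  have hT0 : 0 < T := by linarith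
  have hℓs : Cs * ℓ ≤ T / 4 := by
    have h1 : ℓ ≤ 1 / (4 * Cs) * T := hℓ.trans (mul_le_mul_of_nonneg_right (min_le_right _ _) hT0.le)
    calc Cs * ℓ ≤ Cs * (1 / (4 * Cs) * T) := mul_le_mul_of_nonneg_left h1 hCs0.le
      _ = T / 4 := by field_simp
  have hℓ1 : ℓ ≤ c1 * T := hℓ.trans (mul_le_mul_of_nonneg_right (min_le_left _ _) hT0.le)
  obtain ⟨U, hUdef⟩ : ∃ U : ℝ, U = T / 4 := ⟨_, rfl⟩
  have hU : 1 ≤ U := by rw [hUdef]; linarith
  have hU0 : 0 < U := by linarith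
  have hL1 := MixedAux.lg_ge_one hT
  obtain ⟨σ, hσ, hσi, hσr⟩ := MixedVAux.exists_sigma hn hι hir
  have hA12 : 0 ≤ A ^ (-(1 / 2) : ℝ) := Real.rpow_nonneg (by linarith) _
  have hlogU : 0 ≤ Real.log U := Real.log_nonneg hU
  have hlogUT : 1 + Real.log U ≤ lg T := by
    unfold lg
    have := Real.log_le_log hU0 (show U ≤ T by rw [hUdef]; linarith)
    linarith
  rcases MixedVAux.dich L κ T ℓ Cs a Z σ i (fun x x' h => hshort κ σ x x' ℓ hσ h) hℓs
    (fun k => hZs _ (hσi k) (hσr k)) (by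
      intro y hy
      rw [hZi]
      unfold ct
      rw [hcs y hy]
      simp) with h0 | hrange
  · rw [h0, enorm_zero]
    simp
  obtain ⟨cf, hcf, hsum⟩ := hchar U Λ Y c hU hΛ (by rw [hUdef]; exact hc) hY
  have hZr_cont : Continuous (Z r) := by
    rw [hZr]
    exact ct_cont (U := T / 4) (by linarith) hc'.smooth.continuous hc'.supp (bd_contOn A B)
  have hZr_supp : ∀ y, y ∉ Set.Icc (T / 4) (16 * (T / 4)) → Z r y = 0 := by
    intro y hy
    rw [hZr]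
    exact ct_supp hc'.supp _ y hy
  have hZci : ∀ j, j ≠ i → Continuous (Z j) := by
    intro j hj
    by_cases hjr : j = r
    · rw [hjr]
      exact hZr_cont
    · exact hZc j hj hjr
  let χ : ℤ × {q : Q // q ∈ qs 0 Y} → ℝ → ℂ := fun x y =>
    cexp ((((2 * Real.pi * x.1 / (32 * U) - lgr x.2.1.1) * y : ℝ) : ℂ) * I)
  let b : ℤ × {q : Q // q ∈ qs 0 Y} → ℝ → ℂ := fun x y => cf x.1 x.2.1 * χ x y
  have hcard : (Fintype.card {q : Q // q ∈ qs 0 Y} : ℝ) ≤ Y ^ 2 := by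
    rw [Fintype.card_coe]
    exact card_qs hY
  have hβ : ∀ (x : ℤ × {q : Q // q ∈ qs 0 Y}) (y : ℝ),
      ‖b x y‖ ≤ pk x.1 * (C1 * Λ * (1 + Real.log U)) := by
    intro x y
    simp only [b, χ]
    rw [norm_mul, MixedAux.norm_char, mul_one]
    refine (hcf x.1 x.2.1).trans (le_of_eq ?_)
    ring
  have hwP : ∀ s : Finset (ℤ × {q : Q // q ∈ qs 0 Y}), ∑ x ∈ s, pk x.1 ≤ Y ^ 2 * Cp := by
    intro s
    exact (MixedAux.sum_fst_le (κ' := {q : Q // q ∈ qs 0 Y}) (fun k => (pk_pos k).le) hpk s).trans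
      (mul_le_mul_of_nonneg_right hcard hCp.le)
  have hexp := expand_v L hL (ι' := ℤ × {q : Q // q ∈ qs 0 Y}) κ Z i σ hσ hσi hZci (by
      intro j hj
      by_cases hjr : j = r
      · rw [hjr]
        exact bounded_of hZr_cont hZr_supp
      · exact bounded_of (hZc j hj hjr) (hZs j hj hjr)) (by
      intro k
      exact ⟨a (σ k), a (σ k) + ℓ, hZs _ (hσi k) (hσr k)⟩) b
    (fun x => pk x.1 * (C1 * Λ * (1 + Real.log U)))
    (fun x => pk x.1) (Y ^ 2 * Cp)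
    (fun x => continuous_const.mul (MixedAux.char_cont _)) hβ
    (MixedAux.summable_pk.mul_of_nonneg (f := pk)
      (g := fun _ : {q : Q // q ∈ qs 0 Y} => C1 * Λ * (1 + Real.log U)) (Summable.of_finite)
      (fun k => (pk_pos k).le) (fun _ => by positivity)) (by
      intro x hx
      obtain ⟨h1, h2⟩ := hrange x hx
      rw [hZi]
      exact hsum _ (by rw [hUdef]; linarith) (by rw [hUdef]; linarith)) (fun x => pk_pos _) hwP
  obtain ⟨X, hXdef⟩ : ∃ X : ℝ, X = (C1 * Λ * (1 + Real.log U)) ^ 2 *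
    (Ci * Λ ^ 2 * lg T ^ 5 * T ^ 2 * A ^ (-(1 / 2) : ℝ) * G ^ (2 * n)) := ⟨_, rfl⟩
  have hX : 0 ≤ X := by rw [hXdef]; positivity
  have hterm : ∀ x : ℤ × {q : Q // q ∈ qs 0 Y},
      ‖FF L κ (Function.update Z i (b x))‖ₑ ^ 2 ≤ ENNReal.ofReal (X * pk x.1 ^ 2) := by
    intro x
    have h1 : ‖FF L κ (Function.update Z i (b x))‖ₑ ^ 2 =
        ‖cf x.1 x.2.1‖ₑ ^ 2 * ‖FF L κ (Function.update Z i (χ x))‖ₑ ^ 2 := by
      rw [show b x = fun y => cf x.1 x.2.1 * χ x y from rfl, MixedVAux.FF_const, enorm_mul, mul_pow]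
    rw [h1]
    have h2 := hinner κ T Λ A B G (2 * Real.pi * x.1 / (32 * U) - lgr x.2.1.1) ℓ a c'
      (Function.update Z i (χ x)) i r hT hΛ hℓ0 hℓ1 hc' hc's hA hB hG hir
      (fun j hji hjr => by rw [Function.update_of_ne hji]; exact hZc j hji hjr)
      (fun j hji hjr => by rw [Function.update_of_ne hji]; exact hZs j hji hjr)
      (fun j hji hjr => by rw [Function.update_of_ne hji]; exact hZn j hji hjr)
      (by rw [Function.update_self]) (by rw [Function.update_of_ne hir.symm]; exact hZr)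
    have h3 : ‖cf x.1 x.2.1‖ₑ ^ 2 ≤ ENNReal.ofReal ((C1 * Λ * pk x.1 * (1 + Real.log U)) ^ 2) := by
      rw [ENNReal.ofReal_pow (by have := pk_pos x.1; positivity)]
      refine pow_le_pow_left' ?_ 2
      rw [← ofReal_norm]
      exact ENNReal.ofReal_le_ofReal (hcf x.1 x.2.1)
    refine (mul_le_mul' h3 h2).trans (le_of_eq ?_)
    rw [← ENNReal.ofReal_mul (by positivity), hXdef]
    congr 1
    ring
  have hts := MixedAux.tsum_bound (ι := ℤ × {q : Q // q ∈ qs 0 Y}) (w := fun x => pk x.1)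
    (P := Y ^ 2 * Cp) (X := X) (fun x => pk_pos _) hwP hX _ hterm
  refine hexp.trans ((mul_le_mul' le_rfl hts).trans ?_)
  rw [← ENNReal.ofReal_mul (by positivity)]
  refine ENNReal.ofReal_le_ofReal ?_
  have h5 : (1 + Real.log U) ^ 2 ≤ lg T ^ 2 := pow_le_pow_left₀ (by linarith) hlogUT 2
  calc Y ^ 2 * Cp * (X * (Y ^ 2 * Cp)) = (Cp ^ 2 * C1 ^ 2 * Ci * Λ ^ 4 * lg T ^ 5 * Y ^ 4 * T ^ 2 *
        A ^ (-(1 / 2) : ℝ) * G ^ (2 * n)) * (1 + Real.log U) ^ 2 := by rw [hXdef]; ring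
    _ ≤ (Cp ^ 2 * C1 ^ 2 * Ci * Λ ^ 4 * lg T ^ 5 * Y ^ 4 * T ^ 2 *
        A ^ (-(1 / 2) : ℝ) * G ^ (2 * n)) * lg T ^ 2 := mul_le_mul_of_nonneg_left h5 (by positivity)
    _ = _ := by ring

end Pool.Agent.P07318v
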