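import Pool.Agent.Lib.P07318v.Geo
import Pool.Agent.Lib.P07318o.LLcut

/-!
# Expansion of the product over the patterns

PROOF (compare `Pat` of P07318o, whose proof can be followed; `integ`: the integrand is continuous; it vanishes unless all `pt x (σ i) ∈ [U, 16U]` for an injective `σ`, and `∫⁻ ‖..‖ < ⊤` by `indep_v` with `F i = B * indicator of [U, 16U]` (all slots are bounded, `bounded_of`)).
For every `y`: `ct c gz = ∑_{i : Fin 4} ct c (bf U A B i)` (`gz_split`). `∏_j = ∑_P` (`Finset.prod_univ_sum`). `FF (ct c gz) - FF (ct c (bd 0 A)) = ∑_{P ≠ 0} FF (zp P)`; the pattern `2` is bounded by `FA`, the others are in `badV`.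
-/

set_option autoImplicit false

namespace Pool.Agent.P07318v

open MeasureTheory Complex Pool.Agent.P07318s Pool.Agent.P07318f Pool.Agent.P07318h Pool.Agent.P07318o

/-- bad patterns -/
noncomputable def badV (ι : Type) [Fintype ι] [DecidableEq ι] : Finset (ι → Fin 4) :=
  Finset.univ.filter fun P => (∃ j, P j ≠ 0) ∧ ∃ j, P j ≠ 2

namespace PatVAux

lemma enorm_finprod {ι : Type*} (s : Finset ι) (f : ι → ℂ) : ‖∏ i ∈ s, f i‖ₑ = ∏ i ∈ s, ‖f i‖ₑ := by
  classical
  induction s using Finset.induction_on with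
  | empty => simp
  | insert a s ha ih => rw [Finset.prod_insert ha, Finset.prod_insert ha, enorm_mul, ih]

lemma integ_v {n : ℕ} {ι : Type} [Fintype ι] [DecidableEq ι] (hι : Fintype.card ι = 2 * n + 2)
    (L : ι → Fin (n + 1) → ℝ) (hL : GP L) (κ : ι → ℝ) {U : ℝ} (Z : ι → ℝ → ℂ) (hZ : ∀ j, Continuous (Z j))
    (hs : ∀ j y, y ∉ Set.Icc U (16 * U) → Z j y = 0) :
    Integrable (fun x : Fin (n + 1) → ℝ => ∏ j, Z j (pt L κ x j)) := by
  obtain ⟨C, hC, hind⟩ := indep_v L hL
  obtain ⟨σ⟩ : Nonempty (Fin (n + 1) ↪ ι) := Function.Embedding.nonempty_of_card_le (by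
    rw [Fintype.card_fin, hι]
    omega)
  choose Bf hBf using fun j => bounded_of (hZ j) (hs j)
  set M : ℝ := 1 + ∑ j, |Bf j| with hM
  have hM0 : 0 ≤ ∑ j, |Bf j| := Finset.sum_nonneg fun j _ => abs_nonneg _
  have hM1 : 1 ≤ M := by linarith
  have hZM : ∀ j y, ‖Z j y‖ ≤ M := by
    intro j y
    have h1 : |Bf j| ≤ ∑ j, |Bf j| := Finset.single_le_sum (f := fun j => |Bf j|) (fun j _ => abs_nonneg _) (Finset.mem_univ j)
    have h2 := (hBf j y).trans (le_abs_self _)
    linarith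
  set F : Fin (n + 1) → ℝ → ENNReal := fun _ => (Set.Icc U (16 * U)).indicator fun _ => ENNReal.ofReal (M ^ 2) with hF
  have hFm : ∀ i, Measurable (F i) := fun i => measurable_const.indicator measurableSet_Icc
  have hbound : ∀ x : Fin (n + 1) → ℝ, ‖∏ j, Z j (pt L κ x j)‖ₑ ≤ ∏ i, F i (pt L κ x (σ i)) := by
    intro x
    by_cases h : ∀ i, pt L κ x (σ i) ∈ Set.Icc U (16 * U)
    · have h1 : ∏ i, F i (pt L κ x (σ i)) = ENNReal.ofReal (M ^ (2 * n + 2)) := by
        have h2 : ∀ i ∈ (Finset.univ : Finset (Fin (n + 1))), F i (pt L κ x (σ i)) = ENNReal.ofReal (M ^ 2) := by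
          intro i _
          exact Set.indicator_of_mem (h i) _
        rw [Finset.prod_congr rfl h2, Finset.prod_const, Finset.card_univ, Fintype.card_fin,
          ← ENNReal.ofReal_pow (by positivity), ← pow_mul]
        congr 2
      rw [h1, ← ofReal_norm_eq_enorm]
      refine ENNReal.ofReal_le_ofReal ?_
      rw [norm_prod, ← hι, ← Finset.card_univ, ← Finset.prod_const]
      exact Finset.prod_le_prod (fun j _ => norm_nonneg _) fun j _ => hZM j _
    · push Not at h
      obtain ⟨i, hi⟩ := h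
      rw [Finset.prod_eq_zero (Finset.mem_univ (σ i)) (hs _ _ hi), enorm_zero]
      exact zero_le
  have hcont : Continuous (fun x : Fin (n + 1) → ℝ => ∏ j, Z j (pt L κ x j)) :=
    continuous_finset_prod _ fun j _ => (hZ j).comp (pt_cont L κ j)
  refine ⟨hcont.aestronglyMeasurable, ?_⟩
  refine lt_of_le_of_lt ((lintegral_mono hbound).trans (hind κ σ F σ.injective hFm)) ?_
  refine ENNReal.mul_lt_top ENNReal.ofReal_lt_top ?_
  refine ENNReal.prod_lt_top fun i _ => ?_
  rw [hF, lintegral_indicator measurableSet_Icc, setLIntegral_const]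
  exact ENNReal.mul_lt_top ENNReal.ofReal_lt_top (by rw [Real.volume_Icc]; exact ENNReal.ofReal_lt_top)

end PatVAux

open PatVAux

theorem pat_v {n : ℕ} {ι : Type} [Fintype ι] [DecidableEq ι] (hι : Fintype.card ι = 2 * n + 2)
    (L : ι → Fin (n + 1) → ℝ) (hL : GP L) (κ : ι → ℝ) (T Λ A B : ℝ) (c : ι → ℝ → ℝ) (hT : 4 ≤ T) (hc : ∀ j, Cut (T / 4) Λ (c j))
    (hA : 0 ≤ A) (hAB : A ≤ B) (hB : B ≤ (T / 4) ^ 2) :
    ‖FF L κ (fun j => ct (c j) fun y => (gz y : ℂ)) - FF L κ (fun j => ct (c j) (bd 0 A))‖ₑ ≤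
      FA L κ (fun j => ct (c j) (bd B ((T / 4) ^ 2))) + ∑ P ∈ badV ι, ‖FF L κ (zp (T / 4) A B c P)‖ₑ := by
  classical
  have hU : 0 < T / 4 := by linarith
  have hcont : ∀ (P : ι → Fin 4) j, Continuous (zp (T / 4) A B c P j) := fun P j =>
    ct_cont hU (hc j).smooth.continuous (fun y hy => (hc j).supp y hy) (bf_contOn _ _ _ _)
  have hs : ∀ (P : ι → Fin 4) j y, y ∉ Set.Icc (T / 4) (16 * (T / 4)) → zp (T / 4) A B c P j y = 0 :=
    fun P j y hy => ct_supp (fun y hy => (hc j).supp y hy) _ y hy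
  have hint : ∀ P : ι → Fin 4, Integrable (fun x => ∏ j, zp (T / 4) A B c P j (pt L κ x j)) :=
    fun P => integ_v hι L hL κ _ (hcont P) (hs P)
  have e1 : ∀ (j : ι) (y : ℝ), ct (c j) (fun y => (gz y : ℂ)) y = ∑ i, ct (c j) (bf (T / 4) A B i) y := by
    intro j y
    unfold ct
    rw [← Finset.mul_sum, Fin.sum_univ_four]
    show _ * (gz y : ℂ) = _
    rw [gz_split hA hAB hB y]
    rfl
  have e3 : FF L κ (fun j => ct (c j) fun y => (gz y : ℂ)) = ∑ P : ι → Fin 4, FF L κ (zp (T / 4) A B c P) := by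
    unfold FF
    rw [← integral_finset_sum _ fun P _ => hint P]
    congr 1
    ext x
    simp only [e1]
    rw [Finset.prod_univ_sum, Fintype.piFinset_univ]
    rfl
  have e4 : FF L κ (fun j => ct (c j) (bd 0 A)) = FF L κ (zp (T / 4) A B c fun _ => 0) := rfl
  have e5 : FF L κ (fun j => ct (c j) fun y => (gz y : ℂ)) - FF L κ (fun j => ct (c j) (bd 0 A)) =
      ∑ P ∈ Finset.univ.erase (fun _ => 0 : ι → Fin 4), FF L κ (zp (T / 4) A B c P) := by
    rw [e3, e4, ← Finset.add_sum_erase Finset.univ (fun P => FF L κ (zp (T / 4) A B c P)) (Finset.mem_univ (fun _ => 0))]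
    ring
  have hcov : Finset.univ.erase (fun _ => 0 : ι → Fin 4) ⊆ insert (fun _ => 2) (badV ι) := by
    intro P hP
    have hP0 := Finset.ne_of_mem_erase hP
    rw [Finset.mem_insert]
    by_cases h3 : P = fun _ => 2
    · exact Or.inl h3
    · right
      unfold badV
      rw [Finset.mem_filter]
      refine ⟨Finset.mem_univ _, ?_, ?_⟩
      · by_contra h4
        push Not at h4
        exact hP0 (funext h4)
      · by_contra h4
        push Not at h4
        exact h3 (funext h4)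
  have htop : ‖FF L κ (zp (T / 4) A B c fun _ => 2)‖ₑ ≤ FA L κ (fun j => ct (c j) (bd B ((T / 4) ^ 2))) := by
    unfold FF FA
    refine (enorm_integral_le_lintegral_enorm _).trans (lintegral_mono fun x => ?_)
    rw [enorm_finprod]
    exact le_refl _
  rw [e5]
  refine (enorm_sum_le _ _).trans ?_
  refine (Finset.sum_le_sum_of_subset hcov).trans ?_
  by_cases hm : (fun _ => 2 : ι → Fin 4) ∈ badV ι
  · rw [Finset.insert_eq_of_mem hm]
    exact le_add_self
  · rw [Finset.sum_insert hm]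
    gcongr

theorem bad_cases_v {ι : Type} [Fintype ι] [DecidableEq ι] {P : ι → Fin 4} (hP : P ∈ badV ι) :
    (∃ r, P r = 1) ∨ (∃ r, P r = 3) ∨ ∃ i r, i ≠ r ∧ P i = 0 ∧ P r = 2 := by
  unfold badV at hP
  rw [Finset.mem_filter] at hP
  obtain ⟨-, ⟨j, hj⟩, i, hi⟩ := hP
  by_cases h1 : ∃ r, P r = 1
  · exact Or.inl h1
  by_cases h3 : ∃ r, P r = 3
  · exact Or.inr (Or.inl h3)
  right; right
  push Not at h1 h3
  have key : ∀ r, P r = 0 ∨ P r = 2 := by
    intro r
    have a1 := h1 r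
    have a3 := h3 r
    generalize P r = v at a1 a3
    fin_cases v <;> simp_all
  have hi0 : P i = 0 := (key i).resolve_right hi
  have hj2 : P j = 2 := (key j).resolve_left hj
  refine ⟨i, j, ?_, hi0, hj2⟩
  rintro rfl
  rw [hi0] at hj2
  exact absurd hj2 (by decide)

end Pool.Agent.P07318v
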