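import Pool.Agent.Lib.P07318v.MidV
import Pool.Agent.Lib.P07318v.MixedV
import Pool.Agent.Lib.P07318v.PatV
import Pool.Agent.Lib.P07318v.AbsV
import Pool.Agent.Lib.P07318o.Norms
import Pool.Agent.Lib.P07318o.BadB

/-!
# Bad patterns

PROOF (compare `BadB` of P07318o, whose proof can be followed). `U = T/4`, `L = lg T`, `N₁ = T^δ`, `N₂ = n2 C₀ T = T/(4 L^C₀)`, `c₀` the minimum of the constants of `mid_v` and `mixed_v`. Norms of the slots: `nm (ct c (bf i)) ≤ ofReal G`, `G = C T L^5`, for all `i : Fin 4` (`nm_small`, `nm_band`, `nm_er`; `T ≥ T₀`). `bad_cases_v`: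
(1) `P r = 1`: `mid_v` with `A = N₁`, `B = N₂`: `≤ C Λ² L^8 T (C T L^5)^(2n+1) (T^(-δ) + L^(-C₀)/4)^(1/4) ≤ C T^(2n+2) L^(2C₁ + 8 + 5(2n+1) - C₀/4)` for `T ≥ T₀`: choose `C₀ = 4 (2C₁ + 8 + 5(2n+1) + B)`.
(2) `P r = 3`: `‖FF‖ₑ ≤ FA` and `abs_v`: `≤ C U^(1/4) (C T L^5)^(2n+1)`.
(3) `P i = 0`, `P r = 2`: `mixed_v` with `Y = N₁`, `A = N₂`, `B = U²`: `≤ C Λ⁴ L^7 T^(4δ) T² (4 L^C₀/T)^(1/2) (C T L^5)^(2n) ≤ C T^(2n + 3/2 + 4δ) L^(..) ≤ C T^(2n+2) L^(-B)` for `T ≥ T₀` (`4δ ≤ 1/25`).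
The slots `j` have supports in `[a j, a j + ℓ] ⊆ [T/2, 3T]` (`Wi`), are continuous (`ct_cont` with the support in `[U, 16U]` from `Cut`; `bf_contOn`).
-/

set_option autoImplicit false

namespace Pool.Agent.P07318v

open MeasureTheory Complex Pool.Agent.P07318s Pool.Agent.P07318f Pool.Agent.P07318h Pool.Agent.P07318o

namespace BadVAux

/-- arithmetic of the mixed patterns -/
lemma num_mix_v {m : ℕ} {T L Cx K C₁ C₀ B d : ℝ} (hT : 1 ≤ T) (hL : 1 ≤ L) (hCx : 0 < Cx)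
    (hK : 0 < K) (hd : d ≤ 1 / 100)
    (h : L ^ (4 * C₁ + 7 + C₀ / 2 + 5 * (m : ℝ) + B) ≤ T ^ (1 / 4 : ℝ)) :
    Cx * (L ^ C₁) ^ 4 * L ^ 7 * (T ^ d) ^ 4 * T ^ 2 * (T / (4 * L ^ C₀)) ^ (-(1 / 2) : ℝ) *
      (K * T * L ^ 5) ^ m ≤ (Cx * K ^ m * 2) * T ^ (m + 2) * L ^ (-B) := by
  have hL0 : 0 < L := by linarith
  have hT0 : 0 < T := by linarith
  have e0 : (T / (4 * L ^ C₀)) ^ (-(1 / 2) : ℝ) = 2 * L ^ (C₀ / 2) * T ^ (-(1 / 2) : ℝ) := by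
    rw [Real.div_rpow hT0.le (by positivity), Real.mul_rpow (by norm_num) (by positivity),
      ← Real.rpow_mul hL0.le]
    have e1 : (4 : ℝ) ^ (-(1 / 2) : ℝ) = 2⁻¹ := by
      rw [show (4 : ℝ) = 2 ^ (2 : ℝ) by norm_num, ← Real.rpow_mul (by norm_num)]
      rw [show (2 : ℝ) * (-(1 / 2)) = -1 by norm_num, Real.rpow_neg_one]
    rw [e1, show C₀ * (-(1 / 2)) = -(C₀ / 2) by ring, Real.rpow_neg hL0.le]
    field_simp
  have e1 : (L ^ C₁) ^ 4 = L ^ (C₁ * 4) := by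
    rw [Real.rpow_mul hL0.le]
    exact (Real.rpow_natCast _ 4).symm
  have e2 : L ^ 7 = L ^ (7 : ℝ) := by
    rw [← Real.rpow_natCast]
    norm_num
  have e3 : (L ^ 5) ^ m = L ^ (5 * (m : ℝ)) := by
    rw [← pow_mul, ← Real.rpow_natCast]
    congr 1
    push_cast
    ring
  have e4 : (L ^ C₁) ^ 4 * L ^ 7 * L ^ (C₀ / 2) * (L ^ 5) ^ m =
      L ^ (4 * C₁ + 7 + C₀ / 2 + 5 * (m : ℝ) + B) * L ^ (-B) := by
    rw [e1, e2, e3, ← Real.rpow_add hL0, ← Real.rpow_add hL0, ← Real.rpow_add hL0,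
      ← Real.rpow_add hL0]
    congr 1
    ring
  have e5 : (T ^ d) ^ 4 ≤ T ^ (1 / 4 : ℝ) := by
    have h1 : (T ^ d) ^ 4 = T ^ (d * 4) := by
      rw [Real.rpow_mul hT0.le]
      exact (Real.rpow_natCast _ 4).symm
    rw [h1]
    exact Real.rpow_le_rpow_of_exponent_le hT (by linarith)
  have e6 : T ^ (1 / 4 : ℝ) * T ^ (1 / 4 : ℝ) * T ^ (-(1 / 2) : ℝ) = 1 := by
    rw [← Real.rpow_add hT0, ← Real.rpow_add hT0]
    norm_num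
  rw [e0]
  calc Cx * (L ^ C₁) ^ 4 * L ^ 7 * (T ^ d) ^ 4 * T ^ 2 * (2 * L ^ (C₀ / 2) * T ^ (-(1 / 2) : ℝ)) *
      (K * T * L ^ 5) ^ m
      = (Cx * K ^ m * 2) * T ^ (m + 2) * ((T ^ d) ^ 4 * ((L ^ C₁) ^ 4 * L ^ 7 *
        L ^ (C₀ / 2) * (L ^ 5) ^ m) * T ^ (-(1 / 2) : ℝ)) := by
        rw [mul_pow (K * T), mul_pow K]
        ring
    _ = (Cx * K ^ m * 2) * T ^ (m + 2) * ((T ^ d) ^ 4 *
        L ^ (4 * C₁ + 7 + C₀ / 2 + 5 * (m : ℝ) + B) * T ^ (-(1 / 2) : ℝ)) * L ^ (-B) := by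
        rw [e4]
        ring
    _ ≤ (Cx * K ^ m * 2) * T ^ (m + 2) * (T ^ (1 / 4 : ℝ) *
        T ^ (1 / 4 : ℝ) * T ^ (-(1 / 2) : ℝ)) * L ^ (-B) := by
        gcongr
    _ = _ := by
        rw [e6]
        ring

lemma enorm_FF_le {ι : Type} [Fintype ι] {d : ℕ} (L : ι → Fin d → ℝ) (κ : ι → ℝ) (Z : ι → ℝ → ℂ) :
    ‖FF L κ Z‖ₑ ≤ FA L κ Z := by
  unfold FF FA
  refine (enorm_integral_le_lintegral_enorm _).trans (le_of_eq ?_)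
  refine lintegral_congr fun t => ?_
  change ((‖∏ j, Z j (pt L κ t j)‖₊ : NNReal) : ENNReal) = _
  rw [nnnorm_prod, ENNReal.ofNNReal_finsetProd]
  rfl

end BadVAux

open BadBAux BadVAux in
theorem bad_v {n : ℕ} (hn : 1 ≤ n) {ι : Type} [Fintype ι] [DecidableEq ι] (hι : Fintype.card ι = 2 * n + 2)
    (L : ι → Fin (n + 1) → ℝ) (hL : GP L) (C₁ B δ : ℝ) (hC₁ : 0 ≤ C₁) (hB : 0 ≤ B)
    (hδ : 0 < δ) (hδ1 : δ ≤ 1 / 100) : ∃ c₀ C₀ C T₀ : ℝ, 0 < c₀ ∧ 0 < C₀ ∧ 0 < C ∧ 64 ≤ T₀ ∧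
    ∀ (κ : ι → ℝ) (T ℓ : ℝ) (a : ι → ℝ) (c : ι → ℝ → ℝ) (P : ι → Fin 4), T₀ ≤ T → 0 ≤ ℓ → ℓ ≤ c₀ * T →
    Wi T (lg T ^ C₁) ℓ a c → P ∈ badV ι → (1 ≤ T ^ δ ∧ T ^ δ ≤ n2 C₀ T ∧ n2 C₀ T ≤ (T / 4) ^ 2) ∧
    ‖FF L κ (zp (T / 4) (T ^ δ) (n2 C₀ T) c P)‖ₑ ^ 2 ≤ ENNReal.ofReal (C * T ^ (2 * n + 2) * lg T ^ (-B)) := by
  obtain ⟨c₁, Cm, hc₁, hCm, hmid⟩ := mid_v hn hι L hL
  obtain ⟨c₂, Cx, hc₂, hCx, hmix⟩ := mixed_v hn hι L hL
  obtain ⟨Ca, hCa, habs⟩ := abs_v hι L hL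
  obtain ⟨Ce, hCe, her⟩ := nm_er
  obtain ⟨K, hK, hnorm⟩ := slot_norm
  obtain ⟨C₀, hC₀⟩ : ∃ C₀ : ℝ, C₀ = 4 * (2 * C₁ + 8 + 5 * (((2 * n : ℕ) : ℝ) + 1) + B) := ⟨_, rfl⟩
  have hm0 : (0 : ℝ) ≤ ((2 * n : ℕ) : ℝ) := Nat.cast_nonneg _
  have hC₀pos : 0 < C₀ := by rw [hC₀]; positivity
  obtain ⟨t₁, ht₁⟩ := lg_growth C₀ δ hC₀pos.le hδ
  obtain ⟨t₂, ht₂⟩ := lg_growth (5 * (((2 * n : ℕ) : ℝ) + 1) + B) (3 / 4) (by positivity) (by norm_num)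
  obtain ⟨t₃, ht₃⟩ := lg_growth (4 * C₁ + 7 + C₀ / 2 + 5 * ((2 * n : ℕ) : ℝ) + B) (1 / 4) (by positivity)
    (by norm_num)
  refine ⟨min c₁ c₂, C₀, Cm * K ^ (2 * n + 1) * 2 + Ca * Ce * K ^ (2 * n + 1) + Cx * K ^ (2 * n) * 2,
    max 64 (max t₁ (max t₂ t₃)), lt_min hc₁ hc₂, hC₀pos, by positivity, le_max_left _ _, ?_⟩
  intro κ T ℓ a c P hT₀ hℓ0 hℓ hw hP
  have hT64 : 64 ≤ T := (le_max_left _ _).trans hT₀
  have hTt : max t₁ (max t₂ t₃) ≤ T := (le_max_right _ _).trans hT₀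
  have hT1 := ht₁ T ((le_max_left _ _).trans hTt)
  have hT2 := ht₂ T (((le_max_left _ _).trans (le_max_right _ _)).trans hTt)
  have hT3 := ht₃ T (((le_max_right _ _).trans (le_max_right _ _)).trans hTt)
  have hT0 : 0 < T := by linarith
  have hTone : 1 ≤ T := by linarith
  have hℓ1 : ℓ ≤ c₁ * T := hℓ.trans (mul_le_mul_of_nonneg_right (min_le_left _ _) hT0.le)
  have hℓ2 : ℓ ≤ c₂ * T := hℓ.trans (mul_le_mul_of_nonneg_right (min_le_right _ _) hT0.le)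
  have hL1 : 1 ≤ lg T := one_le_lg hTone
  have hL0 : 0 < lg T := by linarith
  have hU : 1 ≤ T / 4 := by linarith
  have hLC₀ : 1 ≤ lg T ^ C₀ := Real.one_le_rpow hL1 hC₀pos.le
  -- the heights
  have hn1 : 1 ≤ T ^ δ := Real.one_le_rpow hTone hδ.le
  have hn12 : T ^ δ ≤ n2 C₀ T := by
    unfold n2
    rw [le_div_iff₀ (by positivity)]
    have h1 : T ^ δ * T ^ δ ≤ T ^ (1 / 2 : ℝ) := by
      rw [← Real.rpow_add hT0]
      exact Real.rpow_le_rpow_of_exponent_le hTone (by linarith)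
    have h2 : (4 : ℝ) ≤ T ^ (1 / 2 : ℝ) := by
      calc (4 : ℝ) = (16 : ℝ) ^ (1 / 2 : ℝ) := by
            rw [show (16 : ℝ) = 4 ^ (2 : ℝ) by norm_num, ← Real.rpow_mul (by norm_num)]
            norm_num
        _ ≤ T ^ (1 / 2 : ℝ) := Real.rpow_le_rpow (by norm_num) (by linarith) (by norm_num)
    have h3 : T ^ (1 / 2 : ℝ) * T ^ (1 / 2 : ℝ) = T := by
      rw [← Real.rpow_add hT0]
      norm_num
    have h4 : 0 ≤ T ^ δ := by positivity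
    calc T ^ δ * (4 * lg T ^ C₀) ≤ T ^ δ * (4 * T ^ δ) := by gcongr
      _ = 4 * (T ^ δ * T ^ δ) := by ring
      _ ≤ T ^ (1 / 2 : ℝ) * T ^ (1 / 2 : ℝ) := by gcongr
      _ = T := h3
  have hn2U : n2 C₀ T ≤ T / 4 := by
    unfold n2
    apply div_le_div_of_nonneg_left hT0.le (by norm_num)
    linarith
  have hn2U2 : n2 C₀ T ≤ (T / 4) ^ 2 := by nlinarith
  have hn20 : 0 ≤ n2 C₀ T := by linarith
  refine ⟨⟨hn1, hn12, hn2U2⟩, ?_⟩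
  have hΛ1 : 1 ≤ lg T ^ C₁ := Real.one_le_rpow hL1 hC₁
  have hcut := hw.cut
  have hsupp : ∀ (j : ι) (y : ℝ), y ∉ Set.Icc (T / 4) (16 * (T / 4)) → c j y = 0 :=
    fun j y hy => (hcut j).supp y hy
  have hsupp3 : ∀ (j : ι) (y : ℝ), y ∉ Set.Icc (T / 2) (3 * T) → c j y = 0 := by
    intro j y hy
    refine hw.supp j y fun h => hy ⟨(hw.lo j).trans h.1, h.2.trans (hw.hi j)⟩
  have hZc : ∀ j, Continuous (zp (T / 4) (T ^ δ) (n2 C₀ T) c P j) := fun j =>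
    ct_cont (by linarith) (hcut j).smooth.continuous (hsupp j) (bf_contOn _ _ _ _)
  have hZs : ∀ j, ∀ y, y ∉ Set.Icc (a j) (a j + ℓ) →
      zp (T / 4) (T ^ δ) (n2 C₀ T) c P j y = 0 := by
    intro j y hy
    unfold zp ct
    rw [hw.supp j y hy]
    simp
  have hG0 : 0 ≤ K * T * lg T ^ 5 := by positivity
  have hZn : ∀ j, nm (zp (T / 4) (T ^ δ) (n2 C₀ T) c P j) ≤
      ENNReal.ofReal (K * T * lg T ^ 5) := fun j =>
    hnorm T _ _ _ _ _ (by linarith) (hcut j) hn1 hn12 hn2U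
  have hTp : 0 ≤ T ^ (2 * n + 2) := by positivity
  have hLp : 0 ≤ lg T ^ (-B) := by positivity
  rcases bad_cases_v hP with ⟨r, hr⟩ | ⟨r, hr⟩ | ⟨i, r, hir, hi, hr⟩
  · refine (hmid κ T (lg T ^ C₁) (T ^ δ) (n2 C₀ T) (K * T * lg T ^ 5) ℓ a (c r) _ r
      (by linarith) hΛ1 hℓ0 hℓ1 (hcut r) (hsupp3 r) hn1 hn2U hn20 hG0 (fun j _ => hZc j) (fun j _ => hZs j)
      (fun j _ => hZn j) (by unfold zp; rw [hr]; rfl)).trans (ENNReal.ofReal_le_ofReal ?_)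
    have h1 : 1 / T ^ δ ≤ lg T ^ (-C₀) := by
      rw [Real.rpow_neg hL0.le, ← one_div]
      exact one_div_le_one_div_of_le (by positivity) hT1
    have h2 : n2 C₀ T / T ≤ lg T ^ (-C₀) := by
      unfold n2
      rw [Real.rpow_neg hL0.le, ← one_div, div_div, div_le_div_iff₀ (by positivity) (by positivity)]
      nlinarith [mul_nonneg hT0.le (by linarith : (0 : ℝ) ≤ lg T ^ C₀)]
    have h3 := num_mid (m := 2 * n) (B := B) (Cr := 1) (C₁ := C₁) hTone hL1 hCm one_pos hK (by rw [hC₀]; ring)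
      (by positivity) (div_nonneg hn20 hT0.le) h1 h2
    rw [one_mul, one_pow, mul_one] at h3
    refine h3.trans ?_
    refine mul_le_mul_of_nonneg_right (mul_le_mul_of_nonneg_right ?_ hTp) hLp
    have g1 : 0 ≤ Ca * Ce * K ^ (2 * n + 1) := by positivity
    have g2 : 0 ≤ Cx * K ^ (2 * n) * 2 := by positivity
    linarith
  · have h1 : ‖FF L κ (zp (T / 4) (T ^ δ) (n2 C₀ T) c P)‖ₑ ^ 2 ≤
        ENNReal.ofReal Ca * ∏ j, nm (zp (T / 4) (T ^ δ) (n2 C₀ T) c P j) := by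
      refine le_trans ?_ (habs κ _ fun j => (hZc j).measurable)
      exact pow_le_pow_left' (enorm_FF_le L κ _) 2
    refine h1.trans ?_
    have h2 : ∏ j, nm (zp (T / 4) (T ^ δ) (n2 C₀ T) c P j) ≤
        ENNReal.ofReal (Ce * (T / 4) ^ (1 / 4 : ℝ)) * ENNReal.ofReal (K * T * lg T ^ 5) ^ (2 * n + 1) := by
      rw [← Finset.mul_prod_erase Finset.univ _ (Finset.mem_univ r)]
      refine mul_le_mul' ?_ ?_
      · have h3 : zp (T / 4) (T ^ δ) (n2 C₀ T) c P r = ct (c r) (er (T / 4)) := by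
          unfold zp
          rw [hr]
          rfl
        rw [h3]
        exact her _ _ _ hU (hcut r)
      · have h4 : ∏ j ∈ Finset.univ.erase r, nm (zp (T / 4) (T ^ δ) (n2 C₀ T) c P j) ≤
            ∏ j ∈ Finset.univ.erase r, ENNReal.ofReal (K * T * lg T ^ 5) :=
          Finset.prod_le_prod' fun j _ => hZn j
        rw [Finset.prod_const, Finset.card_erase_of_mem (Finset.mem_univ r), Finset.card_univ, hι] at h4
        exact h4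
    refine (mul_le_mul_right h2 _).trans ?_
    rw [← ENNReal.ofReal_pow hG0, ← ENNReal.ofReal_mul (by positivity), ← ENNReal.ofReal_mul hCa.le]
    refine ENNReal.ofReal_le_ofReal ((num_er (m := 2 * n) (B := B) hTone hL1 hCa hCe hK hT2).trans ?_)
    refine mul_le_mul_of_nonneg_right (mul_le_mul_of_nonneg_right ?_ hTp) hLp
    have g1 : 0 ≤ Cm * K ^ (2 * n + 1) * 2 := by positivity
    have g2 : 0 ≤ Cx * K ^ (2 * n) * 2 := by positivity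
    linarith
  · refine (hmix κ T (lg T ^ C₁) (T ^ δ) (n2 C₀ T) ((T / 4) ^ 2) (K * T * lg T ^ 5) ℓ a
      (c i) (c r) _ i r (by linarith) hΛ1 hℓ0 hℓ2 (hcut i) (hsupp3 i) (hcut r) (hsupp3 r) hn1
      (hn1.trans hn12) (by nlinarith) hG0 hir (fun j _ _ => hZc j) (fun j _ _ => hZs j)
      (fun j _ _ => hZn j) (by unfold zp; rw [hi]; rfl) (by unfold zp; rw [hr]; rfl)).trans
      (ENNReal.ofReal_le_ofReal ?_)
    refine (num_mix_v (m := 2 * n) (d := δ) (B := B) hTone hL1 hCx hK hδ1 hT3).trans ?_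
    refine mul_le_mul_of_nonneg_right (mul_le_mul_of_nonneg_right ?_ hTp) hLp
    have g1 : 0 ≤ Cm * K ^ (2 * n + 1) * 2 := by positivity
    have g2 : 0 ≤ Ca * Ce * K ^ (2 * n + 1) := by positivity
    linarith

end Pool.Agent.P07318v
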