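import Pool.Agent.Lib.P07318v.SingV

/-!
# The main term as a sum over tuples of positive rational numbers
-/

set_option autoImplicit false

namespace Pool.Agent.P07318v

open MeasureTheory Complex Pool.Agent.P07318s Pool.Agent.P07318f Pool.Agent.P07318h Pool.Agent.P07318o

/-- the height of a positive rational number: numerator times denominator -/
noncomputable def htq (q : ℚ) : ℝ := (q.num : ℝ) * (q.den : ℝ)

/-- the tuples of positive rational numbers with `∏_j q_j ^ (L_j i) = 1` for all `i` -/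
def Rel {ι : Type} [Fintype ι] {d : ℕ} (L : ι → Fin d → ℤ) : Set (ι → ℚ) :=
  {q | (∀ j, 0 < q j) ∧ ∀ i, ∏ j, q j ^ (L j i) = 1}

/-- one term of the main term -/
noncomputable def trm {ι : Type} [Fintype ι] (q : ι → ℚ) (y : ι → ℝ) : ℂ :=
  ∏ j, ((((htq (q j)) ^ (-(1 / 2) : ℝ) *
    (Real.log (y j / (2 * Real.pi * htq (q j))) + 2 * Real.eulerMascheroniConstant) : ℝ) : ℂ) *
      cexp (-((y j * Real.log (q j) : ℝ) : ℂ) * I))

/-- the rational number of a reduced fraction -/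
def toQ (q : Q) : ℚ := (((q.1.1 : ℕ) : ℚ)) / ((q.1.2 : ℕ) : ℚ)

lemma toQ_pos (q : Q) : 0 < toQ q := by
  unfold toQ
  have h1 : (0 : ℚ) < ((q.1.1 : ℕ) : ℚ) := by exact_mod_cast q.1.1.pos
  have h2 : (0 : ℚ) < ((q.1.2 : ℕ) : ℚ) := by exact_mod_cast q.1.2.pos
  positivity

lemma toQ_num (q : Q) : (toQ q).num = ((q.1.1 : ℕ) : ℤ) := by
  have h := Rat.num_div_eq_of_coprime (a := ((q.1.1 : ℕ) : ℤ)) (b := ((q.1.2 : ℕ) : ℤ)) (by exact_mod_cast q.1.2.pos)
    (by simpa using q.2)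
  unfold toQ
  rw [Int.cast_natCast, Int.cast_natCast] at h
  exact h

lemma toQ_den (q : Q) : (toQ q).den = (q.1.2 : ℕ) := by
  have h := Rat.den_div_eq_of_coprime (a := ((q.1.1 : ℕ) : ℤ)) (b := ((q.1.2 : ℕ) : ℤ)) (by exact_mod_cast q.1.2.pos)
    (by simpa using q.2)
  unfold toQ
  rw [Int.cast_natCast, Int.cast_natCast] at h
  exact Int.natCast_inj.1 h

lemma htq_toQ (q : Q) : htq (toQ q) = hgt q.1 := by
  unfold htq hgt
  rw [toQ_num, toQ_den]
  simp

lemma log_toQ (q : Q) : Real.log (toQ q : ℝ) = lgr q.1 := by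
  unfold lgr toQ
  have h1 : ((q.1.1 : ℕ) : ℝ) ≠ 0 := by exact_mod_cast q.1.1.ne_zero
  have h2 : ((q.1.2 : ℕ) : ℝ) ≠ 0 := by exact_mod_cast q.1.2.ne_zero
  push_cast
  exact Real.log_div h1 h2

/-- reduced fractions and positive rational numbers -/
noncomputable def eQ : Q ≃ {q : ℚ // 0 < q} where
  toFun q := ⟨toQ q, toQ_pos q⟩
  invFun r := ⟨(⟨r.1.num.toNat, by
      have := Rat.num_pos.2 r.2
      omega⟩, ⟨r.1.den, r.1.den_pos⟩), by
      have h := r.1.reduced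
      have h1 := Rat.num_pos.2 r.2
      have h2 : r.1.num.natAbs = r.1.num.toNat := by omega
      rw [h2] at h
      exact h⟩
  left_inv q := by
    apply Subtype.ext
    apply Prod.ext
    · apply PNat.eq
      show (toQ q).num.toNat = _
      rw [toQ_num]
      simp
    · apply PNat.eq
      show (toQ q).den = _
      rw [toQ_den]
  right_inv r := by
    apply Subtype.ext
    show (((r.1.num.toNat : ℕ) : ℚ)) / ((r.1.den : ℕ) : ℚ) = r.1
    have h1 := Rat.num_pos.2 r.2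
    have h2 : ((r.1.num.toNat : ℕ) : ℤ) = r.1.num := Int.toNat_of_nonneg h1.le
    have h3 : ((r.1.num.toNat : ℕ) : ℚ) = (r.1.num : ℚ) := by exact_mod_cast h2
    rw [h3]
    exact Rat.num_div_den r.1

lemma mem_iff {ι : Type} [Fintype ι] {d : ℕ} (L : ι → Fin d → ℤ) (q : ι → Q) :
    q ∈ Ker L ↔ (fun j => toQ (q j)) ∈ Rel L := by
  unfold Ker Rel
  simp only [Set.mem_setOf_eq]
  constructor
  · intro h
    refine ⟨fun j => toQ_pos _, fun i => ?_⟩
    have h0 : ∀ j, (0 : ℝ) < (toQ (q j) : ℝ) := fun j => by exact_mod_cast toQ_pos (q j)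
    have h1 : Real.log (∏ j, (toQ (q j) : ℝ) ^ (L j i)) = 0 := by
      rw [Real.log_prod fun j _ => (zpow_pos (h0 j) _).ne', ← h i]
      refine Finset.sum_congr rfl fun j _ => ?_
      rw [Real.log_zpow, log_toQ]
    have h2 : (0 : ℝ) < ∏ j, (toQ (q j) : ℝ) ^ (L j i) := Finset.prod_pos fun j _ => zpow_pos (h0 j) _
    have h3 : ∏ j, (toQ (q j) : ℝ) ^ (L j i) = 1 := Real.eq_one_of_pos_of_log_eq_zero h2 h1
    exact_mod_cast h3
  · rintro ⟨_, h⟩ i
    have h0 : ∀ j, (0 : ℝ) < (toQ (q j) : ℝ) := fun j => by exact_mod_cast toQ_pos (q j)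
    have h3 : ∏ j, (toQ (q j) : ℝ) ^ (L j i) = 1 := by exact_mod_cast h i
    have h1 := congrArg Real.log h3
    rw [Real.log_prod fun j _ => (zpow_pos (h0 j) _).ne', Real.log_one] at h1
    rw [← h1]
    refine Finset.sum_congr rfl fun j _ => ?_
    rw [Real.log_zpow, log_toQ]

/-- the two index sets -/
noncomputable def eRel {ι : Type} [Fintype ι] {d : ℕ} (L : ι → Fin d → ℤ) : Ker L ≃ Rel L where
  toFun q := ⟨fun j => toQ (q.1 j), (mem_iff L q.1).1 q.2⟩
  invFun r := ⟨fun j => eQ.symm ⟨r.1 j, r.2.1 j⟩, by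
    rw [mem_iff]
    have h : (fun j => toQ (eQ.symm ⟨r.1 j, r.2.1 j⟩)) = r.1 := by
      funext j
      exact congrArg Subtype.val (eQ.apply_symm_apply ⟨r.1 j, r.2.1 j⟩)
    rw [h]
    exact r.2⟩
  left_inv q := by
    apply Subtype.ext
    funext j
    exact eQ.symm_apply_apply (q.1 j)
  right_inv r := by
    apply Subtype.ext
    funext j
    exact congrArg Subtype.val (eQ.apply_symm_apply ⟨r.1 j, r.2.1 j⟩)

lemma trm_eq {ι : Type} [Fintype ι] {d : ℕ} (L : ι → Fin d → ℤ) (q : Ker L) (y : ι → ℝ) : trm (eRel L q).1 y = mt q.1 y := by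
  unfold trm mt
  refine Finset.prod_congr rfl fun j _ => ?_
  show ((((htq (toQ (q.1 j))) ^ (-(1 / 2) : ℝ) *
    (Real.log (y j / (2 * Real.pi * htq (toQ (q.1 j)))) + 2 * Real.eulerMascheroniConstant) : ℝ) : ℂ) *
      cexp (-((y j * Real.log (toQ (q.1 j)) : ℝ) : ℂ) * I)) = _
  rw [htq_toQ, log_toQ]
  unfold om ex
  congr 2
  push_cast
  ring

theorem MT_eq {ι : Type} [Fintype ι] {d : ℕ} (L : ι → Fin d → ℤ) (y : ι → ℝ) : MT L y = ∑' q : Rel L, trm q.1 y := by
  unfold MT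
  rw [← (eRel L).tsum_eq]
  exact tsum_congr fun q => (trm_eq L q y).symm

theorem SS_eq {ι : Type} [Fintype ι] {d : ℕ} (L : ι → Fin d → ℤ) : SS L = ∑' q : Rel L, ∏ j, (htq (q.1 j)) ^ (-(1 / 2) : ℝ) := by
  unfold SS
  rw [← (eRel L).tsum_eq]
  refine tsum_congr fun q => ?_
  unfold hN
  rw [← Real.finset_prod_rpow _ _ fun j _ => (hgt_pos _).le]
  refine Finset.prod_congr rfl fun j _ => ?_
  show _ = (htq (toQ (q.1 j))) ^ (-(1 / 2) : ℝ)
  rw [htq_toQ]

end Pool.Agent.P07318v
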