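import Pool.Agent.Lib.P07318v.DefsK
import Pool.Agent.Lib.P5632c9.DivBound

/-!
# The tuples whose entries divide `r ^ 5`  (1 h)

PROOF. `D = (r ^ 5).divisors`. The map `q ↦ (fun j => ((q j).1.1 : ℕ, (q j).1.2 : ℕ))` from `ι → Q` to `ι → ℕ × ℕ` is injective (`Subtype.ext`, `Prod.ext`, `PNat.eq`), and the condition says that the image lies in `S = Fintype.piFinset fun _ => D ×ˢ D`. So the sum is `≤ ∑' z : ι → ℕ × ℕ, (if z ∈ S then 1 else 0) = S.card`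
(`ENNReal.tsum_comp_le_tsum_of_injective`, `tsum_eq_sum`, `Finset.sum_ite_mem`) `= (D.card ^ 2) ^ card ι` (`Fintype.card_piFinset_const`). `card_divisors_le ε` (P5632c9/DivBound.lean) with `ε = 1/(100 (card ι + 1))`: `D.card ≤ C (r ^ 5) ^ ε`, so the result is `≤ C ^ (2 card ι) r ^ (10 ε card ι) ≤ C ^ (2 card ι) r ^ (1/10)` (`r ≥ 1`).
-/

set_option autoImplicit false

namespace Pool.Agent.P07318v

open MeasureTheory Complex Pool.Agent.P07318s Pool.Agent.P07318f Pool.Agent.P07318h Pool.Agent.P07318o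

open Classical in
theorem count_d {ι : Type} [Fintype ι] : ∃ C : ℝ, 0 < C ∧ ∀ r : ℕ+,
    ∑' q : ι → Q, (if ∀ j, ((q j).1.1 : ℕ) ∣ (r : ℕ) ^ 5 ∧ ((q j).1.2 : ℕ) ∣ (r : ℕ) ^ 5 then (1 : ENNReal) else 0) ≤
      ENNReal.ofReal (C * ((r : ℕ) : ℝ) ^ (1 / 10 : ℝ)) := by
  have hk : (0 : ℝ) ≤ (Fintype.card ι : ℝ) := Nat.cast_nonneg _
  obtain ⟨C₀, hC₀, hdiv⟩ := Pool.Agent.Lib.P5632c9.card_divisors_le
    (1 / (100 * ((Fintype.card ι : ℝ) + 1))) (by positivity)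
  have hC₀' : 0 < C₀ := lt_of_lt_of_le one_pos hC₀
  refine ⟨C₀ ^ (2 * Fintype.card ι), pow_pos hC₀' _, fun r => ?_⟩
  set D : Finset ℕ := ((r : ℕ) ^ 5).divisors with hD
  set S : Finset (ι → ℕ × ℕ) := Fintype.piFinset fun _ => D ×ˢ D with hS
  have hr : ((r : ℕ) ^ 5) ≠ 0 := pow_ne_zero _ r.pos.ne'
  have hinj : Function.Injective
      (fun (q : ι → Q) (j : ι) => (((q j).1.1 : ℕ), ((q j).1.2 : ℕ))) := by
    intro q q' h
    funext j
    have h1 := congrFun h j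
    simp only [Prod.mk.injEq] at h1
    exact Subtype.ext (Prod.ext (PNat.eq h1.1) (PNat.eq h1.2))
  have e1 : (∑' q : ι → Q, (if ∀ j, ((q j).1.1 : ℕ) ∣ (r : ℕ) ^ 5 ∧ ((q j).1.2 : ℕ) ∣ (r : ℕ) ^ 5
      then (1 : ENNReal) else 0)) =
      ∑' q : ι → Q, (fun z : ι → ℕ × ℕ => if z ∈ S then (1 : ENNReal) else 0)
        (fun j => (((q j).1.1 : ℕ), ((q j).1.2 : ℕ))) := by
    refine tsum_congr fun q => ?_
    have h1 : (∀ j, ((q j).1.1 : ℕ) ∣ (r : ℕ) ^ 5 ∧ ((q j).1.2 : ℕ) ∣ (r : ℕ) ^ 5) ↔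
        (fun j => (((q j).1.1 : ℕ), ((q j).1.2 : ℕ))) ∈ S := by
      rw [hS, Fintype.mem_piFinset]
      refine forall_congr' fun j => ?_
      rw [Finset.mem_product, hD, Nat.mem_divisors, Nat.mem_divisors]
      exact ⟨fun h => ⟨⟨h.1, hr⟩, ⟨h.2, hr⟩⟩, fun h => ⟨h.1.1, h.2.1⟩⟩
    by_cases h2 : (fun j => (((q j).1.1 : ℕ), ((q j).1.2 : ℕ))) ∈ S
    · rw [if_pos (h1.2 h2)]
      exact (if_pos h2).symm
    · rw [if_neg (fun h => h2 (h1.1 h))]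
      exact (if_neg h2).symm
  rw [e1]
  refine (ENNReal.tsum_comp_le_tsum_of_injective hinj
    (fun z : ι → ℕ × ℕ => if z ∈ S then (1 : ENNReal) else 0)).trans ?_
  have e2 : ∑' z : ι → ℕ × ℕ, (if z ∈ S then (1 : ENNReal) else 0) = (S.card : ENNReal) := by
    rw [tsum_eq_sum (s := S) (fun z hz => if_neg hz),
      Finset.sum_congr rfl (fun z hz => if_pos hz), Finset.sum_const, nsmul_eq_mul, mul_one]
  have e3 : S.card = (D.card * D.card) ^ Fintype.card ι := by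
    rw [hS, Fintype.card_piFinset, Finset.prod_const, Finset.card_univ, Finset.card_product]
  rw [e2]
  have h4 : ((S.card : ℕ) : ENNReal) = ENNReal.ofReal ((S.card : ℕ) : ℝ) := by
    rw [ENNReal.ofReal_natCast]
  rw [h4]
  apply ENNReal.ofReal_le_ofReal
  have hr1 : (1 : ℝ) ≤ ((r : ℕ) : ℝ) := by exact_mod_cast r.pos
  have hr0 : (0 : ℝ) ≤ ((r : ℕ) : ℝ) := by linarith
  have hDc : (D.card : ℝ) ≤ C₀ * ((r : ℕ) : ℝ) ^ (5 * (1 / (100 * ((Fintype.card ι : ℝ) + 1)))) := by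
    have h := hdiv ((r : ℕ) ^ 5) hr
    rw [Nat.cast_pow, ← Real.rpow_natCast, ← Real.rpow_mul hr0] at h
    exact_mod_cast h
  have hD0 : (0 : ℝ) ≤ (D.card : ℝ) := Nat.cast_nonneg _
  rw [e3]
  push_cast
  calc ((D.card : ℝ) * (D.card : ℝ)) ^ Fintype.card ι
      = (D.card : ℝ) ^ (2 * Fintype.card ι) := by rw [← pow_two, ← pow_mul]
    _ ≤ (C₀ * ((r : ℕ) : ℝ) ^ (5 * (1 / (100 * ((Fintype.card ι : ℝ) + 1))))) ^
        (2 * Fintype.card ι) := pow_le_pow_left₀ hD0 hDc _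
    _ = C₀ ^ (2 * Fintype.card ι) * ((r : ℕ) : ℝ) ^
        (5 * (1 / (100 * ((Fintype.card ι : ℝ) + 1))) * ((2 * Fintype.card ι : ℕ) : ℝ)) := by
        rw [mul_pow, ← Real.rpow_natCast (((r : ℕ) : ℝ) ^ _), ← Real.rpow_mul hr0]
    _ ≤ C₀ ^ (2 * Fintype.card ι) * ((r : ℕ) : ℝ) ^ (1 / 10 : ℝ) := by
        refine mul_le_mul_of_nonneg_left (Real.rpow_le_rpow_of_exponent_le hr1 ?_)
          (pow_pos hC₀' _).le
        push_cast
        rw [show 5 * (1 / (100 * ((Fintype.card ι : ℝ) + 1))) * (2 * (Fintype.card ι : ℝ)) =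
          (Fintype.card ι : ℝ) / ((Fintype.card ι : ℝ) + 1) * (1 / 10) by field_simp; ring]
        have h5 : (Fintype.card ι : ℝ) / ((Fintype.card ι : ℝ) + 1) ≤ 1 := by
          rw [div_le_one (by linarith)]
          linarith
        linarith

end Pool.Agent.P07318v
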