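import Pool.Agent.Lib.P07318v.LinD
import Pool.Agent.Lib.P07318o.FrExp
import Pool.Agent.Lib.P07318o.FrTri

/-!
# Module Cs1: Cauchy-Schwarz in `n` variables and expansion of the square (pure measure theory; compare Lib/P07318o/FrExp.lean)

PROOF.  (1) `∫⁻ u, ‖A u‖ₑ * ∫⁻ s, ‖B u s‖ₑ ≤ (∫⁻ u, ‖A u‖ₑ ^ 2) ^ (1/2) * (∫⁻ u, (∫⁻ s, ‖B u s‖ₑ) ^ 2) ^ (1/2) < ⊤` (Cauchy-Schwarz,
`ENNReal.lintegral_mul_le_Lp_mul_Lq`, or `FrTriAux.cs` of Lib/P07318o/FrTri), so `p ↦ A p.1 * B p.1 p.2` is integrable on the product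
(`lintegral_prod`), and by Fubini the integral is `∫ u, A u * b u`, `b u = ∫ s, B u s`.  Hence
`‖∫ p, ..‖ₑ ≤ ∫⁻ u, ‖A u‖ₑ * ‖b u‖ₑ ≤ (∫⁻ ‖A u‖ₑ ^ 2) ^ (1/2) * (∫⁻ u, ‖b u‖ₑ ^ 2) ^ (1/2)`; square.
(2) `∫⁻ u, ‖b u‖ₑ ^ 2 ≤ ∫⁻ τ, ‖∫ p, B p.1 p.2 * conj (B p.1 (p.2 + τ))‖ₑ`.  The function `Ψ (u, (s, s')) = B u s * conj (B u s')` is integrable on
`(Fin n → ℝ) × (ℝ × ℝ)` (`∫⁻ ‖Ψ‖ₑ = ∫⁻ u, (∫⁻ s, ‖B u s‖ₑ) ^ 2`, `lintegral_prod_mul`), for every `u`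
`∫ q : ℝ × ℝ, Ψ (u, q) = b u * conj (b u) = ‖b u‖ ^ 2` (`integral_prod_mul`, `integral_conj`), so `∫⁻ u, ‖b u‖ₑ ^ 2 = ‖∫ Ψ‖ₑ`; the map
`((u, s), τ) ↦ (u, (s, s + τ))` preserves the measure (this is `FrExpAux.sh3` and `FrExpAux.sh3_mp` of Lib/P07318o/FrExp: import it), so
`∫ Ψ = ∫ τ, ∫ (u, s), Ψ (u, (s, s + τ))` (`integral_prod_symm`) and `enorm_integral_le_lintegral_enorm`.  The lemmas `Ps_meas`, `lint_Ps`, `Ps_int`,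
`inner_eq`, `lint_LL`, `expand_form` of FrExp are the same steps for the function `Ph`; adapt them.
-/

set_option autoImplicit false

namespace Pool.Agent.P07318v

open MeasureTheory Complex Pool.Agent.P07318s Pool.Agent.P07318f Pool.Agent.P07318h Pool.Agent.P07318o

namespace Cs1Aux

/-- the product of the function with its conjugate -/
noncomputable def Ps {n : ℕ} (B : (Fin n → ℝ) × ℝ → ℂ) (p : (Fin n → ℝ) × (ℝ × ℝ)) : ℂ :=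
  B (p.1, p.2.1) * (starRingEnd ℂ) (B (p.1, p.2.2))

theorem Ps_meas {n : ℕ} {B : (Fin n → ℝ) × ℝ → ℂ} (hB : Measurable B) : Measurable (Ps B) := by
  unfold Ps
  have h1 : Measurable fun p : (Fin n → ℝ) × (ℝ × ℝ) => (p.1, p.2.1) := by fun_prop
  have h2 : Measurable fun p : (Fin n → ℝ) × (ℝ × ℝ) => (p.1, p.2.2) := by fun_prop
  exact (hB.comp h1).mul (Complex.continuous_conj.measurable.comp (hB.comp h2))

theorem lint_Ps {n : ℕ} {B : (Fin n → ℝ) × ℝ → ℂ} (hB : Measurable B) :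
    ∫⁻ p, ‖Ps B p‖ₑ = ∫⁻ u, (∫⁻ s, ‖B (u, s)‖ₑ) ^ 2 := by
  rw [Measure.volume_eq_prod, lintegral_prod _ (Ps_meas hB).enorm.aemeasurable]
  refine lintegral_congr fun u => ?_
  have h1 : Measurable fun t : ℝ => ‖B (u, t)‖ₑ :=
    (hB.comp (measurable_const.prodMk measurable_id)).enorm
  have h2 : ∀ q : ℝ × ℝ, ‖Ps B (u, q)‖ₑ = ‖B (u, q.1)‖ₑ * ‖B (u, q.2)‖ₑ := by
    intro q
    unfold Ps
    rw [enorm_mul]
    congr 1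
    rw [← ofReal_norm, ← ofReal_norm, RCLike.norm_conj]
  simp only [h2]
  rw [Measure.volume_eq_prod, lintegral_prod_mul h1.aemeasurable h1.aemeasurable, sq]

theorem Ps_int {n : ℕ} {B : (Fin n → ℝ) × ℝ → ℂ} (hB : Measurable B)
    (hfin : ∫⁻ u, (∫⁻ s, ‖B (u, s)‖ₑ) ^ 2 ≠ ⊤) : Integrable (Ps B) := by
  refine ⟨(Ps_meas hB).aestronglyMeasurable, ?_⟩
  unfold HasFiniteIntegral
  rw [lint_Ps hB]
  exact hfin.lt_top

theorem inner_eq {n : ℕ} (B : (Fin n → ℝ) × ℝ → ℂ) (u : Fin n → ℝ) :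
    ∫ q : ℝ × ℝ, Ps B (u, q) = ((‖∫ s, B (u, s)‖ ^ 2 : ℝ) : ℂ) := by
  unfold Ps
  rw [Measure.volume_eq_prod]
  have h1 := integral_prod_mul (μ := (volume : Measure ℝ)) (ν := (volume : Measure ℝ))
    (fun t : ℝ => B (u, t)) (fun t : ℝ => (starRingEnd ℂ) (B (u, t)))
  rw [h1, integral_conj]
  rw [Complex.mul_conj, Complex.normSq_eq_norm_sq]

theorem lint_sq {n : ℕ} {B : (Fin n → ℝ) × ℝ → ℂ} (hB : Measurable B)
    (hfin : ∫⁻ u, (∫⁻ s, ‖B (u, s)‖ₑ) ^ 2 ≠ ⊤) :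
    ∫⁻ u, ‖∫ s, B (u, s)‖ₑ ^ 2 = ‖∫ p, Ps B p‖ₑ := by
  have hi := Ps_int hB hfin
  rw [Measure.volume_eq_prod] at hi
  have h1 : Integrable fun u => ((‖∫ s, B (u, s)‖ ^ 2 : ℝ) : ℂ) := by
    have := hi.integral_prod_left
    refine this.congr (Filter.Eventually.of_forall fun u => ?_)
    exact inner_eq B u
  have h2 : Integrable fun u => ‖∫ s, B (u, s)‖ ^ 2 := by
    exact h1.re.congr (Filter.Eventually.of_forall fun u => Complex.ofReal_re _)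
  rw [Measure.volume_eq_prod, integral_prod _ hi]
  have h3 : ∫ u, ∫ q : ℝ × ℝ, Ps B (u, q) = ((∫ u, ‖∫ s, B (u, s)‖ ^ 2 : ℝ) : ℂ) := by
    rw [← integral_complex_ofReal]
    exact integral_congr_ae (Filter.Eventually.of_forall fun u => inner_eq B u)
  rw [h3]
  have h4 : ‖((∫ u, ‖∫ s, B (u, s)‖ ^ 2 : ℝ) : ℂ)‖ₑ = ENNReal.ofReal (∫ u, ‖∫ s, B (u, s)‖ ^ 2) := by
    rw [← ofReal_norm, Complex.norm_real, Real.norm_of_nonneg]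
    exact integral_nonneg fun u => by positivity
  rw [h4, ofReal_integral_eq_lintegral_ofReal h2 (Filter.Eventually.of_forall fun u => by positivity)]
  refine lintegral_congr fun u => ?_
  rw [ENNReal.ofReal_pow (norm_nonneg _), ofReal_norm]

theorem expand {n : ℕ} {B : (Fin n → ℝ) × ℝ → ℂ} (hB : Measurable B)
    (hfin : ∫⁻ u, (∫⁻ s, ‖B (u, s)‖ₑ) ^ 2 ≠ ⊤) :
    ∫⁻ u, ‖∫ s, B (u, s)‖ₑ ^ 2 ≤
      ∫⁻ τ : ℝ, ‖∫ p : (Fin n → ℝ) × ℝ, B p * (starRingEnd ℂ) (B (p.1, p.2 + τ))‖ₑ := by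
  rw [lint_sq hB hfin, ← (FrExpAux.sh3_mp n).integral_comp' (Ps B)]
  have hi : Integrable (fun w => Ps B (FrExpAux.sh3 n w)) :=
    (FrExpAux.sh3_mp n).integrable_comp_of_integrable (Ps_int hB hfin)
  rw [Measure.volume_eq_prod] at hi
  rw [Measure.volume_eq_prod, integral_prod_symm _ hi]
  refine (enorm_integral_le_lintegral_enorm _).trans_eq ?_
  rfl

end Cs1Aux

open Cs1Aux

theorem cs1 {n : ℕ} (A : (Fin n → ℝ) → ℂ) (B : (Fin n → ℝ) × ℝ → ℂ) (hA : Measurable A) (hB : Measurable B)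
    (hA2 : ∫⁻ u, ‖A u‖ₑ ^ 2 ≠ ⊤) (hB2 : ∫⁻ u, (∫⁻ s, ‖B (u, s)‖ₑ) ^ 2 ≠ ⊤) :
    ‖∫ p : (Fin n → ℝ) × ℝ, A p.1 * B p‖ₑ ^ 2 ≤
      (∫⁻ u, ‖A u‖ₑ ^ 2) * ∫⁻ τ : ℝ, ‖∫ p : (Fin n → ℝ) × ℝ, B p * (starRingEnd ℂ) (B (p.1, p.2 + τ))‖ₑ := by
  have hb : ∀ u, ‖∫ s, B (u, s)‖ₑ ≤ ∫⁻ s, ‖B (u, s)‖ₑ := fun u => enorm_integral_le_lintegral_enorm _
  have hBm : Measurable fun u => ∫⁻ s, ‖B (u, s)‖ₑ := hB.enorm.lintegral_prod_right'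
  have hbm : Measurable fun u => ∫ s, B (u, s) :=
    (hB.stronglyMeasurable.integral_prod_right' (ν := (volume : Measure ℝ))).measurable
  -- integrability of the product
  have hle : ∫⁻ u, ‖A u‖ₑ * ∫⁻ s, ‖B (u, s)‖ₑ ≤
      (∫⁻ u, ‖A u‖ₑ ^ 2) ^ (1 / 2 : ℝ) * (∫⁻ u, (∫⁻ s, ‖B (u, s)‖ₑ) ^ 2) ^ (1 / 2 : ℝ) :=
    FrTriAux.cs volume hA.enorm.aemeasurable hBm.aemeasurable
  have hlt : ∫⁻ u, ‖A u‖ₑ * ∫⁻ s, ‖B (u, s)‖ₑ < ⊤ := by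
    refine hle.trans_lt (ENNReal.mul_lt_top ?_ ?_)
    · exact ENNReal.rpow_lt_top_of_nonneg (by norm_num) hA2
    · exact ENNReal.rpow_lt_top_of_nonneg (by norm_num) hB2
  have hm : Measurable fun p : (Fin n → ℝ) × ℝ => A p.1 * B p := (hA.comp measurable_fst).mul hB
  have hint : Integrable (fun p : (Fin n → ℝ) × ℝ => A p.1 * B p) := by
    refine ⟨hm.aestronglyMeasurable, ?_⟩
    unfold HasFiniteIntegral
    rw [Measure.volume_eq_prod, lintegral_prod _ hm.enorm.aemeasurable]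
    refine lt_of_eq_of_lt ?_ hlt
    refine lintegral_congr fun u => ?_
    have h1 : Measurable fun t : ℝ => ‖B (u, t)‖ₑ :=
      (hB.comp (measurable_const.prodMk measurable_id)).enorm
    rw [← lintegral_const_mul _ h1]
    refine lintegral_congr fun s => ?_
    rw [enorm_mul]
  have hint' := hint
  rw [Measure.volume_eq_prod] at hint'
  have h1 : ∫ p : (Fin n → ℝ) × ℝ, A p.1 * B p = ∫ u, A u * ∫ s, B (u, s) := by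
    rw [Measure.volume_eq_prod, integral_prod _ hint']
    refine integral_congr_ae (Filter.Eventually.of_forall fun u => ?_)
    exact MeasureTheory.integral_const_mul (A u) (fun s : ℝ => B (u, s))
  have h2 : ‖∫ p : (Fin n → ℝ) × ℝ, A p.1 * B p‖ₑ ≤
      (∫⁻ u, ‖A u‖ₑ ^ 2) ^ (1 / 2 : ℝ) * (∫⁻ u, ‖∫ s, B (u, s)‖ₑ ^ 2) ^ (1 / 2 : ℝ) := by
    rw [h1]
    refine (enorm_integral_le_lintegral_enorm _).trans ?_
    have h3 : ∀ u, ‖A u * ∫ s, B (u, s)‖ₑ = ‖A u‖ₑ * ‖∫ s, B (u, s)‖ₑ := fun u => enorm_mul _ _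
    simp only [h3]
    exact FrTriAux.cs volume hA.enorm.aemeasurable hbm.enorm.aemeasurable
  calc ‖∫ p : (Fin n → ℝ) × ℝ, A p.1 * B p‖ₑ ^ 2
      ≤ ((∫⁻ u, ‖A u‖ₑ ^ 2) ^ (1 / 2 : ℝ) * (∫⁻ u, ‖∫ s, B (u, s)‖ₑ ^ 2) ^ (1 / 2 : ℝ)) ^ 2 := by
        gcongr
    _ = (∫⁻ u, ‖A u‖ₑ ^ 2) * ∫⁻ u, ‖∫ s, B (u, s)‖ₑ ^ 2 := by
        rw [mul_pow, ← ENNReal.rpow_natCast, ← ENNReal.rpow_natCast, ← ENNReal.rpow_mul,
          ← ENNReal.rpow_mul]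
        norm_num
    _ ≤ _ := by
        gcongr
        exact expand hB hB2

end Pool.Agent.P07318v
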