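import Pool.Agent.Lib.P07318v.Lin1
import Pool.Agent.Lib.P07318v.Cs1

/-!
# Module CsV: the multilinear form after one Cauchy-Schwarz inequality

Slots `Fin n ⊕ Fin (n + 2)`, `r = inr last`.  Coordinates `p = (u, s)` (`XX`): `pt L κ (XX L κ (u, s)) (inl a) = u a` (`XX_inl`),
`pt L κ (XX L κ (u, s)) (inr last) = s` (`XX_last`), `pt L κ (XX L κ (u, s)) (inr b)` moves with speed `vv L b` in `s` (`XX_inr`), `vv L last = 1`.

PROOF.  By `pr_int` (Lin1, `Ψ x = ∏ j, Z j (pt L κ x j)`), `Fintype.prod_sum_type` and `XX_inl` `FF L κ Z = |det₁|⁻¹ * ∫ p, A p.1 * B p`,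
`A u = ∏ a, Z (inl a) (u a)`, `B p = ∏ b, Z (inr b) (pt L κ (XX L κ p) (inr b))`, `det₁ = (Mx L (s1 n)).det`.  `∫⁻ u, ‖A u‖ₑ ^ 2 = ∏ a, nm (Z (inl a))`
(`lint_pi` of FrIndep), `cs1`.  By `XX_inr` twice `pt L κ (XX L κ (u, s + τ)) (inr b) = pt L κ (XX L κ (u, s)) (inr b) + vv L b * τ`, so
`B p * conj (B (p.1, p.2 + τ)) = ∏ b, shp (Z (inr b)) (vv L b * τ) (pt L κ (XX L κ p) (inr b))` (`map_prod`, `Finset.prod_mul_distrib`).
By `pr_int` backwards its integral is `|det₁| * ∫ x, ∏ b, shp (Z (inr b)) (vv L b * τ) (pt L κ x (inr b))` (the factor `|det₁|⁻¹ ≠ 0`), and by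
`pt_bet` for `σ = s2 n`, `j = inr last` (`Fin.prod_univ_castSucc`) and `crd_int` for `σ = s2 n` this is
`|det₁| * |det₂|⁻¹ * Fm β k (fun b => shp (Z (inr b.castSucc)) (vv L b.castSucc * τ)) (shp (Z (inr last)) τ)` with
`β = bet L (s2 n) (inr last)`, `k = κ (inr last) - ∑ i, β i * κ (s2 n i)`, `det₂ = (Mx L (s2 n)).det`.  Constant: `|det₁|⁻¹ ^ 2 * |det₁| * |det₂|⁻¹`.
-/

set_option autoImplicit false

namespace Pool.Agent.P07318v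

open MeasureTheory Complex Pool.Agent.P07318s Pool.Agent.P07318f Pool.Agent.P07318h Pool.Agent.P07318o

namespace CsVAux

theorem en_prod {ι : Type*} (s : Finset ι) (f : ι → ℂ) : ‖∏ i ∈ s, f i‖ₑ = ∏ i ∈ s, ‖f i‖ₑ := by
  classical
  induction s using Finset.induction_on with
  | empty => simp
  | insert a s ha ih => rw [Finset.prod_insert ha, Finset.prod_insert ha, enorm_mul, ih]

theorem en_real (r : ℝ) (hr : 0 ≤ r) : ‖((r : ℝ) : ℂ)‖ₑ = ENNReal.ofReal r := by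
  rw [← ofReal_norm, Complex.norm_real, Real.norm_of_nonneg hr]

end CsVAux

theorem cs_v {n : ℕ} (L : Fin n ⊕ Fin (n + 2) → Fin (n + 1) → ℝ) (hL : GP L) : ∃ C : ℝ, 0 < C ∧
    ∀ (κ : Fin n ⊕ Fin (n + 2) → ℝ) (Z : Fin n ⊕ Fin (n + 2) → ℝ → ℂ), (∀ j, Measurable (Z j)) →
    (∀ a, nm (Z (Sum.inl a)) ≠ ⊤) →
    (∫⁻ u : Fin n → ℝ, (∫⁻ s : ℝ, ∏ b, ‖Z (Sum.inr b) (pt L κ (XX L κ (u, s)) (Sum.inr b))‖ₑ) ^ 2 ≠ ⊤) →
    ‖FF L κ Z‖ₑ ^ 2 ≤ ENNReal.ofReal C * (∏ a, nm (Z (Sum.inl a))) *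
      ∫⁻ τ : ℝ, ‖Fm (bet L (s2 n) (Sum.inr (Fin.last (n + 1))))
        (κ (Sum.inr (Fin.last (n + 1))) - ∑ i, bet L (s2 n) (Sum.inr (Fin.last (n + 1))) i * κ (s2 n i))
        (fun b : Fin (n + 1) => shp (Z (Sum.inr b.castSucc)) (vv L b.castSucc * τ)) (shp (Z (Sum.inr (Fin.last (n + 1)))) τ)‖ₑ := by
  have h1 : (Mx L (s1 n)).det ≠ 0 := hL _ (s1_inj n)
  have h2 : (Mx L (s2 n)).det ≠ 0 := hL _ (s2_inj n)
  have hd1 : 0 < |(Mx L (s1 n)).det| := abs_pos.2 h1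
  have hd2 : 0 < |(Mx L (s2 n)).det| := abs_pos.2 h2
  refine ⟨(|(Mx L (s1 n)).det|⁻¹) ^ 2 * (|(Mx L (s1 n)).det| * |(Mx L (s2 n)).det|⁻¹), by positivity, ?_⟩
  intro κ Z hZ hA hB
  -- the two functions
  have hAm : Measurable fun u : Fin n → ℝ => ∏ a, Z (Sum.inl a) (u a) :=
    Finset.measurable_prod _ fun a _ => (hZ _).comp (measurable_pi_apply a)
  have hpm : ∀ b : Fin (n + 2), Measurable fun p : (Fin n → ℝ) × ℝ => pt L κ (XX L κ p) (Sum.inr b) := fun b =>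
    ((pt_cont L κ (Sum.inr b)).comp (XX_cont L κ)).measurable
  have hBm : Measurable fun p : (Fin n → ℝ) × ℝ => ∏ b, Z (Sum.inr b) (pt L κ (XX L κ p) (Sum.inr b)) :=
    Finset.measurable_prod _ fun b _ => (hZ _).comp (hpm b)
  have hAn : ∫⁻ u : Fin n → ℝ, ‖∏ a, Z (Sum.inl a) (u a)‖ₑ ^ 2 = ∏ a, nm (Z (Sum.inl a)) := by
    have e1 : ∀ u : Fin n → ℝ, ‖∏ a, Z (Sum.inl a) (u a)‖ₑ ^ 2 = ∏ a, ‖Z (Sum.inl a) (u a)‖ₑ ^ 2 := by
      intro u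
      rw [CsVAux.en_prod, Finset.prod_pow]
    simp only [e1]
    rw [lint_pi (fun a y => ‖Z (Sum.inl a) y‖ₑ ^ 2) (fun a => (hZ _).enorm.pow_const 2)]
    rfl
  have hA2 : ∫⁻ u : Fin n → ℝ, ‖∏ a, Z (Sum.inl a) (u a)‖ₑ ^ 2 ≠ ⊤ := by
    rw [hAn]
    exact ENNReal.prod_ne_top fun a _ => hA a
  have hB2 : ∫⁻ u : Fin n → ℝ, (∫⁻ s : ℝ, ‖∏ b, Z (Sum.inr b) (pt L κ (XX L κ (u, s)) (Sum.inr b))‖ₑ) ^ 2 ≠ ⊤ := by
    simp only [CsVAux.en_prod]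
    exact hB
  have hmain := cs1 (fun u => ∏ a, Z (Sum.inl a) (u a))
    (fun p : (Fin n → ℝ) × ℝ => ∏ b, Z (Sum.inr b) (pt L κ (XX L κ p) (Sum.inr b))) hAm hBm hA2 hB2
  -- the form
  have hF : FF L κ Z = ((|(Mx L (s1 n)).det|⁻¹ : ℝ) : ℂ) *
      ∫ p : (Fin n → ℝ) × ℝ, (∏ a, Z (Sum.inl a) (p.1 a)) * ∏ b, Z (Sum.inr b) (pt L κ (XX L κ p) (Sum.inr b)) := by
    unfold FF
    rw [pr_int L hL κ]
    congr 1
    refine integral_congr_ae (Filter.Eventually.of_forall fun p => ?_)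
    show ∏ j, Z j (pt L κ (XX L κ p) j) = _
    rw [Fintype.prod_sum_type]
    simp only [XX_inl L hL]
  -- the correlations
  have hcor : ∀ τ : ℝ, ∫ p : (Fin n → ℝ) × ℝ, (∏ b, Z (Sum.inr b) (pt L κ (XX L κ p) (Sum.inr b))) *
      (starRingEnd ℂ) (∏ b, Z (Sum.inr b) (pt L κ (XX L κ (p.1, p.2 + τ)) (Sum.inr b))) =
      ((|(Mx L (s1 n)).det| * |(Mx L (s2 n)).det|⁻¹ : ℝ) : ℂ) *
        Fm (bet L (s2 n) (Sum.inr (Fin.last (n + 1))))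
        (κ (Sum.inr (Fin.last (n + 1))) - ∑ i, bet L (s2 n) (Sum.inr (Fin.last (n + 1))) i * κ (s2 n i))
        (fun b : Fin (n + 1) => shp (Z (Sum.inr b.castSucc)) (vv L b.castSucc * τ)) (shp (Z (Sum.inr (Fin.last (n + 1)))) τ) := by
    intro τ
    have e1 : ∀ p : (Fin n → ℝ) × ℝ, (∏ b, Z (Sum.inr b) (pt L κ (XX L κ p) (Sum.inr b))) *
        (starRingEnd ℂ) (∏ b, Z (Sum.inr b) (pt L κ (XX L κ (p.1, p.2 + τ)) (Sum.inr b))) =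
        ∏ b, shp (Z (Sum.inr b)) (vv L b * τ) (pt L κ (XX L κ p) (Sum.inr b)) := by
      rintro ⟨u, s⟩
      rw [map_prod, ← Finset.prod_mul_distrib]
      refine Finset.prod_congr rfl fun b _ => ?_
      have e2 : pt L κ (XX L κ (u, s + τ)) (Sum.inr b) = pt L κ (XX L κ (u, s)) (Sum.inr b) + vv L b * τ := by
        rw [XX_inr L hL κ u (s + τ) b, XX_inr L hL κ u s b]
        ring
      show Z (Sum.inr b) (pt L κ (XX L κ (u, s)) (Sum.inr b)) *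
        (starRingEnd ℂ) (Z (Sum.inr b) (pt L κ (XX L κ (u, s + τ)) (Sum.inr b))) = _
      rw [e2]
      rfl
    simp only [e1]
    have e3 := pr_int L hL κ (fun x => ∏ b, shp (Z (Sum.inr b)) (vv L b * τ) (pt L κ x (Sum.inr b)))
    have e4 : ∫ p : (Fin n → ℝ) × ℝ, ∏ b, shp (Z (Sum.inr b)) (vv L b * τ) (pt L κ (XX L κ p) (Sum.inr b)) =
        ((|(Mx L (s1 n)).det| : ℝ) : ℂ) * ∫ x, ∏ b, shp (Z (Sum.inr b)) (vv L b * τ) (pt L κ x (Sum.inr b)) := by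
      rw [e3, ← mul_assoc, ← Complex.ofReal_mul, mul_inv_cancel₀ hd1.ne', Complex.ofReal_one, one_mul]
    rw [e4]
    have e5 : ∀ x : Fin (n + 1) → ℝ, ∏ b, shp (Z (Sum.inr b)) (vv L b * τ) (pt L κ x (Sum.inr b)) =
        (fun y : Fin (n + 1) → ℝ => (∏ j, shp (Z (Sum.inr j.castSucc)) (vv L j.castSucc * τ) (y j)) *
          shp (Z (Sum.inr (Fin.last (n + 1)))) τ ((κ (Sum.inr (Fin.last (n + 1))) -
            ∑ i, bet L (s2 n) (Sum.inr (Fin.last (n + 1))) i * κ (s2 n i)) +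
            ∑ j, bet L (s2 n) (Sum.inr (Fin.last (n + 1))) j * y j)) (fun i => pt L κ x (s2 n i)) := by
      intro x
      rw [Fin.prod_univ_castSucc, vv_last L hL, one_mul]
      have e6 := pt_bet L (s2 n) h2 κ x (Sum.inr (Fin.last (n + 1)))
      show _ = (∏ j, shp (Z (Sum.inr j.castSucc)) (vv L j.castSucc * τ) (pt L κ x (s2 n j))) *
          shp (Z (Sum.inr (Fin.last (n + 1)))) τ ((κ (Sum.inr (Fin.last (n + 1))) -
            ∑ i, bet L (s2 n) (Sum.inr (Fin.last (n + 1))) i * κ (s2 n i)) +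
            ∑ j, bet L (s2 n) (Sum.inr (Fin.last (n + 1))) j * pt L κ x (s2 n j))
      rw [← e6]
      rfl
    have e7 := (integral_congr_ae (Filter.Eventually.of_forall e5)).trans (crd_int L κ (s2 n) h2
      (fun y : Fin (n + 1) → ℝ => (∏ j, shp (Z (Sum.inr j.castSucc)) (vv L j.castSucc * τ) (y j)) *
          shp (Z (Sum.inr (Fin.last (n + 1)))) τ ((κ (Sum.inr (Fin.last (n + 1))) -
            ∑ i, bet L (s2 n) (Sum.inr (Fin.last (n + 1))) i * κ (s2 n i)) +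
            ∑ j, bet L (s2 n) (Sum.inr (Fin.last (n + 1))) j * y j)))
    rw [e7, Complex.ofReal_mul, mul_assoc]
    rfl
  -- the norms
  have hn1 : ‖FF L κ Z‖ₑ ^ 2 = ENNReal.ofReal ((|(Mx L (s1 n)).det|⁻¹) ^ 2) *
      ‖∫ p : (Fin n → ℝ) × ℝ, (∏ a, Z (Sum.inl a) (p.1 a)) * ∏ b, Z (Sum.inr b) (pt L κ (XX L κ p) (Sum.inr b))‖ₑ ^ 2 := by
    rw [hF, enorm_mul, mul_pow, CsVAux.en_real _ (by positivity), ENNReal.ofReal_pow (by positivity)]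
  rw [hn1]
  refine (mul_le_mul_right hmain _).trans ?_
  rw [hAn]
  have hn2 : ∀ τ : ℝ, ‖∫ p : (Fin n → ℝ) × ℝ, (fun p : (Fin n → ℝ) × ℝ => ∏ b, Z (Sum.inr b) (pt L κ (XX L κ p) (Sum.inr b))) p *
      (starRingEnd ℂ) ((fun p : (Fin n → ℝ) × ℝ => ∏ b, Z (Sum.inr b) (pt L κ (XX L κ p) (Sum.inr b))) (p.1, p.2 + τ))‖ₑ =
      ENNReal.ofReal (|(Mx L (s1 n)).det| * |(Mx L (s2 n)).det|⁻¹) *
        ‖Fm (bet L (s2 n) (Sum.inr (Fin.last (n + 1))))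
        (κ (Sum.inr (Fin.last (n + 1))) - ∑ i, bet L (s2 n) (Sum.inr (Fin.last (n + 1))) i * κ (s2 n i))
        (fun b : Fin (n + 1) => shp (Z (Sum.inr b.castSucc)) (vv L b.castSucc * τ)) (shp (Z (Sum.inr (Fin.last (n + 1)))) τ)‖ₑ := by
    intro τ
    have h := hcor τ
    show ‖∫ p : (Fin n → ℝ) × ℝ, (∏ b, Z (Sum.inr b) (pt L κ (XX L κ p) (Sum.inr b))) *
      (starRingEnd ℂ) (∏ b, Z (Sum.inr b) (pt L κ (XX L κ (p.1, p.2 + τ)) (Sum.inr b)))‖ₑ = _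
    rw [h, enorm_mul, CsVAux.en_real _ (by positivity)]
  simp only [hn2]
  rw [lintegral_const_mul' _ _ ENNReal.ofReal_ne_top, ENNReal.ofReal_mul (p := (|(Mx L (s1 n)).det|⁻¹) ^ 2) (by positivity)]
  refine le_of_eq ?_
  ring

/-- all coefficients of the relation are different from `0` -/
theorem bet_s2 {n : ℕ} (L : Fin n ⊕ Fin (n + 2) → Fin (n + 1) → ℝ) (hL : GP L) (i : Fin (n + 1)) :
    bet L (s2 n) (Sum.inr (Fin.last (n + 1))) i ≠ 0 := by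
  refine bet_ne L hL (s2 n) (s2_inj n) _ (fun i h => ?_) i
  exact (Fin.castSucc_lt_last i).ne (Sum.inr.inj h)

end Pool.Agent.P07318v
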