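import Pool.Agent.Lib.P07318o.Wdefs

/-!
Products of `|ζ|²` along linear forms: `2 d` forms in `d = n + 1` variables in general position.
-/

set_option autoImplicit false

namespace Pool.Agent.P07318v

open MeasureTheory Complex Pool.Agent.P07318s Pool.Agent.P07318f Pool.Agent.P07318h Pool.Agent.P07318o

/-- the points: values of the affine forms `κ_j + L_j x` -/
noncomputable def pt {ι : Type} {d : ℕ} (L : ι → Fin d → ℝ) (κ : ι → ℝ) (x : Fin d → ℝ) (j : ι) : ℝ :=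
  κ j + ∑ i, L j i * x i

/-- general position: any `d` of the linear forms are linearly independent -/
def GP {ι : Type} {d : ℕ} (L : ι → Fin d → ℝ) : Prop :=
  ∀ σ : Fin d → ι, Function.Injective σ → (Matrix.of fun i => L (σ i)).det ≠ 0

/-- the multilinear form -/
noncomputable def FF {ι : Type} [Fintype ι] {d : ℕ} (L : ι → Fin d → ℝ) (κ : ι → ℝ) (Z : ι → ℝ → ℂ) : ℂ :=
  ∫ x : Fin d → ℝ, ∏ j, Z j (pt L κ x j)

/-- the multilinear form with absolute values -/
noncomputable def FA {ι : Type} [Fintype ι] {d : ℕ} (L : ι → Fin d → ℝ) (κ : ι → ℝ) (Z : ι → ℝ → ℂ) : ENNReal :=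
  ∫⁻ x : Fin d → ℝ, ∏ j, ‖Z j (pt L κ x j)‖ₑ

/-- the slot functions of a pattern: `c` the windows, `P j` small, middle, top heights, error -/
noncomputable def zp {ι : Type} (U A B : ℝ) (c : ι → ℝ → ℝ) (P : ι → Fin 4) : ι → ℝ → ℂ :=
  fun j => ct (c j) (bf U A B (P j))

/-- admissible windows: cut-off functions with supports in the intervals `[a j, a j + ℓ] ⊆ [T/2, 3T]` -/
structure Wi {ι : Type} (T Λ ℓ : ℝ) (a : ι → ℝ) (c : ι → ℝ → ℝ) : Prop where
  cut : ∀ j, Cut (T / 4) Λ (c j)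
  lo : ∀ j, T / 2 ≤ a j
  hi : ∀ j, a j + ℓ ≤ 3 * T
  supp : ∀ j y, y ∉ Set.Icc (a j) (a j + ℓ) → c j y = 0

/-- the tuples of reduced fractions with `∏_j q_j ^ (L_j i) = 1` for all `i` -/
def Ker {ι : Type} [Fintype ι] {d : ℕ} (L : ι → Fin d → ℤ) : Set (ι → Q) :=
  {q | ∀ i, ∑ j, (L j i : ℝ) * lgr (q j).1 = 0}

/-- the coefficient of a reduced fraction of height `h` at the height `y` of the critical line -/
noncomputable def om (h y : ℝ) : ℝ := Real.log (y / (2 * Real.pi * h)) + 2 * Real.eulerMascheroniConstant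

/-- one term of the main term -/
noncomputable def mt {ι : Type} [Fintype ι] (q : ι → Q) (y : ι → ℝ) : ℂ :=
  ∏ j, ((((hgt (q j).1) ^ (-(1 / 2) : ℝ) * om (hgt (q j).1) (y j) : ℝ) : ℂ) * ex (y j) (q j).1)

/-- the main term at the heights `y` -/
noncomputable def MT {ι : Type} [Fintype ι] {d : ℕ} (L : ι → Fin d → ℤ) (y : ι → ℝ) : ℂ := ∑' q : Ker L, mt q.1 y

lemma pt_cont {ι : Type} {d : ℕ} (L : ι → Fin d → ℝ) (κ : ι → ℝ) (j : ι) : Continuous fun x : Fin d → ℝ => pt L κ x j := by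
  unfold pt
  fun_prop

/-- independence of the enumeration of the slots -/
lemma FF_equiv {ι ι' : Type} [Fintype ι] [Fintype ι'] {d : ℕ} (e : ι' ≃ ι) (L : ι → Fin d → ℝ) (κ : ι → ℝ) (Z : ι → ℝ → ℂ) :
    FF (fun j => L (e j)) (fun j => κ (e j)) (fun j => Z (e j)) = FF L κ Z := by
  unfold FF
  congr 1
  ext x
  exact Fintype.prod_equiv e _ _ fun j => rfl

lemma FA_equiv {ι ι' : Type} [Fintype ι] [Fintype ι'] {d : ℕ} (e : ι' ≃ ι) (L : ι → Fin d → ℝ) (κ : ι → ℝ) (Z : ι → ℝ → ℂ) :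
    FA (fun j => L (e j)) (fun j => κ (e j)) (fun j => Z (e j)) = FA L κ Z := by
  unfold FA
  congr 1
  ext x
  exact Fintype.prod_equiv e _ _ fun j => rfl

lemma GP_equiv {ι ι' : Type} {d : ℕ} (e : ι' ≃ ι) {L : ι → Fin d → ℝ} (hL : GP L) : GP fun j => L (e j) :=
  fun σ hσ => hL (fun i => e (σ i)) (e.injective.comp hσ)

end Pool.Agent.P07318v
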