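import Pool.Agent.Lib.P07318v.Defs

/-!
# Heights of tuples of fractions, truncated main term (definitions)
-/

set_option autoImplicit false

namespace Pool.Agent.P07318v

open MeasureTheory Complex Pool.Agent.P07318s Pool.Agent.P07318f Pool.Agent.P07318h Pool.Agent.P07318o

/-- the product of the heights -/
noncomputable def hN {ι : Type} [Fintype ι] (q : ι → Q) : ℝ := ∏ j, hgt (q j).1

/-- the product of the heights as a natural number -/
noncomputable def nN {ι : Type} [Fintype ι] (q : ι → Q) : ℕ := ∏ j, ((q j).1.1 : ℕ) * ((q j).1.2 : ℕ)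

/-- the exponent of the prime `p` in a reduced fraction -/
noncomputable def vq (p : ℕ) (q : Q) : ℤ := (padicValNat p (q.1.1 : ℕ) : ℤ) - (padicValNat p (q.1.2 : ℕ) : ℤ)

/-- the terms of height at most `Y` with the asymptotic coefficients -/
noncomputable def bo (Y y : ℝ) : ℂ :=
  ∑ q ∈ qs 0 Y, (((hgt q.1) ^ (-(1 / 2) : ℝ) * om (hgt q.1) y : ℝ) : ℂ) * ex y q.1

/-- a factor of a term of the main term, with its window -/
noncomputable def fc (c : ℝ → ℝ) (h y : ℝ) : ℝ := c y * (h ^ (-(1 / 2) : ℝ) * om h y)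

/-- the points with all heights in `[T / 2, 3 T]` -/
def Bx {ι : Type} {d : ℕ} (L : ι → Fin d → ℝ) (κ : ι → ℝ) (T : ℝ) : Set (Fin d → ℝ) :=
  {x | ∀ j, T / 2 ≤ pt L κ x j ∧ pt L κ x j ≤ 3 * T}

lemma hN_eq {ι : Type} [Fintype ι] (q : ι → Q) : hN q = (nN q : ℝ) := by
  unfold hN nN hgt
  push_cast
  rfl

lemma nN_pos {ι : Type} [Fintype ι] (q : ι → Q) : 0 < nN q :=
  Finset.prod_pos fun j _ => Nat.mul_pos (q j).1.1.pos (q j).1.2.pos

lemma one_le_hN {ι : Type} [Fintype ι] (q : ι → Q) : 1 ≤ hN q := by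
  rw [hN_eq]
  exact_mod_cast nN_pos q

/-- the windows vanish outside `[T / 2, 3 T]` -/
lemma wi_supp {ι : Type} {T Λ ℓ : ℝ} {a : ι → ℝ} {c : ι → ℝ → ℝ} (h : Wi T Λ ℓ a c) (j : ι) (y : ℝ)
    (hy : y ∉ Set.Icc (T / 2) (3 * T)) : c j y = 0 := by
  refine h.supp j y fun h1 => hy ⟨(h.lo j).trans h1.1, h1.2.trans (h.hi j)⟩

end Pool.Agent.P07318v
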