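import Pool.Agent.Lib.P07318v.Bridge

/-!
# The singular series as an Euler product

PROOF. `SS L = ∑' q : Rel L, ∏ j, htq (q j) ^ (-1/2)` (`SS_eq`), and the series converges: `Summable (hN q) ^ (-1/2)` over `Ker L` by comparison with `ker_sum` (`hN ≥ 1`), transported by `eRel`.
For a finite set `S` of primes let `R_S ⊆ Rel L` be the set of the `q` such that all primes dividing numerator or denominator of some `q j` are in `S`. The map `(v_p)_{p ∈ S} ↦ (j ↦ ∏_{p ∈ S} p ^ (v_p j))` is a bijection `(S → Lam L) ≃ R_S` (inverse: `v_p j = padicValRat p (q j)`;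
the relations: `∏_j q_j ^ (L j i) = ∏_{p ∈ S} p ^ (∑_j L j i v_p j)`, which is `1` iff all the exponents are `0`), and `htq (q j) = ∏_{p ∈ S} p ^ |v_p j|` (for `q > 0`: numerator and denominator are the products of the positive and of the negative parts), so
`∏ j, htq (q j) ^ (-1/2) = ∏_{p ∈ S} p ^ (-(∑ j, |v_p j|)/2)`. Hence `∑_{q ∈ R_S} = ∏_{p ∈ S} ∑'_{v ∈ Lam L} p ^ (-(∑ j |v j|)/2)` (all terms `≥ 0`; by induction on `S` with `Summable.tsum_mul_tsum_of_summable_norm`, or in `ENNReal`/`NNReal`, where products of `tsum`s need no summability: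
`ENNReal.tsum_mul_left`, `ENNReal.tsum_mul_right`, `Equiv.tsum_eq`, `ENNReal.tsum_prod`). As `S` increases to the set of all primes the left-hand side converges to the sum over `Rel L` (`HasSum` along the sets `R_S`: every finite set of `q`'s is contained in some `R_S`; the terms are nonnegative: squeeze between
a finite partial sum and the total). The factor of the prime `p` is `∑' v : Lam L, p ^ (-(∑ j, |v j|)/2) ≥ 1`, finite since `(v) ↦ R_{p}` is part of the convergent series.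
An alternative is `EulerProduct.eulerProduct_hasProd` for `f N = N ^ (-1/2) * #{q ∈ Rel L, ∏ j htq (q j) = N}`.
-/

set_option autoImplicit false

namespace Pool.Agent.P07318v

open MeasureTheory Complex Pool.Agent.P07318s Pool.Agent.P07318f Pool.Agent.P07318h Pool.Agent.P07318o

/-- the integer relations between the forms -/
def Lam {ι : Type} [Fintype ι] {d : ℕ} (L : ι → Fin d → ℤ) : Set (ι → ℤ) := {v | ∀ i, ∑ j, L j i * v j = 0}

namespace EulerSSAux

theorem val_same (p : ℕ) [hp : Fact p.Prime] {r : ℚ} (hr : r ≠ 0) (v : ℤ) :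
    padicValRat p (r * (p : ℚ) ^ v) = padicValRat p r + v := by
  have hp0 : (p : ℚ) ≠ 0 := by exact_mod_cast hp.out.ne_zero
  rw [padicValRat.mul hr (zpow_ne_zero v hp0), padicValRat.zpow, padicValRat.self hp.out.one_lt, mul_one]

theorem val_other (p p' : ℕ) [hp : Fact p.Prime] [hp' : Fact p'.Prime] (h : p' ≠ p) {r : ℚ} (hr : r ≠ 0)
    (v : ℤ) : padicValRat p' (r * (p : ℚ) ^ v) = padicValRat p' r := by
  have hp0 : (p : ℚ) ≠ 0 := by exact_mod_cast hp.out.ne_zero
  rw [padicValRat.mul hr (zpow_ne_zero v hp0), padicValRat.zpow, padicValRat.of_nat, padicValNat_primes h,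
    Nat.cast_zero, mul_zero, add_zero]

theorem exists_toQ {r : ℚ} (hr : 0 < r) : ∃ q : Q, toQ q = r :=
  ⟨eQ.symm ⟨r, hr⟩, congrArg Subtype.val (eQ.apply_symm_apply ⟨r, hr⟩)⟩

theorem not_dvd (p : ℕ) [hp : Fact p.Prime] (q : Q) (h : padicValRat p (toQ q) = 0) :
    ¬ p ∣ (q.1.1 : ℕ) ∧ ¬ p ∣ (q.1.2 : ℕ) := by
  have ha : ((q.1.1 : ℕ) : ℚ) ≠ 0 := by exact_mod_cast q.1.1.ne_zero
  have hb : ((q.1.2 : ℕ) : ℚ) ≠ 0 := by exact_mod_cast q.1.2.ne_zero
  unfold toQ at h
  rw [padicValRat.div ha hb, padicValRat.of_nat, padicValRat.of_nat] at h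
  have h1 : padicValNat p (q.1.1 : ℕ) = padicValNat p (q.1.2 : ℕ) := by omega
  have hnot : ¬ (p ∣ (q.1.1 : ℕ) ∧ p ∣ (q.1.2 : ℕ)) := fun h2 =>
    Nat.not_coprime_of_dvd_of_dvd hp.out.one_lt h2.1 h2.2 q.2
  constructor
  · intro h2
    apply hnot
    refine ⟨h2, ?_⟩
    apply dvd_of_one_le_padicValNat
    rw [← h1]
    exact one_le_padicValNat_of_dvd q.1.1.ne_zero h2
  · intro h2
    apply hnot
    refine ⟨?_, h2⟩
    apply dvd_of_one_le_padicValNat
    rw [h1]
    exact one_le_padicValNat_of_dvd q.1.2.ne_zero h2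

theorem exists_Q {a b : ℕ} (ha : 0 < a) (hb : 0 < b) (h : Nat.Coprime a b) :
    ∃ q : Q, (q.1.1 : ℕ) = a ∧ (q.1.2 : ℕ) = b :=
  ⟨⟨(⟨a, ha⟩, ⟨b, hb⟩), h⟩, rfl, rfl⟩

theorem htq_mul (p : ℕ) [hp : Fact p.Prime] {r : ℚ} (hr : 0 < r) (h : padicValRat p r = 0) (v : ℤ) :
    htq (r * (p : ℚ) ^ v) = htq r * (p : ℝ) ^ (|v| : ℤ) := by
  obtain ⟨q, rfl⟩ := exists_toQ hr
  obtain ⟨h1, h2⟩ := not_dvd p q h
  have hp0 : (p : ℚ) ≠ 0 := by exact_mod_cast hp.out.ne_zero
  obtain ⟨m, rfl | rfl⟩ := v.eq_nat_or_neg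
  · have hc : Nat.Coprime ((q.1.1 : ℕ) * p ^ m) (q.1.2 : ℕ) := by
      refine Nat.Coprime.mul_left q.2 ?_
      exact Nat.Coprime.pow_left m ((Nat.Prime.coprime_iff_not_dvd hp.out).2 h2)
    obtain ⟨q', hq1, hq2⟩ := exists_Q (Nat.mul_pos q.1.1.pos (pow_pos hp.out.pos m)) q.1.2.pos hc
    have e : toQ q * (p : ℚ) ^ (m : ℤ) = toQ q' := by
      unfold toQ
      rw [hq1, hq2]
      push_cast
      rw [zpow_natCast]
      ring
    rw [e, htq_toQ, htq_toQ]
    unfold hgt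
    rw [hq1, hq2, Nat.abs_cast, zpow_natCast]
    push_cast
    ring
  · have hc : Nat.Coprime (q.1.1 : ℕ) ((q.1.2 : ℕ) * p ^ m) := by
      refine Nat.Coprime.mul_right q.2 ?_
      exact Nat.Coprime.pow_right m (Nat.Coprime.symm ((Nat.Prime.coprime_iff_not_dvd hp.out).2 h1))
    obtain ⟨q', hq1, hq2⟩ := exists_Q q.1.1.pos (Nat.mul_pos q.1.2.pos (pow_pos hp.out.pos m)) hc
    have e : toQ q * (p : ℚ) ^ (-(m : ℤ)) = toQ q' := by
      unfold toQ
      rw [hq1, hq2]
      push_cast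
      rw [zpow_neg, zpow_natCast]
      have hb : ((q.1.2 : ℕ) : ℚ) ≠ 0 := by exact_mod_cast q.1.2.ne_zero
      field_simp
    rw [e, htq_toQ, htq_toQ]
    unfold hgt
    rw [hq1, hq2, abs_neg, Nat.abs_cast, zpow_natCast]
    push_cast
    ring

theorem htq_pos {r : ℚ} (hr : 0 < r) : 0 < htq r := by
  obtain ⟨q, rfl⟩ := exists_toQ hr
  rw [htq_toQ]
  exact hgt_pos _

theorem val_prod {ι : Type} (p : ℕ) [hp : Fact p.Prime] (s : Finset ι) (q : ι → ℚ) (hq : ∀ j, 0 < q j)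
    (l : ι → ℤ) : padicValRat p (∏ j ∈ s, q j ^ l j) = ∑ j ∈ s, l j * padicValRat p (q j) := by
  classical
  induction s using Finset.induction_on with
  | empty => simp
  | insert a s ha ih =>
    rw [Finset.prod_insert ha, Finset.sum_insert ha, padicValRat.mul (zpow_ne_zero _ (hq a).ne')
      (Finset.prod_ne_zero_iff.2 fun j _ => zpow_ne_zero _ (hq j).ne'), ih, padicValRat.zpow]

variable {ι : Type} [Fintype ι] {d : ℕ} (L : ι → Fin d → ℤ)

theorem val_mem (p : ℕ) [hp : Fact p.Prime] {q : ι → ℚ} (hq : q ∈ Rel L) :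
    (fun j => padicValRat p (q j)) ∈ Lam L := by
  intro i
  have h := val_prod p Finset.univ q hq.1 (fun j => L j i)
  rw [hq.2 i, padicValRat.one] at h
  exact h.symm

theorem mul_mem (p : ℕ) [hp : Fact p.Prime] {q : ι → ℚ} (hq : q ∈ Rel L) {v : ι → ℤ} (hv : v ∈ Lam L) :
    (fun j => q j * (p : ℚ) ^ v j) ∈ Rel L := by
  have hp0 : (0 : ℚ) < (p : ℚ) := by exact_mod_cast hp.out.pos
  refine ⟨fun j => mul_pos (hq.1 j) (zpow_pos hp0 _), fun i => ?_⟩
  simp only [mul_zpow, Finset.prod_mul_distrib]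
  rw [hq.2 i, one_mul]
  simp only [← zpow_mul]
  have h1 : ∀ s : Finset ι, ∏ j ∈ s, (p : ℚ) ^ (v j * L j i) = (p : ℚ) ^ (∑ j ∈ s, v j * L j i) := by
    classical
    intro s
    induction s using Finset.induction_on with
    | empty => simp
    | insert a s ha ih => rw [Finset.prod_insert ha, Finset.sum_insert ha, zpow_add₀ hp0.ne', ih]
  rw [h1]
  have h2 : ∑ j, v j * L j i = 0 := by
    rw [← hv i]
    exact Finset.sum_congr rfl fun j _ => mul_comm _ _
  rw [h2, zpow_zero]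

theorem neg_mem {v : ι → ℤ} (hv : v ∈ Lam L) : (fun j => -v j) ∈ Lam L := by
  intro i
  have h := hv i
  simp only [mul_neg, Finset.sum_neg_distrib, h, neg_zero]

/-- the tuples with all primes in `S` -/
def A (S : Finset Nat.Primes) : Set (Rel L) :=
  {q | ∀ p : Nat.Primes, p ∉ S → ∀ j, padicValRat (p : ℕ) (q.1 j) = 0}

/-- the terms -/
noncomputable def F (q : Rel L) : ℝ := ∏ j, (htq (q.1 j)) ^ (-(1 / 2) : ℝ)

/-- the weights -/
noncomputable def w (p : Nat.Primes) (v : Lam L) : ℝ := ((p : ℕ) : ℝ) ^ (-(((∑ j, |v.1 j| : ℤ) : ℝ)) / 2)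

theorem F_mul (p : Nat.Primes) (q : Rel L) (hq : ∀ j, padicValRat (p : ℕ) (q.1 j) = 0) (v : Lam L) (r : Rel L)
    (hr : ∀ j, r.1 j = q.1 j * ((p : ℕ) : ℚ) ^ v.1 j) : F L r = w L p v * F L q := by
  have : Fact (p : ℕ).Prime := ⟨p.2⟩
  have hp0 : (0 : ℝ) < ((p : ℕ) : ℝ) := by exact_mod_cast p.2.pos
  unfold F w
  have h1 : ∀ j, (htq (r.1 j)) ^ (-(1 / 2) : ℝ) =
      ((p : ℕ) : ℝ) ^ (-((|v.1 j| : ℤ) : ℝ) / 2) * (htq (q.1 j)) ^ (-(1 / 2) : ℝ) := by
    intro j
    rw [hr j, htq_mul (p : ℕ) (q.2.1 j) (hq j), Real.mul_rpow (htq_pos (q.2.1 j)).le (by positivity), mul_comm]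
    congr 1
    rw [← Real.rpow_intCast, ← Real.rpow_mul hp0.le]
    congr 1
    ring
  rw [Finset.prod_congr rfl fun j _ => h1 j, Finset.prod_mul_distrib]
  congr 1
  rw [← Real.rpow_sum_of_pos hp0]
  congr 1
  rw [← Finset.sum_div, Finset.sum_neg_distrib]
  push_cast
  rfl

theorem one_rel : (fun _ : ι => (1 : ℚ)) ∈ Rel L := by
  refine ⟨fun _ => one_pos, fun i => ?_⟩
  simp

theorem zero_lam : (fun _ : ι => (0 : ℤ)) ∈ Lam L := by
  intro i
  simp

theorem F_nonneg (q : Rel L) : 0 ≤ F L q :=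
  Finset.prod_nonneg fun j _ => Real.rpow_nonneg (htq_pos (q.2.1 j)).le _

theorem w_nonneg (p : Nat.Primes) (v : Lam L) : 0 ≤ w L p v := Real.rpow_nonneg (Nat.cast_nonneg _) _

theorem F_one : F L ⟨_, one_rel L⟩ = 1 := by
  unfold F htq
  simp

theorem w_summable (hF : Summable (F L)) (p : Nat.Primes) : Summable (w L p) := by
  have : Fact (p : ℕ).Prime := ⟨p.2⟩
  let φ : Lam L → Rel L := fun v => ⟨_, mul_mem L (p : ℕ) (one_rel L) v.2⟩
  have hφ : Function.Injective φ := by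
    intro v v' h
    apply Subtype.ext
    funext j
    have h1 : (1 : ℚ) * ((p : ℕ) : ℚ) ^ v.1 j = 1 * ((p : ℕ) : ℚ) ^ v'.1 j :=
      congrFun (congrArg Subtype.val h) j
    have h2 := congrArg (padicValRat (p : ℕ)) h1
    rw [val_same (p : ℕ) one_ne_zero, val_same (p : ℕ) one_ne_zero] at h2
    omega
  have h1 : w L p = F L ∘ φ := by
    funext v
    have h2 := F_mul L p ⟨_, one_rel L⟩ (fun j => padicValRat.one) v (φ v) (fun j => rfl)
    rw [F_one, mul_one] at h2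
    exact h2.symm
  rw [h1]
  exact hF.comp_injective hφ

/-- splitting off a prime -/
noncomputable def eS (p : Nat.Primes) (S : Finset Nat.Primes) [DecidableEq Nat.Primes] (hp : p ∉ S) :
    A L (insert p S) ≃ Lam L × A L S where
  toFun q := (⟨fun j => padicValRat (p : ℕ) (q.1.1 j), by
      have : Fact (p : ℕ).Prime := ⟨p.2⟩
      exact val_mem L (p : ℕ) q.1.2⟩,
    ⟨⟨fun j => q.1.1 j * ((p : ℕ) : ℚ) ^ (-padicValRat (p : ℕ) (q.1.1 j)), by
      have : Fact (p : ℕ).Prime := ⟨p.2⟩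
      exact mul_mem L (p : ℕ) q.1.2 (neg_mem L (val_mem L (p : ℕ) q.1.2))⟩, by
      intro p' hp' j
      have : Fact (p : ℕ).Prime := ⟨p.2⟩
      have : Fact (p' : ℕ).Prime := ⟨p'.2⟩
      show padicValRat (p' : ℕ) (q.1.1 j * ((p : ℕ) : ℚ) ^ (-padicValRat (p : ℕ) (q.1.1 j))) = 0
      by_cases h : p' = p
      · subst h
        rw [val_same (p' : ℕ) (q.1.2.1 j).ne', add_neg_cancel]
      · have h1 : (p' : ℕ) ≠ (p : ℕ) := fun h2 => h (Subtype.ext h2)
        rw [val_other (p : ℕ) (p' : ℕ) h1 (q.1.2.1 j).ne']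
        exact q.2 p' (by rw [Finset.mem_insert, not_or]; exact ⟨h, hp'⟩) j⟩)
  invFun x := ⟨⟨fun j => x.2.1.1 j * ((p : ℕ) : ℚ) ^ x.1.1 j, by
      have : Fact (p : ℕ).Prime := ⟨p.2⟩
      exact mul_mem L (p : ℕ) x.2.1.2 x.1.2⟩, by
      intro p' hp' j
      have : Fact (p : ℕ).Prime := ⟨p.2⟩
      have : Fact (p' : ℕ).Prime := ⟨p'.2⟩
      rw [Finset.mem_insert, not_or] at hp'
      show padicValRat (p' : ℕ) (x.2.1.1 j * ((p : ℕ) : ℚ) ^ x.1.1 j) = 0
      have h1 : (p' : ℕ) ≠ (p : ℕ) := fun h2 => hp'.1 (Subtype.ext h2)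
      rw [val_other (p : ℕ) (p' : ℕ) h1 (x.2.1.2.1 j).ne']
      exact x.2.2 p' hp'.2 j⟩
  left_inv q := by
    apply Subtype.ext
    apply Subtype.ext
    funext j
    have hp0 : ((p : ℕ) : ℚ) ≠ 0 := by exact_mod_cast p.2.ne_zero
    show q.1.1 j * ((p : ℕ) : ℚ) ^ (-padicValRat (p : ℕ) (q.1.1 j)) *
      ((p : ℕ) : ℚ) ^ padicValRat (p : ℕ) (q.1.1 j) = q.1.1 j
    rw [mul_assoc, ← zpow_add₀ hp0, neg_add_cancel, zpow_zero, mul_one]
  right_inv x := by
    have : Fact (p : ℕ).Prime := ⟨p.2⟩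
    have hp0 : ((p : ℕ) : ℚ) ≠ 0 := by exact_mod_cast p.2.ne_zero
    have h1 : ∀ j, padicValRat (p : ℕ) (x.2.1.1 j * ((p : ℕ) : ℚ) ^ x.1.1 j) = x.1.1 j := by
      intro j
      rw [val_same (p : ℕ) (x.2.1.2.1 j).ne', x.2.2 p hp j, zero_add]
    apply Prod.ext
    · apply Subtype.ext
      funext j
      exact h1 j
    · apply Subtype.ext
      apply Subtype.ext
      funext j
      show x.2.1.1 j * ((p : ℕ) : ℚ) ^ x.1.1 j *
        ((p : ℕ) : ℚ) ^ (-padicValRat (p : ℕ) (x.2.1.1 j * ((p : ℕ) : ℚ) ^ x.1.1 j)) = x.2.1.1 j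
      rw [h1 j, mul_assoc, ← zpow_add₀ hp0, add_neg_cancel, zpow_zero, mul_one]

theorem one_of_val {r : ℚ} (hr : 0 < r) (h : ∀ p : Nat.Primes, padicValRat (p : ℕ) r = 0) : r = 1 := by
  obtain ⟨q, rfl⟩ := exists_toQ hr
  have h1 : (q.1.1 : ℕ) = 1 := by
    by_contra hne
    obtain ⟨p, hp, hd⟩ := Nat.exists_prime_and_dvd hne
    have : Fact p.Prime := ⟨hp⟩
    exact (not_dvd p q (h ⟨p, hp⟩)).1 hd
  have h2 : (q.1.2 : ℕ) = 1 := by
    by_contra hne
    obtain ⟨p, hp, hd⟩ := Nat.exists_prime_and_dvd hne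
    have : Fact p.Prime := ⟨hp⟩
    exact (not_dvd p q (h ⟨p, hp⟩)).2 hd
  unfold toQ
  rw [h1, h2]
  norm_num

theorem hasSum_A [DecidableEq Nat.Primes] (hF : Summable (F L)) (S : Finset Nat.Primes) :
    HasSum (fun q : A L S => F L q.1) (∏ p ∈ S, ∑' v, w L p v) := by
  induction S using Finset.induction_on with
  | empty =>
    rw [Finset.prod_empty]
    have hx : (⟨_, one_rel L⟩ : Rel L) ∈ A L ∅ := fun p _ j => padicValRat.one
    have h1 : ∀ q : A L ∅, q = ⟨⟨_, one_rel L⟩, hx⟩ := by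
      intro q
      apply Subtype.ext
      apply Subtype.ext
      funext j
      exact one_of_val (q.1.2.1 j) (fun p => q.2 p (Finset.notMem_empty p) j)
    have h2 := hasSum_single (f := fun q : A L ∅ => F L q.1) ⟨⟨_, one_rel L⟩, hx⟩
      (fun q hq => absurd (h1 q) hq)
    rw [show F L ⟨_, one_rel L⟩ = 1 from F_one L] at h2
    exact h2
  | insert p S hp ih =>
    rw [Finset.prod_insert hp]
    have hw := (w_summable L hF p).hasSum
    have hs : Summable fun x : Lam L × A L S => w L p x.1 * F L x.2.1 :=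
      Summable.mul_of_nonneg hw.summable ih.summable (w_nonneg L p) (fun q => F_nonneg L q.1)
    have h1 := hw.mul ih hs
    rw [← (eS L p S hp).hasSum_iff] at h1
    refine h1.congr_fun ?_
    intro q
    have h2 := F_mul L p ((eS L p S hp) q).2.1 (fun j => ((eS L p S hp) q).2.2 p hp j)
      ((eS L p S hp) q).1 q.1 (fun j => by
        have h3 := congrArg (fun z : A L (insert p S) => z.1.1 j) ((eS L p S hp).symm_apply_apply q)
        exact h3.symm)
    exact h2

theorem fin_primes (q : Rel L) : {p : Nat.Primes | ∃ j, padicValRat (p : ℕ) (q.1 j) ≠ 0}.Finite := by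
  have h1 : (⋃ j, (((q.1 j).num.natAbs.primeFactors ∪ (q.1 j).den.primeFactors : Finset ℕ) : Set ℕ)).Finite :=
    Set.finite_iUnion fun j => Finset.finite_toSet _
  refine (h1.preimage (Nat.Primes.coe_nat_injective.injOn)).subset ?_
  rintro p ⟨j, hj⟩
  rw [Set.mem_preimage, Set.mem_iUnion]
  refine ⟨j, ?_⟩
  rw [Finset.mem_coe, Finset.mem_union, Nat.mem_primeFactors, Nat.mem_primeFactors]
  by_contra hcon
  rw [not_or] at hcon
  apply hj
  have hn0 : (q.1 j).num.natAbs ≠ 0 := by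
    have := Rat.num_pos.2 (q.2.1 j)
    omega
  have h2 : ¬ (p : ℕ) ∣ (q.1 j).num.natAbs := fun h => hcon.1 ⟨p.2, h, hn0⟩
  have h3 : ¬ (p : ℕ) ∣ (q.1 j).den := fun h => hcon.2 ⟨p.2, h, (q.1 j).den_nz⟩
  unfold padicValRat padicValInt
  rw [padicValNat.eq_zero_of_not_dvd h2, padicValNat.eq_zero_of_not_dvd h3]
  rfl

theorem hasProd_w (hF : Summable (F L)) : HasProd (fun p : Nat.Primes => ∑' v, w L p v) (∑' q, F L q) := by
  classical
  have h1 : ∀ S : Finset Nat.Primes, ∏ p ∈ S, ∑' v, w L p v = ∑' q, (A L S).indicator (F L) q := by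
    intro S
    rw [← (hasSum_A L hF S).tsum_eq]
    exact tsum_subtype (A L S) (F L)
  have h2 : Filter.Tendsto (fun S : Finset Nat.Primes => ∑' q, (A L S).indicator (F L) q) Filter.atTop
      (nhds (∑' q, F L q)) := by
    refine tendsto_tsum_of_dominated_convergence (bound := F L) hF ?_ ?_
    · intro q
      refine tendsto_const_nhds.congr' ?_
      filter_upwards [Filter.eventually_ge_atTop (fin_primes L q).toFinset] with S hS
      symm
      apply Set.indicator_of_mem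
      intro p hp j
      by_contra hne
      apply hp
      apply hS
      rw [Set.Finite.mem_toFinset]
      exact ⟨j, hne⟩
    · refine Filter.Eventually.of_forall fun S q => ?_
      rw [Real.norm_of_nonneg (Set.indicator_nonneg (fun q _ => F_nonneg L q) q)]
      exact Set.indicator_le_self' (fun q _ => F_nonneg L q) q
  have h3 : Filter.Tendsto (fun S : Finset Nat.Primes => ∏ p ∈ S, ∑' v, w L p v) Filter.atTop
      (nhds (∑' q, F L q)) := h2.congr fun S => (h1 S).symm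
  unfold HasProd
  rw [SummationFilter.unconditional_filter]
  exact h3

end EulerSSAux

theorem ss_euler {n : ℕ} (hn : 1 ≤ n) {ι : Type} [Fintype ι] [DecidableEq ι] (hι : Fintype.card ι = 2 * n + 2)
    (L : ι → Fin (n + 1) → ℤ) (hL : GP fun j i => (L j i : ℝ)) :
    HasProd (fun p : Nat.Primes => ∑' v : Lam L, ((p : ℕ) : ℝ) ^ (-(((∑ j, |v.1 j| : ℤ) : ℝ)) / 2)) (SS L) := by
  have h1 := ker_sum hn hι L hL
  have h2 : Summable fun q : Ker L => (hN q.1) ^ (-(1 / 2) : ℝ) := by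
    refine Summable.of_nonneg_of_le (fun q => ?_) (fun q => ?_) h1
    · refine Real.rpow_nonneg ?_ _
      exact Finset.prod_nonneg fun j _ => (hgt_pos _).le
    · have h3 : 1 ≤ hN q.1 := by
        unfold hN
        have h4 : ∏ _j : ι, (1 : ℝ) ≤ ∏ j, hgt (q.1 j).1 :=
          Finset.prod_le_prod (fun _ _ => zero_le_one) fun j _ => one_le_hgt _
        rwa [Finset.prod_const_one] at h4
      exact Real.rpow_le_rpow_of_exponent_le h3 (by norm_num)
  have h3 : Summable (EulerSSAux.F L) := by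
    rw [← (eRel L).summable_iff]
    refine h2.congr fun q => ?_
    unfold hN
    rw [← Real.finsetProd_rpow _ _ fun j _ => (hgt_pos _).le]
    refine Finset.prod_congr rfl fun j _ => ?_
    show _ = (htq (toQ (q.1 j))) ^ (-(1 / 2) : ℝ)
    rw [htq_toQ]
  rw [SS_eq L]
  exact EulerSSAux.hasProd_w L h3

end Pool.Agent.P07318v
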