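import Pool.Agent.Lib.P07318v.OmBd

/-!
# The factors of the terms with small heights  (1.5 h)

`fc c h y = c y * (h ^ (-1/2) * om h y)`.
PROOF. Bound: `c y = 0` unless `y ∈ [T/2, 3T]`, there `|fc| ≤ h^(-1/2) K lg T h^(1/20) ≤ K lg T` (`om_bd`, `0 ≤ c ≤ 1`). Derivative at `y > 0`: `c' y h^(-1/2) om h y + c y h^(-1/2) / y` (`om h y = log y - log(2πh) + 2γ`). `|c'| ≤ Λ/(T/4)` everywhere (`Cut.d1`), `c' y = 0` for `y ∉ [T/2, 3T]` (the complement is open and `c = 0` on it), so for all `y > 0`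
`|fc'| ≤ (4Λ/T) K lg T + 2/T ≤ K' Λ lg T / T`. Lipschitz: let `y < y'`. If `T/4 ≤ y`: mean value theorem on `[y, y']` (`Convex.norm_image_sub_le_of_norm_deriv_le` or `exists_deriv_eq_slope`). If `y < T/4`: `fc c h y = 0 = fc c h (T/4)`; if `y' ≤ T/4` also `fc c h y' = 0`, otherwise use `[T/4, y']` and `y' - T/4 ≤ y' - y`.
`fc_cont` follows from the Lipschitz bound (`LipschitzWith`, or `continuous_of_...`), or directly: continuous on `(0, ∞)` and zero on `(-∞, T/2)`.
-/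

set_option autoImplicit false

namespace Pool.Agent.P07318v

open MeasureTheory Complex Pool.Agent.P07318s Pool.Agent.P07318f Pool.Agent.P07318h Pool.Agent.P07318o

namespace FcVAux

lemma w_deriv (h y : ℝ) (hh : 1 ≤ h) (hy : 0 < y) : HasDerivAt (fun y => om h y) (1 / y) y := by
  have hp : 0 < 2 * Real.pi * h := by positivity
  have h1 : HasDerivAt (fun y : ℝ => y / (2 * Real.pi * h)) (1 / (2 * Real.pi * h)) y := by
    simpa using (hasDerivAt_id y).div_const (2 * Real.pi * h)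
  have h2 := h1.log (by positivity)
  have h3 := h2.add_const (2 * Real.eulerMascheroniConstant)
  unfold om
  have h4 : 1 / (2 * Real.pi * h) / (y / (2 * Real.pi * h)) = 1 / y := div_div_div_cancel_right₀ hp.ne' 1 y
  rw [h4] at h3
  exact h3

lemma fc_deriv {T Λ h : ℝ} {c : ℝ → ℝ} (hh : 1 ≤ h) (hc : Cut (T / 4) Λ c) (y : ℝ) (hy : 0 < y) :
    HasDerivAt (fc c h) (deriv c y * (h ^ (-(1 / 2) : ℝ) * om h y) + c y * (h ^ (-(1 / 2) : ℝ) * (1 / y))) y := by
  have h1 : HasDerivAt c (deriv c y) y :=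
    ((hc.smooth.differentiable (by norm_num)) y).hasDerivAt
  have h2 := (w_deriv h y hh hy).const_mul (h ^ (-(1 / 2) : ℝ))
  exact h1.mul h2

lemma fc_max {T h : ℝ} {c : ℝ → ℝ} (hT : 64 ≤ T)
    (hs : ∀ y, y ∉ Set.Icc (T / 2) (3 * T) → c y = 0) (y : ℝ) : fc c h y = fc c h (max y (T / 4)) := by
  by_cases hy : T / 4 ≤ y
  · rw [max_eq_left hy]
  · push Not at hy
    rw [max_eq_right hy.le]
    unfold fc
    rw [hs y (fun h1 => by have := h1.1; linarith), hs (T / 4) (fun h1 => by have := h1.1; linarith)]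
    simp

lemma deriv_zero {T : ℝ} {c : ℝ → ℝ}
    (hs : ∀ y, y ∉ Set.Icc (T / 2) (3 * T) → c y = 0) (y : ℝ) (hy : y ∉ Set.Icc (T / 2) (3 * T)) : deriv c y = 0 := by
  have ho : IsOpen (Set.Icc (T / 2) (3 * T))ᶜ := isClosed_Icc.isOpen_compl
  have h1 : c =ᶠ[nhds y] fun _ => (0 : ℝ) := by
    filter_upwards [ho.mem_nhds hy] with z hz
    exact hs z hz
  rw [h1.deriv_eq]
  simp

end FcVAux

open FcVAux in
theorem fc_bd : ∃ K : ℝ, 1 ≤ K ∧ ∀ (T Λ h : ℝ) (c : ℝ → ℝ), 64 ≤ T → 1 ≤ Λ → 1 ≤ h → Cut (T / 4) Λ c →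
    (∀ y, y ∉ Set.Icc (T / 2) (3 * T) → c y = 0) →
    (∀ y, |fc c h y| ≤ K * lg T) ∧ ∀ y y', |fc c h y - fc c h y'| ≤ K * Λ * lg T / T * |y - y'| := by
  obtain ⟨K, hK1, hK⟩ := om_bd
  refine ⟨4 * K + 2, by linarith, ?_⟩
  intro T Λ h c hT hΛ hh hc hs
  have hlg : 1 ≤ lg T := by
    unfold lg
    have := Real.log_nonneg (show (1 : ℝ) ≤ T by linarith)
    linarith
  have hT0 : 0 < T := by linarith
  have hh0 : 0 < h := by linarith
  have hr0 : 0 < h ^ (-(1 / 2) : ℝ) := Real.rpow_pos_of_pos hh0 _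
  have hr1 : h ^ (-(1 / 2) : ℝ) ≤ 1 := Real.rpow_le_one_of_one_le_of_nonpos hh (by norm_num)
  have hw : ∀ y, y ∈ Set.Icc (T / 2) (3 * T) → |h ^ (-(1 / 2) : ℝ) * om h y| ≤ K * lg T := by
    intro y hy
    have h1 := hK T y h hT hy.1 hy.2 hh
    rw [abs_mul, abs_of_pos hr0]
    have h2 : h ^ (-(1 / 2) : ℝ) * h ^ (1 / 20 : ℝ) ≤ 1 := by
      rw [← Real.rpow_add hh0]
      exact Real.rpow_le_one_of_one_le_of_nonpos hh (by norm_num)
    have h3 : 0 ≤ K * lg T := by positivity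
    calc h ^ (-(1 / 2) : ℝ) * |om h y| ≤ h ^ (-(1 / 2) : ℝ) * (K * lg T * h ^ (1 / 20 : ℝ)) :=
          mul_le_mul_of_nonneg_left h1 hr0.le
      _ = K * lg T * (h ^ (-(1 / 2) : ℝ) * h ^ (1 / 20 : ℝ)) := by ring
      _ ≤ K * lg T * 1 := mul_le_mul_of_nonneg_left h2 h3
      _ = K * lg T := mul_one _
  have hKl : 0 ≤ K * lg T := by positivity
  refine ⟨?_, ?_⟩
  · intro y
    by_cases hy : y ∈ Set.Icc (T / 2) (3 * T)
    · unfold fc
      rw [abs_mul, abs_of_nonneg (hc.nonneg y)]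
      have h1 := hw y hy
      have h2 := hc.le_one y
      have h3 := hc.nonneg y
      have h4 : c y * |h ^ (-(1 / 2) : ℝ) * om h y| ≤ 1 * (K * lg T) := mul_le_mul h2 h1 (abs_nonneg _) zero_le_one
      nlinarith
    · unfold fc
      rw [hs y hy, zero_mul, abs_zero]
      positivity
  · have hL : ∀ y, T / 4 ≤ y → ‖deriv (fc c h) y‖ ≤ (4 * K + 2) * Λ * lg T / T := by
      intro y hy
      have hy0 : 0 < y := by linarith
      rw [(fc_deriv hh hc y hy0).deriv]
      have hpos : 0 ≤ (4 * K + 2) * Λ * lg T / T := by positivity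
      by_cases hyI : y ∈ Set.Icc (T / 2) (3 * T)
      · have h1 := hw y hyI
        have h2 := hc.d1 y
        have h3 : |c y| ≤ 1 := by rw [abs_of_nonneg (hc.nonneg y)]; exact hc.le_one y
        have h4 : |h ^ (-(1 / 2) : ℝ) * (1 / y)| ≤ 2 / T := by
          rw [abs_of_pos (by positivity)]
          have h5 : 1 / y ≤ 2 / T := by
            rw [div_le_div_iff₀ hy0 hT0]
            have := hyI.1
            linarith
          calc h ^ (-(1 / 2) : ℝ) * (1 / y) ≤ 1 * (2 / T) := mul_le_mul hr1 h5 (by positivity) zero_le_one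
            _ = 2 / T := one_mul _
        rw [Real.norm_eq_abs]
        calc |deriv c y * (h ^ (-(1 / 2) : ℝ) * om h y) + c y * (h ^ (-(1 / 2) : ℝ) * (1 / y))|
            ≤ |deriv c y * (h ^ (-(1 / 2) : ℝ) * om h y)| + |c y * (h ^ (-(1 / 2) : ℝ) * (1 / y))| := abs_add_le _ _
          _ = |deriv c y| * |h ^ (-(1 / 2) : ℝ) * om h y| + |c y| * |h ^ (-(1 / 2) : ℝ) * (1 / y)| := by
              rw [abs_mul, abs_mul (c y)]
          _ ≤ (Λ / (T / 4)) * (K * lg T) + 1 * (2 / T) := by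
              refine add_le_add (mul_le_mul h2 h1 (abs_nonneg _) (by positivity)) ?_
              exact mul_le_mul h3 h4 (abs_nonneg _) zero_le_one
          _ ≤ (4 * K + 2) * Λ * lg T / T := by
              have h6 : (Λ / (T / 4)) * (K * lg T) + 1 * (2 / T) = (4 * K * Λ * lg T + 2) / T := by
                field_simp
              rw [h6]
              refine div_le_div_of_nonneg_right ?_ hT0.le
              have : 1 ≤ Λ * lg T := by nlinarith
              nlinarith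
      · rw [deriv_zero hs y hyI, hs y hyI]
        simpa using hpos
    intro y y'
    rw [fc_max hT hs y, fc_max hT hs y']
    have hD : ∀ z ∈ Set.Ici (T / 4), DifferentiableAt ℝ (fc c h) z := fun z hz =>
      (fc_deriv hh hc z (by have := Set.mem_Ici.1 hz; linarith)).differentiableAt
    have h1 := Convex.norm_image_sub_le_of_norm_deriv_le (f := fc c h) hD (fun z hz => hL z hz)
      (convex_Ici (T / 4)) (x := max y' (T / 4)) (y := max y (T / 4)) (Set.mem_Ici.2 (le_max_right _ _)) (Set.mem_Ici.2 (le_max_right _ _))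
    rw [Real.norm_eq_abs, Real.norm_eq_abs] at h1
    refine h1.trans ?_
    refine mul_le_mul_of_nonneg_left ?_ (by positivity)
    exact abs_max_sub_max_le_abs _ _ _

open FcVAux in
theorem fc_cont {T Λ h : ℝ} {c : ℝ → ℝ} (hT : 64 ≤ T) (hh : 1 ≤ h) (hc : Cut (T / 4) Λ c)
    (hs : ∀ y, y ∉ Set.Icc (T / 2) (3 * T) → c y = 0) : Continuous (fc c h) := by
  have h1 : ContinuousOn (fc c h) (Set.Ici (T / 4)) := fun z hz =>
    (fc_deriv hh hc z (by have := Set.mem_Ici.1 hz; linarith)).continuousAt.continuousWithinAt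
  have h2 : fc c h = fun y => fc c h (max y (T / 4)) := funext fun y => fc_max hT hs y
  rw [h2]
  exact h1.comp_continuous (by fun_prop) (fun y => Set.mem_Ici.2 (le_max_right _ _))

end Pool.Agent.P07318v
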