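import Pool.Agent.Lib.P07318v.Lin1

/-!
# Module FinV: finiteness of the inner forms

PROOF.  For every `u` Cauchy-Schwarz in `s` (`FrTriAux.cs` of Lib/P07318o/FrTri, or `ENNReal.lintegral_mul_le_Lp_mul_Lq`), `Gs = ∏ b ∈ univ.erase b₀, g b (..)`:
`(∫⁻ s, w (u, s) * Gs) ^ 2 ≤ (∫⁻ s, w (u, s) ^ 2) * ∫⁻ s, Gs ^ 2 ≤ K * ∫⁻ s, ∏ b ∈ univ.erase b₀, g b (pt ..) ^ 2`.  Integrate over `u` (`lintegral_const_mul`, the
functions are measurable: `XX_cont`, `pt_cont`), `lintegral_prod`, `pr_lint` (Lin1; multiply with `ofReal |det₁|`, `det₁ ≠ 0`):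
`∫⁻ p, ∏ b ∈ univ.erase b₀, g b (pt L κ (XX L κ p) (inr b)) ^ 2 = ofReal |det₁| * ∫⁻ x, ∏ b ∈ univ.erase b₀, g b (pt L κ x (inr b)) ^ 2`.
`univ.erase b₀` is the image of `b₀.succAbove : Fin (n + 1) → Fin (n + 2)` (as `FrChAux.prod_erase` of Lib/P07318o/FrCh:
`∏ j ∈ univ.erase i, f j = ∏ j, f (i.succAbove j)`), so `crd_prod` for `σ = fun i => inr (b₀.succAbove i)` (injective) gives
`≤ ofReal |det σ|⁻¹ * ∏ b ∈ univ.erase b₀, ∫⁻ y, g b y ^ 2`.  `C = |det₁| * (1 + ∑ b₀, |det σ_(b₀)|⁻¹)`.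
-/

set_option autoImplicit false

namespace Pool.Agent.P07318v

open MeasureTheory Complex Pool.Agent.P07318s Pool.Agent.P07318f Pool.Agent.P07318h Pool.Agent.P07318o

lemma finv_prod_erase {M : Type*} [CommMonoid M] {m : ℕ} (i : Fin (m + 1)) (f : Fin (m + 1) → M) :
    ∏ j ∈ Finset.univ.erase i, f j = ∏ j, f (i.succAbove j) := by
  classical
  have h : (Finset.univ.erase i : Finset (Fin (m + 1))) = Finset.univ.image i.succAbove := by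
    ext j
    simp
  rw [h, Finset.prod_image (fun a _ b _ hab => Fin.succAbove_right_injective hab)]

lemma finv_cs {f g : ℝ → ENNReal} (hf : Measurable f) (hg : Measurable g) :
    (∫⁻ x, f x * g x) ^ 2 ≤ (∫⁻ x, f x ^ 2) * ∫⁻ x, g x ^ 2 := by
  have h := ENNReal.lintegral_mul_le_Lp_mul_Lq volume Real.HolderConjugate.two_two hf.aemeasurable hg.aemeasurable
  have h1 : ∫⁻ x, f x * g x ≤ (∫⁻ x, f x ^ 2) ^ (1 / 2 : ℝ) * (∫⁻ x, g x ^ 2) ^ (1 / 2 : ℝ) := by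
    simpa [ENNReal.rpow_two] using h
  have h2 : ∀ a : ENNReal, (a ^ (1 / 2 : ℝ)) ^ 2 = a := fun a => by
    rw [← ENNReal.rpow_natCast, ← ENNReal.rpow_mul]
    norm_num
  calc (∫⁻ x, f x * g x) ^ 2 ≤ ((∫⁻ x, f x ^ 2) ^ (1 / 2 : ℝ) * (∫⁻ x, g x ^ 2) ^ (1 / 2 : ℝ)) ^ 2 := pow_le_pow_left' h1 2
    _ = (∫⁻ x, f x ^ 2) * ∫⁻ x, g x ^ 2 := by rw [mul_pow, h2, h2]

theorem fin_v {n : ℕ} (L : Fin n ⊕ Fin (n + 2) → Fin (n + 1) → ℝ) (hL : GP L) : ∃ C : ℝ, 0 < C ∧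
    ∀ (κ : Fin n ⊕ Fin (n + 2) → ℝ) (g : Fin (n + 2) → ℝ → ENNReal) (w : (Fin n → ℝ) × ℝ → ENNReal) (b₀ : Fin (n + 2))
    (K : ENNReal), K ≠ ⊤ → (∀ b, Measurable (g b)) → Measurable w → (∀ u, ∫⁻ s, w (u, s) ^ 2 ≤ K) →
    ∫⁻ u : Fin n → ℝ, (∫⁻ s : ℝ, w (u, s) * ∏ b ∈ Finset.univ.erase b₀, g b (pt L κ (XX L κ (u, s)) (Sum.inr b))) ^ 2 ≤
      ENNReal.ofReal C * K * ∏ b ∈ Finset.univ.erase b₀, ∫⁻ y, g b y ^ 2 := by
  classical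
  have hD : (Mx L (s1 n)).det ≠ 0 := hL _ (s1_inj n)
  have hσ : ∀ b₀ : Fin (n + 2), Function.Injective fun i : Fin (n + 1) => (Sum.inr (b₀.succAbove i) : Fin n ⊕ Fin (n + 2)) :=
    fun b₀ a b hab => Fin.succAbove_right_injective (Sum.inr.inj hab)
  have hE : ∀ b₀ : Fin (n + 2), (Mx L fun i : Fin (n + 1) => (Sum.inr (b₀.succAbove i) : Fin n ⊕ Fin (n + 2))).det ≠ 0 :=
    fun b₀ => hL _ (hσ b₀)
  refine ⟨|(Mx L (s1 n)).det| * (1 + ∑ b₀ : Fin (n + 2), |(Mx L fun i : Fin (n + 1) => (Sum.inr (b₀.succAbove i) : Fin n ⊕ Fin (n + 2))).det|⁻¹),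
    mul_pos (abs_pos.2 hD) (by positivity), ?_⟩
  intro κ g w b₀ K hK hg hw hwK
  have hm : ∀ b, Measurable fun p : (Fin n → ℝ) × ℝ => g b (pt L κ (XX L κ p) (Sum.inr b)) := fun b =>
    (hg b).comp ((pt_cont L κ _).measurable.comp (XX_cont L κ).measurable)
  have hG : Measurable fun p : (Fin n → ℝ) × ℝ => ∏ b ∈ Finset.univ.erase b₀, g b (pt L κ (XX L κ p) (Sum.inr b)) :=
    Finset.measurable_fun_prod _ fun b _ => hm b
  have h1 : ∀ u : Fin n → ℝ, (∫⁻ s : ℝ, w (u, s) * ∏ b ∈ Finset.univ.erase b₀, g b (pt L κ (XX L κ (u, s)) (Sum.inr b))) ^ 2 ≤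
      K * ∫⁻ s : ℝ, (∏ b ∈ Finset.univ.erase b₀, g b (pt L κ (XX L κ (u, s)) (Sum.inr b))) ^ 2 := fun u =>
    (finv_cs (hw.comp measurable_prodMk_left) (hG.comp measurable_prodMk_left)).trans (mul_le_mul_left (hwK u) _)
  have h2 : ∫⁻ u : Fin n → ℝ, ∫⁻ s : ℝ, (∏ b ∈ Finset.univ.erase b₀, g b (pt L κ (XX L κ (u, s)) (Sum.inr b))) ^ 2 =
      ENNReal.ofReal |(Mx L (s1 n)).det| * ∫⁻ x, ∏ i, (g (b₀.succAbove i) (pt L κ x (Sum.inr (b₀.succAbove i)))) ^ 2 := by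
    rw [pr_lint L hL κ (fun x => ∏ i, (g (b₀.succAbove i) (pt L κ x (Sum.inr (b₀.succAbove i)))) ^ 2), ← mul_assoc,
      ← ENNReal.ofReal_mul (abs_nonneg _), mul_inv_cancel₀ (abs_ne_zero.2 hD), ENNReal.ofReal_one, one_mul,
      Measure.volume_eq_prod, lintegral_prod _ ?_]
    · refine lintegral_congr fun u => lintegral_congr fun s => ?_
      rw [finv_prod_erase, Finset.prod_pow]
    · refine Measurable.aemeasurable ?_
      exact Finset.measurable_fun_prod _ fun b _ => (hm (b₀.succAbove b)).pow_const 2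
  have h3 := crd_prod L κ (fun i : Fin (n + 1) => (Sum.inr (b₀.succAbove i) : Fin n ⊕ Fin (n + 2))) (hE b₀)
    (fun i y => g (b₀.succAbove i) y ^ 2) (fun i => (hg _).pow_const 2)
  have h4 : |(Mx L fun i : Fin (n + 1) => (Sum.inr (b₀.succAbove i) : Fin n ⊕ Fin (n + 2))).det|⁻¹ ≤
      1 + ∑ b₀ : Fin (n + 2), |(Mx L fun i : Fin (n + 1) => (Sum.inr (b₀.succAbove i) : Fin n ⊕ Fin (n + 2))).det|⁻¹ := by
    have := Finset.single_le_sum (f := fun b₀ : Fin (n + 2) => |(Mx L fun i : Fin (n + 1) => (Sum.inr (b₀.succAbove i) : Fin n ⊕ Fin (n + 2))).det|⁻¹)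
      (fun i _ => by positivity) (Finset.mem_univ b₀)
    linarith
  calc ∫⁻ u : Fin n → ℝ, (∫⁻ s : ℝ, w (u, s) * ∏ b ∈ Finset.univ.erase b₀, g b (pt L κ (XX L κ (u, s)) (Sum.inr b))) ^ 2
      ≤ ∫⁻ u : Fin n → ℝ, K * ∫⁻ s : ℝ, (∏ b ∈ Finset.univ.erase b₀, g b (pt L κ (XX L κ (u, s)) (Sum.inr b))) ^ 2 :=
        lintegral_mono h1
    _ = K * (ENNReal.ofReal |(Mx L (s1 n)).det| * ∫⁻ x, ∏ i, (g (b₀.succAbove i) (pt L κ x (Sum.inr (b₀.succAbove i)))) ^ 2) := by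
        rw [lintegral_const_mul' _ _ hK, h2]
    _ = K * (ENNReal.ofReal |(Mx L (s1 n)).det| * (ENNReal.ofReal |(Mx L fun i : Fin (n + 1) => (Sum.inr (b₀.succAbove i) : Fin n ⊕ Fin (n + 2))).det|⁻¹ *
          ∏ b ∈ Finset.univ.erase b₀, ∫⁻ y, g b y ^ 2)) := by
        rw [h3, finv_prod_erase]
    _ ≤ K * (ENNReal.ofReal |(Mx L (s1 n)).det| * (ENNReal.ofReal (1 + ∑ b₀ : Fin (n + 2), |(Mx L fun i : Fin (n + 1) => (Sum.inr (b₀.succAbove i) : Fin n ⊕ Fin (n + 2))).det|⁻¹) *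
          ∏ b ∈ Finset.univ.erase b₀, ∫⁻ y, g b y ^ 2)) := by
        gcongr
    _ = _ := by
        rw [ENNReal.ofReal_mul (abs_nonneg _)]
        ring

end Pool.Agent.P07318v
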