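import Pool.Agent.Lib.P07318v.SingV

/-!
# Four term progressions
-/

set_option autoImplicit false

namespace Pool.Agent.P07318v

open MeasureTheory Complex Pool.Agent.P07318s Pool.Agent.P07318f Pool.Agent.P07318h Pool.Agent.P07318o

/-- the forms `x_0 + j x_1`, `j = 0, 1, 2, 3` -/
def L4 : Fin 4 → Fin 2 → ℤ := fun j => ![1, (j : ℕ)]

lemma gp4 : GP fun j i => (L4 j i : ℝ) := by
  intro σ hσ
  rw [Matrix.det_fin_two]
  simp only [Matrix.of_apply, L4]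
  have h : σ 0 ≠ σ 1 := fun h => absurd (hσ h) (by decide)
  have h2 : ((σ 0 : ℕ) : ℝ) ≠ ((σ 1 : ℕ) : ℝ) := by
    intro h3
    exact h (Fin.ext (by exact_mod_cast h3))
  intro h3
  apply h2
  simp at h3
  linarith

lemma pt4 (x : Fin 2 → ℝ) (j : Fin 4) : pt (fun j i => (L4 j i : ℝ)) 0 x j = x 0 + (j : ℕ) * x 1 := by
  unfold pt
  simp [Fin.sum_univ_two, L4]

/-- the domain -/
def K4 (T : ℝ) : Set (ℝ × ℝ) := {x | ∀ j : Fin 4, T ≤ x.1 + (j : ℕ) * x.2 ∧ x.1 + (j : ℕ) * x.2 ≤ 2 * T}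

lemma mem_K4 {T : ℝ} (x : ℝ × ℝ) : x ∈ K4 T ↔ x.1 ∈ Set.Icc T (2 * T) ∧ x.2 ∈ Set.Icc ((T - x.1) / 3) ((2 * T - x.1) / 3) := by
  unfold K4
  constructor
  · intro h
    have h0 := h 0
    have h3 := h 3
    simp at h0 h3
    refine ⟨⟨h0.1, h0.2⟩, ?_, ?_⟩
    · rw [div_le_iff₀ (by norm_num)]
      linarith [h3.1]
    · rw [le_div_iff₀ (by norm_num)]
      linarith [h3.2]
  · rintro ⟨⟨h1, h2⟩, h3, h4⟩ j
    rw [div_le_iff₀ (by norm_num)] at h3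
    rw [le_div_iff₀ (by norm_num)] at h4
    have hj : ((j : ℕ) : ℝ) ≤ 3 := by
      have := j.2
      exact_mod_cast (show (j : ℕ) ≤ 3 by omega)
    have hj0 : (0 : ℝ) ≤ ((j : ℕ) : ℝ) := Nat.cast_nonneg _
    constructor <;> nlinarith

lemma meas_K4 (T : ℝ) : MeasurableSet (K4 T) := by
  refine IsClosed.measurableSet ?_
  unfold K4
  simp only [Set.setOf_forall]
  refine isClosed_iInter fun j => ?_
  rw [Set.setOf_and]
  exact (isClosed_le (by fun_prop) (by fun_prop)).inter (isClosed_le (by fun_prop) (by fun_prop))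

lemma vol_K4 {T : ℝ} (hT : 0 ≤ T) : volume (K4 T) = ENNReal.ofReal (T ^ 2 / 3) := by
  rw [Measure.volume_eq_prod, Measure.prod_apply (meas_K4 T)]
  have h1 : ∀ t : ℝ, volume (Prod.mk t ⁻¹' K4 T) = Set.indicator (Set.Icc T (2 * T)) (fun _ => ENNReal.ofReal (T / 3)) t := by
    intro t
    by_cases ht : t ∈ Set.Icc T (2 * T)
    · rw [Set.indicator_of_mem ht]
      have : Prod.mk t ⁻¹' K4 T = Set.Icc ((T - t) / 3) ((2 * T - t) / 3) := by
        ext h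
        rw [Set.mem_preimage, mem_K4]
        simp [ht.1, ht.2]
      rw [this, Real.volume_Icc]
      congr 1
      ring
    · rw [Set.indicator_of_notMem ht]
      have : Prod.mk t ⁻¹' K4 T = ∅ := by
        ext h
        rw [Set.mem_preimage, mem_K4]
        simp only [Set.mem_empty_iff_false, iff_false]
        exact fun h => ht h.1
      rw [this, measure_empty]
  simp only [h1]
  rw [lintegral_indicator measurableSet_Icc, setLIntegral_const, Real.volume_Icc, ← ENNReal.ofReal_mul (by positivity)]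
  congr 1
  ring

theorem four_ap : ∃ C T₀ : ℝ, 0 < C ∧ 64 ≤ T₀ ∧ ∀ T : ℝ, T₀ ≤ T →
    |(∫ x in {x : ℝ × ℝ | ∀ j : Fin 4, T ≤ x.1 + (j : ℕ) * x.2 ∧ x.1 + (j : ℕ) * x.2 ≤ 2 * T}, ∏ j : Fin 4, gz (x.1 + (j : ℕ) * x.2)) -
      SS L4 / 3 * T ^ 2 * Real.log T ^ 4| ≤ C * T ^ 2 * Real.log T ^ 3 := by
  obtain ⟨C, T₀, hC, hT₀, h⟩ := sing_v (n := 1) le_rfl (ι := Fin 4) (by simp) L4 gp4
  refine ⟨C, T₀, hC, hT₀, fun T hT => ?_⟩
  have hT64 : 64 ≤ T := hT₀.trans hT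
  have h1 := h (fun _ => T) (fun _ => 2 * T) T hT (fun _ => le_rfl) (fun _ => le_rfl) (fun _ => by linarith)
  have e := volume_preserving_finTwoArrow ℝ
  have hK : {x : Fin (1 + 1) → ℝ | ∀ j, T ≤ pt (fun j i => (L4 j i : ℝ)) 0 x j ∧ pt (fun j i => (L4 j i : ℝ)) 0 x j ≤ 2 * T} =
      MeasurableEquiv.finTwoArrow ⁻¹' K4 T := by
    ext x
    unfold K4
    simp only [Set.mem_setOf_eq, Set.mem_preimage, pt4]
    rfl
  have hv : volume {x : Fin (1 + 1) → ℝ | ∀ j, T ≤ pt (fun j i => (L4 j i : ℝ)) 0 x j ∧ pt (fun j i => (L4 j i : ℝ)) 0 x j ≤ 2 * T} =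
      ENNReal.ofReal (T ^ 2 / 3) := by
    rw [hK, e.measure_preimage (meas_K4 T).nullMeasurableSet, vol_K4 (by linarith)]
  have hI : (∫ x in {x : Fin (1 + 1) → ℝ | ∀ j, T ≤ pt (fun j i => (L4 j i : ℝ)) 0 x j ∧ pt (fun j i => (L4 j i : ℝ)) 0 x j ≤ 2 * T},
      ∏ j, gz (pt (fun j i => (L4 j i : ℝ)) 0 x j)) = ∫ x in K4 T, ∏ j : Fin 4, gz (x.1 + (j : ℕ) * x.2) := by
    rw [hK]
    have h2 := e.setIntegral_preimage_emb (MeasurableEquiv.finTwoArrow).measurableEmbedding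
      (fun x : ℝ × ℝ => ∏ j : Fin 4, gz (x.1 + (j : ℕ) * x.2)) (K4 T)
    rw [← h2]
    refine setIntegral_congr_fun ((MeasurableEquiv.finTwoArrow).measurable (meas_K4 T)) fun x _ => ?_
    simp only [pt4]
    rfl
  rw [hI, hv, ENNReal.toReal_ofReal (by positivity)] at h1
  have h3 : SS L4 * (T ^ 2 / 3) * Real.log T ^ (2 * 1 + 2) = SS L4 / 3 * T ^ 2 * Real.log T ^ 4 := by ring
  rw [h3] at h1
  exact h1

end Pool.Agent.P07318v
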