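import Pool.Agent.Lib.P07318v.Lin1

/-!
# Module Geo: changes of variables and short ranges

PROOF of `indep_v`.  `C = 1 + ∑ σ : Fin (n + 1) → ι, |(Mx L σ).det|⁻¹` (finite sum, nonnegative terms), `crd_prod` (Lin1) and
`Finset.single_le_sum`; `GP L` is the statement `(Mx L σ).det ≠ 0` for injective `σ` (`Mx` is `Matrix.of fun i => L (σ i)`, `Iff.rfl`).

PROOF of `short_v`.  By `pt_bet` (LinD) for `x` and `x'` `pt L κ x j - pt L κ x' j = ∑ i, bet L σ j i * (pt L κ x (σ i) - pt L κ x' (σ i))`, so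
`|..| ≤ (∑ i, |bet L σ j i|) * ℓ`; `C = 1 + ∑ σ, ∑ j, ∑ i, |bet L σ j i|` (note that `0 ≤ ℓ`, as `Fin (n + 1)` is not empty).
-/

set_option autoImplicit false

namespace Pool.Agent.P07318v

open MeasureTheory Complex Pool.Agent.P07318s Pool.Agent.P07318f Pool.Agent.P07318h Pool.Agent.P07318o

/-- any `d` of the points are independent linear coordinates -/
theorem indep_v {n : ℕ} {ι : Type} [Fintype ι] [DecidableEq ι] (L : ι → Fin (n + 1) → ℝ) (hL : GP L) : ∃ C : ℝ, 0 < C ∧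
    ∀ (κ : ι → ℝ) (σ : Fin (n + 1) → ι) (F : Fin (n + 1) → ℝ → ENNReal), Function.Injective σ → (∀ i, Measurable (F i)) →
    ∫⁻ x, ∏ i, F i (pt L κ x (σ i)) ≤ ENNReal.ofReal C * ∏ i, ∫⁻ y, F i y := by
  have h0 : ∀ σ : Fin (n + 1) → ι, 0 ≤ |(Mx L σ).det|⁻¹ := fun σ => by positivity
  have hs : 0 ≤ ∑ σ : Fin (n + 1) → ι, |(Mx L σ).det|⁻¹ := Finset.sum_nonneg fun σ _ => h0 σ
  refine ⟨1 + ∑ σ : Fin (n + 1) → ι, |(Mx L σ).det|⁻¹, by linarith, fun κ σ F hσ hF => ?_⟩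
  have hM : (Mx L σ).det ≠ 0 := hL σ hσ
  rw [crd_prod L κ σ hM F hF]
  refine mul_le_mul' (ENNReal.ofReal_le_ofReal ?_) le_rfl
  have := Finset.single_le_sum (f := fun σ : Fin (n + 1) → ι => |(Mx L σ).det|⁻¹) (fun σ _ => h0 σ) (Finset.mem_univ σ)
  linarith

/-- if `d` of the points vary by at most `ℓ`, all points vary by at most `C ℓ` -/
theorem short_v {n : ℕ} {ι : Type} [Fintype ι] [DecidableEq ι] (L : ι → Fin (n + 1) → ℝ) (hL : GP L) : ∃ C : ℝ, 1 ≤ C ∧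
    ∀ (κ : ι → ℝ) (σ : Fin (n + 1) → ι) (x x' : Fin (n + 1) → ℝ) (ℓ : ℝ), Function.Injective σ →
    (∀ i, |pt L κ x (σ i) - pt L κ x' (σ i)| ≤ ℓ) → ∀ j, |pt L κ x j - pt L κ x' j| ≤ C * ℓ := by
  have h0 : ∀ (σ : Fin (n + 1) → ι) (j : ι), 0 ≤ ∑ i, |bet L σ j i| := fun σ j => Finset.sum_nonneg fun i _ => abs_nonneg _
  have h1 : ∀ σ : Fin (n + 1) → ι, 0 ≤ ∑ j, ∑ i, |bet L σ j i| := fun σ => Finset.sum_nonneg fun j _ => h0 σ j
  have hs : 0 ≤ ∑ σ : Fin (n + 1) → ι, ∑ j, ∑ i, |bet L σ j i| := Finset.sum_nonneg fun σ _ => h1 σ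
  refine ⟨1 + ∑ σ : Fin (n + 1) → ι, ∑ j, ∑ i, |bet L σ j i|, by linarith, fun κ σ x x' ℓ hσ hx j => ?_⟩
  have hM : (Mx L σ).det ≠ 0 := hL σ hσ
  have hℓ : 0 ≤ ℓ := (abs_nonneg _).trans (hx 0)
  have h2 : pt L κ x j - pt L κ x' j = ∑ i, bet L σ j i * (pt L κ x (σ i) - pt L κ x' (σ i)) := by
    rw [pt_bet L σ hM κ x j, pt_bet L σ hM κ x' j]
    have h3 : ∀ i, bet L σ j i * (pt L κ x (σ i) - pt L κ x' (σ i)) =
        bet L σ j i * pt L κ x (σ i) - bet L σ j i * pt L κ x' (σ i) := fun i => by ring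
    rw [Finset.sum_congr rfl fun i _ => h3 i, Finset.sum_sub_distrib]
    ring
  rw [h2]
  have h4 : ∑ i, |bet L σ j i| ≤ 1 + ∑ σ : Fin (n + 1) → ι, ∑ j, ∑ i, |bet L σ j i| := by
    have h5 := Finset.single_le_sum (f := fun j => ∑ i, |bet L σ j i|) (fun j _ => h0 σ j) (Finset.mem_univ j)
    have h6 := Finset.single_le_sum (f := fun σ : Fin (n + 1) → ι => ∑ j, ∑ i, |bet L σ j i|) (fun σ _ => h1 σ) (Finset.mem_univ σ)
    have h7 : ∑ i, |bet L σ j i| ≤ ∑ j, ∑ i, |bet L σ j i| := h5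
    have h8 : ∑ j, ∑ i, |bet L σ j i| ≤ ∑ σ : Fin (n + 1) → ι, ∑ j, ∑ i, |bet L σ j i| := h6
    linarith
  calc |∑ i, bet L σ j i * (pt L κ x (σ i) - pt L κ x' (σ i))|
      ≤ ∑ i, |bet L σ j i| * ℓ := by
        refine (Finset.abs_sum_le_sum_abs _ _).trans (Finset.sum_le_sum fun i _ => ?_)
        rw [abs_mul]
        exact mul_le_mul_of_nonneg_left (hx i) (abs_nonneg _)
    _ = (∑ i, |bet L σ j i|) * ℓ := by rw [Finset.sum_mul]
    _ ≤ _ := mul_le_mul_of_nonneg_right h4 hℓ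

end Pool.Agent.P07318v
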