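import Pool.Agent.Lib.P07318v.CsV
import Pool.Agent.Lib.P07318v.FinV
import Pool.Agent.Lib.P07318o.HForm
import Pool.Agent.Lib.P07318o.HForm

/-!
# Module HForm0: one slot by its U3 norm, canonical enumeration (compare Lib/P07318o/HForm.lean)

PROOF.  (1) The finiteness hypothesis of `cs_v`: `fin_v` with `b₀ = Fin.last`, `g b y = ‖Z (inr b) y‖ₑ`, `w (u, s) = ‖Z (inr last) s‖ₑ`,
`K = nm (Z (inr last))`; the product over all `b` is `w (u, s) * ∏ b ∈ univ.erase last, ..` by `XX_last` (`Finset.mul_prod_erase`).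
(2) `cs_v`.  For almost every `τ` `nm (shp (Z r) τ) ≠ ⊤` (`r = inr last`, `nm_shp : ∫⁻ τ, nm (shp Y τ) = nm Y ^ 2`, `ae_lt_top`, `meas_nm_shp`), and then
`form_bd` (FrBd; `m = n`, `q = 0`, `r = 1` in `Fin (n + 1)`, `n ≥ 1`, `bet_s2`), `l1_shp` give
`‖Fm ..‖ₑ ≤ ofReal C₂ * (∏ b ∈ (univ.erase 0).erase 1, nm (Z (inr b.castSucc))) * (nm (shp (Z₀) (v₀ * τ)) ^ (1/2) * nm (ac (shp Z₁ (v₁ * τ))) ^ (1/4) *
nm (ac (shp (Z r) τ)) ^ (1/4))`, where `Z₀ = Z (inr (0 : Fin (n+1)).castSucc)`, `v₀ = vv L (0 : Fin (n+1)).castSucc ≠ 0` (`vv_ne`) and similarly `Z₁`, `v₁`.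
(3) Integrate: `HFormAux.holder244` (HForm of P07318o) with `a τ = nm (shp Z₀ (v₀ * τ))`, `b τ = nm (ac (shp Z₁ (v₁ * τ)))`, `c τ = nm (ac (shp (Z r) τ))`
(measurable: `meas_nm_shp`, `meas_nm_ac` composed with `v * τ`), scaling `lint_affine` (FrDefs, `k = 0`): `∫⁻ a = ofReal |v₀|⁻¹ * nm Z₀ ^ 2`,
`∫⁻ b = ofReal |v₁|⁻¹ * U3 Z₁`, `∫⁻ c = U3 (Z r)` (`nm_shp`, `U3_eq`).  `U3 Z₁ ^ (1/4) ≤ nm Z₁` (`HFormAux.U3_quarter`).
So the integral is `≤ ofReal C * (∏ b : Fin (n + 1), nm (Z (inr b.castSucc))) * U3 (Z r) ^ (1/4)` (`Finset.mul_prod_erase` twice; `1 ∈ univ.erase 0`).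
-/

set_option autoImplicit false

namespace Pool.Agent.P07318v

open MeasureTheory Complex Pool.Agent.P07318s Pool.Agent.P07318f Pool.Agent.P07318h Pool.Agent.P07318o

namespace HForm0Aux

/-- scaling of the variable -/
lemma lint_scale (g : ℝ → ENNReal) {b : ℝ} (hb : b ≠ 0) :
    ∫⁻ x, g (b * x) = ENNReal.ofReal |b|⁻¹ * ∫⁻ x, g x := by
  have h := lint_affine g hb 0
  simpa using h

/-- the finiteness hypothesis of the Cauchy-Schwarz inequality -/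
lemma fin_aux {n : ℕ} (L : Fin n ⊕ Fin (n + 2) → Fin (n + 1) → ℝ) (hL : GP L) (κ : Fin n ⊕ Fin (n + 2) → ℝ)
    (Z : Fin n ⊕ Fin (n + 2) → ℝ → ℂ) (hZ : ∀ j, Measurable (Z j)) (hN : ∀ j, nm (Z j) ≠ ⊤) :
    ∫⁻ u : Fin n → ℝ, (∫⁻ s : ℝ, ∏ b, ‖Z (Sum.inr b) (pt L κ (XX L κ (u, s)) (Sum.inr b))‖ₑ) ^ 2 ≠ ⊤ := by
  classical
  obtain ⟨C3, hC3, H3⟩ := fin_v L hL
  have h := H3 κ (fun b y => ‖Z (Sum.inr b) y‖ₑ) (fun p => ‖Z (Sum.inr (Fin.last (n + 1))) p.2‖ₑ) (Fin.last (n + 1))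
    (nm (Z (Sum.inr (Fin.last (n + 1))))) (hN _) (fun b => (hZ _).enorm) ((hZ _).comp measurable_snd).enorm
    (fun u => le_of_eq rfl)
  have e : ∀ (u : Fin n → ℝ) (s : ℝ), ∏ b, ‖Z (Sum.inr b) (pt L κ (XX L κ (u, s)) (Sum.inr b))‖ₑ =
      ‖Z (Sum.inr (Fin.last (n + 1))) s‖ₑ *
        ∏ b ∈ Finset.univ.erase (Fin.last (n + 1)), ‖Z (Sum.inr b) (pt L κ (XX L κ (u, s)) (Sum.inr b))‖ₑ := by
    intro u s
    rw [← Finset.mul_prod_erase Finset.univ (fun b => ‖Z (Sum.inr b) (pt L κ (XX L κ (u, s)) (Sum.inr b))‖ₑ)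
      (Finset.mem_univ (Fin.last (n + 1))), XX_last L hL κ (u, s)]
  simp only [e]
  refine ne_top_of_le_ne_top ?_ h
  refine ENNReal.mul_ne_top (ENNReal.mul_ne_top ENNReal.ofReal_ne_top (hN _)) ?_
  exact ENNReal.prod_ne_top fun b _ => hN _

end HForm0Aux

open HForm0Aux HFormAux in
theorem h_form_0 {n : ℕ} (hn : 1 ≤ n) (L : Fin n ⊕ Fin (n + 2) → Fin (n + 1) → ℝ) (hL : GP L) : ∃ C : ℝ, 0 < C ∧
    ∀ (κ : Fin n ⊕ Fin (n + 2) → ℝ) (Z : Fin n ⊕ Fin (n + 2) → ℝ → ℂ), (∀ j, Measurable (Z j)) → (∀ j, nm (Z j) ≠ ⊤) →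
    ‖FF L κ Z‖ₑ ^ 2 ≤ ENNReal.ofReal C * U3 (Z (Sum.inr (Fin.last (n + 1)))) ^ (1 / 4 : ℝ) *
      ((∏ a : Fin n, nm (Z (Sum.inl a))) * ∏ b : Fin (n + 1), nm (Z (Sum.inr b.castSucc))) := by
  classical
  obtain ⟨C1, hC1, H1⟩ := cs_v L hL
  obtain ⟨C2, hC2, H2⟩ := form_bd (bet L (s2 n) (Sum.inr (Fin.last (n + 1)))) (bet_s2 L hL)
  obtain ⟨q, r, hqr⟩ : ∃ q r : Fin (n + 1), q ≠ r := by
    refine ⟨0, ⟨1, by omega⟩, ?_⟩
    intro h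
    have := congrArg Fin.val h
    simp at this
  have hv0 : vv L q.castSucc ≠ 0 := vv_ne L hL _
  have hv1 : vv L r.castSucc ≠ 0 := vv_ne L hL _
  have hp0 : 0 < |vv L q.castSucc|⁻¹ := inv_pos.2 (abs_pos.2 hv0)
  have hp1 : 0 < |vv L r.castSucc|⁻¹ := inv_pos.2 (abs_pos.2 hv1)
  refine ⟨C1 * (C2 * ((|vv L q.castSucc|⁻¹) ^ (1 / 2 : ℝ) * (|vv L r.castSucc|⁻¹) ^ (1 / 4 : ℝ))), by positivity, ?_⟩
  intro κ Z hZ hN
  refine (H1 κ Z hZ (fun a => hN _) (fin_aux L hL κ Z hZ hN)).trans ?_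
  have hae : ∀ᵐ τ : ℝ, nm (shp (Z (Sum.inr (Fin.last (n + 1)))) τ) ≠ ⊤ := by
    have h1 : ∫⁻ τ, nm (shp (Z (Sum.inr (Fin.last (n + 1)))) τ) ≠ ⊤ := by
      rw [nm_shp (hZ _)]
      exact ENNReal.pow_ne_top (hN _)
    filter_upwards [ae_lt_top (meas_nm_shp (hZ _)) h1] with τ hτ
    exact hτ.ne
  have hb : ∀ᵐ τ : ℝ, ‖Fm (bet L (s2 n) (Sum.inr (Fin.last (n + 1))))
        (κ (Sum.inr (Fin.last (n + 1))) - ∑ i, bet L (s2 n) (Sum.inr (Fin.last (n + 1))) i * κ (s2 n i))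
        (fun b : Fin (n + 1) => shp (Z (Sum.inr b.castSucc)) (vv L b.castSucc * τ))
        (shp (Z (Sum.inr (Fin.last (n + 1)))) τ)‖ₑ ≤
      ENNReal.ofReal C2 * (∏ j ∈ (Finset.univ.erase q).erase r, nm (Z (Sum.inr j.castSucc))) *
        (nm (shp (Z (Sum.inr q.castSucc)) (vv L q.castSucc * τ)) ^ (1 / 2 : ℝ) *
          nm (ac (shp (Z (Sum.inr r.castSucc)) (vv L r.castSucc * τ))) ^ (1 / 4 : ℝ) *
            nm (ac (shp (Z (Sum.inr (Fin.last (n + 1)))) τ)) ^ (1 / 4 : ℝ)) := by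
    filter_upwards [hae] with τ hτ
    refine (H2 (κ (Sum.inr (Fin.last (n + 1))) - ∑ i, bet L (s2 n) (Sum.inr (Fin.last (n + 1))) i * κ (s2 n i))
      (fun b : Fin (n + 1) => shp (Z (Sum.inr b.castSucc)) (vv L b.castSucc * τ))
      (shp (Z (Sum.inr (Fin.last (n + 1)))) τ) q r hqr
      (fun j => HFormAux.meas_shp (hZ _) _) (HFormAux.meas_shp (hZ _) τ)
      (fun j => ne_top_of_le_ne_top (hN _) (l1_shp (hZ _) _)) hτ).trans ?_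
    refine mul_le_mul_left ?_ _
    refine mul_le_mul_right ?_ _
    exact Finset.prod_le_prod' fun j _ => l1_shp (hZ _) _
  have ha : Measurable fun τ : ℝ => nm (shp (Z (Sum.inr q.castSucc)) (vv L q.castSucc * τ)) :=
    (meas_nm_shp (hZ (Sum.inr q.castSucc))).comp (measurable_id.const_mul _)
  have hbm : Measurable fun τ : ℝ => nm (ac (shp (Z (Sum.inr r.castSucc)) (vv L r.castSucc * τ))) :=
    (meas_nm_ac (hZ (Sum.inr r.castSucc))).comp (measurable_id.const_mul _)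
  have hc : Measurable fun τ : ℝ => nm (ac (shp (Z (Sum.inr (Fin.last (n + 1)))) τ)) := meas_nm_ac (hZ _)
  have hI : ∫⁻ τ : ℝ, ‖Fm (bet L (s2 n) (Sum.inr (Fin.last (n + 1))))
        (κ (Sum.inr (Fin.last (n + 1))) - ∑ i, bet L (s2 n) (Sum.inr (Fin.last (n + 1))) i * κ (s2 n i))
        (fun b : Fin (n + 1) => shp (Z (Sum.inr b.castSucc)) (vv L b.castSucc * τ))
        (shp (Z (Sum.inr (Fin.last (n + 1)))) τ)‖ₑ ≤
      ENNReal.ofReal C2 * (∏ j ∈ (Finset.univ.erase q).erase r, nm (Z (Sum.inr j.castSucc))) *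
        (ENNReal.ofReal ((|vv L q.castSucc|⁻¹) ^ (1 / 2 : ℝ)) * nm (Z (Sum.inr q.castSucc)) *
          (ENNReal.ofReal ((|vv L r.castSucc|⁻¹) ^ (1 / 4 : ℝ)) * nm (Z (Sum.inr r.castSucc))) *
          U3 (Z (Sum.inr (Fin.last (n + 1)))) ^ (1 / 4 : ℝ)) := by
    refine (lintegral_mono_ae hb).trans ?_
    have hme : Measurable fun τ : ℝ => nm (shp (Z (Sum.inr q.castSucc)) (vv L q.castSucc * τ)) ^ (1 / 2 : ℝ) *
          nm (ac (shp (Z (Sum.inr r.castSucc)) (vv L r.castSucc * τ))) ^ (1 / 4 : ℝ) *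
            nm (ac (shp (Z (Sum.inr (Fin.last (n + 1)))) τ)) ^ (1 / 4 : ℝ) :=
      ((ha.pow_const _).mul (hbm.pow_const _)).mul (hc.pow_const _)
    rw [lintegral_const_mul _ hme]
    refine mul_le_mul_right ?_ _
    refine (holder244 ha hbm hc).trans ?_
    have e1 : ∫⁻ τ : ℝ, nm (shp (Z (Sum.inr q.castSucc)) (vv L q.castSucc * τ)) =
        ENNReal.ofReal |vv L q.castSucc|⁻¹ * nm (Z (Sum.inr q.castSucc)) ^ 2 := by
      rw [lint_scale (fun τ => nm (shp (Z (Sum.inr q.castSucc)) τ)) hv0, nm_shp (hZ _)]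
    have e2 : ∫⁻ τ : ℝ, nm (ac (shp (Z (Sum.inr r.castSucc)) (vv L r.castSucc * τ))) =
        ENNReal.ofReal |vv L r.castSucc|⁻¹ * U3 (Z (Sum.inr r.castSucc)) := by
      rw [lint_scale (fun τ => nm (ac (shp (Z (Sum.inr r.castSucc)) τ))) hv1, ← U3_eq]
    have e3 : (nm (Z (Sum.inr q.castSucc)) ^ 2) ^ (1 / 2 : ℝ) = nm (Z (Sum.inr q.castSucc)) := by
      rw [← ENNReal.rpow_natCast, ← ENNReal.rpow_mul]
      norm_num
    rw [e1, e2, ← U3_eq, ENNReal.mul_rpow_of_nonneg _ _ (by norm_num : (0 : ℝ) ≤ 1 / 2),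
      ENNReal.mul_rpow_of_nonneg _ _ (by norm_num : (0 : ℝ) ≤ 1 / 4), e3,
      ENNReal.ofReal_rpow_of_pos hp0, ENNReal.ofReal_rpow_of_pos hp1]
    gcongr
    exact U3_quarter (hZ _)
  have hp : ∏ j : Fin (n + 1), nm (Z (Sum.inr j.castSucc)) =
      nm (Z (Sum.inr q.castSucc)) * (nm (Z (Sum.inr r.castSucc)) *
        ∏ j ∈ (Finset.univ.erase q).erase r, nm (Z (Sum.inr j.castSucc))) := by
    rw [Finset.mul_prod_erase (Finset.univ.erase q)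
      (fun j : Fin (n + 1) => nm (Z (Sum.inr j.castSucc))) (Finset.mem_erase.2 ⟨hqr.symm, Finset.mem_univ _⟩),
      Finset.mul_prod_erase Finset.univ (fun j : Fin (n + 1) => nm (Z (Sum.inr j.castSucc))) (Finset.mem_univ _)]
  rw [hp, ENNReal.ofReal_mul hC1.le, ENNReal.ofReal_mul hC2.le, ENNReal.ofReal_mul (by positivity)]
  refine (mul_le_mul_right hI _).trans (le_of_eq ?_)
  ring

end Pool.Agent.P07318v
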