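import Pool.Agent.Lib.P07318v.HForm0
import Pool.Agent.Lib.P07318v.EqV

/-!
# Module HFormV: one slot by its U3 norm

PROOF.  `card (Fin n ⊕ Fin (n + 2)) = 2 * n + 2 = card ι`.  For every `r : ι` choose `e r : Fin n ⊕ Fin (n + 2) ≃ ι` with `e r (inr last) = r` (`eqv1`),
and the constant `C r` of `h_form_0` for `fun j => L (e r j)` (`GP_equiv`); `C = 1 + ∑ r, C r`.  `FF_equiv (e r)` and
`∏ j ∈ univ.erase r, nm (Z j) = (∏ a, nm (Z (e r (inl a)))) * ∏ b : Fin (n + 1), nm (Z (e r (inr b.castSucc)))`.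
-/

set_option autoImplicit false

namespace Pool.Agent.P07318v

open MeasureTheory Complex Pool.Agent.P07318s Pool.Agent.P07318f Pool.Agent.P07318h Pool.Agent.P07318o

theorem h_form_v {n : ℕ} (hn : 1 ≤ n) {ι : Type} [Fintype ι] [DecidableEq ι] (hι : Fintype.card ι = 2 * n + 2)
    (L : ι → Fin (n + 1) → ℝ) (hL : GP L) : ∃ C : ℝ, 0 < C ∧
    ∀ (κ : ι → ℝ) (Z : ι → ℝ → ℂ) (r : ι), (∀ j, Measurable (Z j)) → (∀ j, nm (Z j) ≠ ⊤) →
    ‖FF L κ Z‖ₑ ^ 2 ≤ ENNReal.ofReal C * U3 (Z r) ^ (1 / 4 : ℝ) * ∏ j ∈ Finset.univ.erase r, nm (Z j) := by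
  classical
  have hcard : Fintype.card (Fin n ⊕ Fin (n + 2)) = Fintype.card ι := by
    rw [hι]
    simp
    omega
  have key : ∀ r : ι, ∃ C : ℝ, 0 ≤ C ∧
      ∀ (κ : ι → ℝ) (Z : ι → ℝ → ℂ), (∀ j, Measurable (Z j)) → (∀ j, nm (Z j) ≠ ⊤) →
      ‖FF L κ Z‖ₑ ^ 2 ≤ ENNReal.ofReal C * U3 (Z r) ^ (1 / 4 : ℝ) * ∏ j ∈ Finset.univ.erase r, nm (Z j) := by
    intro r
    obtain ⟨e, er⟩ := eqv1 hcard (Sum.inr (Fin.last (n + 1))) r
    obtain ⟨C, hC, hmain⟩ := h_form_0 hn (fun j => L (e j)) (GP_equiv e hL)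
    refine ⟨C, hC.le, fun κ Z hm hnm => ?_⟩
    have h4 := hmain (fun j => κ (e j)) (fun j => Z (e j)) (fun j => hm _) (fun j => hnm _)
    rw [FF_equiv e L κ Z] at h4
    simp only [er] at h4
    have hprod : (∏ j ∈ Finset.univ.erase r, nm (Z j)) =
        (∏ a : Fin n, nm (Z (e (Sum.inl a)))) * ∏ b : Fin (n + 1), nm (Z (e (Sum.inr b.castSucc))) := by
      obtain ⟨f, hf⟩ : ∃ f : ι → ENNReal, ∀ j, f j = if j = r then 1 else nm (Z j) := ⟨_, fun j => rfl⟩
      have hfr : f r = 1 := by rw [hf, if_pos rfl]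
      have hfo : ∀ k, k ≠ Sum.inr (Fin.last (n + 1)) → nm (Z (e k)) = f (e k) := by
        intro k hk
        rw [hf, if_neg]
        intro h5
        exact hk (e.injective (by rw [h5, er]))
      have e1 : (∏ j ∈ Finset.univ.erase r, nm (Z j)) = ∏ j ∈ Finset.univ.erase r, f j := by
        refine Finset.prod_congr rfl fun j hj => ?_
        rw [Finset.mem_erase] at hj
        rw [hf, if_neg hj.1]
      have e2 : (∏ a : Fin n, nm (Z (e (Sum.inl a)))) = ∏ a : Fin n, f (e (Sum.inl a)) :=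
        Finset.prod_congr rfl fun a _ => hfo _ (by simp)
      have e3 : (∏ b : Fin (n + 1), nm (Z (e (Sum.inr b.castSucc)))) = ∏ b : Fin (n + 1), f (e (Sum.inr b.castSucc)) := by
        refine Finset.prod_congr rfl fun b _ => hfo _ ?_
        intro h5
        exact (Fin.castSucc_lt_last b).ne (Sum.inr_injective h5)
      rw [e1, e2, e3, Finset.prod_erase _ hfr]
      rw [← Fintype.prod_equiv e (fun k => f (e k)) f (fun k => rfl), Fintype.prod_sum_type,
        Fin.prod_univ_castSucc (n := n + 1), er, hfr, mul_one]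
    rw [hprod]
    exact h4
  choose C hC hmain using key
  have hsum : 0 ≤ ∑ t, C t := Finset.sum_nonneg fun t _ => hC t
  refine ⟨1 + ∑ t, C t, by linarith, ?_⟩
  intro κ Z r hm hnm
  have h4 := hmain r κ Z hm hnm
  have hle : C r ≤ 1 + ∑ t, C t := by
    have := Finset.single_le_sum (f := C) (fun t _ => hC t) (Finset.mem_univ r)
    linarith
  exact h4.trans (mul_le_mul' (mul_le_mul' (ENNReal.ofReal_le_ofReal hle) le_rfl) le_rfl)

end Pool.Agent.P07318v
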