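import Mathlib

/-!
# The harmonic sum  (1 h)

`Hs x = ∑_{g < x} 1/g`. PROOFS. `Hs_meas`: `Nat.measurable_ceil` (or `measurable_from_top.comp`): every function of the natural number `⌈x⌉₊` is measurable.
`Hs_sum`: finite sum: `g < x ↔ g < ⌈x⌉₊` (`Nat.lt_ceil`) `↔ g ≤ ⌈x⌉₊ - 1` (`g ≥ 1`); `harmonic n = ∑ i ∈ range n, (i + 1)⁻¹`; `hasSum_sum_of_ne_finset_zero` with the finset of the positive `g ≤ N` (e.g. the image of `Finset.range N` under `Nat.succPNat`), or reindex `ℕ+` by `ℕ` (`Equiv.pnatEquivNat`, `hasSum_iff` of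
an equivalence) and `hasSum_sum_of_ne_finset_zero` with `Finset.range N`.
`Hs_as`: put `N = ⌈x⌉₊ - 1`, so `N < x ≤ N + 1`, `γ = Real.eulerMascheroniConstant`, `1/2 < γ < 2/3`. `N = 0`: `0 < x ≤ 1`, `Hs x = 0`, `|log x + γ| ≤ -log x + γ ≤ (1/x - 1) + 1 ≤ 2/x` (`Real.log_le_sub_one_of_pos` for `1/x`).
`N ≥ 1`: `harmonic N - log (N+1) < γ < harmonic N - log N` (`Real.eulerMascheroniSeq_lt_eulerMascheroniConstant`, `Real.eulerMascheroniConstant_lt_eulerMascheroniSeq'`), `log N < log x ≤ log (N+1)`, so `|Hs x - log x - γ| ≤ log (N+1) - log N ≤ 1/N ≤ 2/(N+1) ≤ 2/x`.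
-/

set_option autoImplicit false

namespace Pool.Agent.P07318v

/-- the sum of `1 / g` over `g < x` -/
noncomputable def Hs (x : ℝ) : ℝ := ((harmonic (⌈x⌉₊ - 1) : ℚ) : ℝ)

theorem Hs_meas : Measurable Hs := by
  have h : Measurable (fun n : ℕ => ((harmonic (n - 1) : ℚ) : ℝ)) := measurable_from_top
  exact h.comp Nat.measurable_ceil

theorem Hs_sum (x : ℝ) : HasSum (fun g : ℕ+ => if ((g : ℕ) : ℝ) < x then (((g : ℕ) : ℝ))⁻¹ else 0) (Hs x) := by
  rw [← Equiv.pnatEquivNat.symm.hasSum_iff]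
  have e1 : Hs x = ∑ i ∈ Finset.range (⌈x⌉₊ - 1),
      ((fun g : ℕ+ => if ((g : ℕ) : ℝ) < x then (((g : ℕ) : ℝ))⁻¹ else 0) ∘
        (Equiv.pnatEquivNat.symm : ℕ → ℕ+)) i := by
    rw [Hs, harmonic]
    push_cast
    refine Finset.sum_congr rfl (fun i hi => ?_)
    rw [Finset.mem_range] at hi
    have h1 : i + 1 < ⌈x⌉₊ := by omega
    have h2 : ((i + 1 : ℕ) : ℝ) < x := Nat.lt_ceil.1 h1
    have h3 : ((Equiv.pnatEquivNat.symm i : ℕ+) : ℕ) = i + 1 := rfl
    simp only [Function.comp_apply]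
    rw [h3, if_pos h2]
    push_cast
    rfl
  rw [e1]
  apply hasSum_sum_of_ne_finset_zero
  intro i hi
  rw [Finset.mem_range, not_lt] at hi
  have h3 : ((Equiv.pnatEquivNat.symm i : ℕ+) : ℕ) = i + 1 := rfl
  simp only [Function.comp_apply]
  rw [h3, if_neg]
  intro h2
  have h1 : i + 1 < ⌈x⌉₊ := Nat.lt_ceil.2 h2
  omega

theorem Hs_as {x : ℝ} (hx : 0 < x) : |Hs x - Real.log x - Real.eulerMascheroniConstant| ≤ 2 / x := by
  have hg1 : 1 / 2 < Real.eulerMascheroniConstant := Real.one_half_lt_eulerMascheroniConstant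
  have hg2 : Real.eulerMascheroniConstant < 2 / 3 := Real.eulerMascheroniConstant_lt_two_thirds
  have hc : x ≤ (⌈x⌉₊ : ℝ) := Nat.le_ceil x
  have hc1 : 0 < ⌈x⌉₊ := Nat.ceil_pos.2 hx
  have hc2 : (⌈x⌉₊ : ℝ) < x + 1 := Nat.ceil_lt_add_one hx.le
  obtain ⟨N, hN⟩ : ∃ N, ⌈x⌉₊ = N + 1 := ⟨⌈x⌉₊ - 1, by omega⟩
  have hH : Hs x = ((harmonic N : ℚ) : ℝ) := by rw [Hs, hN, Nat.add_sub_cancel]
  rw [hN] at hc hc2
  push_cast at hc hc2
  rcases Nat.eq_zero_or_pos N with h0 | h0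
  · subst h0
    rw [hH]
    simp only [harmonic_zero, Rat.cast_zero]
    have hx1 : x ≤ 1 := by simpa using hc
    have hl : Real.log x ≤ 0 := Real.log_nonpos hx.le hx1
    have hl2 : - Real.log x ≤ 1 / x - 1 := by
      have := Real.log_le_sub_one_of_pos (show 0 < 1 / x by positivity)
      rw [one_div, Real.log_inv] at this
      rw [one_div]
      exact this
    have hx2 : 1 ≤ 1 / x := by
      rw [le_div_iff₀ hx]
      linarith
    have e2 : 2 / x = 1 / x + 1 / x := by ring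
    rw [e2, abs_le]
    constructor <;> linarith
  · have hNpos : (0 : ℝ) < N := by exact_mod_cast h0
    have hx1 : (N : ℝ) < x := by linarith
    have k1 := Real.eulerMascheroniSeq_lt_eulerMascheroniConstant N
    have k2 := Real.eulerMascheroniConstant_lt_eulerMascheroniSeq' N
    rw [Real.eulerMascheroniSeq] at k1
    rw [Real.eulerMascheroniSeq', if_neg h0.ne'] at k2
    rw [hH]
    have l1 : Real.log N ≤ Real.log x := Real.log_le_log hNpos hx1.le
    have l2 : Real.log x ≤ Real.log (N + 1) := Real.log_le_log hx hc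
    have l3 : Real.log (N + 1) - Real.log N ≤ 1 / N := by
      rw [← Real.log_div (by positivity) hNpos.ne']
      have := Real.log_le_sub_one_of_pos (show 0 < ((N : ℝ) + 1) / N by positivity)
      have e : ((N : ℝ) + 1) / N - 1 = 1 / N := by field_simp; ring
      linarith
    have hN1 : (1 : ℝ) ≤ N := by exact_mod_cast h0
    have l4 : 1 / (N : ℝ) ≤ 2 / x := by
      rw [div_le_div_iff₀ hNpos hx]
      nlinarith
    rw [abs_le]
    constructor <;> linarith

end Pool.Agent.P07318v
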