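import Pool.Agent.Lib.P07318v.Defs

/-!
# The support of a linear relation  (1 h)

PROOF. Suppose the support `s = {j | v j ≠ 0}` has at most `d` elements. Choose `t ⊇ s` with `t.card = d` (`Finset.exists_superset_card_eq` or `Finset.exists_subsuperset_card_eq`, `hι`), an enumeration `e : Fin d ≃ t` (`t.equivFinOfCardEq`), `σ i = (e i : ι)`, injective with range `t`. Then for all `i`
`∑_l L (σ l) i * v (σ l) = ∑_{j ∈ t} L j i * v j = ∑_j L j i * v j = 0` (the terms outside `t` vanish), that is `Matrix.vecMul (v ∘ σ) M = 0`, `M = Matrix.of fun l => L (σ l)`, `M.det ≠ 0` (`hL`): `Matrix.eq_zero_of_vecMul_eq_zero` gives `v ∘ σ = 0`, so `v = 0` on `t ⊇ s`, contradiction with `h0`.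
-/

set_option autoImplicit false

namespace Pool.Agent.P07318v

open MeasureTheory Complex Pool.Agent.P07318s Pool.Agent.P07318f Pool.Agent.P07318h Pool.Agent.P07318o

theorem supp_gp {ι : Type} [Fintype ι] [DecidableEq ι] {d : ℕ} (hι : d ≤ Fintype.card ι) (L : ι → Fin d → ℝ) (hL : GP L)
    (v : ι → ℝ) (hv : ∀ i, ∑ j, L j i * v j = 0) (h0 : v ≠ 0) : d < (Finset.univ.filter fun j => v j ≠ 0).card := by
  classical
  by_contra hcon
  push Not at hcon
  obtain ⟨t, hst, -, htc⟩ := Finset.exists_subsuperset_card_eq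
    (Finset.subset_univ (Finset.univ.filter fun j => v j ≠ 0)) hcon (by rw [Finset.card_univ]; exact hι)
  let e : t ≃ Fin d := t.equivFinOfCardEq htc
  let σ : Fin d → ι := fun i => ((e.symm i : t) : ι)
  have hσ : Function.Injective σ := fun a b h => e.symm.injective (Subtype.ext h)
  have hdet := hL σ hσ
  have hmul : Matrix.vecMul (fun l => v (σ l)) (Matrix.of fun l => L (σ l)) = 0 := by
    funext i
    have h1 : Matrix.vecMul (fun l => v (σ l)) (Matrix.of fun l => L (σ l)) i = ∑ l, v (σ l) * L (σ l) i := by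
      simp [Matrix.vecMul, dotProduct]
    rw [h1, Pi.zero_apply]
    have h2 : ∑ l, v (σ l) * L (σ l) i = ∑ x : t, v x * L x i :=
      Fintype.sum_equiv e.symm (fun l => v (σ l) * L (σ l) i) (fun x : t => v x * L x i) (fun l => rfl)
    rw [h2, Finset.sum_coe_sort t (fun j => v j * L j i)]
    rw [← hv i]
    have h3 : ∑ j ∈ t, v j * L j i = ∑ j, v j * L j i := by
      refine Finset.sum_subset (Finset.subset_univ t) fun j _ hj => ?_
      have : v j = 0 := by
        by_contra hne
        exact hj (hst (Finset.mem_filter.2 ⟨Finset.mem_univ j, hne⟩))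
      rw [this, zero_mul]
    rw [h3]
    exact Finset.sum_congr rfl fun j _ => mul_comm _ _
  have hz := Matrix.eq_zero_of_vecMul_eq_zero hdet hmul
  apply h0
  funext j
  by_contra hne
  have hj : j ∈ t := hst (Finset.mem_filter.2 ⟨Finset.mem_univ j, hne⟩)
  have h4 := congrFun hz (e ⟨j, hj⟩)
  have h5 : σ (e ⟨j, hj⟩) = j := by
    show ((e.symm (e ⟨j, hj⟩) : t) : ι) = j
    rw [Equiv.symm_apply_apply]
  simp only [h5, Pi.zero_apply] at h4
  exact hne h4

end Pool.Agent.P07318v
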