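import Pool.Agent.Lib.P07318v.KerVal
import Pool.Agent.Lib.P07318v.SuppGP

/-!
# The height of a tuple of the kernel is 3-full  (1 h)

PROOF. Some `a_j` or `b_j` is divisible by `p` (`Prime.dvd_finsetProd_iff`, `Nat.Prime.dvd_mul`), and as `a_j`, `b_j` are coprime (`(q j).2`) exactly one of them, so `vq p (q j) ≠ 0`. `ker_val` and `supp_gp` (`d = n + 1 ≤ 2 n + 2`, `v j = (vq p (q j) : ℝ)`): at least `n + 2 ≥ 3` indices `j` have `vq p (q j) ≠ 0`. For such `j` `p` divides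
`a_j b_j` (`padicValNat` not both zero). So `p ^ 3 ∣ p ^ card ∣ ∏_{j ∈ supp} a_j b_j ∣ nN q` (`Finset.prod_dvd_prod_of_dvd` with the constant `p`, `Finset.prod_const`, `Finset.prod_dvd_prod_of_subset`).
-/

set_option autoImplicit false

namespace Pool.Agent.P07318v

open MeasureTheory Complex Pool.Agent.P07318s Pool.Agent.P07318f Pool.Agent.P07318h Pool.Agent.P07318o

theorem ker_full {n : ℕ} (hn : 1 ≤ n) {ι : Type} [Fintype ι] [DecidableEq ι] (hι : Fintype.card ι = 2 * n + 2)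
    (L : ι → Fin (n + 1) → ℤ) (hL : GP fun j i => (L j i : ℝ)) (q : ι → Q) (hq : q ∈ Ker L) (p : ℕ) (hp : p.Prime)
    (h : p ∣ nN q) : p ^ 3 ∣ nN q := by
  have : Fact p.Prime := ⟨hp⟩
  have hto : ∀ j, p ∣ ((q j).1.1 : ℕ) * ((q j).1.2 : ℕ) → vq p (q j) ≠ 0 := by
    intro j hj
    have hco : Nat.Coprime ((q j).1.1 : ℕ) ((q j).1.2 : ℕ) := (q j).2
    unfold vq
    rcases (Nat.Prime.dvd_mul hp).1 hj with h1 | h1
    · have h2 : ¬ p ∣ ((q j).1.2 : ℕ) := fun h3 => hp.one_lt.ne' (Nat.eq_one_of_dvd_coprimes hco h1 h3)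
      rw [padicValNat.eq_zero_of_not_dvd h2]
      have h3 : 1 ≤ padicValNat p ((q j).1.1 : ℕ) :=
        one_le_padicValNat_of_dvd (q j).1.1.pos.ne' h1
      omega
    · have h2 : ¬ p ∣ ((q j).1.1 : ℕ) := fun h3 => hp.one_lt.ne' (Nat.eq_one_of_dvd_coprimes hco h3 h1)
      rw [padicValNat.eq_zero_of_not_dvd h2]
      have h3 : 1 ≤ padicValNat p ((q j).1.2 : ℕ) :=
        one_le_padicValNat_of_dvd (q j).1.2.pos.ne' h1
      omega
  have hfrom : ∀ j, vq p (q j) ≠ 0 → p ∣ ((q j).1.1 : ℕ) * ((q j).1.2 : ℕ) := by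
    intro j hj
    by_contra hcon
    refine hj ?_
    have h1 : ¬ p ∣ ((q j).1.1 : ℕ) := fun h3 => hcon (Dvd.dvd.mul_right h3 _)
    have h2 : ¬ p ∣ ((q j).1.2 : ℕ) := fun h3 => hcon (Dvd.dvd.mul_left h3 _)
    unfold vq
    rw [padicValNat.eq_zero_of_not_dvd h1, padicValNat.eq_zero_of_not_dvd h2]
    simp
  obtain ⟨j0, -, hj0⟩ := (Prime.dvd_finsetProd_iff hp.prime _).1 h
  set v : ι → ℝ := fun j => ((vq p (q j) : ℤ) : ℝ) with hvdef
  have hv : ∀ i, ∑ j, (L j i : ℝ) * v j = 0 := by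
    intro i
    have h1 := ker_val L q hq p hp i
    have h2 : (((∑ j, L j i * vq p (q j) : ℤ)) : ℝ) = 0 := by rw [h1]; simp
    push_cast at h2
    exact h2
  have h0 : v ≠ 0 := by
    intro h1
    have h2 := congrFun h1 j0
    rw [hvdef] at h2
    simp only [Pi.zero_apply, Int.cast_eq_zero] at h2
    exact hto j0 hj0 h2
  have hcard := supp_gp (d := n + 1) (by omega) (fun j i => (L j i : ℝ)) hL v hv h0
  set S := Finset.univ.filter fun j => v j ≠ 0 with hS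
  have h1 : p ^ S.card ∣ ∏ j ∈ S, ((q j).1.1 : ℕ) * ((q j).1.2 : ℕ) := by
    rw [← Finset.prod_const]
    refine Finset.prod_dvd_prod_of_dvd _ _ ?_
    intro j hj
    rw [hS, Finset.mem_filter] at hj
    refine hfrom j fun h2 => hj.2 ?_
    rw [hvdef]
    simp only [h2, Int.cast_zero]
  have h2 : (∏ j ∈ S, ((q j).1.1 : ℕ) * ((q j).1.2 : ℕ)) ∣ nN q := by
    unfold nN
    exact Finset.prod_dvd_prod_of_subset _ _ _ (Finset.subset_univ _)
  exact ((pow_dvd_pow p (by omega)).trans h1).trans h2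

end Pool.Agent.P07318v
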