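import Mathlib

/-!
# The cube root of a 3-full number  (0.7 h)

PROOF. `r = Nat.floorRoot 3 N`: `Nat.factorization_floorRoot : (floorRoot 3 N).factorization = N.factorization ⌊/⌋ 3`, `Nat.floorRoot_pow_dvd`, `floorRoot_ne_zero`. `N ∣ r ^ 5`: `Nat.factorization_le_iff_dvd` (or `Nat.factorization_prime_le_iff_dvd`): for every prime `p`, `e = N.factorization p` is `0` or `≥ 3`
(if `e ≥ 1` then `p ∣ N`, `p ^ 3 ∣ N`, `e ≥ 3`: `Nat.Prime.pow_dvd_iff_le_factorization`), so `e ≤ 5 (e / 3)` (`omega`).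
-/

set_option autoImplicit false

namespace Pool.Agent.P07318v

theorem three_root {N : ℕ} (hN : N ≠ 0) (h : ∀ p : ℕ, p.Prime → p ∣ N → p ^ 3 ∣ N) :
    ∃ r : ℕ, 0 < r ∧ r ^ 3 ∣ N ∧ N ∣ r ^ 5 := by
  refine ⟨Nat.floorRoot 3 N, Nat.pos_of_ne_zero (Nat.floorRoot_ne_zero.2 ⟨by norm_num, hN⟩),
    Nat.floorRoot_pow_dvd, ?_⟩
  have hr0 : Nat.floorRoot 3 N ≠ 0 := Nat.floorRoot_ne_zero.2 ⟨by norm_num, hN⟩
  have hr5 : Nat.floorRoot 3 N ^ 5 ≠ 0 := pow_ne_zero 5 hr0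
  rw [← Nat.factorization_prime_le_iff_dvd hN hr5]
  intro p hp
  rw [Nat.factorization_pow, Nat.factorization_floorRoot]
  have h1 : (5 • (N.factorization ⌊/⌋ 3)) p = 5 * (N.factorization p / 3) := by
    simp [Finsupp.floorDiv_apply, Nat.floorDiv_eq_div]
  rw [h1]
  by_cases hd : p ∣ N
  · have h2 := (hp.pow_dvd_iff_le_factorization hN).1 (h p hp hd)
    omega
  · rw [Nat.factorization_eq_zero_of_not_dvd hd]

end Pool.Agent.P07318v
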