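import Pool.Agent.Lib.P07318v.KerFull
import Pool.Agent.Lib.P07318v.ThreeR
import Pool.Agent.Lib.P07318v.CountD

/-!
# Convergence of the main term  (1.2 h)

PROOF. It is enough that `∑' q : Ker L, ENNReal.ofReal (hN q ^ (-2/5)) < ∞` (`ENNReal.summable_toReal`, terms positive). Let `P r q` be the condition of `count_d` (`∀ j, a_j ∣ r^5 ∧ b_j ∣ r^5`). For `q ∈ Ker L`: `ker_full` and `three_root` (`N = nN q`) give `r : ℕ+` with `r ^ 3 ≤ nN q = hN q` and `nN q ∣ r ^ 5`, so `P r q`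
(`a_j ∣ a_j b_j ∣ nN q`, `Finset.dvd_prod_of_mem`) and `hN q ^ (-2/5) ≤ r ^ (-6/5)`. Hence `ofReal (hN q ^ (-2/5)) ≤ ∑' r : ℕ+, if P r q then ofReal (r ^ (-6/5)) else 0` (`ENNReal.le_tsum`). Sum over `q : Ker L`, bound by the sum over all `q : ι → Q` (`ENNReal.tsum_comp_le_tsum_of_injective`, `Subtype.val_injective`),
interchange (`ENNReal.tsum_comm`): `≤ ∑' r, ofReal (r ^ (-6/5)) ∑' q, (if P r q then 1 else 0) ≤ ∑' r, ofReal (r ^ (-6/5) C r ^ (1/10)) = ofReal (C ∑' r, r ^ (-11/10)) < ∞` (`Real.summable_nat_rpow`, `comp_injective PNat.coe_injective`).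
-/

set_option autoImplicit false

namespace Pool.Agent.P07318v

open MeasureTheory Complex Pool.Agent.P07318s Pool.Agent.P07318f Pool.Agent.P07318h Pool.Agent.P07318o

theorem ker_sum {n : ℕ} (hn : 1 ≤ n) {ι : Type} [Fintype ι] [DecidableEq ι] (hι : Fintype.card ι = 2 * n + 2)
    (L : ι → Fin (n + 1) → ℤ) (hL : GP fun j i => (L j i : ℝ)) :
    Summable fun q : Ker L => (hN q.1) ^ (-(2 / 5) : ℝ) := by
  classical
  obtain ⟨C, hC, hcount⟩ := count_d (ι := ι)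
  let P : ℕ+ → (ι → Q) → Prop := fun r q => ∀ j, ((q j).1.1 : ℕ) ∣ (r : ℕ) ^ 5 ∧ ((q j).1.2 : ℕ) ∣ (r : ℕ) ^ 5
  let w : ℕ+ → ENNReal := fun r => ENNReal.ofReal (((r : ℕ) : ℝ) ^ (-(6 / 5) : ℝ))
  have hroot : ∀ q : Ker L, ∃ r : ℕ+, P r q.1 ∧ ENNReal.ofReal ((hN q.1) ^ (-(2 / 5) : ℝ)) ≤ w r := by
    intro q
    obtain ⟨r, hr0, hr3, hr5⟩ := three_root (nN_pos q.1).ne' (fun p hp hpd => ker_full hn hι L hL q.1 q.2 p hp hpd)
    refine ⟨⟨r, hr0⟩, ?_, ?_⟩
    · intro j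
      have h1 : ((q.1 j).1.1 : ℕ) * ((q.1 j).1.2 : ℕ) ∣ nN q.1 := by
        unfold nN
        exact Finset.dvd_prod_of_mem (fun j => ((q.1 j).1.1 : ℕ) * ((q.1 j).1.2 : ℕ)) (Finset.mem_univ j)
      have h2 := h1.trans hr5
      exact ⟨(dvd_mul_right _ _).trans h2, (dvd_mul_left _ _).trans h2⟩
    · refine ENNReal.ofReal_le_ofReal ?_
      have h3 : ((r : ℝ) ^ (3 : ℕ)) ≤ hN q.1 := by
        rw [hN_eq]
        exact_mod_cast Nat.le_of_dvd (nN_pos q.1) hr3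
      have hr0' : (0 : ℝ) < r := by exact_mod_cast hr0
      have h4 : (hN q.1) ^ (-(2 / 5) : ℝ) ≤ ((r : ℝ) ^ (3 : ℕ)) ^ (-(2 / 5) : ℝ) :=
        Real.rpow_le_rpow_of_nonpos (by positivity) h3 (by norm_num)
      refine h4.trans (le_of_eq ?_)
      rw [← Real.rpow_natCast, ← Real.rpow_mul hr0'.le]
      norm_num
  have hfin : ∑' q : Ker L, ENNReal.ofReal ((hN q.1) ^ (-(2 / 5) : ℝ)) ≠ ⊤ := by
    have h1 : ∑' q : Ker L, ENNReal.ofReal ((hN q.1) ^ (-(2 / 5) : ℝ)) ≤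
        ∑' q : Ker L, ∑' r : ℕ+, w r * (if P r q.1 then 1 else 0) := by
      refine ENNReal.tsum_le_tsum fun q => ?_
      obtain ⟨r, hr, hle⟩ := hroot q
      refine hle.trans (le_trans ?_ (ENNReal.le_tsum r))
      rw [if_pos hr, mul_one]
    have h2 : ∑' q : Ker L, ∑' r : ℕ+, w r * (if P r q.1 then 1 else 0) ≤
        ∑' q : ι → Q, ∑' r : ℕ+, w r * (if P r q then 1 else 0) :=
      ENNReal.tsum_comp_le_tsum_of_injective (f := fun q : Ker L => q.1) Subtype.val_injective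
        (fun q => ∑' r : ℕ+, w r * (if P r q then 1 else 0))
    have h3 : ∑' q : ι → Q, ∑' r : ℕ+, w r * (if P r q then 1 else 0) ≤
        ∑' r : ℕ+, ENNReal.ofReal (C * ((r : ℕ) : ℝ) ^ (-(11 / 10) : ℝ)) := by
      rw [ENNReal.tsum_comm]
      refine ENNReal.tsum_le_tsum fun r => ?_
      rw [ENNReal.tsum_mul_left]
      have hr0 : (0 : ℝ) < ((r : ℕ) : ℝ) := by exact_mod_cast r.pos
      calc w r * ∑' q : ι → Q, (if P r q then (1 : ENNReal) else 0)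
          ≤ w r * ENNReal.ofReal (C * ((r : ℕ) : ℝ) ^ (1 / 10 : ℝ)) := mul_le_mul_right (hcount r) _
        _ = ENNReal.ofReal (C * ((r : ℕ) : ℝ) ^ (-(11 / 10) : ℝ)) := by
            rw [← ENNReal.ofReal_mul (by positivity)]
            congr 1
            rw [mul_left_comm, ← Real.rpow_add hr0]
            norm_num
    have h4 : Summable fun r : ℕ+ => C * ((r : ℕ) : ℝ) ^ (-(11 / 10) : ℝ) := by
      refine Summable.mul_left C ?_
      exact (Real.summable_nat_rpow.2 (by norm_num)).comp_injective PNat.coe_injective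
    exact ne_top_of_le_ne_top h4.tsum_ofReal_ne_top (h1.trans (h2.trans h3))
  have h5 := ENNReal.summable_toReal hfin
  refine h5.congr fun q => ?_
  rw [ENNReal.toReal_ofReal]
  exact Real.rpow_nonneg (by linarith [one_le_hN q.1]) _

end Pool.Agent.P07318v
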