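import Pool.Agent.Lib.P07318v.DefsK

/-!
# The exponents of a prime in a tuple of the kernel  (1.3 h)

PROOF. `q ∈ Ker L`: `∑_j L_ji (log a_j - log b_j) = 0`, `q_j = (a_j, b_j)`. Exponentiate: `∏_j ((a_j : ℝ) / b_j) ^ (L j i) = 1` (`zpow`; `Real.exp_sum`, `Real.exp_int_mul`/`Real.rpow_intCast`, or `Real.log_prod`, `Real.log_zpow`, and injectivity of `log` on positive numbers), hence the same identity in `ℚ` (`Rat.cast_injective`, `push_cast`).
`padicValRat p` of both sides (`Fact p.Prime`): `padicValRat p (∏ ..) = ∑_j L j i * padicValRat p (a_j / b_j)` (induction over a finset, `padicValRat.mul`, `padicValRat.zpow`, all factors are nonzero), `padicValRat p (a / b) = padicValNat p a - padicValNat p b` (`padicValRat.div`, `padicValRat.of_nat`), `padicValRat.one`.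
-/

set_option autoImplicit false

namespace Pool.Agent.P07318v

open MeasureTheory Complex Pool.Agent.P07318s Pool.Agent.P07318f Pool.Agent.P07318h Pool.Agent.P07318o

lemma padic_prod {ι : Type} (p : ℕ) [Fact p.Prime] (s : Finset ι) (f : ι → ℚ) (hf : ∀ j, f j ≠ 0) :
    padicValRat p (∏ j ∈ s, f j) = ∑ j ∈ s, padicValRat p (f j) := by
  classical
  induction s using Finset.induction_on with
  | empty => simp
  | insert a s ha ih =>
    rw [Finset.prod_insert ha, Finset.sum_insert ha,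
      padicValRat.mul (hf a) (Finset.prod_ne_zero_iff.2 fun j _ => hf j), ih]

lemma vq_eq (p : ℕ) [Fact p.Prime] (q : Q) :
    vq p q = padicValRat p (((q.1.1 : ℕ) : ℚ) / ((q.1.2 : ℕ) : ℚ)) := by
  have h1 : (((q.1.1 : ℕ) : ℚ)) ≠ 0 := by exact_mod_cast q.1.1.pos.ne'
  have h2 : (((q.1.2 : ℕ) : ℚ)) ≠ 0 := by exact_mod_cast q.1.2.pos.ne'
  rw [padicValRat.div h1 h2, padicValRat.of_nat, padicValRat.of_nat]
  rfl

theorem ker_val {ι : Type} [Fintype ι] {d : ℕ} (L : ι → Fin d → ℤ) (q : ι → Q) (hq : q ∈ Ker L) (p : ℕ) (hp : p.Prime)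
    (i : Fin d) : ∑ j, L j i * vq p (q j) = 0 := by
  have : Fact p.Prime := ⟨hp⟩
  have h0 : ∀ j, 0 < (((q j).1.1 : ℕ) : ℝ) := fun j => by exact_mod_cast (q j).1.1.pos
  have h0' : ∀ j, 0 < (((q j).1.2 : ℕ) : ℝ) := fun j => by exact_mod_cast (q j).1.2.pos
  have h1 := hq i
  -- the product is one
  have h2 : ∏ j, ((((q j).1.1 : ℕ) : ℝ) / (((q j).1.2 : ℕ) : ℝ)) ^ (L j i) = 1 := by
    have hpos : 0 < ∏ j, ((((q j).1.1 : ℕ) : ℝ) / (((q j).1.2 : ℕ) : ℝ)) ^ (L j i) :=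
      Finset.prod_pos fun j _ => zpow_pos (div_pos (h0 j) (h0' j)) _
    have hl : Real.log (∏ j, ((((q j).1.1 : ℕ) : ℝ) / (((q j).1.2 : ℕ) : ℝ)) ^ (L j i)) = 0 := by
      rw [Real.log_prod (fun j _ => (zpow_pos (div_pos (h0 j) (h0' j)) _).ne')]
      rw [← h1]
      refine Finset.sum_congr rfl fun j _ => ?_
      rw [Real.log_zpow, Real.log_div (h0 j).ne' (h0' j).ne']
      rfl
    exact Real.eq_one_of_pos_of_log_eq_zero hpos hl
  have h3 : ∏ j, ((((q j).1.1 : ℕ) : ℚ) / (((q j).1.2 : ℕ) : ℚ)) ^ (L j i) = 1 := by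
    have h4 : (((∏ j, ((((q j).1.1 : ℕ) : ℚ) / (((q j).1.2 : ℕ) : ℚ)) ^ (L j i) : ℚ)) : ℝ) = ((1 : ℚ) : ℝ) := by
      push_cast
      exact h2
    exact Rat.cast_injective h4
  have h5 := congrArg (padicValRat p) h3
  have hne : ∀ j, ((((q j).1.1 : ℕ) : ℚ) / (((q j).1.2 : ℕ) : ℚ)) ≠ 0 := fun j => by
    have e1 : ((((q j).1.1 : ℕ) : ℚ)) ≠ 0 := by exact_mod_cast (q j).1.1.pos.ne'
    have e2 : ((((q j).1.2 : ℕ) : ℚ)) ≠ 0 := by exact_mod_cast (q j).1.2.pos.ne'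
    exact div_ne_zero e1 e2
  rw [padic_prod p _ _ (fun j => zpow_ne_zero _ (hne j)), padicValRat.one] at h5
  rw [← h5]
  refine Finset.sum_congr rfl fun j _ => ?_
  rw [padicValRat.zpow, vq_eq]

end Pool.Agent.P07318v
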