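import Pool.Agent.Lib.P07318v.DefsK

/-!
# A nonzero linear combination of logarithms of fractions  (1.2 h)

PROOF. `q_j = (a_j, b_j)`, `l_j = L j i`, `P = ∏_j a_j ^ (l_j).toNat * b_j ^ (-l_j).toNat`, `R = ∏_j a_j ^ (-l_j).toNat * b_j ^ (l_j).toNat` (positive natural numbers). `log P - log R = ∑_j l_j (log a_j - log b_j)` (`l.toNat - (-l).toNat = l`: `Int.toNat_sub_toNat_neg`; `Real.log_prod`, `Real.log_mul`, `Real.log_pow`), the given sum, so `P ≠ R`.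
`1 ≤ a_j, b_j` and `a_j b_j ≤ Y` give `a_j, b_j ≤ Y`, and one of `(l_j).toNat`, `(-l_j).toNat` is `0`, their sum is `|l_j|`: `P, R ≤ ∏_j Y ^ |l_j| = Y ^ (∑_j |l_j|)` (real exponents at the end: `Real.rpow_sum_of_pos`, `Real.rpow_natCast`). If `P > R`: `P ≥ R + 1`, `log P - log R = log (P/R) ≥ 1 - R/P ≥ 1/P ≥ Y ^ (-∑ |l_j|)`
(`Real.one_sub_inv_le_log_of_pos`); if `P < R` the same with the roles exchanged.
-/

set_option autoImplicit false

namespace Pool.Agent.P07318v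

open MeasureTheory Complex Pool.Agent.P07318s Pool.Agent.P07318f Pool.Agent.P07318h Pool.Agent.P07318o

namespace LamLowAux

/-- two different positive natural numbers below `B` have logarithms at distance at least `1 / B` -/
theorem log_sep {P R : ℕ} (hP : 1 ≤ P) (hR : 1 ≤ R) (hne : P ≠ R) {B : ℝ} (hPB : (P : ℝ) ≤ B)
    (hRB : (R : ℝ) ≤ B) : B⁻¹ ≤ |Real.log P - Real.log R| := by
  have key : ∀ P R : ℕ, 1 ≤ R → R < P → (P : ℝ) ≤ B → B⁻¹ ≤ Real.log P - Real.log R := by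
    intro P R hR hlt hPB
    have hR0 : (0 : ℝ) < R := by exact_mod_cast hR
    have hlt1 : (R : ℝ) + 1 ≤ P := by exact_mod_cast hlt
    have hP0 : (0 : ℝ) < P := by linarith
    have hB0 : 0 < B := lt_of_lt_of_le hP0 hPB
    have h1 : 1 - ((P : ℝ) / R)⁻¹ ≤ Real.log ((P : ℝ) / R) :=
      Real.one_sub_inv_le_log_of_pos (by positivity)
    rw [Real.log_div hP0.ne' hR0.ne'] at h1
    refine le_trans ?_ h1
    rw [inv_div]
    have h2 : (R : ℝ) / P ≤ 1 - (P : ℝ)⁻¹ := by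
      rw [div_le_iff₀ hP0, sub_mul, inv_mul_cancel₀ hP0.ne']
      linarith
    have h3 : B⁻¹ ≤ (P : ℝ)⁻¹ := inv_anti₀ hP0 hPB
    linarith
  rcases lt_or_gt_of_ne hne with h | h
  · have := key R P hP h hRB
    rw [abs_sub_comm]
    exact this.trans (le_abs_self _)
  · exact (key P R hR h hPB).trans (le_abs_self _)

theorem fac_le {a b : ℕ} (ha : 1 ≤ a) (hb : 1 ≤ b) {Y : ℝ} (hY : 1 ≤ Y)
    (hab : (a : ℝ) * (b : ℝ) ≤ Y) (m n : ℕ) : (a : ℝ) ^ m * (b : ℝ) ^ n ≤ Y ^ (m + n) := by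
  have ha1 : (1 : ℝ) ≤ a := by exact_mod_cast ha
  have hb1 : (1 : ℝ) ≤ b := by exact_mod_cast hb
  have haY : (a : ℝ) ≤ Y := by nlinarith
  have hbY : (b : ℝ) ≤ Y := by nlinarith
  rw [pow_add]
  exact mul_le_mul (pow_le_pow_left₀ (by linarith) haY m) (pow_le_pow_left₀ (by linarith) hbY n)
    (by positivity) (by positivity)

theorem toNat_real (l : ℤ) : ((l.toNat : ℕ) : ℝ) - (((-l).toNat : ℕ) : ℝ) = (l : ℝ) := by
  have h := Int.toNat_sub_toNat_neg l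
  have h2 : (((l.toNat : ℤ) - ((-l).toNat : ℤ) : ℤ) : ℝ) = (l : ℝ) := by rw [h]
  push_cast at h2
  exact h2

theorem toNat_abs (l : ℤ) : ((l.toNat + (-l).toNat : ℕ) : ℝ) = |(l : ℝ)| := by
  have h : ((l.toNat + (-l).toNat : ℕ) : ℤ) = |l| := by
    push_cast
    rw [Int.toNat_eq_max, Int.toNat_eq_max]
    rcases le_total 0 l with h | h
    · rw [abs_of_nonneg h, max_eq_left h, max_eq_right (by omega)]
      omega
    · rw [abs_of_nonpos h, max_eq_right h, max_eq_left (by omega)]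
      omega
  have h2 : (((l.toNat + (-l).toNat : ℕ) : ℤ) : ℝ) = ((|l| : ℤ) : ℝ) := by rw [h]
  rw [Int.cast_abs] at h2
  exact_mod_cast h2

/-- the product of the powers -/
noncomputable def PP {ι : Type} [Fintype ι] (l : ι → ℤ) (a b : ι → ℕ) : ℕ :=
  ∏ j, a j ^ (l j).toNat * b j ^ (-l j).toNat

theorem PP_pos {ι : Type} [Fintype ι] (l : ι → ℤ) (a b : ι → ℕ) (ha : ∀ j, 1 ≤ a j)
    (hb : ∀ j, 1 ≤ b j) : 1 ≤ PP l a b :=
  Nat.succ_le_of_lt (Finset.prod_pos fun j _ =>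
    Nat.mul_pos (Nat.pow_pos (ha j)) (Nat.pow_pos (hb j)))

theorem PP_le {ι : Type} [Fintype ι] (l : ι → ℤ) (a b : ι → ℕ) (ha : ∀ j, 1 ≤ a j)
    (hb : ∀ j, 1 ≤ b j) {Y : ℝ} (hY : 1 ≤ Y) (hab : ∀ j, (a j : ℝ) * (b j : ℝ) ≤ Y) :
    (PP l a b : ℝ) ≤ Y ^ (∑ j, |(l j : ℝ)|) := by
  have hY0 : 0 < Y := by linarith
  rw [Real.rpow_sum_of_pos hY0]
  unfold PP
  push_cast
  refine Finset.prod_le_prod (fun j _ => by positivity) fun j _ => ?_
  rw [← toNat_abs, Real.rpow_natCast]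
  exact fac_le (ha j) (hb j) hY (hab j) _ _

theorem log_PP {ι : Type} [Fintype ι] (l : ι → ℤ) (a b : ι → ℕ) (ha : ∀ j, 1 ≤ a j)
    (hb : ∀ j, 1 ≤ b j) : Real.log (PP l a b : ℝ) =
      ∑ j, (((l j).toNat : ℝ) * Real.log (a j) + ((-l j).toNat : ℝ) * Real.log (b j)) := by
  unfold PP
  push_cast
  rw [Real.log_prod]
  · refine Finset.sum_congr rfl fun j _ => ?_
    have h1 : (0 : ℝ) < a j := by exact_mod_cast ha j
    have h2 : (0 : ℝ) < b j := by exact_mod_cast hb j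
    rw [Real.log_mul (by positivity) (by positivity), Real.log_pow, Real.log_pow]
  · intro j _
    have h1 : (0 : ℝ) < a j := by exact_mod_cast ha j
    have h2 : (0 : ℝ) < b j := by exact_mod_cast hb j
    positivity

end LamLowAux

open LamLowAux in
theorem lam_low {ι : Type} [Fintype ι] {d : ℕ} (L : ι → Fin d → ℤ) (i : Fin d) (Y : ℝ) (hY : 1 ≤ Y) (q : ι → Q)
    (hq : ∀ j, hgt (q j).1 ≤ Y) (h0 : ∑ j, (L j i : ℝ) * lgr (q j).1 ≠ 0) :
    Y ^ (-(∑ j, |(L j i : ℝ)|)) ≤ |∑ j, (L j i : ℝ) * lgr (q j).1| := by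
  have hY0 : 0 < Y := by linarith
  set l : ι → ℤ := fun j => L j i with hl
  set a : ι → ℕ := fun j => ((q j).1.1 : ℕ) with ha
  set b : ι → ℕ := fun j => ((q j).1.2 : ℕ) with hb
  have ha1 : ∀ j, 1 ≤ a j := fun j => (q j).1.1.pos
  have hb1 : ∀ j, 1 ≤ b j := fun j => (q j).1.2.pos
  have hab : ∀ j, (a j : ℝ) * (b j : ℝ) ≤ Y := fun j => hq j
  have hba : ∀ j, (b j : ℝ) * (a j : ℝ) ≤ Y := fun j => by rw [mul_comm]; exact hab j
  have hsum : Real.log (PP l a b : ℝ) - Real.log (PP l b a : ℝ) =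
      ∑ j, (L j i : ℝ) * lgr (q j).1 := by
    rw [log_PP l a b ha1 hb1, log_PP l b a hb1 ha1, ← Finset.sum_sub_distrib]
    refine Finset.sum_congr rfl fun j _ => ?_
    have h1 := toNat_real (l j)
    have h2 : lgr (q j).1 = Real.log (a j) - Real.log (b j) := rfl
    have h3 : (L j i : ℝ) = ((l j).toNat : ℝ) - ((-l j).toNat : ℝ) := h1.symm
    rw [h2, h3]
    ring
  have hne : PP l a b ≠ PP l b a := by
    intro h
    apply h0
    rw [← hsum, h, sub_self]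
  rw [← hsum, Real.rpow_neg hY0.le]
  exact log_sep (PP_pos l a b ha1 hb1) (PP_pos l b a hb1 ha1) hne (PP_le l a b ha1 hb1 hY hab)
    (PP_le l b a hb1 ha1 hY hba)

end Pool.Agent.P07318v
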