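import Pool.Agent.Lib.P07318v.LinD
import Pool.Agent.Lib.P07318o.FrIndep

/-!
# Module Lin1: linear changes of variables

`x ↦ (fun i => pt L κ x (σ i)) = Mx L σ *ᵥ x + κ ∘ σ` (`mulVec_Mx`) is an affine bijection of `Fin d → ℝ`, a homeomorphism (inverse `iv L κ σ`, `pt_iv`,
`iv_pt`), so a measurable embedding, and it maps the volume to `|det|⁻¹ • volume`
(`Real.map_matrix_volume_pi_eq_smul_volume_pi : M.det ≠ 0 → Measure.map (toLin' M) volume = ENNReal.ofReal |M.det⁻¹| • volume`, then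
the translation by `κ ∘ σ`, `MeasureTheory.map_add_right_eq_self` or `lintegral_add_right_eq_self`).  No measurability of `Θ` is needed:
`MeasurableEmbedding.lintegral_map`, `MeasurableEmbedding.integral_map`, `lintegral_smul_measure`, `integral_smul_measure`.

`crd_prod`: `crd_lint` and `lint_pi` (FrIndep).

`pr_int`, `pr_lint`: `crd_int`, `crd_lint` for `σ = s1 n`, `Θ y = Ψ (iv L κ (s1 n) y)` (`iv_pt`), and then
`Fin (n + 1) → ℝ ≃ (Fin n → ℝ) × ℝ` by `Fin.snoc` (`iso_int (Fin.last n)`, `iso_lint (Fin.last n)` of FrDefs: `Fin.insertNth (Fin.last n) x w = Fin.snoc w x`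
(`Fin.insertNth_last'`), and the swap of the two factors: `MeasureTheory.Measure.prod_swap`, `integral_prod_swap`, `lintegral_prod_swap`).
-/

set_option autoImplicit false

namespace Pool.Agent.P07318v

open MeasureTheory Complex Pool.Agent.P07318s Pool.Agent.P07318f Pool.Agent.P07318h Pool.Agent.P07318o

namespace Lin1Aux

/-- the affine coordinates as a homeomorphism -/
noncomputable def TH {ι : Type} {d : ℕ} (L : ι → Fin d → ℝ) (κ : ι → ℝ) (σ : Fin d → ι) (hM : (Mx L σ).det ≠ 0) :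
    (Fin d → ℝ) ≃ₜ (Fin d → ℝ) where
  toFun := fun x i => pt L κ x (σ i)
  invFun := iv L κ σ
  left_inv := fun x => iv_pt L κ σ hM x
  right_inv := fun y => funext fun i => pt_iv L κ σ hM y i
  continuous_toFun := by
    refine continuous_pi fun i => ?_
    unfold pt
    exact continuous_const.add (continuous_finsetSum _ fun k _ => continuous_const.mul (continuous_apply k))
  continuous_invFun := by
    unfold iv
    refine continuous_pi fun i => ?_
    simp only [Matrix.mulVec, dotProduct]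
    exact continuous_finsetSum _ fun k _ => continuous_const.mul ((continuous_apply k).sub continuous_const)

lemma emb {ι : Type} {d : ℕ} (L : ι → Fin d → ℝ) (κ : ι → ℝ) (σ : Fin d → ι) (hM : (Mx L σ).det ≠ 0) :
    MeasurableEmbedding (fun (x : Fin d → ℝ) (i : Fin d) => pt L κ x (σ i)) :=
  (TH L κ σ hM).measurableEmbedding

lemma map_T {ι : Type} {d : ℕ} (L : ι → Fin d → ℝ) (κ : ι → ℝ) (σ : Fin d → ι) (hM : (Mx L σ).det ≠ 0) :
    Measure.map (fun (x : Fin d → ℝ) (i : Fin d) => pt L κ x (σ i)) (volume : Measure (Fin d → ℝ)) =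
      ENNReal.ofReal |(Mx L σ).det|⁻¹ • (volume : Measure (Fin d → ℝ)) := by
  have h1 : (fun (x : Fin d → ℝ) (i : Fin d) => pt L κ x (σ i)) =
      (fun y : Fin d → ℝ => y + fun i => κ (σ i)) ∘ (Matrix.toLin' (Mx L σ)) := by
    funext x i
    have h2 := mulVec_Mx L κ σ x i
    simp only [Function.comp, Matrix.toLin'_apply, Pi.add_apply]
    linarith
  rw [h1, ← Measure.map_map (measurable_add_const _) (LinearMap.continuous_of_finiteDimensional _).measurable,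
    Real.map_matrix_volume_pi_eq_smul_volume_pi hM, Measure.map_smul, map_add_right_eq_self, abs_inv]

end Lin1Aux

open Lin1Aux

theorem crd_lint {ι : Type} {d : ℕ} (L : ι → Fin d → ℝ) (κ : ι → ℝ) (σ : Fin d → ι) (hM : (Mx L σ).det ≠ 0)
    (Θ : (Fin d → ℝ) → ENNReal) :
    ∫⁻ x, Θ (fun i => pt L κ x (σ i)) = ENNReal.ofReal |(Mx L σ).det|⁻¹ * ∫⁻ y, Θ y := by
  have h := (emb L κ σ hM).lintegral_map (μ := volume) Θ
  rw [← h, map_T L κ σ hM, lintegral_smul_measure, smul_eq_mul]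

theorem crd_int {ι : Type} {d : ℕ} (L : ι → Fin d → ℝ) (κ : ι → ℝ) (σ : Fin d → ι) (hM : (Mx L σ).det ≠ 0)
    (Θ : (Fin d → ℝ) → ℂ) :
    ∫ x, Θ (fun i => pt L κ x (σ i)) = ((|(Mx L σ).det|⁻¹ : ℝ) : ℂ) * ∫ y, Θ y := by
  have h := (emb L κ σ hM).integral_map (μ := volume) Θ
  rw [← h, map_T L κ σ hM, integral_smul_measure, ENNReal.toReal_ofReal (by positivity), Complex.real_smul]

theorem crd_prod {ι : Type} {d : ℕ} (L : ι → Fin d → ℝ) (κ : ι → ℝ) (σ : Fin d → ι) (hM : (Mx L σ).det ≠ 0)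
    (F : Fin d → ℝ → ENNReal) (hF : ∀ i, Measurable (F i)) :
    ∫⁻ x, ∏ i, F i (pt L κ x (σ i)) = ENNReal.ofReal |(Mx L σ).det|⁻¹ * ∏ i, ∫⁻ y, F i y := by
  rw [← lint_pi F hF]
  exact crd_lint L κ σ hM fun y => ∏ i, F i (y i)

/-- the coordinates `(u, s)` -/
theorem pr_lint {n : ℕ} (L : Fin n ⊕ Fin (n + 2) → Fin (n + 1) → ℝ) (hL : GP L) (κ : Fin n ⊕ Fin (n + 2) → ℝ)
    (Ψ : (Fin (n + 1) → ℝ) → ENNReal) :
    ∫⁻ x, Ψ x = ENNReal.ofReal |(Mx L (s1 n)).det|⁻¹ * ∫⁻ p : (Fin n → ℝ) × ℝ, Ψ (XX L κ p) := by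
  have hM : (Mx L (s1 n)).det ≠ 0 := hL _ (s1_inj n)
  have h := crd_lint L κ (s1 n) hM fun y => Ψ (iv L κ (s1 n) y)
  simp only [iv_pt L κ (s1 n) hM] at h
  rw [h, iso_lint (Fin.last n)]
  congr 1
  have e1 : ∀ p : ℝ × (Fin n → ℝ), Ψ (iv L κ (s1 n) ((Fin.last n).insertNth p.1 p.2)) = Ψ (XX L κ p.swap) := by
    intro p
    unfold XX
    rw [Fin.insertNth_last']
    rfl
  simp only [e1]
  have h3 := lintegral_map_equiv (μ := (volume : Measure (ℝ × (Fin n → ℝ)))) (fun q => Ψ (XX L κ q)) MeasurableEquiv.prodComm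
  rw [show (∫⁻ p : ℝ × (Fin n → ℝ), Ψ (XX L κ p.swap)) =
    ∫⁻ p : ℝ × (Fin n → ℝ), Ψ (XX L κ (MeasurableEquiv.prodComm p)) from rfl, ← h3]
  congr 1
  exact Measure.prod_swap

theorem pr_int {n : ℕ} (L : Fin n ⊕ Fin (n + 2) → Fin (n + 1) → ℝ) (hL : GP L) (κ : Fin n ⊕ Fin (n + 2) → ℝ)
    (Ψ : (Fin (n + 1) → ℝ) → ℂ) :
    ∫ x, Ψ x = ((|(Mx L (s1 n)).det|⁻¹ : ℝ) : ℂ) * ∫ p : (Fin n → ℝ) × ℝ, Ψ (XX L κ p) := by
  have hM : (Mx L (s1 n)).det ≠ 0 := hL _ (s1_inj n)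
  have h := crd_int L κ (s1 n) hM fun y => Ψ (iv L κ (s1 n) y)
  simp only [iv_pt L κ (s1 n) hM] at h
  rw [h, iso_int (Fin.last n)]
  congr 1
  have e1 : ∀ p : ℝ × (Fin n → ℝ), Ψ (iv L κ (s1 n) ((Fin.last n).insertNth p.1 p.2)) = Ψ (XX L κ p.swap) := by
    intro p
    unfold XX
    rw [Fin.insertNth_last']
    rfl
  simp only [e1]
  have h3 := integral_map_equiv (μ := (volume : Measure (ℝ × (Fin n → ℝ)))) MeasurableEquiv.prodComm (fun q => Ψ (XX L κ q))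
  rw [show (∫ p : ℝ × (Fin n → ℝ), Ψ (XX L κ p.swap)) =
    ∫ p : ℝ × (Fin n → ℝ), Ψ (XX L κ (MeasurableEquiv.prodComm p)) from rfl, ← h3]
  congr 1
  exact Measure.prod_swap

end Pool.Agent.P07318v
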