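import Pool.Agent.Lib.P07318v.Defs
import Pool.Agent.Lib.P07318o.FrDefs

/-!
Linear coordinates: definitions and elementary facts (helper79).
-/

set_option autoImplicit false

namespace Pool.Agent.P07318v

open MeasureTheory Complex Pool.Agent.P07318s Pool.Agent.P07318f Pool.Agent.P07318h Pool.Agent.P07318o

/-- the matrix of the forms with indices `σ` -/
def Mx {ι : Type} {d : ℕ} (L : ι → Fin d → ℝ) (σ : Fin d → ι) : Matrix (Fin d) (Fin d) ℝ := Matrix.of fun i => L (σ i)

/-- the coefficients of the form `j` in terms of the forms `σ` -/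
noncomputable def bet {ι : Type} {d : ℕ} (L : ι → Fin d → ℝ) (σ : Fin d → ι) (j : ι) : Fin d → ℝ :=
  Matrix.vecMul (L j) (Mx L σ)⁻¹

/-- the point with the values `y` of the affine forms `σ` -/
noncomputable def iv {ι : Type} {d : ℕ} (L : ι → Fin d → ℝ) (κ : ι → ℝ) (σ : Fin d → ι) (y : Fin d → ℝ) : Fin d → ℝ :=
  (Mx L σ)⁻¹.mulVec fun i => y i - κ (σ i)

lemma mulVec_Mx {ι : Type} {d : ℕ} (L : ι → Fin d → ℝ) (κ : ι → ℝ) (σ : Fin d → ι) (x : Fin d → ℝ) (i : Fin d) :
    (Mx L σ).mulVec x i = pt L κ x (σ i) - κ (σ i) := by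
  unfold pt Mx Matrix.mulVec dotProduct
  simp

lemma pt_iv {ι : Type} {d : ℕ} (L : ι → Fin d → ℝ) (κ : ι → ℝ) (σ : Fin d → ι) (hM : (Mx L σ).det ≠ 0) (y : Fin d → ℝ)
    (i : Fin d) : pt L κ (iv L κ σ y) (σ i) = y i := by
  have h1 := mulVec_Mx L κ σ (iv L κ σ y) i
  have h2 : (Mx L σ).mulVec (iv L κ σ y) = fun i => y i - κ (σ i) := by
    unfold iv
    rw [Matrix.mulVec_mulVec, Matrix.mul_nonsing_inv _ (isUnit_iff_ne_zero.2 hM), Matrix.one_mulVec]
  rw [h2] at h1
  simp only at h1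
  linarith

lemma iv_pt {ι : Type} {d : ℕ} (L : ι → Fin d → ℝ) (κ : ι → ℝ) (σ : Fin d → ι) (hM : (Mx L σ).det ≠ 0) (x : Fin d → ℝ) :
    iv L κ σ (fun i => pt L κ x (σ i)) = x := by
  unfold iv
  have h2 : (fun i => pt L κ x (σ i) - κ (σ i)) = (Mx L σ).mulVec x := by
    funext i
    exact (mulVec_Mx L κ σ x i).symm
  rw [h2, Matrix.mulVec_mulVec, Matrix.nonsing_inv_mul _ (isUnit_iff_ne_zero.2 hM), Matrix.one_mulVec]

lemma pt_bet {ι : Type} {d : ℕ} (L : ι → Fin d → ℝ) (σ : Fin d → ι) (hM : (Mx L σ).det ≠ 0) (κ : ι → ℝ) (x : Fin d → ℝ)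
    (j : ι) : pt L κ x j = (κ j - ∑ i, bet L σ j i * κ (σ i)) + ∑ i, bet L σ j i * pt L κ x (σ i) := by
  have h1 : ∑ i, L j i * x i = ∑ i, bet L σ j i * (pt L κ x (σ i) - κ (σ i)) := by
    have h2 : Matrix.vecMul (bet L σ j) (Mx L σ) = L j := by
      unfold bet
      rw [Matrix.vecMul_vecMul, Matrix.nonsing_inv_mul _ (isUnit_iff_ne_zero.2 hM), Matrix.vecMul_one]
    have h3 : dotProduct (L j) x = dotProduct (bet L σ j) ((Mx L σ).mulVec x) := by
      rw [Matrix.dotProduct_mulVec, h2]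
    unfold dotProduct at h3
    rw [h3]
    refine Finset.sum_congr rfl fun i _ => ?_
    rw [mulVec_Mx L κ σ x i]
  have h4 : ∑ i, bet L σ j i * (pt L κ x (σ i) - κ (σ i)) =
      ∑ i, bet L σ j i * pt L κ x (σ i) - ∑ i, bet L σ j i * κ (σ i) := by
    rw [← Finset.sum_sub_distrib]
    refine Finset.sum_congr rfl fun i _ => ?_
    ring
  have h5 : pt L κ x j = κ j + ∑ i, L j i * x i := rfl
  rw [h5, h1, h4]
  ring

lemma bet_ne {ι : Type} [DecidableEq ι] {d : ℕ} (L : ι → Fin d → ℝ) (hL : GP L) (σ : Fin d → ι) (hσ : Function.Injective σ)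
    (j : ι) (hj : ∀ i, σ i ≠ j) (i : Fin d) : bet L σ j i ≠ 0 := by
  classical
  have hM : (Mx L σ).det ≠ 0 := hL σ hσ
  have h2 : Matrix.vecMul (bet L σ j) (Mx L σ) = L j := by
    unfold bet
    rw [Matrix.vecMul_vecMul, Matrix.nonsing_inv_mul _ (isUnit_iff_ne_zero.2 hM), Matrix.vecMul_one]
  have h3 : ((Mx L σ).updateRow i (L j)).det = bet L σ j i * (Mx L σ).det := by
    rw [← h2]
    have h4 : Matrix.vecMul (bet L σ j) (Mx L σ) = ∑ k, bet L σ j k • (Mx L σ) k := by
      funext a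
      simp [Matrix.vecMul, dotProduct, Finset.sum_apply]
    rw [h4, Matrix.det_updateRow_sum]
    rfl
  have h5 : Function.Injective (Function.update σ i j) := by
    intro a b hab
    by_cases ha : a = i
    · by_cases hb : b = i
      · rw [ha, hb]
      · rw [ha, Function.update_self, Function.update_of_ne hb] at hab
        exact absurd hab.symm (hj b)
    · by_cases hb : b = i
      · rw [hb, Function.update_self, Function.update_of_ne ha] at hab
        exact absurd hab (hj a)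
      · rw [Function.update_of_ne ha, Function.update_of_ne hb] at hab
        exact hσ hab
  have h6 : (Mx L σ).updateRow i (L j) = Matrix.of fun k => L (Function.update σ i j k) := by
    funext k
    by_cases hk : k = i
    · subst hk
      rw [Matrix.updateRow_self]
      show L j = L (Function.update σ k j k)
      rw [Function.update_self]
    · rw [Matrix.updateRow_ne hk]
      show L (σ k) = L (Function.update σ i j k)
      rw [Function.update_of_ne hk]
  intro h0
  rw [h0, zero_mul, h6] at h3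
  exact hL _ h5 h3

/-- the first group of slots together with the last slot -/
def s1 (n : ℕ) : Fin (n + 1) → Fin n ⊕ Fin (n + 2) :=
  fun i => Fin.lastCases (motive := fun _ => Fin n ⊕ Fin (n + 2)) (Sum.inr (Fin.last (n + 1))) (fun a => Sum.inl a) i

lemma s1_last (n : ℕ) : s1 n (Fin.last n) = Sum.inr (Fin.last (n + 1)) := by simp [s1]

lemma s1_cast {n : ℕ} (a : Fin n) : s1 n a.castSucc = Sum.inl a := by simp [s1]

lemma s1_inj (n : ℕ) : Function.Injective (s1 n) := by
  intro a b hab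
  induction a using Fin.lastCases with
  | last =>
    induction b using Fin.lastCases with
    | last => rfl
    | cast b => rw [s1_last, s1_cast] at hab; exact absurd hab (by simp)
  | cast a =>
    induction b using Fin.lastCases with
    | last => rw [s1_last, s1_cast] at hab; exact absurd hab (by simp)
    | cast b =>
      rw [s1_cast, s1_cast] at hab
      rw [Sum.inl.inj hab]

/-- the second group of slots without the last one -/
def s2 (n : ℕ) : Fin (n + 1) → Fin n ⊕ Fin (n + 2) := fun b => Sum.inr b.castSucc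

lemma s2_inj (n : ℕ) : Function.Injective (s2 n) := by
  intro a b hab
  exact Fin.castSucc_injective _ (Sum.inr.inj hab)

/-- the point of `ℝ^d` with the values `u` at the first group of slots and `s` at the last slot -/
noncomputable def XX {n : ℕ} (L : Fin n ⊕ Fin (n + 2) → Fin (n + 1) → ℝ) (κ : Fin n ⊕ Fin (n + 2) → ℝ) (p : (Fin n → ℝ) × ℝ) :
    Fin (n + 1) → ℝ := iv L κ (s1 n) (Fin.snoc (α := fun _ => ℝ) p.1 p.2)

/-- the coefficient of the last slot -/
noncomputable def vv {n : ℕ} (L : Fin n ⊕ Fin (n + 2) → Fin (n + 1) → ℝ) (b : Fin (n + 2)) : ℝ :=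
  bet L (s1 n) (Sum.inr b) (Fin.last n)

lemma XX_inl {n : ℕ} (L : Fin n ⊕ Fin (n + 2) → Fin (n + 1) → ℝ) (hL : GP L) (κ : Fin n ⊕ Fin (n + 2) → ℝ)
    (p : (Fin n → ℝ) × ℝ) (a : Fin n) : pt L κ (XX L κ p) (Sum.inl a) = p.1 a := by
  have h := pt_iv L κ (s1 n) (hL _ (s1_inj n)) (Fin.snoc (α := fun _ => ℝ) p.1 p.2) a.castSucc
  rw [s1_cast, Fin.snoc_castSucc] at h
  exact h

lemma XX_last {n : ℕ} (L : Fin n ⊕ Fin (n + 2) → Fin (n + 1) → ℝ) (hL : GP L) (κ : Fin n ⊕ Fin (n + 2) → ℝ)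
    (p : (Fin n → ℝ) × ℝ) : pt L κ (XX L κ p) (Sum.inr (Fin.last (n + 1))) = p.2 := by
  have h := pt_iv L κ (s1 n) (hL _ (s1_inj n)) (Fin.snoc (α := fun _ => ℝ) p.1 p.2) (Fin.last n)
  rw [s1_last, Fin.snoc_last] at h
  exact h

/-- the other slots move with speed `vv L b` -/
lemma XX_inr {n : ℕ} (L : Fin n ⊕ Fin (n + 2) → Fin (n + 1) → ℝ) (hL : GP L) (κ : Fin n ⊕ Fin (n + 2) → ℝ)
    (u : Fin n → ℝ) (s : ℝ) (b : Fin (n + 2)) :
    pt L κ (XX L κ (u, s)) (Sum.inr b) = pt L κ (XX L κ (u, 0)) (Sum.inr b) + vv L b * s := by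
  rw [pt_bet L (s1 n) (hL _ (s1_inj n)) κ (XX L κ (u, s)), pt_bet L (s1 n) (hL _ (s1_inj n)) κ (XX L κ (u, 0)),
    Fin.sum_univ_castSucc (f := fun i => bet L (s1 n) (Sum.inr b) i * pt L κ (XX L κ (u, s)) (s1 n i)),
    Fin.sum_univ_castSucc (f := fun i => bet L (s1 n) (Sum.inr b) i * pt L κ (XX L κ (u, 0)) (s1 n i))]
  simp only [s1_cast, s1_last, XX_inl L hL, XX_last L hL, vv]
  ring

lemma vv_last {n : ℕ} (L : Fin n ⊕ Fin (n + 2) → Fin (n + 1) → ℝ) (hL : GP L) : vv L (Fin.last (n + 1)) = 1 := by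
  have h1 := XX_inr L hL 0 (fun _ => 0) 1 (Fin.last (n + 1))
  rw [XX_last L hL, XX_last L hL] at h1
  simp only at h1
  linarith

lemma vv_ne {n : ℕ} (L : Fin n ⊕ Fin (n + 2) → Fin (n + 1) → ℝ) (hL : GP L) (b : Fin (n + 2)) : vv L b ≠ 0 := by
  induction b using Fin.lastCases with
  | last => rw [vv_last L hL]; exact one_ne_zero
  | cast b =>
    refine bet_ne L hL (s1 n) (s1_inj n) _ (fun i => ?_) _
    induction i using Fin.lastCases with
    | last =>
      rw [s1_last]
      intro h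
      exact (Fin.castSucc_lt_last b).ne' (Sum.inr.inj h)
    | cast a => rw [s1_cast]; simp

lemma XX_cont {n : ℕ} (L : Fin n ⊕ Fin (n + 2) → Fin (n + 1) → ℝ) (κ : Fin n ⊕ Fin (n + 2) → ℝ) : Continuous (XX L κ) := by
  have h1 : Continuous fun p : (Fin n → ℝ) × ℝ => (Fin.snoc (α := fun _ => ℝ) p.1 p.2 : Fin (n + 1) → ℝ) := by
    refine continuous_pi fun i => ?_
    induction i using Fin.lastCases with
    | last => simpa using continuous_snd
    | cast a =>
      simp only [Fin.snoc_castSucc]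
      exact (continuous_apply a).comp continuous_fst
  unfold XX iv
  refine continuous_pi fun i => ?_
  simp only [Matrix.mulVec, dotProduct]
  refine continuous_finsetSum _ fun k _ => ?_
  exact continuous_const.mul (((continuous_apply k).comp h1).sub continuous_const)

end Pool.Agent.P07318v
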