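import Pool.Agent.Lib.P07318v.DefsK

/-!
# Size of the coefficients, powers of the logarithm  (1 h)

PROOFS. `om h y = log y - log (2π) - log h + 2γ` (`h, y > 0`). `log h ≤ 20 h ^ (1/20)` (`Real.log_le_rpow_div`), `1 ≤ h ^ (1/20)`, `0 ≤ log (2π) ≤ 2` (`2π ≤ 7 ≤ e²`), `0 < 2γ < 2`. `om_bd`: `0 ≤ log y ≤ log 3 + log T ≤ 2 lg T` for `32 ≤ T/2 ≤ y ≤ 3T`, so `|om h y| ≤ 2 lg T + 2 + 20 h^(1/20) + 2 ≤ 26 lg T h^(1/20)` (`lg T ≥ 1`).
`om_loc`: `|log y| ≤ |log A| + |log B|` for `A ≤ y ≤ B` (`A > 0`; if `B < A` there is no `y`). `om_cont`: `Real.log` is continuous on positive numbers. `fc_zero`: trivial. `lg_pow`: `log T ≤ T ^ s / s` with `s = ε/(m+1)`, so `lg T ≤ (1 + 1/s) T ^ s` and `lg T ^ m ≤ (1 + 1/s) ^ m T ^ (s m) ≤ (1 + 1/s)^m T ^ ε`.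
-/

set_option autoImplicit false

namespace Pool.Agent.P07318v

open MeasureTheory Complex Pool.Agent.P07318s Pool.Agent.P07318f Pool.Agent.P07318h Pool.Agent.P07318o

private lemma om_aux (h y : ℝ) (hh : 1 ≤ h) (hy : 0 < y) :
    |om h y| ≤ |Real.log y| + 4 + 20 * h ^ (1 / 20 : ℝ) := by
  have hpi := Real.pi_pos
  have h0 : 0 < h := by linarith
  have e1 : om h y = Real.log y - Real.log (2 * Real.pi) - Real.log h
      + 2 * Real.eulerMascheroniConstant := by
    unfold om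
    rw [Real.log_div hy.ne' (by positivity), Real.log_mul (by positivity) h0.ne']
    ring
  have e2 : 0 ≤ Real.log (2 * Real.pi) := Real.log_nonneg (by linarith [Real.pi_gt_three])
  have e3 : Real.log (2 * Real.pi) ≤ 2 := by
    rw [Real.log_le_iff_le_exp (by positivity)]
    have h1 := Real.exp_one_gt_d9
    have h2 : Real.exp 2 = Real.exp 1 * Real.exp 1 := by rw [← Real.exp_add]; norm_num
    have h3 := Real.pi_lt_d2
    rw [h2]
    nlinarith
  have e4 : 0 ≤ Real.log h := Real.log_nonneg hh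
  have e5 : Real.log h ≤ 20 * h ^ (1 / 20 : ℝ) := by
    have := Real.log_le_rpow_div h0.le (show (0 : ℝ) < 1 / 20 by norm_num)
    linarith
  have e6 := Real.one_half_lt_eulerMascheroniConstant
  have e7 := Real.eulerMascheroniConstant_lt_two_thirds
  rw [e1, abs_le]
  have e8 := neg_abs_le (Real.log y)
  have e9 := le_abs_self (Real.log y)
  constructor <;> linarith

theorem om_bd : ∃ K : ℝ, 1 ≤ K ∧ ∀ T y h : ℝ, 64 ≤ T → T / 2 ≤ y → y ≤ 3 * T → 1 ≤ h →
    |om h y| ≤ K * lg T * h ^ (1 / 20 : ℝ) := by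
  refine ⟨26, by norm_num, fun T y h hT h1 h2 hh => ?_⟩
  have hy : 0 < y := by linarith
  have a1 := om_aux h y hh hy
  have a2 : 0 ≤ Real.log y := Real.log_nonneg (by linarith)
  have a3 : Real.log y ≤ Real.log 3 + Real.log T := by
    rw [← Real.log_mul (by norm_num) (by linarith)]
    exact Real.log_le_log hy h2
  have a4 : Real.log 3 ≤ 2 := by
    have := Real.log_le_sub_one_of_pos (show (0 : ℝ) < 3 by norm_num)
    linarith
  have a5 : 0 ≤ Real.log T := Real.log_nonneg (by linarith)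
  have a6 : 1 ≤ h ^ (1 / 20 : ℝ) := Real.one_le_rpow hh (by norm_num)
  rw [abs_of_nonneg a2] at a1
  unfold lg
  generalize h ^ (1 / 20 : ℝ) = u at *
  generalize Real.log T = v at *
  have a7 : 0 ≤ v * (u - 1) := mul_nonneg a5 (by linarith)
  nlinarith

theorem om_loc (A B : ℝ) (hA : 0 < A) : ∃ K : ℝ, 1 ≤ K ∧ ∀ y h : ℝ, A ≤ y → y ≤ B → 1 ≤ h → |om h y| ≤ K * h ^ (1 / 20 : ℝ) := by
  have b1 := abs_nonneg (Real.log A)
  have b2 := abs_nonneg (Real.log B)
  refine ⟨|Real.log A| + |Real.log B| + 24, by linarith, fun y h h1 h2 hh => ?_⟩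
  have hy : 0 < y := by linarith
  have a1 := om_aux h y hh hy
  have a2 : |Real.log y| ≤ |Real.log A| + |Real.log B| := by
    have c1 := Real.log_le_log hA h1
    have c2 := Real.log_le_log hy h2
    have c3 := neg_abs_le (Real.log A)
    have c4 := le_abs_self (Real.log B)
    rw [abs_le]
    constructor <;> linarith
  have a6 : 1 ≤ h ^ (1 / 20 : ℝ) := Real.one_le_rpow hh (by norm_num)
  have a7 : 0 ≤ (|Real.log A| + |Real.log B| + 4) * (h ^ (1 / 20 : ℝ) - 1) :=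
    mul_nonneg (by linarith) (by linarith)
  nlinarith

theorem om_cont (h : ℝ) (hh : 1 ≤ h) : ContinuousOn (om h) (Set.Ioi 0) := by
  have hpi := Real.pi_pos
  have h0 : 0 < h := by linarith
  unfold om
  refine ContinuousOn.add (ContinuousOn.log (by fun_prop) fun x hx => ?_) continuousOn_const
  have hx' : 0 < x := hx
  positivity

theorem lg_pow (m : ℕ) (ε : ℝ) (hε : 0 < ε) : ∃ C : ℝ, 1 ≤ C ∧ ∀ T : ℝ, 1 ≤ T → lg T ^ m ≤ C * T ^ ε := by
  have hm : (0 : ℝ) < (m : ℝ) + 1 := by positivity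
  have hs : 0 < ε / ((m : ℝ) + 1) := div_pos hε hm
  set s : ℝ := ε / ((m : ℝ) + 1) with hsd
  have h1s : 0 < 1 / s := one_div_pos.mpr hs
  refine ⟨(1 + 1 / s) ^ m, one_le_pow₀ (by linarith), fun T hT => ?_⟩
  have hT0 : 0 ≤ T := by linarith
  have a1 : Real.log T ≤ T ^ s / s := Real.log_le_rpow_div hT0 hs
  have a2 : 1 ≤ T ^ s := Real.one_le_rpow hT hs.le
  have a3 : lg T ≤ (1 + 1 / s) * T ^ s := by
    unfold lg
    have : T ^ s / s = 1 / s * T ^ s := by ring
    rw [this] at a1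
    linarith
  have a4 : 0 ≤ lg T := by
    unfold lg
    have := Real.log_nonneg hT
    linarith
  have a5 : (T ^ s) ^ m ≤ T ^ ε := by
    rw [← Real.rpow_natCast, ← Real.rpow_mul hT0]
    refine Real.rpow_le_rpow_of_exponent_le hT ?_
    rw [hsd, div_mul_eq_mul_div, div_le_iff₀ hm]
    nlinarith
  calc lg T ^ m ≤ ((1 + 1 / s) * T ^ s) ^ m := pow_le_pow_left₀ a4 a3 m
    _ = (1 + 1 / s) ^ m * (T ^ s) ^ m := mul_pow _ _ _
    _ ≤ (1 + 1 / s) ^ m * T ^ ε := by
        refine mul_le_mul_of_nonneg_left a5 ?_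
        positivity

end Pool.Agent.P07318v
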