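import Pool.Agent.Lib.P07318v.KerSum
import Pool.Agent.Lib.P07318v.OmBd

/-!
# Size, continuity and truncation of the main term  (2 h)

PROOFS. `‖mt q y‖ = ∏ h_j ^ (-1/2) |om h_j (y j)|`, `h_j = hgt (q j) ≥ 1` (`norm_ex`). (1) If `|om h_j (y j)| ≤ M h_j ^ (1/20)` for all `j` (`M ≥ 1`), then `‖mt q y‖ ≤ M ^ (2n+2) ∏ h_j ^ (-9/20) = M ^ (2n+2) hN q ^ (-9/20)`, and `hN q ^ (-9/20) ≤ hN q ^ (-2/5)`, summable over `Ker L` (`ker_sum`).
`mt_cont`: at a point `y⁰` with all `y⁰_j > 0` use the open box `B = {y | ∀ j, y⁰_j / 2 < y j < 2 y⁰_j}` and `continuousOn_tsum` on it: every term is continuous on `B` (`om_cont`, `ex` is continuous: `LongPartAux.ex_cont`; `continuousOn_finset_prod`), the bound is (1) with `M` the maximum (or the product) of the constants of `om_loc (y⁰_j/2) (2 y⁰_j)`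
(compare `TailDAux.ps_cont` in P07318h/TailD.lean). `mt_bd`: (1) with `M = K lg T` (`om_bd`), sum. `mt_meas`: every term is measurable (`om h` is: `Real.measurable_log`), a countable sum of measurable functions is measurable (`Measurable.tsum`, or for complex values: `measurable_of_tendsto`-type lemma).
`mt_trunc`: the truncated sum is `∑' q : Ker L, if ∀ j, h_j ≤ Y then mt q y else 0` (finite support: `mem_qs`, `Fintype.mem_piFinset`; `Finset.tsum_subtype`-type lemma / `tsum_eq_sum`), so the difference is `∑' q : Ker L, if ∃ j, Y < h_j then mt q y else 0`; for such `q` `hN q ≥ Y` and `‖mt q y‖ ≤ (K lg T)^(2n+2) hN q ^ (-2/5) hN q ^ (-1/20)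
≤ (K lg T)^(2n+2) Y ^ (-1/20) hN q ^ (-2/5)`.
-/

set_option autoImplicit false

namespace Pool.Agent.P07318v

open MeasureTheory Complex Pool.Agent.P07318s Pool.Agent.P07318f Pool.Agent.P07318h Pool.Agent.P07318o

private theorem mt_le {ι : Type} [Fintype ι] (q : ι → Q) (y : ι → ℝ) (M : ι → ℝ)
    (_hM : ∀ j, 0 ≤ M j)
    (h : ∀ j, |om (hgt (q j).1) (y j)| ≤ M j * (hgt (q j).1) ^ (1 / 20 : ℝ)) :
    ‖mt q y‖ ≤ (∏ j, M j) * hN q ^ (-(9 / 20) : ℝ) := by
  have h2 : ∀ j, 1 ≤ hgt (q j).1 := fun j => one_le_hgt _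
  have h3 : ‖mt q y‖ ≤ ∏ j, (M j * (hgt (q j).1) ^ (-(9 / 20) : ℝ)) := by
    unfold mt
    rw [norm_prod]
    refine Finset.prod_le_prod (fun j _ => norm_nonneg _) fun j _ => ?_
    have h4 : 0 < hgt (q j).1 := by linarith [h2 j]
    rw [norm_mul, norm_ex, mul_one, Complex.norm_real, Real.norm_eq_abs, abs_mul,
      abs_of_nonneg (Real.rpow_nonneg h4.le _)]
    calc (hgt (q j).1) ^ (-(1 / 2) : ℝ) * |om (hgt (q j).1) (y j)|
        ≤ (hgt (q j).1) ^ (-(1 / 2) : ℝ) * (M j * (hgt (q j).1) ^ (1 / 20 : ℝ)) :=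
          mul_le_mul_of_nonneg_left (h j) (Real.rpow_nonneg h4.le _)
      _ = M j * (hgt (q j).1) ^ (-(9 / 20) : ℝ) := by
          rw [show (-(9 / 20) : ℝ) = -(1 / 2) + 1 / 20 by norm_num, Real.rpow_add h4]
          ring
  refine h3.trans (le_of_eq ?_)
  rw [Finset.prod_mul_distrib]
  unfold hN
  rw [← Real.finsetProd_rpow]
  intro j _
  linarith [h2 j]

private theorem hN_le {ι : Type} [Fintype ι] (q : ι → Q) :
    hN q ^ (-(9 / 20) : ℝ) ≤ hN q ^ (-(2 / 5) : ℝ) :=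
  Real.rpow_le_rpow_of_exponent_le (one_le_hN q) (by norm_num)

private theorem hgt_le_hN {ι : Type} [Fintype ι] (q : ι → Q) (j : ι) : hgt (q j).1 ≤ hN q := by
  rw [hN_eq]
  have h1 : ((q j).1.1 : ℕ) * ((q j).1.2 : ℕ) ∣ nN q := by
    unfold nN
    exact Finset.dvd_prod_of_mem (fun j => ((q j).1.1 : ℕ) * ((q j).1.2 : ℕ)) (Finset.mem_univ j)
  have h2 := Nat.le_of_dvd (nN_pos q) h1
  unfold hgt
  exact_mod_cast h2

private theorem mt_cont1 {ι : Type} [Fintype ι] (q : ι → Q) :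
    ContinuousOn (mt q) {y | ∀ j, 0 < y j} := by
  unfold mt
  refine continuousOn_finsetProd _ fun j _ => ?_
  have h1 : ContinuousOn (fun y : ι → ℝ => om (hgt (q j).1) (y j)) {y | ∀ j, 0 < y j} :=
    (om_cont _ (one_le_hgt _)).comp (continuous_apply j).continuousOn (fun y hy => hy j)
  have h2 : ContinuousOn (fun y : ι → ℝ => (((hgt (q j).1) ^ (-(1 / 2) : ℝ) *
      om (hgt (q j).1) (y j) : ℝ) : ℂ)) {y | ∀ j, 0 < y j} :=
    Complex.continuous_ofReal.comp_continuousOn (continuousOn_const.mul h1)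
  have h3 : Continuous fun y : ι → ℝ => ex (y j) (q j).1 := by
    unfold ex
    fun_prop
  exact h2.mul h3.continuousOn

theorem mt_cont {n : ℕ} (hn : 1 ≤ n) {ι : Type} [Fintype ι] [DecidableEq ι] (hι : Fintype.card ι = 2 * n + 2)
    (L : ι → Fin (n + 1) → ℤ) (hL : GP fun j i => (L j i : ℝ)) : ContinuousOn (MT L) {y | ∀ j, 0 < y j} := by
  intro x0 hx0
  have hx0' : ∀ j, 0 < x0 j := hx0
  have hK : ∀ j, ∃ K : ℝ, 1 ≤ K ∧ ∀ y h : ℝ, x0 j / 2 ≤ y → y ≤ x0 j + 1 → 1 ≤ h →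
      |om h y| ≤ K * h ^ (1 / 20 : ℝ) := fun j => om_loc _ _ (by linarith [hx0' j])
  choose K hK1 hKb using hK
  have hS : IsOpen {x : ι → ℝ | ∀ j, x j ∈ Set.Ioo (x0 j / 2) (x0 j + 1)} := by
    have : {x : ι → ℝ | ∀ j, x j ∈ Set.Ioo (x0 j / 2) (x0 j + 1)} =
        Set.pi Set.univ (fun j => Set.Ioo (x0 j / 2) (x0 j + 1)) := by
      ext x
      simp
    rw [this]
    exact isOpen_set_pi Set.finite_univ (fun j _ => isOpen_Ioo)
  have h1 : ContinuousOn (MT L) {x : ι → ℝ | ∀ j, x j ∈ Set.Ioo (x0 j / 2) (x0 j + 1)} := by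
    unfold MT
    refine continuousOn_tsum (u := fun q : Ker L => (∏ j, K j) * hN q.1 ^ (-(2 / 5) : ℝ))
      (fun q => ?_) ((ker_sum hn hι L hL).mul_left _) (fun q x hx => ?_)
    · exact (mt_cont1 q.1).mono fun x hx j => by
        have := (hx j).1
        have := hx0' j
        show 0 < x j
        linarith
    · refine (mt_le q.1 x K (fun j => by linarith [hK1 j])
        (fun j => hKb j _ _ (hx j).1.le (hx j).2.le (one_le_hgt _))).trans ?_
      exact mul_le_mul_of_nonneg_left (hN_le q.1)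
        (Finset.prod_nonneg fun j _ => by linarith [hK1 j])
  refine (h1.continuousAt (hS.mem_nhds ?_)).continuousWithinAt
  intro j
  exact ⟨by linarith [hx0' j], by linarith⟩

theorem mt_bd {n : ℕ} (hn : 1 ≤ n) {ι : Type} [Fintype ι] [DecidableEq ι] (hι : Fintype.card ι = 2 * n + 2)
    (L : ι → Fin (n + 1) → ℤ) (hL : GP fun j i => (L j i : ℝ)) : ∃ C : ℝ, 0 < C ∧ ∀ (T : ℝ) (y : ι → ℝ), 64 ≤ T →
    (∀ j, T / 2 ≤ y j ∧ y j ≤ 3 * T) → ‖MT L y‖ ≤ C * lg T ^ (2 * n + 2) := by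
  obtain ⟨K, hK1, hK⟩ := om_bd
  have hsum := ker_sum hn hι L hL
  have hS0 : 0 ≤ ∑' q : Ker L, hN q.1 ^ (-(2 / 5) : ℝ) :=
    tsum_nonneg fun q => Real.rpow_nonneg (by linarith [one_le_hN q.1]) _
  refine ⟨K ^ (2 * n + 2) * (∑' q : Ker L, hN q.1 ^ (-(2 / 5) : ℝ)) + 1, by positivity, ?_⟩
  intro T y hT hy
  have hT0 : 0 < T := by linarith
  have hlg : 1 ≤ lg T := by
    unfold lg
    linarith [Real.log_nonneg (by linarith : (1 : ℝ) ≤ T)]
  have h1 : ∀ q : Ker L, ‖mt q.1 y‖ ≤ (K * lg T) ^ (2 * n + 2) * hN q.1 ^ (-(2 / 5) : ℝ) := by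
    intro q
    have h2 := mt_le q.1 y (fun _ => K * lg T) (fun _ => by positivity)
      (fun j => hK T _ _ hT (hy j).1 (hy j).2 (one_le_hgt _))
    rw [Finset.prod_const, Finset.card_univ, hι] at h2
    exact h2.trans (mul_le_mul_of_nonneg_left (hN_le q.1) (by positivity))
  have h2 : ‖MT L y‖ ≤ (K * lg T) ^ (2 * n + 2) * ∑' q : Ker L, hN q.1 ^ (-(2 / 5) : ℝ) := by
    unfold MT
    exact tsum_of_norm_bounded (hsum.hasSum.mul_left _) h1
  refine h2.trans ?_
  rw [mul_pow]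
  have h3 : 0 ≤ lg T ^ (2 * n + 2) := by positivity
  nlinarith

theorem mt_meas {ι : Type} [Fintype ι] {d : ℕ} (L : ι → Fin d → ℤ) : Measurable (MT L) := by
  unfold MT
  refine Measurable.tsum fun q => ?_
  unfold mt
  refine Finset.measurable_prod _ fun j _ => ?_
  have h1 : Measurable fun y : ι → ℝ => om (hgt (q.1 j).1) (y j) := by
    unfold om
    fun_prop
  have h3 : Continuous fun y : ι → ℝ => ex (y j) (q.1 j).1 := by
    unfold ex
    fun_prop
  exact (Complex.measurable_ofReal.comp (h1.const_mul _)).mul h3.measurable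

open Classical in
theorem mt_trunc {n : ℕ} (hn : 1 ≤ n) {ι : Type} [Fintype ι] [DecidableEq ι] (hι : Fintype.card ι = 2 * n + 2)
    (L : ι → Fin (n + 1) → ℤ) (hL : GP fun j i => (L j i : ℝ)) : ∃ C : ℝ, 0 < C ∧ ∀ (T Y : ℝ) (y : ι → ℝ), 64 ≤ T → 1 ≤ Y →
    (∀ j, T / 2 ≤ y j ∧ y j ≤ 3 * T) →
    ‖MT L y - ∑ q ∈ (Fintype.piFinset fun _ : ι => qs 0 Y).filter (fun q => q ∈ Ker L), mt q y‖ ≤
      C * lg T ^ (2 * n + 2) * Y ^ (-(1 / 20) : ℝ) := by
  obtain ⟨K, hK1, hK⟩ := om_bd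
  have hsum := ker_sum hn hι L hL
  have hS0 : 0 ≤ ∑' q : Ker L, hN q.1 ^ (-(2 / 5) : ℝ) :=
    tsum_nonneg fun q => Real.rpow_nonneg (by linarith [one_le_hN q.1]) _
  refine ⟨K ^ (2 * n + 2) * (∑' q : Ker L, hN q.1 ^ (-(2 / 5) : ℝ)) + 1, by positivity, ?_⟩
  intro T Y y hT hY hy
  have hT0 : 0 < T := by linarith
  have hlg : 1 ≤ lg T := by
    unfold lg
    linarith [Real.log_nonneg (by linarith : (1 : ℝ) ≤ T)]
  have hY0 : 0 < Y := by linarith
  have hYp : 0 ≤ Y ^ (-(1 / 20) : ℝ) := Real.rpow_nonneg hY0.le _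
  have h0 : ∀ q : ι → Q, ‖mt q y‖ ≤ (K * lg T) ^ (2 * n + 2) * hN q ^ (-(9 / 20) : ℝ) := by
    intro q
    have h2 := mt_le q y (fun _ => K * lg T) (fun _ => by positivity)
      (fun j => hK T _ _ hT (hy j).1 (hy j).2 (one_le_hgt _))
    rwa [Finset.prod_const, Finset.card_univ, hι] at h2
  have h1 : ∀ q : Ker L, ‖mt q.1 y‖ ≤ (K * lg T) ^ (2 * n + 2) * hN q.1 ^ (-(2 / 5) : ℝ) :=
    fun q => (h0 q.1).trans (mul_le_mul_of_nonneg_left (hN_le q.1) (by positivity))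
  have hs1 : Summable fun q : Ker L => mt q.1 y :=
    Summable.of_norm_bounded (hsum.mul_left _) h1
  let S0 : Finset (ι → Q) := Fintype.piFinset fun _ : ι => qs 0 Y
  let g : (ι → Q) → ℂ := fun q => if q ∈ S0 then mt q y else 0
  have hfin : ∑ q ∈ S0.filter (fun q => q ∈ Ker L), mt q y = ∑' q : Ker L, g q.1 := by
    have e1 : ∑' q : Ker L, g q.1 = ∑' q, (Ker L).indicator g q := tsum_subtype (Ker L) g
    rw [e1, tsum_eq_sum (s := S0.filter (fun q => q ∈ Ker L))]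
    · apply Finset.sum_congr rfl
      intro q hq
      rw [Finset.mem_filter] at hq
      rw [Set.indicator_of_mem hq.2]
      exact (if_pos hq.1).symm
    · intro q hq
      rw [Finset.mem_filter, not_and_or] at hq
      rcases hq with hq | hq
      · by_cases h : q ∈ Ker L
        · rw [Set.indicator_of_mem h]
          exact if_neg hq
        · exact Set.indicator_of_notMem h _
      · exact Set.indicator_of_notMem hq _
  have hs2 : Summable fun q : Ker L => g q.1 := by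
    refine Summable.of_norm_bounded (hsum.mul_left ((K * lg T) ^ (2 * n + 2))) fun q => ?_
    by_cases h : q.1 ∈ S0
    · have : g q.1 = mt q.1 y := if_pos h
      rw [this]
      exact h1 q
    · have : g q.1 = 0 := if_neg h
      rw [this, norm_zero]
      have := Real.rpow_nonneg (by linarith [one_le_hN q.1] : 0 ≤ hN q.1) (-(2 / 5) : ℝ)
      positivity
  have hdiff : MT L y - ∑ q ∈ S0.filter (fun q => q ∈ Ker L), mt q y =
      ∑' q : Ker L, (mt q.1 y - g q.1) := by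
    rw [hfin, hs1.tsum_sub hs2]
    rfl
  have hb : ∀ q : Ker L, ‖mt q.1 y - g q.1‖ ≤
      (K * lg T) ^ (2 * n + 2) * Y ^ (-(1 / 20) : ℝ) * hN q.1 ^ (-(2 / 5) : ℝ) := by
    intro q
    have hN0 : 0 < hN q.1 := by linarith [one_le_hN q.1]
    have hNp := Real.rpow_nonneg hN0.le (-(2 / 5) : ℝ)
    by_cases h : q.1 ∈ S0
    · have : g q.1 = mt q.1 y := if_pos h
      rw [this, sub_self, norm_zero]
      positivity
    · have : g q.1 = 0 := if_neg h
      rw [this, sub_zero]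
      refine (h0 q.1).trans ?_
      rw [mul_assoc]
      refine mul_le_mul_of_nonneg_left ?_ (by positivity)
      have h2 : ∃ j, Y < hgt (q.1 j).1 := by
        by_contra h3
        push Not at h3
        apply h
        rw [Fintype.mem_piFinset]
        intro j
        rw [mem_qs]
        exact ⟨hgt_pos _, h3 j⟩
      obtain ⟨j, hj⟩ := h2
      have h3 : Y ≤ hN q.1 := hj.le.trans (hgt_le_hN q.1 j)
      rw [show (-(9 / 20) : ℝ) = -(1 / 20) + -(2 / 5) by norm_num, Real.rpow_add hN0]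
      exact mul_le_mul_of_nonneg_right
        (Real.rpow_le_rpow_of_nonpos hY0 h3 (by norm_num)) hNp
  have h2 : ‖MT L y - ∑ q ∈ S0.filter (fun q => q ∈ Ker L), mt q y‖ ≤
      (K * lg T) ^ (2 * n + 2) * Y ^ (-(1 / 20) : ℝ) *
        ∑' q : Ker L, hN q.1 ^ (-(2 / 5) : ℝ) := by
    rw [hdiff]
    exact tsum_of_norm_bounded (hsum.hasSum.mul_left _) hb
  refine h2.trans ?_
  rw [mul_pow]
  have h3 : 0 ≤ lg T ^ (2 * n + 2) * Y ^ (-(1 / 20) : ℝ) := by positivity
  nlinarith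

end Pool.Agent.P07318v
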