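import Pool.Agent.Lib.P07318v.KerSum
import Pool.Agent.Lib.P07318v.OmBd

/-!
# The main term converges absolutely
-/

set_option autoImplicit false

namespace Pool.Agent.P07318v

open MeasureTheory Complex Pool.Agent.P07318s Pool.Agent.P07318f Pool.Agent.P07318h Pool.Agent.P07318o

theorem mt_summable {n : ℕ} (hn : 1 ≤ n) {ι : Type} [Fintype ι] [DecidableEq ι] (hι : Fintype.card ι = 2 * n + 2)
    (L : ι → Fin (n + 1) → ℤ) (hL : GP fun j i => (L j i : ℝ)) (y : ι → ℝ) (hy : ∀ j, 0 < y j) :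
    Summable fun q : Ker L => mt q.1 y := by
  have h1 : ∀ j, ∃ K : ℝ, 1 ≤ K ∧ ∀ h : ℝ, 1 ≤ h → |om h (y j)| ≤ K * h ^ (1 / 20 : ℝ) := by
    intro j
    obtain ⟨K, hK, hb⟩ := om_loc (y j) (y j) (hy j)
    exact ⟨K, hK, fun h hh => hb (y j) h le_rfl le_rfl hh⟩
  choose K hK hb using h1
  refine Summable.of_norm_bounded ((ker_sum hn hι L hL).mul_left (∏ j, K j)) fun q => ?_
  have h2 : ∀ j, 1 ≤ hgt (q.1 j).1 := fun j => one_le_hgt _
  have h3 : ‖mt q.1 y‖ ≤ ∏ j, (K j * (hgt (q.1 j).1) ^ (-(2 / 5) : ℝ)) := by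
    unfold mt
    rw [norm_prod]
    refine Finset.prod_le_prod (fun j _ => norm_nonneg _) fun j _ => ?_
    have h4 : 0 < hgt (q.1 j).1 := by linarith [h2 j]
    rw [norm_mul, norm_ex, mul_one, Complex.norm_real, Real.norm_eq_abs, abs_mul,
      abs_of_nonneg (Real.rpow_nonneg h4.le _)]
    calc (hgt (q.1 j).1) ^ (-(1 / 2) : ℝ) * |om (hgt (q.1 j).1) (y j)|
        ≤ (hgt (q.1 j).1) ^ (-(1 / 2) : ℝ) * (K j * (hgt (q.1 j).1) ^ (1 / 20 : ℝ)) :=
          mul_le_mul_of_nonneg_left (hb j _ (h2 j)) (Real.rpow_nonneg h4.le _)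
      _ = K j * (hgt (q.1 j).1) ^ (-(9 / 20) : ℝ) := by
          rw [show (-(9 / 20) : ℝ) = -(1 / 2) + 1 / 20 by norm_num, Real.rpow_add h4]
          ring
      _ ≤ K j * (hgt (q.1 j).1) ^ (-(2 / 5) : ℝ) := by
          refine mul_le_mul_of_nonneg_left ?_ (by linarith [hK j])
          exact Real.rpow_le_rpow_of_exponent_le (h2 j) (by norm_num)
  refine h3.trans (le_of_eq ?_)
  rw [Finset.prod_mul_distrib]
  unfold hN
  rw [← Real.finsetProd_rpow]
  intro j _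
  linarith [h2 j]

end Pool.Agent.P07318v
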