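import Pool.Agent.Lib.P07318v.Geo
import Pool.Agent.Lib.P07318v.ExpandV
import Pool.Agent.Lib.P07318v.HFormV
import Pool.Agent.Lib.P07318o.BandExp
import Pool.Agent.Lib.P07318o.U3Bk
import Pool.Agent.Lib.P07318o.NmBk
import Pool.Agent.Lib.P07318o.LLcut
import Pool.Agent.Lib.P07318o.Mid

/-!
# One slot with middle heights

PROOF (compare `Mid` of P07318o, whose text can be followed). `U = T/4`, `C_s` the constant of `short_v`, `c₀ = 1/(4 C_s)`. Choose `σ : Fin (n+1) → ι` injective with values `≠ r` (`card ι - 1 = 2n+1 ≥ n+1`).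
If there is no `x` with `Z (σ i) (pt x (σ i)) ≠ 0` for all `i` and `pt x r ∈ [T/2, 3T]`, then the integrand of `FF` is identically `0` (`Z r = c * ..`, `c = 0` outside `[T/2, 3T]`) and `FF = 0`. Otherwise let `x₀` be such a point.
For every `x` with `Z (σ i) (pt x (σ i)) ≠ 0` for all `i`: both `pt x (σ i)`, `pt x₀ (σ i)` are in `[a, a + ℓ]`, so by `short_v` `|pt x r - pt x₀ r| ≤ C_s ℓ ≤ T/4`, hence `pt x r ∈ [T/4, 13T/4] ⊆ [-4U, 28U]`, and the expansion of `band_exp` is valid at `pt x r`.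
If `B ≤ A` the band is empty and `Z r = 0`. Otherwise `J : ℕ` minimal with `B ≤ 2^J A`, `J ≤ 3 lg T`, `band_exp`, `expand_v` with `ι' = ℤ × Fin J`, `b (k, a) = bk U (2πk/(32U)) (blk A B a) (cf k)`, `w (k, a) = pk k`, `P = J C_p` (`pk_sum`) exactly as in `Mid`; the terms are bounded by `h_form_v`
(instead of `h_form`), `u3_bk`, `nm_bk`: `‖FF (update ..)‖² ≤ C K_k² U L⁴ (1/A + 4B/T)^(1/4) G^(2n+1)`, `K_k = C Λ pk k L`. Total `≤ C Λ² L^8 T (1/A + B/T)^(1/4) G^(2n+1)`.
-/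

set_option autoImplicit false

namespace Pool.Agent.P07318v

open MeasureTheory Complex Pool.Agent.P07318s Pool.Agent.P07318f Pool.Agent.P07318h Pool.Agent.P07318o

namespace MidVAux

/-- the index type has `n + 1` slots besides `r` -/
lemma exists_sigma {n : ℕ} {ι : Type} [Fintype ι] [DecidableEq ι] (hι : Fintype.card ι = 2 * n + 2) (r : ι) :
    ∃ σ : Fin (n + 1) → ι, Function.Injective σ ∧ ∀ i, σ i ≠ r := by
  have h1 : Fintype.card {j : ι // j ≠ r} = 2 * n + 1 := by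
    rw [Fintype.card_subtype_compl, hι, Fintype.card_subtype_eq]
    rfl
  have h2 : Fintype.card (Fin (n + 1)) ≤ Fintype.card {j : ι // j ≠ r} := by
    rw [h1, Fintype.card_fin]
    omega
  obtain ⟨f⟩ := Function.Embedding.nonempty_of_card_le h2
  exact ⟨fun i => (f i).1, fun i j hij => f.injective (Subtype.ext hij), fun i => (f i).2⟩

lemma FF_zero {n : ℕ} {ι : Type} [Fintype ι] (L : ι → Fin (n + 1) → ℝ) (κ : ι → ℝ) (Z : ι → ℝ → ℂ)
    (h : ∀ x, ∃ j, Z j (pt L κ x j) = 0) : FF L κ Z = 0 := by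
  unfold FF
  have : (fun x => ∏ j, Z j (pt L κ x j)) = fun _ => 0 := by
    funext x
    obtain ⟨j, hj⟩ := h x
    exact Finset.prod_eq_zero (Finset.mem_univ j) hj
  rw [this, integral_zero]

end MidVAux

open MidAux MidVAux in
theorem mid_v {n : ℕ} (hn : 1 ≤ n) {ι : Type} [Fintype ι] [DecidableEq ι] (hι : Fintype.card ι = 2 * n + 2)
    (L : ι → Fin (n + 1) → ℝ) (hL : GP L) : ∃ c₀ C : ℝ, 0 < c₀ ∧ 0 < C ∧
    ∀ (κ : ι → ℝ) (T Λ A B G ℓ : ℝ) (a : ι → ℝ) (c : ℝ → ℝ) (Z : ι → ℝ → ℂ) (r : ι), 4 ≤ T → 1 ≤ Λ → 0 ≤ ℓ → ℓ ≤ c₀ * T →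
    Cut (T / 4) Λ c → (∀ y, y ∉ Set.Icc (T / 2) (3 * T) → c y = 0) → 1 ≤ A → B ≤ T / 4 → 0 ≤ B → 0 ≤ G →
    (∀ j, j ≠ r → Continuous (Z j)) → (∀ j, j ≠ r → ∀ y, y ∉ Set.Icc (a j) (a j + ℓ) → Z j y = 0) →
    (∀ j, j ≠ r → nm (Z j) ≤ ENNReal.ofReal G) → (Z r = ct c (bd A B)) →
    ‖FF L κ Z‖ₑ ^ 2 ≤ ENNReal.ofReal (C * Λ ^ 2 * lg T ^ 8 * T * G ^ (2 * n + 1) * (1 / A + B / T) ^ (1 / 4 : ℝ)) := by
  obtain ⟨C1, hC1, hexp⟩ := band_exp
  obtain ⟨C2, hC2, hform⟩ := h_form_v hn hι L hL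
  obtain ⟨C3, hC3, hu3⟩ := u3_bk
  obtain ⟨C4, hC4, hnm⟩ := nm_bk
  obtain ⟨C5, hC5, hpk⟩ := pk_sum
  obtain ⟨Cs, hCs, hshort⟩ := short_v L hL
  have hCs0 : 0 < Cs := by linarith
  refine ⟨1 / (4 * Cs), 4 * C5 ^ 2 * C2 * C3 ^ (1 / 4 : ℝ) * C1 ^ 2, by positivity, by positivity, ?_⟩
  intro κ T Λ A B G ℓ a0 c Z r hT hΛ hℓ0 hℓ hc hcs hA hBT hB0 hG hZc hZs hZn hZr
  have hL' : GP L := hL
  obtain ⟨σ, hσ, hσr⟩ := exists_sigma hι r
  by_cases hx0 : ∃ x₀ : Fin (n + 1) → ℝ, (∀ i, Z (σ i) (pt L κ x₀ (σ i)) ≠ 0) ∧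
      pt L κ x₀ r ∈ Set.Icc (T / 2) (3 * T)
  swap
  · have h0 : FF L κ Z = 0 := by
      apply FF_zero
      intro x
      by_contra hcon
      push Not at hcon
      apply hx0
      refine ⟨x, fun i => hcon _, ?_⟩
      by_contra hr
      apply hcon r
      rw [hZr]
      unfold ct
      rw [hcs _ hr]
      simp
    rw [h0]
    simp
  rcases le_or_gt B A with hBA | hAB
  · -- empty band
    have hbd : ∀ y, bd A B y = 0 := by
      intro y
      unfold bd
      have : qs A B = ∅ := by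
        rw [Finset.eq_empty_iff_forall_notMem]
        intro q hq
        rw [mem_qs] at hq
        linarith [hq.1, hq.2]
      rw [this, Finset.sum_empty]
    have h0 : FF L κ Z = 0 := by
      apply FF_zero
      intro x
      refine ⟨r, ?_⟩
      rw [hZr]
      unfold ct
      rw [hbd, mul_zero]
    rw [h0]
    simp
  · obtain ⟨x₀, hx₀, hx₀r⟩ := hx0
    obtain ⟨J, hJ1, hJ2, hJ3⟩ := exists_J hT hA hAB hBT
    have hU : 1 ≤ T / 4 := by linarith
    have hU0 : 0 < T / 4 := by linarith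
    have hA0 : 0 < A := by linarith
    have hT0 : 0 < T := by linarith
    have hBpos : 0 < B := by linarith
    have hCsℓ : Cs * ℓ ≤ T / 4 := by
      have h1 : Cs * ℓ ≤ Cs * (1 / (4 * Cs) * T) := mul_le_mul_of_nonneg_left hℓ hCs0.le
      have h2 : Cs * (1 / (4 * Cs) * T) = T / 4 := by field_simp
      linarith
    -- the points of the slot `r`
    have hptr : ∀ x : Fin (n + 1) → ℝ, (∀ i, Z (σ i) (pt L κ x (σ i)) ≠ 0) →
        T / 4 ≤ pt L κ x r ∧ pt L κ x r ≤ 13 * T / 4 := by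
      intro x hx
      have h1 : ∀ i, |pt L κ x (σ i) - pt L κ x₀ (σ i)| ≤ ℓ := by
        intro i
        have h2 : pt L κ x (σ i) ∈ Set.Icc (a0 (σ i)) (a0 (σ i) + ℓ) := by
          by_contra hcon
          exact hx i (hZs _ (hσr i) _ hcon)
        have h3 : pt L κ x₀ (σ i) ∈ Set.Icc (a0 (σ i)) (a0 (σ i) + ℓ) := by
          by_contra hcon
          exact hx₀ i (hZs _ (hσr i) _ hcon)
        rw [abs_le]
        constructor
        · linarith [h2.1, h3.2]
        · linarith [h2.2, h3.1]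
      have h2 := hshort κ σ x x₀ ℓ hσ h1 r
      rw [abs_le] at h2
      obtain ⟨h3, h4⟩ := h2
      constructor
      · linarith [hx₀r.1]
      · linarith [hx₀r.2]
    set L1 : ℝ := lg T with hLdef
    have hL1 : 1 ≤ L1 := by
      rw [hLdef]; unfold lg
      have := Real.log_nonneg (show (1 : ℝ) ≤ T by linarith)
      linarith
    set l : ℝ := 1 + Real.log (T / 4) with hl
    have hl0 : 0 ≤ l := by
      have := Real.log_nonneg hU
      rw [hl]; linarith
    have hlL : l ≤ L1 := by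
      rw [hl, hLdef]; unfold lg
      have := Real.log_le_log hU0 (show T / 4 ≤ T by linarith)
      linarith
    set X : ℝ := 1 / A + B / T with hX
    have hX0 : 0 ≤ X := by positivity
    obtain ⟨cf, hcf, hsum⟩ := hexp (T / 4) Λ A B J c hU hΛ hc hA hJ1
    -- blocks
    set Aa : ℕ → ℝ := fun a => 2 ^ a * A with hAa
    have hAa1 : ∀ a, 1 ≤ Aa a := by
      intro a
      have : (1 : ℝ) ≤ 2 ^ a := one_le_pow₀ (by norm_num)
      show (1 : ℝ) ≤ 2 ^ a * A
      nlinarith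
    have hblk : ∀ a, ∀ q ∈ blk A B a, Aa a ≤ hgt q.1 ∧ hgt q.1 ≤ 2 * Aa a ∧ hgt q.1 ≤ B := by
      intro a q hq
      unfold blk at hq
      rw [Finset.mem_filter, mem_qs] at hq
      obtain ⟨⟨-, h2⟩, h3, h4⟩ := hq
      refine ⟨h3.le, ?_, h2⟩
      show hgt q.1 ≤ 2 * (2 ^ a * A)
      rw [pow_succ] at h4
      linarith
    set Kk : ℤ → ℝ := fun k => C1 * Λ * pk k * L1 with hKk
    have hKk0 : ∀ k, 0 ≤ Kk k := by
      intro k
      have := (pk_pos k).le
      show 0 ≤ C1 * Λ * pk k * L1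
      positivity
    have hcf1 : ∀ k a, ∀ q ∈ blk A B a, ‖cf k q‖ ≤ Kk k * (Aa a) ^ (-(1 / 2) : ℝ) := by
      intro k a q hq
      obtain ⟨h1, h2, h3⟩ := hblk a q hq
      refine (hcf k q).trans ?_
      have h4 := kl_le (U := T / 4) hU (one_le_hgt q.1)
      have h5 := kl_nonneg (U := T / 4) hU (hgt_pos q.1)
      have h6 : (hgt q.1) ^ (-(1 / 2) : ℝ) ≤ (Aa a) ^ (-(1 / 2) : ℝ) :=
        Real.rpow_le_rpow_of_nonpos (by linarith [hAa1 a]) h1 (by norm_num)
      have h7 : 0 ≤ (hgt q.1) ^ (-(1 / 2) : ℝ) := Real.rpow_nonneg (hgt_pos q.1).le _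
      have h8 := (pk_pos k).le
      have h9 : kl (T / 4) (hgt q.1) ≤ L1 := h4.trans hlL
      calc C1 * Λ * pk k * kl (T / 4) (hgt q.1) * (hgt q.1) ^ (-(1 / 2) : ℝ)
          ≤ C1 * Λ * pk k * L1 * (Aa a) ^ (-(1 / 2) : ℝ) := by gcongr
        _ = Kk k * (Aa a) ^ (-(1 / 2) : ℝ) := rfl
    -- the family
    set b : ℤ × Fin J → ℝ → ℂ := fun p =>
      bk (T / 4) (2 * Real.pi * p.1 / (32 * (T / 4))) (blk A B p.2) (cf p.1) with hb
    set β : ℤ × Fin J → ℝ := fun p => pk p.1 * (((blk A B p.2).card : ℝ) * (C1 * Λ * L1)) with hβ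
    have hbβ : ∀ i y, ‖b i y‖ ≤ β i := by
      rintro ⟨k, a⟩ y
      have h1 : ∀ q ∈ blk A B a, ‖cf k q‖ ≤ Kk k := by
        intro q hq
        refine (hcf1 k a q hq).trans ?_
        have h2 : (Aa a) ^ (-(1 / 2) : ℝ) ≤ 1 := Real.rpow_le_one_of_one_le_of_nonpos (hAa1 a) (by norm_num)
        have := mul_le_mul_of_nonneg_left h2 (hKk0 k)
        linarith
      refine (bk_norm_le h1 y).trans (le_of_eq ?_)
      show ((blk A B a).card : ℝ) * (C1 * Λ * pk k * L1) = pk k * (((blk A B a).card : ℝ) * (C1 * Λ * L1))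
      ring
    have hβs : Summable β := by
      have h1 : Summable (fun a : Fin J => ((blk A B a).card : ℝ) * (C1 * Λ * L1)) :=
        summable_of_finite_support (Set.toFinite _)
      have h2 : Summable pk := LongPartAux.pk_summable
      exact h2.mul_of_nonneg h1 (fun k => (pk_pos k).le) (fun a => by positivity)
    have hwP : ∀ s : Finset (ℤ × Fin J), ∑ i ∈ s, pk i.1 ≤ J * C5 := by
      intro s
      classical
      have h1 : ∑ i ∈ s, pk i.1 ≤ ∑ i ∈ (s.image Prod.fst) ×ˢ (Finset.univ : Finset (Fin J)), pk i.1 := by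
        refine Finset.sum_le_sum_of_subset_of_nonneg ?_ (fun i _ _ => (pk_pos _).le)
        intro i hi
        rw [Finset.mem_product]
        exact ⟨Finset.mem_image_of_mem _ hi, Finset.mem_univ _⟩
      refine h1.trans ?_
      rw [Finset.sum_product]
      simp only [Finset.sum_const, Finset.card_univ, Fintype.card_fin, nsmul_eq_mul]
      rw [← Finset.mul_sum]
      exact mul_le_mul_of_nonneg_left (hpk _) (Nat.cast_nonneg _)
    have hex := expand_v L hL κ Z r σ hσ hσr hZc (fun j hj => bounded_of (hZc j hj) (hZs j hj))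
      (fun i => ⟨a0 (σ i), a0 (σ i) + ℓ, hZs (σ i) (hσr i)⟩) b β (fun i => pk i.1) (J * C5)
      (fun i => bk_cont _ _ _ _) hbβ hβs
      (fun x hx => by
        obtain ⟨h1, h2⟩ := hptr x hx
        rw [hZr]
        exact hsum (pt L κ x r) (by linarith) (by linarith))
      (fun i => pk_pos i.1) hwP
    refine hex.trans ?_
    -- one term
    set D0 : ℝ := C2 * (C3 ^ (1 / 4 : ℝ) * (C1 * Λ * L1) ^ 2 * (T / 4) * L1 ^ 4 * (4 * X ^ (1 / 4 : ℝ))) *
      G ^ (2 * n + 1) with hD0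
    have hD00 : 0 ≤ D0 := by positivity
    have hterm : ∀ i : ℤ × Fin J, (ENNReal.ofReal (pk i.1))⁻¹ *
        ‖FF L κ (Function.update Z r (b i))‖ₑ ^ 2 ≤ ENNReal.ofReal (D0 * pk i.1) := by
      rintro ⟨k, a⟩
      have hpk0 := pk_pos k
      have hblkA : ∀ q ∈ blk A B a, Aa a ≤ hgt q.1 ∧ hgt q.1 ≤ 2 * Aa a :=
        fun q hq => ⟨(hblk a q hq).1, (hblk a q hq).2.1⟩
      have hAaB : Aa a ≤ B := hJ2 a a.2
      have hAaU : Aa a ≤ T / 4 := hAaB.trans hBT
      have hAaA : A ≤ Aa a := by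
        have : (1 : ℝ) ≤ 2 ^ (a : ℕ) := one_le_pow₀ (by norm_num)
        show A ≤ 2 ^ (a : ℕ) * A
        nlinarith
      have hn := hnm (T / 4) (Aa a) (Kk k) (2 * Real.pi * k / (32 * (T / 4))) (blk A B a) (cf k) hU (hAa1 a)
        (hKk0 k) hblkA (hcf1 k a)
      have hu := hu3 (T / 4) (Aa a) (Kk k) (2 * Real.pi * k / (32 * (T / 4))) (blk A B a) (cf k) hU (hAa1 a)
        hAaU (hKk0 k) hblkA (hcf1 k a)
      have hY : 1 / Aa a + Aa a / (T / 4) ≤ 4 * X := by
        have h1 : 1 / Aa a ≤ 1 / A := one_div_le_one_div_of_le hA0 hAaA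
        have h2 : Aa a / (T / 4) ≤ B / (T / 4) := div_le_div_of_nonneg_right hAaB hU0.le
        have h3 : B / (T / 4) = 4 * (B / T) := by field_simp
        have h4 : 0 ≤ 1 / A := by positivity
        have h5 : 0 ≤ B / T := by positivity
        rw [hX]
        linarith
      have hY0 : 0 ≤ 1 / Aa a + Aa a / (T / 4) := by
        have := hAa1 a
        positivity
      have hq := u3_quarter hC3.le (hKk0 k) hU0.le hl0 hlL hY0 hX0 hY hu
      have hfm := hform κ (Function.update Z r (b (k, a))) r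
        (fun j => by
          by_cases hj : j = r
          · subst hj
            rw [Function.update_self]
            exact (bk_cont _ _ _ _).measurable
          · rw [Function.update_of_ne hj]
            exact (hZc j hj).measurable)
        (fun j => by
          by_cases hj : j = r
          · subst hj
            rw [Function.update_self]
            exact ne_top_of_le_ne_top ENNReal.ofReal_ne_top hn
          · rw [Function.update_of_ne hj]
            exact ne_top_of_le_ne_top ENNReal.ofReal_ne_top (hZn j hj))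
      rw [Function.update_self] at hfm
      have hprod : ∏ j ∈ Finset.univ.erase r, nm (Function.update Z r (b (k, a)) j) ≤
          ENNReal.ofReal (G ^ (2 * n + 1)) := by
        have h1 : ∏ j ∈ Finset.univ.erase r, nm (Function.update Z r (b (k, a)) j) ≤
            ∏ _j ∈ (Finset.univ.erase r : Finset ι), ENNReal.ofReal G := by
          refine Finset.prod_le_prod' fun j hj => ?_
          have hj' := Finset.ne_of_mem_erase hj
          rw [Function.update_of_ne hj']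
          exact hZn j hj'
        refine h1.trans (le_of_eq ?_)
        rw [Finset.prod_const, Finset.card_erase_of_mem (Finset.mem_univ r), Finset.card_univ,
          hι, ENNReal.ofReal_pow hG]
        rfl
      have hint : ‖FF L κ (Function.update Z r (b (k, a)))‖ₑ ^ 2 ≤
          ENNReal.ofReal (pk k ^ 2 * D0) := by
        refine hfm.trans ?_
        have h1 : ENNReal.ofReal C2 * U3 (b (k, a)) ^ (1 / 4 : ℝ) *
            ∏ j ∈ Finset.univ.erase r, nm (Function.update Z r (b (k, a)) j) ≤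
            ENNReal.ofReal C2 * ENNReal.ofReal (C3 ^ (1 / 4 : ℝ) * Kk k ^ 2 * (T / 4) * L1 ^ 4 * (4 * X ^ (1 / 4 : ℝ))) *
              ENNReal.ofReal (G ^ (2 * n + 1)) := by
          gcongr
        refine h1.trans (le_of_eq ?_)
        have hKk0' := hKk0 k
        rw [← ENNReal.ofReal_mul hC2.le, ← ENNReal.ofReal_mul (by positivity)]
        congr 1
        show C2 * (C3 ^ (1 / 4 : ℝ) * (C1 * Λ * pk k * L1) ^ 2 * (T / 4) * L1 ^ 4 * (4 * X ^ (1 / 4 : ℝ))) *
          G ^ (2 * n + 1) = pk k ^ 2 * (C2 * (C3 ^ (1 / 4 : ℝ) * (C1 * Λ * L1) ^ 2 * (T / 4) * L1 ^ 4 *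
            (4 * X ^ (1 / 4 : ℝ))) * G ^ (2 * n + 1))
        ring
      calc (ENNReal.ofReal (pk k))⁻¹ * ‖FF L κ (Function.update Z r (b (k, a)))‖ₑ ^ 2
          ≤ (ENNReal.ofReal (pk k))⁻¹ * ENNReal.ofReal (pk k ^ 2 * D0) := by gcongr
        _ = ENNReal.ofReal (D0 * pk k) := by
            rw [← ENNReal.ofReal_inv_of_pos hpk0, ← ENNReal.ofReal_mul (by positivity)]
            congr 1
            field_simp
    have htot : ∑' i : ℤ × Fin J, (ENNReal.ofReal (pk i.1))⁻¹ *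
        ‖FF L κ (Function.update Z r (b i))‖ₑ ^ 2 ≤ ENNReal.ofReal (D0 * (J * C5)) := by
      refine (ENNReal.tsum_le_tsum hterm).trans ?_
      rw [ENNReal.tsum_eq_iSup_sum]
      refine iSup_le fun s => ?_
      rw [← ENNReal.ofReal_sum_of_nonneg (fun i _ => mul_nonneg hD00 (pk_pos _).le), ← Finset.mul_sum]
      exact ENNReal.ofReal_le_ofReal (mul_le_mul_of_nonneg_left (hwP s) hD00)
    calc ENNReal.ofReal (J * C5) * ∑' i : ℤ × Fin J, (ENNReal.ofReal (pk i.1))⁻¹ *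
        ‖FF L κ (Function.update Z r (b i))‖ₑ ^ 2
        ≤ ENNReal.ofReal (J * C5) * ENNReal.ofReal (D0 * (J * C5)) := by gcongr
      _ = ENNReal.ofReal ((J * C5) * (D0 * (J * C5))) := by
          rw [← ENNReal.ofReal_mul (by positivity)]
      _ ≤ _ := by
          apply ENNReal.ofReal_le_ofReal
          have hJ0 : (0 : ℝ) ≤ J := Nat.cast_nonneg _
          have h1 : (J : ℝ) ^ 2 ≤ (2 * L1) ^ 2 := pow_le_pow_left₀ hJ0 hJ3 2
          calc (J * C5) * (D0 * (J * C5)) = (J : ℝ) ^ 2 * (C5 ^ 2 * D0) := by ring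
            _ ≤ (2 * L1) ^ 2 * (C5 ^ 2 * D0) := mul_le_mul_of_nonneg_right h1 (by positivity)
            _ = 4 * C5 ^ 2 * C2 * C3 ^ (1 / 4 : ℝ) * C1 ^ 2 * Λ ^ 2 * L1 ^ 8 * T * G ^ (2 * n + 1) *
                X ^ (1 / 4 : ℝ) := by rw [hD0]; ring

end Pool.Agent.P07318v
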