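import Pool.Agent.Lib.P07318v.CsV
import Pool.Agent.Lib.P07318v.FinV
import Pool.Agent.Lib.P07318o.FrCh
import Pool.Agent.Lib.P07318o.FrAc

/-!
# Module MixF0: one slot is a character, canonical enumeration (compare Lib/P07318o/MixF.lean)

`i = inr 0`, `p = inr 1`, `r = inr last`, all different because `n ≥ 1` (here `0`, `1` are `(0 : Fin (n + 1)).castSucc`, `(1 : Fin (n + 1)).castSucc`).

PROOF.  (1) The finiteness hypothesis of `cs_v`: `‖Z i‖ = 1`, and the product over `b` vanishes unless `pt L κ (XX L κ (u, s)) (inr 1) ∈ [a, a + W]`.  `fin_v`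
with `b₀ = 0`, `g b y = ‖Z (inr b) y‖ₑ`, `w (u, s)` = the indicator function of `[a, a + W]` at `pt L κ (XX L κ (u, s)) (inr 1)`: for fixed `u` this is
`pt L κ (XX L κ (u, 0)) (inr 1) + v₁ * s` (`XX_inr`), `v₁ = vv L 1 ≠ 0`, so `∫⁻ s, w (u, s) ^ 2 = ofReal |v₁|⁻¹ * ofReal W` (`lint_affine` of FrDefs for the indicator
function, `Real.volume_Icc`) `=: K`.
(2) `cs_v`.  `shp (Z i) τ' y = exp(i ξ y) * conj (exp(i ξ (y + τ'))) = exp(-i ξ τ')` is a constant of modulus `1` (as in MixF of P07318o), so `form_ch` (FrCh; slot `0`,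
`bet_s2`) gives `‖Fm ..‖ₑ ≤ ofReal |β₀|⁻¹ * (∏ b ∈ univ.erase 0, ‖ac (Z (inr b.castSucc)) (vv L b.castSucc * τ)‖ₑ) * ‖ac (Z r) τ‖ₑ` (`∫ y, shp Z τ y = ac Z τ`, `rfl`).
(3) The factor `b = 1` vanishes if `|v₁ * τ| > W` (`Z p y * conj (Z p (y + τ')) ≠ 0` needs `y, y + τ' ∈ [a, a + W]`), i.e. unless `|τ| ≤ W / |v₁|`, and all factors
`b ∈ univ.erase 0` are `≤ nm (Z (inr b.castSucc))` (`ac_le`).  `C ≥ |v₁|⁻¹` enlarges the interval of integration, `C ≥ C₁ * |β₀|⁻¹`.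
-/

set_option autoImplicit false

namespace Pool.Agent.P07318v

open MeasureTheory Complex Pool.Agent.P07318s Pool.Agent.P07318f Pool.Agent.P07318h Pool.Agent.P07318o

theorem mix_form_0 {n : ℕ} (hn : 1 ≤ n) (L : Fin n ⊕ Fin (n + 2) → Fin (n + 1) → ℝ) (hL : GP L) : ∃ C : ℝ, 0 < C ∧
    ∀ (κ : Fin n ⊕ Fin (n + 2) → ℝ) (Z : Fin n ⊕ Fin (n + 2) → ℝ → ℂ) (ξ a W : ℝ), 0 ≤ W → (∀ j, Measurable (Z j)) →
    (∀ j, j ≠ Sum.inr (0 : Fin (n + 1)).castSucc → nm (Z j) ≠ ⊤) →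
    (Z (Sum.inr (0 : Fin (n + 1)).castSucc) = fun y : ℝ => cexp (((ξ * y : ℝ) : ℂ) * I)) →
    (∀ y, y ∉ Set.Icc a (a + W) → Z (Sum.inr (1 : Fin (n + 1)).castSucc) y = 0) →
    ‖FF L κ Z‖ₑ ^ 2 ≤ ENNReal.ofReal C *
      ((∏ a : Fin n, nm (Z (Sum.inl a))) * ∏ b ∈ (Finset.univ : Finset (Fin (n + 1))).erase 0, nm (Z (Sum.inr b.castSucc))) *
      ∫⁻ τ in Set.Icc (-(C * W)) (C * W), ‖ac (Z (Sum.inr (Fin.last (n + 1)))) τ‖ₑ := by
  classical
  obtain ⟨C1, hC1, hcs⟩ := cs_v L hL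
  obtain ⟨C2, hC2, hfv⟩ := fin_v L hL
  have h10 : (1 : Fin (n + 1)) ≠ 0 := by
    intro h
    have h' := congrArg Fin.val h
    rw [Fin.val_one', Fin.val_zero, Nat.mod_eq_of_lt (by omega)] at h'
    exact one_ne_zero h'
  have hp10 : (1 : Fin (n + 1)).castSucc ≠ (0 : Fin (n + 1)).castSucc := fun h =>
    h10 (Fin.castSucc_injective _ h)
  have hβ0 : ∀ i, bet L (s2 n) (Sum.inr (Fin.last (n + 1))) i ≠ 0 := bet_s2 L hL
  set β := bet L (s2 n) (Sum.inr (Fin.last (n + 1))) with hβ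
  obtain ⟨v1, hv1⟩ : ∃ v1, v1 = vv L (1 : Fin (n + 1)).castSucc := ⟨_, rfl⟩
  have hv1ne : v1 ≠ 0 := by
    rw [hv1]
    exact vv_ne L hL _
  have hv1p : 0 < |v1|⁻¹ := inv_pos.2 (abs_pos.2 hv1ne)
  have hβp : 0 < |β 0|⁻¹ := inv_pos.2 (abs_pos.2 (hβ0 0))
  refine ⟨|v1|⁻¹ + C1 * |β 0|⁻¹, by positivity, ?_⟩
  intro κ Z ξ a W hW hZ hn' hZi hZp
  obtain ⟨C, hC⟩ : ∃ C, C = |v1|⁻¹ + C1 * |β 0|⁻¹ := ⟨_, rfl⟩
  rw [← hC]
  have hgi : ∀ y, ‖Z (Sum.inr (0 : Fin (n + 1)).castSucc) y‖ₑ = 1 := by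
    intro y
    rw [hZi]
    show ‖cexp (((ξ * y : ℝ) : ℂ) * I)‖ₑ = 1
    rw [← ofReal_norm, Complex.norm_exp_ofReal_mul_I, ENNReal.ofReal_one]
  have hfin : ∫⁻ u : Fin n → ℝ, (∫⁻ s : ℝ, ∏ b, ‖Z (Sum.inr b) (pt L κ (XX L κ (u, s)) (Sum.inr b))‖ₑ) ^ 2 ≠ ⊤ := by
    obtain ⟨w, hw⟩ : ∃ w : (Fin n → ℝ) × ℝ → ENNReal, w = fun q =>
        (Set.Icc a (a + W)).indicator (fun _ => (1 : ENNReal)) (pt L κ (XX L κ q) (Sum.inr (1 : Fin (n + 1)).castSucc)) :=
      ⟨_, rfl⟩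
    have hwm : Measurable w := by
      rw [hw]
      exact (measurable_const.indicator measurableSet_Icc).comp
        ((pt_cont L κ _).measurable.comp (XX_cont L κ).measurable)
    have hwK : ∀ u, ∫⁻ s, w (u, s) ^ 2 ≤ ENNReal.ofReal |v1|⁻¹ * ENNReal.ofReal W := by
      intro u
      have e1 : ∀ s, w (u, s) ^ 2 = (fun y => (Set.Icc a (a + W)).indicator (fun _ => (1 : ENNReal)) y)
          (pt L κ (XX L κ (u, 0)) (Sum.inr (1 : Fin (n + 1)).castSucc) + v1 * s) := by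
        intro s
        rw [hv1, ← XX_inr L hL κ u s (1 : Fin (n + 1)).castSucc, hw]
        show ((Set.Icc a (a + W)).indicator (fun _ => (1 : ENNReal)) _) ^ 2 = _
        by_cases ht : pt L κ (XX L κ (u, s)) (Sum.inr (1 : Fin (n + 1)).castSucc) ∈ Set.Icc a (a + W)
        · simp only [Set.indicator_of_mem ht]
          exact one_pow 2
        · simp only [Set.indicator_of_notMem ht]
          exact zero_pow two_ne_zero
      rw [lintegral_congr e1, lint_affine (fun y => (Set.Icc a (a + W)).indicator (fun _ => (1 : ENNReal)) y) hv1ne,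
        lintegral_indicator measurableSet_Icc, setLIntegral_const, one_mul, Real.volume_Icc]
      refine le_of_eq ?_
      congr 2
      ring
    have hf := hfv κ (fun b y => ‖Z (Sum.inr b) y‖ₑ) w (0 : Fin (n + 1)).castSucc _
      (ENNReal.mul_ne_top ENNReal.ofReal_ne_top ENNReal.ofReal_ne_top) (fun b => (hZ _).enorm) hwm hwK
    refine ne_top_of_le_ne_top ?_ (le_trans (le_of_eq ?_) hf)
    · refine ENNReal.mul_ne_top (ENNReal.mul_ne_top ENNReal.ofReal_ne_top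
        (ENNReal.mul_ne_top ENNReal.ofReal_ne_top ENNReal.ofReal_ne_top)) ?_
      refine (ENNReal.prod_lt_top fun b hb => ?_).ne
      exact (hn' (Sum.inr b) (fun h => Finset.ne_of_mem_erase hb (Sum.inr.inj h))).lt_top
    · refine lintegral_congr fun u => ?_
      refine congrArg (fun x : ENNReal => x ^ 2) (lintegral_congr fun s => ?_)
      rw [← Finset.mul_prod_erase Finset.univ _ (Finset.mem_univ (0 : Fin (n + 1)).castSucc), hgi, one_mul]
      by_cases ht : pt L κ (XX L κ (u, s)) (Sum.inr (1 : Fin (n + 1)).castSucc) ∈ Set.Icc a (a + W)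
      · have h1 : w (u, s) = 1 := by
          rw [hw]
          exact Set.indicator_of_mem ht _
        rw [h1, one_mul]
      · have h1 : ∏ b ∈ Finset.univ.erase (0 : Fin (n + 1)).castSucc,
            ‖Z (Sum.inr b) (pt L κ (XX L κ (u, s)) (Sum.inr b))‖ₑ = 0 := by
          refine Finset.prod_eq_zero (Finset.mem_erase.2 ⟨hp10, Finset.mem_univ _⟩) ?_
          rw [hZp _ ht, enorm_zero]
        rw [h1, mul_zero]
  have hbase := hcs κ Z hZ (fun a => hn' _ (by simp)) hfin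
  -- the constant slot
  have hw : ∀ τ : ℝ, shp (Z (Sum.inr (0 : Fin (n + 1)).castSucc)) τ = fun _ => cexp (((-(ξ * τ) : ℝ) : ℂ) * I) := by
    intro τ
    funext y
    unfold shp
    rw [hZi]
    show cexp (((ξ * y : ℝ) : ℂ) * I) * (starRingEnd ℂ) (cexp (((ξ * (y + τ) : ℝ) : ℂ) * I)) = _
    rw [← Complex.exp_conj, ← Complex.exp_add]
    congr 1
    rw [map_mul, Complex.conj_I, Complex.conj_ofReal]
    push_cast
    ring
  have hw1 : ∀ τ : ℝ, ‖cexp (((-(ξ * τ) : ℝ) : ℂ) * I)‖ ≤ 1 := fun τ => by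
    rw [Complex.norm_exp_ofReal_mul_I]
  set k : ℝ := κ (Sum.inr (Fin.last (n + 1))) - ∑ i, β i * κ (s2 n i) with hk
  have hF : ∀ τ : ℝ, ‖Fm β k (fun b : Fin (n + 1) => shp (Z (Sum.inr b.castSucc)) (vv L b.castSucc * τ))
      (shp (Z (Sum.inr (Fin.last (n + 1)))) τ)‖ₑ ≤ ENNReal.ofReal |β 0|⁻¹ *
        (∏ b ∈ (Finset.univ : Finset (Fin (n + 1))).erase 0, ‖ac (Z (Sum.inr b.castSucc)) (vv L b.castSucc * τ)‖ₑ) *
        ‖ac (Z (Sum.inr (Fin.last (n + 1)))) τ‖ₑ := by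
    intro τ
    exact form_ch β hβ0 k (fun b : Fin (n + 1) => shp (Z (Sum.inr b.castSucc)) (vv L b.castSucc * τ))
      (shp (Z (Sum.inr (Fin.last (n + 1)))) τ) 0 _ (hw1 (vv L (0 : Fin (n + 1)).castSucc * τ))
      (hw (vv L (0 : Fin (n + 1)).castSucc * τ))
  have hac : ∀ t : ℝ, W < |t| → ac (Z (Sum.inr (1 : Fin (n + 1)).castSucc)) t = 0 := by
    intro t ht
    unfold ac
    have h1 : (fun y => Z (Sum.inr (1 : Fin (n + 1)).castSucc) y *
        (starRingEnd ℂ) (Z (Sum.inr (1 : Fin (n + 1)).castSucc) (y + t))) = fun _ => 0 := by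
      funext y
      by_cases hy : y ∈ Set.Icc a (a + W)
      · by_cases hy' : y + t ∈ Set.Icc a (a + W)
        · exfalso
          rw [Set.mem_Icc] at hy hy'
          rcases abs_cases t with h | h <;> linarith
        · rw [hZp _ hy', map_zero, mul_zero]
      · rw [hZp _ hy, zero_mul]
    rw [h1, integral_zero]
  have hp : (1 : Fin (n + 1)) ∈ (Finset.univ : Finset (Fin (n + 1))).erase 0 :=
    Finset.mem_erase.2 ⟨h10, Finset.mem_univ _⟩
  set P : ENNReal := ∏ b ∈ (Finset.univ : Finset (Fin (n + 1))).erase 0, nm (Z (Sum.inr b.castSucc)) with hP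
  have hPt : P ≠ ⊤ := by
    refine (ENNReal.prod_lt_top fun b hb => ?_).ne
    exact (hn' (Sum.inr b.castSucc) (fun h => Finset.ne_of_mem_erase hb
      (Fin.castSucc_injective _ (Sum.inr.inj h)))).lt_top
  have hpt : ∀ τ : ℝ, ‖Fm β k (fun b : Fin (n + 1) => shp (Z (Sum.inr b.castSucc)) (vv L b.castSucc * τ))
      (shp (Z (Sum.inr (Fin.last (n + 1)))) τ)‖ₑ ≤
      (Set.Icc (-(C * W)) (C * W)).indicator
        (fun τ => ENNReal.ofReal |β 0|⁻¹ * P * ‖ac (Z (Sum.inr (Fin.last (n + 1)))) τ‖ₑ) τ := by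
    intro τ
    refine (hF τ).trans ?_
    by_cases hτ : τ ∈ Set.Icc (-(C * W)) (C * W)
    · rw [Set.indicator_of_mem hτ]
      have h1 : ∏ b ∈ (Finset.univ : Finset (Fin (n + 1))).erase 0,
          ‖ac (Z (Sum.inr b.castSucc)) (vv L b.castSucc * τ)‖ₑ ≤ P :=
        Finset.prod_le_prod' fun b _ => ac_le (hZ _) _
      gcongr
    · rw [Set.indicator_of_notMem hτ]
      have h1 : ∏ b ∈ (Finset.univ : Finset (Fin (n + 1))).erase 0,
          ‖ac (Z (Sum.inr b.castSucc)) (vv L b.castSucc * τ)‖ₑ = 0 := by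
        refine Finset.prod_eq_zero hp ?_
        rw [hac, enorm_zero]
        by_contra hcon
        apply hτ
        rw [not_lt, ← hv1, abs_mul] at hcon
        have h2 : |τ| ≤ |v1|⁻¹ * W := by
          rw [inv_mul_eq_div, le_div_iff₀ (abs_pos.2 hv1ne)]
          linarith [mul_comm |v1| |τ|]
        have h3 : |v1|⁻¹ * W ≤ C * W := by
          refine mul_le_mul_of_nonneg_right ?_ hW
          rw [hC]
          have : 0 < C1 * |β 0|⁻¹ := by positivity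
          linarith
        exact ⟨by linarith [neg_abs_le τ], by linarith [le_abs_self τ]⟩
      rw [h1, mul_zero, zero_mul]
  have hint : ∫⁻ τ : ℝ, ‖Fm β k (fun b : Fin (n + 1) => shp (Z (Sum.inr b.castSucc)) (vv L b.castSucc * τ))
      (shp (Z (Sum.inr (Fin.last (n + 1)))) τ)‖ₑ ≤ ENNReal.ofReal |β 0|⁻¹ * P *
        ∫⁻ τ in Set.Icc (-(C * W)) (C * W), ‖ac (Z (Sum.inr (Fin.last (n + 1)))) τ‖ₑ := by
    refine (lintegral_mono hpt).trans (le_of_eq ?_)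
    rw [lintegral_indicator measurableSet_Icc, lintegral_const_mul' _ _ (ENNReal.mul_ne_top ENNReal.ofReal_ne_top hPt)]
  have hcon : ENNReal.ofReal C1 * ENNReal.ofReal |β 0|⁻¹ ≤ ENNReal.ofReal C := by
    rw [← ENNReal.ofReal_mul hC1.le]
    refine ENNReal.ofReal_le_ofReal ?_
    rw [hC]
    linarith
  set Q : ENNReal := ∏ a : Fin n, nm (Z (Sum.inl a)) with hQ
  set J : ENNReal := ∫⁻ τ in Set.Icc (-(C * W)) (C * W), ‖ac (Z (Sum.inr (Fin.last (n + 1)))) τ‖ₑ with hJ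
  calc ‖FF L κ Z‖ₑ ^ 2 ≤ ENNReal.ofReal C1 * Q * (ENNReal.ofReal |β 0|⁻¹ * P * J) := hbase.trans (by gcongr)
    _ = (ENNReal.ofReal C1 * ENNReal.ofReal |β 0|⁻¹) * (Q * P) * J := by ring
    _ ≤ ENNReal.ofReal C * (Q * P) * J := by gcongr

end Pool.Agent.P07318v
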