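import Pool.Agent.Lib.P07318v.Defs

/-!
# An oscillatory integral and a product inequality  (1 h)

PROOFS. `osc`: `s = Pi.single i (π / μ i)`, `e x = cexp(-i(θ + ∑ μ_k x_k))`, `I = ∫ Φ e`. Translation (`integral_add_right_eq_self`): `I = ∫ Φ(x+s) e(x+s) dx` and `e(x+s) = e(x) exp(-i π) = -e(x)`, so `2 I = ∫ (Φ x - Φ(x+s)) e(x)` (both integrable: `Integrable.comp_add_right`, `|e| = 1`), `2 ‖I‖ ≤ ∫ |Φ x - Φ(x+s)|`, which is nonnegative.
`prod_diff`: induction on `s`: `u_a U - v_a V = (u_a - v_a) U + v_a (U - V)`, `‖U‖ ≤ M ^ card`.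
-/

set_option autoImplicit false

namespace Pool.Agent.P07318v

open MeasureTheory Complex Pool.Agent.P07318s Pool.Agent.P07318f Pool.Agent.P07318h Pool.Agent.P07318o

theorem osc {d : ℕ} (Φ : (Fin d → ℝ) → ℝ) (hΦ : Integrable Φ) (θ : ℝ) (μ : Fin d → ℝ) (i : Fin d) (hi : μ i ≠ 0) :
    ‖∫ x, (Φ x : ℂ) * cexp (((-(θ + ∑ k, μ k * x k) : ℝ) : ℂ) * I)‖ ≤ ∫ x, |Φ x - Φ (x + Pi.single i (Real.pi / μ i))| := by
  set s : Fin d → ℝ := Pi.single i (Real.pi / μ i) with hs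
  set e : (Fin d → ℝ) → ℂ := fun x => cexp (((-(θ + ∑ k, μ k * x k) : ℝ) : ℂ) * I) with he
  have hes : ∀ x, e (x + s) = -e x := by
    intro x
    have h1 : ∑ k, μ k * (x + s) k = ∑ k, μ k * x k + Real.pi := by
      have h2 : ∀ k, μ k * (x + s) k = μ k * x k + (if k = i then Real.pi else 0) := by
        intro k
        rw [Pi.add_apply, mul_add]
        congr 1
        by_cases hk : k = i
        · subst hk
          rw [hs, Pi.single_eq_same, if_pos rfl]
          field_simp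
        · rw [hs, Pi.single_eq_of_ne hk, if_neg hk, mul_zero]
      rw [Finset.sum_congr rfl fun k _ => h2 k, Finset.sum_add_distrib]
      simp
    simp only [he]
    rw [h1]
    have h3 : (((-(θ + (∑ k, μ k * x k + Real.pi)) : ℝ) : ℂ) * I) =
        (((-(θ + ∑ k, μ k * x k) : ℝ) : ℂ) * I) - (Real.pi : ℂ) * I := by
      push_cast
      ring
    rw [h3, Complex.exp_sub, Complex.exp_pi_mul_I]
    ring
  have hnorm : ∀ x, ‖e x‖ = 1 := fun x => Complex.norm_exp_ofReal_mul_I _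
  have hec : Continuous e := by
    simp only [he]
    fun_prop
  have hi1 : Integrable fun x => (Φ x : ℂ) * e x := by
    refine hΦ.ofReal.mul_bdd (c := 1) hec.aestronglyMeasurable (Filter.Eventually.of_forall fun x => ?_)
    rw [hnorm]
  have hi2 : Integrable fun x => (Φ (x + s) : ℂ) * e x := by
    refine (hΦ.comp_add_right s).ofReal.mul_bdd (c := 1) hec.aestronglyMeasurable
      (Filter.Eventually.of_forall fun x => ?_)
    rw [hnorm]
  have h4 : ∫ x, (Φ (x + s) : ℂ) * e x = -∫ x, (Φ x : ℂ) * e x := by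
    have h5 := integral_add_right_eq_self (μ := (volume : Measure (Fin d → ℝ))) (fun x => (Φ x : ℂ) * e x) s
    rw [← h5, ← integral_neg]
    congr 1
    ext x
    rw [hes]
    ring
  have h6 : 2 * ∫ x, (Φ x : ℂ) * e x = ∫ x, (((Φ x - Φ (x + s) : ℝ) : ℂ)) * e x := by
    have h7 : ∫ x, (((Φ x - Φ (x + s) : ℝ) : ℂ)) * e x =
        (∫ x, (Φ x : ℂ) * e x) - ∫ x, (Φ (x + s) : ℂ) * e x := by
      rw [← integral_sub hi1 hi2]
      congr 1
      ext x
      push_cast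
      ring
    rw [h7, h4]
    ring
  have h8 : 2 * ‖∫ x, (Φ x : ℂ) * e x‖ ≤ ∫ x, |Φ x - Φ (x + s)| := by
    have h9 : 2 * ‖∫ x, (Φ x : ℂ) * e x‖ = ‖2 * ∫ x, (Φ x : ℂ) * e x‖ := by
      rw [norm_mul]
      simp
    rw [h9, h6]
    refine (norm_integral_le_integral_norm _).trans (le_of_eq ?_)
    congr 1
    ext x
    rw [norm_mul, hnorm, mul_one, Complex.norm_real, Real.norm_eq_abs]
  have h10 : 0 ≤ ‖∫ x, (Φ x : ℂ) * e x‖ := norm_nonneg _
  linarith

theorem prod_diff {ι : Type*} (s : Finset ι) (u v : ι → ℂ) (M : ℝ) (hM : 1 ≤ M) (hu : ∀ j ∈ s, ‖u j‖ ≤ M)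
    (hv : ∀ j ∈ s, ‖v j‖ ≤ M) : ‖∏ j ∈ s, u j - ∏ j ∈ s, v j‖ ≤ M ^ s.card * ∑ j ∈ s, ‖u j - v j‖ := by
  classical
  induction s using Finset.induction_on with
  | empty => simp
  | insert a s ha ih =>
    have ih' := ih (fun j hj => hu j (Finset.mem_insert_of_mem hj))
      (fun j hj => hv j (Finset.mem_insert_of_mem hj))
    rw [Finset.prod_insert ha, Finset.prod_insert ha, Finset.card_insert_of_notMem ha, Finset.sum_insert ha]
    have hU : ‖∏ j ∈ s, u j‖ ≤ M ^ s.card := by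
      rw [norm_prod, ← Finset.prod_const]
      exact Finset.prod_le_prod (fun j _ => norm_nonneg _) fun j hj => hu j (Finset.mem_insert_of_mem hj)
    have hva : ‖v a‖ ≤ M := hv a (Finset.mem_insert_self a s)
    have hM0 : 0 ≤ M := by linarith
    have hMp : 0 ≤ M ^ s.card := by positivity
    calc ‖u a * ∏ j ∈ s, u j - v a * ∏ j ∈ s, v j‖
        = ‖(u a - v a) * ∏ j ∈ s, u j + v a * (∏ j ∈ s, u j - ∏ j ∈ s, v j)‖ := by
          congr 1
          ring
      _ ≤ ‖(u a - v a) * ∏ j ∈ s, u j‖ + ‖v a * (∏ j ∈ s, u j - ∏ j ∈ s, v j)‖ := norm_add_le _ _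
      _ = ‖u a - v a‖ * ‖∏ j ∈ s, u j‖ + ‖v a‖ * ‖∏ j ∈ s, u j - ∏ j ∈ s, v j‖ := by
          rw [norm_mul, norm_mul]
      _ ≤ ‖u a - v a‖ * M ^ s.card + M * (M ^ s.card * ∑ j ∈ s, ‖u j - v j‖) :=
          add_le_add (mul_le_mul_of_nonneg_left hU (norm_nonneg _))
            (mul_le_mul hva ih' (norm_nonneg _) hM0)
      _ ≤ M ^ (s.card + 1) * (‖u a - v a‖ + ∑ j ∈ s, ‖u j - v j‖) := by
          have h1 : ‖u a - v a‖ * M ^ s.card ≤ M ^ (s.card + 1) * ‖u a - v a‖ := by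
            rw [pow_succ]
            have h2 : 0 ≤ ‖u a - v a‖ * M ^ s.card := by positivity
            nlinarith
          rw [mul_add]
          refine add_le_add h1 (le_of_eq ?_)
          rw [pow_succ]
          ring

end Pool.Agent.P07318v
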