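import Pool.Agent.Lib.P07318v.DefsK
import Pool.Agent.Lib.P07318v.Geo

/-!
# The volume of the box  (1 h)

`Geo.indep_v` is helper79's module (a black box here).
PROOF. `vol_v`: choose an injective `σ : Fin (n+1) → ι` (`hι`; `Function.Embedding.nonempty_of_card_le`) and `indep_v` with `F i = indicator [T/2, 3T] 1`: on `Bx L κ T` the product of the `F i (pt L κ x (σ i))` is `1`, so the volume is `≤ ofReal C ∏ ofReal (5T/2) = ofReal (C (5/2)^(n+1) T^(n+1))` (`lintegral_indicator_one`; `Bx` is closed, hence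
measurable: `pt_cont`). `int_v`: `F` is measurable, bounded by `M` on `Bx L κ T` and zero outside, `Bx` has finite volume: `Measure.integrableOn_of_bounded`, `integrableOn_iff_integrable_of_support_subset`; `∫ ‖F‖ = ∫_{Bx} ‖F‖ ≤ M (volume Bx).toReal`.
-/

set_option autoImplicit false

namespace Pool.Agent.P07318v

open MeasureTheory Complex Pool.Agent.P07318s Pool.Agent.P07318f Pool.Agent.P07318h Pool.Agent.P07318o

lemma Bx_meas_v {n : ℕ} {ι : Type} [Fintype ι] (L : ι → Fin (n + 1) → ℝ) (κ : ι → ℝ) (T : ℝ) : MeasurableSet (Bx L κ T) := by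
  have h : Bx L κ T = ⋂ j, (fun x => pt L κ x j) ⁻¹' Set.Icc (T / 2) (3 * T) := by
    ext x
    simp [Bx, Set.mem_iInter]
  rw [h]
  exact MeasurableSet.iInter fun j => (pt_cont L κ j).measurable measurableSet_Icc

theorem vol_v {n : ℕ} {ι : Type} [Fintype ι] [DecidableEq ι] (hι : n + 1 ≤ Fintype.card ι)
    (L : ι → Fin (n + 1) → ℝ) (hL : GP L) : ∃ C : ℝ, 0 < C ∧ ∀ (κ : ι → ℝ) (T : ℝ), 1 ≤ T →
    volume (Bx L κ T) ≤ ENNReal.ofReal (C * T ^ (n + 1)) := by
  obtain ⟨σ⟩ := Function.Embedding.nonempty_of_card_le (α := Fin (n + 1)) (β := ι) (by simpa using hι)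
  obtain ⟨C, hC, h⟩ := indep_v L hL
  refine ⟨C * (5 / 2) ^ (n + 1), by positivity, fun κ T hT => ?_⟩
  have hT0 : 0 < T := by linarith
  have hm := Bx_meas_v L κ T
  have h1 := h κ σ (fun _ => (Set.Icc (T / 2) (3 * T)).indicator 1) σ.injective
    (fun i => measurable_one.indicator measurableSet_Icc)
  have h2 : (∏ _i : Fin (n + 1), ∫⁻ y, (Set.Icc (T / 2) (3 * T)).indicator (1 : ℝ → ENNReal) y) = ENNReal.ofReal ((5 / 2 * T) ^ (n + 1)) := by
    rw [lintegral_indicator_one measurableSet_Icc, Real.volume_Icc, Finset.prod_const, Finset.card_univ, Fintype.card_fin,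
      ← ENNReal.ofReal_pow (by linarith)]
    congr 2
    ring
  rw [h2, ← ENNReal.ofReal_mul hC.le] at h1
  have h3 : volume (Bx L κ T) ≤ ∫⁻ x, ∏ i, (Set.Icc (T / 2) (3 * T)).indicator (1 : ℝ → ENNReal) (pt L κ x (σ i)) := by
    rw [← lintegral_indicator_one hm]
    refine lintegral_mono fun x => ?_
    by_cases hx : x ∈ Bx L κ T
    · rw [Set.indicator_of_mem hx]
      have : ∀ i : Fin (n + 1), (Set.Icc (T / 2) (3 * T)).indicator (1 : ℝ → ENNReal) (pt L κ x (σ i)) = 1 := fun i => by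
        rw [Set.indicator_of_mem (show pt L κ x (σ i) ∈ Set.Icc (T / 2) (3 * T) from hx (σ i))]
        rfl
      simp [this]
    · rw [Set.indicator_of_notMem hx]
      exact bot_le
  refine h3.trans (h1.trans (le_of_eq ?_))
  congr 1
  rw [mul_pow]
  ring

theorem int_v {n : ℕ} {ι : Type} [Fintype ι] [DecidableEq ι] (hι : n + 1 ≤ Fintype.card ι)
    (L : ι → Fin (n + 1) → ℝ) (hL : GP L) : ∃ C : ℝ, 0 < C ∧ ∀ (κ : ι → ℝ) (T M : ℝ) (F : (Fin (n + 1) → ℝ) → ℂ), 1 ≤ T → 0 ≤ M →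
    Measurable F → (∀ x, x ∉ Bx L κ T → F x = 0) → (∀ x, x ∈ Bx L κ T → ‖F x‖ ≤ M) →
    Integrable F ∧ ∫ x, ‖F x‖ ≤ C * M * T ^ (n + 1) := by
  obtain ⟨C, hC, h⟩ := vol_v hι L hL
  refine ⟨C, hC, fun κ T M F hT hM hF h0 h1 => ?_⟩
  have hT0 : 0 < T := by linarith
  have hm := Bx_meas_v L κ T
  have hv := h κ T hT
  have hfin : volume (Bx L κ T) < ⊤ := hv.trans_lt ENNReal.ofReal_lt_top
  have hsupp : Function.support F ⊆ Bx L κ T := fun x hx => by
    by_contra hc
    exact hx (h0 x hc)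
  have hon : IntegrableOn F (Bx L κ T) volume :=
    Measure.integrableOn_of_bounded hfin.ne hF.aestronglyMeasurable (M := M) ((ae_restrict_iff' hm).2 (Filter.Eventually.of_forall h1))
  refine ⟨(integrableOn_iff_integrable_of_support_subset hsupp).1 hon, ?_⟩
  have h2 : ∫ x, ‖F x‖ = ∫ x in Bx L κ T, ‖F x‖ := by
    rw [setIntegral_eq_integral_of_forall_compl_eq_zero]
    intro x hx
    rw [h0 x hx, norm_zero]
  have h3 : ∫ x in Bx L κ T, ‖F x‖ ≤ ∫ x in Bx L κ T, M := by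
    refine setIntegral_mono_on hon.norm ?_ hm h1
    exact integrableOn_const hfin.ne
  have h4 : ∫ x in Bx L κ T, M = (volume (Bx L κ T)).toReal * M := by
    rw [setIntegral_const, smul_eq_mul]
    rfl
  have h5 : (volume (Bx L κ T)).toReal ≤ C * T ^ (n + 1) :=
    ENNReal.toReal_le_of_le_ofReal (by positivity) hv
  rw [h2]
  refine h3.trans ?_
  rw [h4]
  nlinarith [mul_le_mul_of_nonneg_right h5 hM]

end Pool.Agent.P07318v
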