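import Pool.Agent.Lib.P07318v.FcV
import Pool.Agent.Lib.P07318v.VolV
import Pool.Agent.Lib.P07318v.OscV
import Pool.Agent.Lib.P07318v.LamLow

/-!
# The off-diagonal terms  (1.8 h)

`Lr = fun j i => (L j i : ℝ)`.
PROOF of `term_eq`: `c j y * (h^(-1/2) om h y) ex y q = fc (c j) h y ex y q`, `∏_j ex (y_j) (q_j) = cexp(-i ∑_j y_j lgr q_j)` (`Complex.exp_sum`) and `∑_j y_j lgr q_j = ∑_j κ_j lgr q_j + ∑_k (∑_j L j k lgr q_j) x_k` (`pt`, `Finset.sum_comm`).
PROOF of `off_v`. `q ∉ Ker L`: some `i` with `λ_i = ∑_j L j i lgr q_j ≠ 0`, `|λ_i| ≥ Y^(-A₀)`, `A₀ = ∑_j |L j i| ≤ A := 1 + ∑_i ∑_j |L j i|` (`lam_low`, `Y ≥ 1`). `Φ x = ∏_j fc (c j) h_j (pt Lr κ x j)`: continuous, `|Φ| ≤ (K lg T)^(2n+2)`, zero outside `Bx` (`wi_supp`), integrable (`int_v`). `term_eq` and `osc` with `μ_k = ∑_j L j k lgr q_j`: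
the left hand side is `≤ ∫ |Φ x - Φ (x + s e_i)| dx`, `s = π/λ_i`, `|s| ≤ π Y^A`. `pt Lr κ (x + s e_i) j - pt Lr κ x j = L j i s`. `prod_diff` (`M = K lg T`) and `fc_bd`: `|Φ x - Φ (x + s e_i)| ≤ B := (K lg T)^(2n+2) K Λ (lg T / T) (∑_j |L j i|) |s|` for all `x`, and `= 0` unless `x ∈ Bx` or `x + s e_i ∈ Bx`. So the integral is
`≤ B · 2 vol(Bx) ≤ C B T^(n+1)` (translation invariance: `integral_add_right_eq_self` for the indicator).
-/

set_option autoImplicit false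

namespace Pool.Agent.P07318v

open MeasureTheory Complex Pool.Agent.P07318s Pool.Agent.P07318f Pool.Agent.P07318h Pool.Agent.P07318o

theorem term_eq {n : ℕ} {ι : Type} [Fintype ι] (L : ι → Fin (n + 1) → ℤ) (κ : ι → ℝ) (c : ι → ℝ → ℝ) (q : ι → Q) (x : Fin (n + 1) → ℝ) :
    (∏ j, (c j (pt (fun j i => (L j i : ℝ)) κ x j) : ℂ)) * mt q (pt (fun j i => (L j i : ℝ)) κ x) =
      ((∏ j, fc (c j) (hgt (q j).1) (pt (fun j i => (L j i : ℝ)) κ x j) : ℝ) : ℂ) *
        cexp (((-(∑ j, κ j * lgr (q j).1 + ∑ k, (∑ j, (L j k : ℝ) * lgr (q j).1) * x k) : ℝ) : ℂ) * I) := by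
  have hex : ∏ j, ex (pt (fun j i => (L j i : ℝ)) κ x j) (q j).1 =
      cexp (((-(∑ j, κ j * lgr (q j).1 + ∑ k, (∑ j, (L j k : ℝ) * lgr (q j).1) * x k) : ℝ) : ℂ) * I) := by
    unfold ex
    rw [← Complex.exp_sum, ← Finset.sum_mul, ← Complex.ofReal_sum]
    congr 3
    rw [Finset.sum_neg_distrib]
    congr 1
    unfold pt
    simp only [add_mul, Finset.sum_add_distrib, Finset.sum_mul]
    congr 1
    rw [Finset.sum_comm]
    refine Finset.sum_congr rfl fun k _ => Finset.sum_congr rfl fun j _ => ?_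
    ring
  rw [← hex]
  unfold mt fc
  rw [Complex.ofReal_prod, ← Finset.prod_mul_distrib, ← Finset.prod_mul_distrib]
  refine Finset.prod_congr rfl fun j _ => ?_
  push_cast
  ring

namespace OffVAux

lemma ole_hgt (p : ℕ+ × ℕ+) : 1 ≤ hgt p := by
  unfold hgt
  have ha : (1 : ℝ) ≤ ((p.1 : ℕ) : ℝ) := by exact_mod_cast p.1.2
  have hb : (1 : ℝ) ≤ ((p.2 : ℕ) : ℝ) := by exact_mod_cast p.2.2
  nlinarith

lemma pt_shift {ι : Type} {d : ℕ} (L : ι → Fin d → ℝ) (κ : ι → ℝ) (x : Fin d → ℝ) (i : Fin d) (s : ℝ) (j : ι) :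
    pt L κ (x + Pi.single i s) j = pt L κ x j + L j i * s := by
  classical
  unfold pt
  have h : ∑ k, L j k * (x + Pi.single i s : Fin d → ℝ) k = ∑ k, L j k * x k + ∑ k, L j k * (Pi.single i s : Fin d → ℝ) k := by
    rw [← Finset.sum_add_distrib]
    refine Finset.sum_congr rfl fun k _ => ?_
    rw [Pi.add_apply, mul_add]
  rw [h]
  have h2 : ∑ k, L j k * (Pi.single i s : Fin d → ℝ) k = L j i * s := by
    rw [Finset.sum_eq_single i]
    · rw [Pi.single_eq_same]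
    · intro k _ hk
      rw [Pi.single_eq_of_ne hk, mul_zero]
    · intro h
      exact absurd (Finset.mem_univ i) h
  rw [h2]
  ring

end OffVAux

open OffVAux

theorem off_v {n : ℕ} {ι : Type} [Fintype ι] [DecidableEq ι] (hι : Fintype.card ι = 2 * n + 2)
    (L : ι → Fin (n + 1) → ℤ) (hL : GP fun j i => (L j i : ℝ)) : ∃ A C : ℝ, 1 ≤ A ∧ 0 < C ∧
    ∀ (κ : ι → ℝ) (T Λ ℓ Y : ℝ) (a : ι → ℝ) (c : ι → ℝ → ℝ) (q : ι → Q), 64 ≤ T → 1 ≤ Λ → 0 ≤ ℓ → Wi T Λ ℓ a c → 1 ≤ Y →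
    (∀ j, hgt (q j).1 ≤ Y) → q ∉ Ker L →
    ‖∫ x : Fin (n + 1) → ℝ, (∏ j, (c j (pt (fun j i => (L j i : ℝ)) κ x j) : ℂ)) * mt q (pt (fun j i => (L j i : ℝ)) κ x)‖ ≤
      C * Λ * T ^ n * lg T ^ (2 * n + 3) * Y ^ A := by
  obtain ⟨K, hK, hfc⟩ := fc_bd
  obtain ⟨Cv, hCv, hint⟩ := int_v (n := n) (by omega) _ hL
  set Lr : ι → Fin (n + 1) → ℝ := fun j i => (L j i : ℝ) with hLr
  set A : ℝ := 1 + ∑ i, ∑ j, |Lr j i| with hA
  have hA1 : 1 ≤ A := by
    have : 0 ≤ ∑ i, ∑ j, |Lr j i| := Finset.sum_nonneg fun i _ => Finset.sum_nonneg fun j _ => abs_nonneg _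
    linarith
  have hK0 : 0 < K := by linarith
  refine ⟨A, 2 * Cv * K ^ (2 * n + 3) * Real.pi * A, hA1, by positivity, ?_⟩
  intro κ T Λ ℓ Y a c q hT hΛ hℓ hW hY hh hq
  have hT0 : 0 < T := by linarith
  have hlg : 1 ≤ lg T := by
    unfold lg
    have := Real.log_nonneg (by linarith : (1 : ℝ) ≤ T)
    linarith
  obtain ⟨i, hi⟩ : ∃ i, ∑ j, (L j i : ℝ) * lgr (q j).1 ≠ 0 := by
    by_contra hcon
    push Not at hcon
    exact hq hcon
  set θ : ℝ := ∑ j, κ j * lgr (q j).1 with hθ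
  set μ : Fin (n + 1) → ℝ := fun k => ∑ j, (L j k : ℝ) * lgr (q j).1 with hμ
  set s : ℝ := Real.pi / μ i with hs
  set A0 : ℝ := ∑ j, |Lr j i| with hA0
  have hA0n : 0 ≤ A0 := Finset.sum_nonneg fun j _ => abs_nonneg _
  have hA0A : A0 ≤ A := by
    have : A0 ≤ ∑ i, ∑ j, |Lr j i| :=
      Finset.single_le_sum (f := fun i => ∑ j, |Lr j i|) (fun i _ => Finset.sum_nonneg fun j _ => abs_nonneg _) (Finset.mem_univ i)
    linarith
  have hsY : |s| ≤ Real.pi * Y ^ A := by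
    have h1 := lam_low L i Y hY q hh hi
    have hYp : 0 < Y := by linarith
    have h2 : 0 < Y ^ (-A0) := Real.rpow_pos_of_pos hYp _
    have h3 : |μ i|⁻¹ ≤ Y ^ A0 := by
      have h4 : (|μ i|)⁻¹ ≤ (Y ^ (-A0))⁻¹ := inv_anti₀ h2 h1
      rwa [Real.rpow_neg hYp.le, inv_inv] at h4
    have h5 : Y ^ A0 ≤ Y ^ A := Real.rpow_le_rpow_of_exponent_le hY hA0A
    rw [hs, abs_div, abs_of_pos Real.pi_pos, div_eq_mul_inv]
    exact mul_le_mul_of_nonneg_left (h3.trans h5) Real.pi_pos.le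
  -- the amplitude
  set Φ : (Fin (n + 1) → ℝ) → ℝ := fun x => ∏ j, fc (c j) (hgt (q j).1) (pt Lr κ x j) with hΦ
  have hfcj : ∀ j, (∀ y, |fc (c j) (hgt (q j).1) y| ≤ K * lg T) ∧
      ∀ y y', |fc (c j) (hgt (q j).1) y - fc (c j) (hgt (q j).1) y'| ≤ K * Λ * lg T / T * |y - y'| :=
    fun j => hfc T Λ (hgt (q j).1) (c j) hT hΛ (ole_hgt _) (hW.cut j) (fun y hy => wi_supp hW j y hy)
  have hcont : Continuous Φ := by
    rw [hΦ]
    refine continuous_finsetProd _ fun j _ => ?_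
    exact (fc_cont hT (ole_hgt _) (hW.cut j) (fun y hy => wi_supp hW j y hy)).comp (pt_cont Lr κ j)
  have hM1 : 1 ≤ K * lg T := by nlinarith
  have hzero : ∀ x, x ∉ Bx Lr κ T → Φ x = 0 := by
    intro x hx
    have : ∃ j, pt Lr κ x j ∉ Set.Icc (T / 2) (3 * T) := by
      by_contra hcon
      push Not at hcon
      exact hx fun j => hcon j
    obtain ⟨j, hj⟩ := this
    rw [hΦ]
    refine Finset.prod_eq_zero (Finset.mem_univ j) ?_
    unfold fc
    rw [wi_supp hW j _ hj, zero_mul]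
  have hbd : ∀ x, |Φ x| ≤ (K * lg T) ^ (2 * n + 2) := by
    intro x
    rw [hΦ, ← hι, ← Finset.card_univ, ← Finset.prod_const, Finset.abs_prod]
    exact Finset.prod_le_prod (fun j _ => abs_nonneg _) fun j _ => (hfcj j).1 _
  have hIΦ : Integrable Φ := by
    obtain ⟨h1, -⟩ := hint κ T ((K * lg T) ^ (2 * n + 2)) (fun x => (Φ x : ℂ)) (by linarith) (by positivity)
      (Complex.measurable_ofReal.comp hcont.measurable) (fun x hx => by rw [hzero x hx, Complex.ofReal_zero])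
      (fun x _ => by
        rw [Complex.norm_real, Real.norm_eq_abs]
        exact hbd x)
    simpa using h1.re
  -- the difference
  set e : Fin (n + 1) → ℝ := Pi.single i s with he
  set B : ℝ := (K * lg T) ^ (2 * n + 2) * (K * Λ * lg T / T * (A0 * |s|)) with hB
  have hB0 : 0 ≤ B := by positivity
  have hdiff : ∀ x, |Φ x - Φ (x + e)| ≤ B := by
    intro x
    have h1 := prod_diff Finset.univ (fun j => ((fc (c j) (hgt (q j).1) (pt Lr κ x j) : ℝ) : ℂ))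
      (fun j => ((fc (c j) (hgt (q j).1) (pt Lr κ (x + e) j) : ℝ) : ℂ)) (K * lg T) hM1
      (fun j _ => by
        rw [Complex.norm_real, Real.norm_eq_abs]
        exact (hfcj j).1 _)
      (fun j _ => by
        rw [Complex.norm_real, Real.norm_eq_abs]
        exact (hfcj j).1 _)
    rw [← Complex.ofReal_prod, ← Complex.ofReal_prod, ← Complex.ofReal_sub, Complex.norm_real, Real.norm_eq_abs,
      Finset.card_univ, hι] at h1
    refine h1.trans ?_
    rw [hB]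
    refine mul_le_mul_of_nonneg_left ?_ (by positivity)
    have h2 : ∀ j ∈ Finset.univ, ‖((fc (c j) (hgt (q j).1) (pt Lr κ x j) : ℝ) : ℂ) -
        ((fc (c j) (hgt (q j).1) (pt Lr κ (x + e) j) : ℝ) : ℂ)‖ ≤ K * Λ * lg T / T * (|Lr j i| * |s|) := by
      intro j _
      rw [← Complex.ofReal_sub, Complex.norm_real, Real.norm_eq_abs]
      refine ((hfcj j).2 _ _).trans ?_
      rw [he, pt_shift Lr κ x i s j]
      have : pt Lr κ x j - (pt Lr κ x j + Lr j i * s) = -(Lr j i * s) := by ring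
      rw [this, abs_neg, abs_mul]
    refine (Finset.sum_le_sum h2).trans (le_of_eq ?_)
    rw [← Finset.mul_sum, ← Finset.sum_mul]
  -- the indicator of the box
  set F1 : (Fin (n + 1) → ℝ) → ℂ := (Bx Lr κ T).indicator fun _ => (1 : ℂ) with hF1
  obtain ⟨hF1i, hF1b⟩ := hint κ T 1 F1 (by linarith) zero_le_one (measurable_const.indicator (Bx_meas_v Lr κ T))
    (fun x hx => Set.indicator_of_notMem hx _) (fun x hx => by
      rw [hF1, Set.indicator_of_mem hx, norm_one])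
  have hG : ∀ x, |Φ x - Φ (x + e)| ≤ B * (‖F1 x‖ + ‖F1 (x + e)‖) := by
    intro x
    by_cases h1 : x ∈ Bx Lr κ T
    · have h3 : ‖F1 x‖ = 1 := by rw [hF1, Set.indicator_of_mem h1, norm_one]
      have h4 : 0 ≤ ‖F1 (x + e)‖ := norm_nonneg _
      rw [h3]
      nlinarith [hdiff x]
    · by_cases h2 : x + e ∈ Bx Lr κ T
      · have h3 : ‖F1 (x + e)‖ = 1 := by rw [hF1, Set.indicator_of_mem h2, norm_one]
        have h4 : 0 ≤ ‖F1 x‖ := norm_nonneg _
        rw [h3]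
        nlinarith [hdiff x]
      · rw [hzero x h1, hzero _ h2, sub_zero, abs_zero]
        positivity
  have hGi : Integrable fun x => B * (‖F1 x‖ + ‖F1 (x + e)‖) :=
    (hF1i.norm.add (hF1i.comp_add_right e).norm).const_mul B
  have hsh : ∫ x, ‖F1 (x + e)‖ = ∫ x, ‖F1 x‖ := integral_add_right_eq_self (fun x => ‖F1 x‖) e
  have hmain : ∫ x, |Φ x - Φ (x + e)| ≤ B * (2 * (Cv * T ^ (n + 1))) := by
    have h1 : ∫ x, |Φ x - Φ (x + e)| ≤ ∫ x, B * (‖F1 x‖ + ‖F1 (x + e)‖) := by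
      refine integral_mono ?_ hGi hG
      exact (hIΦ.sub (hIΦ.comp_add_right e)).abs
    refine h1.trans ?_
    rw [integral_const_mul, integral_add hF1i.norm (hF1i.comp_add_right e).norm, hsh]
    refine mul_le_mul_of_nonneg_left ?_ hB0
    linarith
  have hfin : B * (2 * (Cv * T ^ (n + 1))) ≤
      2 * Cv * K ^ (2 * n + 3) * Real.pi * A * Λ * T ^ n * lg T ^ (2 * n + 3) * Y ^ A := by
    have h1 : A0 * |s| ≤ A * (Real.pi * Y ^ A) := mul_le_mul hA0A hsY (abs_nonneg _) (by linarith)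
    have h2 : B ≤ (K * lg T) ^ (2 * n + 2) * (K * Λ * lg T / T * (A * (Real.pi * Y ^ A))) := by
      rw [hB]
      refine mul_le_mul_of_nonneg_left (mul_le_mul_of_nonneg_left h1 (by positivity)) (by positivity)
    refine (mul_le_mul_of_nonneg_right h2 (by positivity)).trans (le_of_eq ?_)
    field_simp
    ring
  -- the integral
  have hosc := osc Φ hIΦ θ μ i hi
  have heq : (fun x : Fin (n + 1) → ℝ => (∏ j, (c j (pt Lr κ x j) : ℂ)) * mt q (pt Lr κ x)) =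
      fun x => (Φ x : ℂ) * cexp (((-(θ + ∑ k, μ k * x k) : ℝ) : ℂ) * I) := by
    funext x
    exact term_eq L κ c q x
  rw [heq]
  exact hosc.trans (hmain.trans hfin)

end Pool.Agent.P07318v
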