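import Pool.Agent.Lib.P07318v.Defs
import Pool.Agent.Lib.P07318v.HarmV

/-!
# Asymptotics of the coefficients  (1.5 h)

PROOF. `D = 2 π h / y > 0`, `E u = exp(-u²/4)`, `F g u = if log (D g²) < u then E u / g else 0` (`g : ℕ+`). `∫ F g = √π · (W (D g²) / g)` (definition of `W`: `∫ u in Ioi (log (D g²))`; indicator), `‖F g u‖ = F g u`, each `F g` integrable (`integrable_g0` in P07318s/WMellin.lean), and
`∑ W(D g²)/g` converges: `Om_summable` (P07318s/Regroup.lean), `Om h y = ∑' g, W (2π g² h / y)/g`. So (`hasSum_integral_of_summable_integral_norm`) `√π Om h y = ∫ u, ∑' g, F g u`, and `∑' g, F g u = E u * Hs (x u)`, `x u = exp((u - log D)/2)` (`Hs_sum`; `log D + 2 log g < u ↔ g < x u`).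
`Hs_as`: `|Hs (x u) - ((u - log D)/2 + γ)| ≤ 2 / x u = 2 √D exp(-u/2)`. The function `u ↦ E u Hs (x u)` is measurable (`Hs_meas`) and `|E u Hs (x u)| ≤ E u (|u|/2 + |log D| + 1 + 2 √D exp(-u/2))`, integrable. `∫ E = 2√π` (`integral_g0`), `∫ u E u = 0` (odd), hence
`∫ E u ((u - log D)/2 + γ) = √π (2γ - log D) = √π om h y` (`log D = -log (y/(2πh))`). Therefore `|√π (Om h y - om h y)| ≤ 2 √D ∫ exp(-u²/4 - u/2) du = C₁ √D`, `√D = √(2π) (h/y)^(1/2)`. (`exp(-u²/4 - u/2)` is integrable: `exp(A u - u²/4)` is, see `W_le_rpow` in WMellin.lean, or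
`-u²/4 - u/2 ≤ -u²/8 + 1/2`.)
-/

set_option autoImplicit false

namespace Pool.Agent.P07318v

open MeasureTheory Complex Pool.Agent.P07318s Pool.Agent.P07318f Pool.Agent.P07318h Pool.Agent.P07318o

namespace OmAsAux

/-- the Gaussian -/
noncomputable def E (u : ℝ) : ℝ := Real.exp (-u ^ 2 / 4)

lemma E_pos (u : ℝ) : 0 < E u := Real.exp_pos _

lemma E_cont : Continuous E := by
  unfold E
  fun_prop

lemma E_int : Integrable E := WMellinAux.integrable_g0

lemma E_integral : ∫ u, E u = 2 * Real.sqrt Real.pi := WMellinAux.integral_g0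

lemma uE_int : Integrable fun u : ℝ => u * E u := by
  have h := integrable_mul_exp_neg_mul_sq (b := 1 / 4) (by norm_num)
  refine h.congr (Filter.Eventually.of_forall fun u => ?_)
  simp only [E]
  congr 2
  ring

lemma uE_integral : ∫ u, u * E u = 0 := by
  have h := integral_neg_eq_self (fun u : ℝ => u * E u) volume
  have h1 : (∫ x : ℝ, -x * E (-x)) = -∫ u, u * E u := by
    rw [← integral_neg]
    congr 1
    funext x
    have : E (-x) = E x := by simp [E]
    rw [this]
    ring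
  rw [h1] at h
  linarith

/-- the cut point -/
noncomputable def xu (D u : ℝ) : ℝ := Real.exp ((u - Real.log D) / 2)

lemma xu_cont (D : ℝ) : Continuous (xu D) := by
  unfold xu
  fun_prop

lemma lt_iff {D : ℝ} (hD : 0 < D) (g : ℕ+) (u : ℝ) :
    Real.log (D * ((g : ℕ) : ℝ) ^ 2) < u ↔ ((g : ℕ) : ℝ) < xu D u := by
  have hg : (0 : ℝ) < ((g : ℕ) : ℝ) := by exact_mod_cast g.pos
  unfold xu
  rw [← Real.log_lt_iff_lt_exp hg, Real.log_mul hD.ne' (by positivity), Real.log_pow]
  push_cast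
  constructor <;> intro h <;> linarith

/-- the summand -/
noncomputable def F (D : ℝ) (g : ℕ+) (u : ℝ) : ℝ :=
  (Set.Ioi (Real.log (D * ((g : ℕ) : ℝ) ^ 2))).indicator (fun u => E u * (((g : ℕ) : ℝ))⁻¹) u

lemma F_nonneg (D : ℝ) (g : ℕ+) (u : ℝ) : 0 ≤ F D g u := by
  unfold F
  apply Set.indicator_nonneg
  intro v _
  exact mul_nonneg (E_pos v).le (inv_nonneg.2 (Nat.cast_nonneg _))

lemma F_int (D : ℝ) (g : ℕ+) : Integrable (F D g) :=
  (E_int.mul_const _).indicator measurableSet_Ioi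

lemma F_integral (D : ℝ) (g : ℕ+) :
    ∫ u, F D g u = Real.sqrt Real.pi * (W (D * ((g : ℕ) : ℝ) ^ 2) / ((g : ℕ) : ℝ)) := by
  unfold F
  rw [integral_indicator measurableSet_Ioi, integral_mul_const]
  unfold W E
  have hp := WMellinAux.sqrt_pi_pos
  have hp' := hp.ne'
  rw [div_eq_mul_inv, ← mul_assoc, ← mul_assoc, mul_inv_cancel₀ hp', one_mul]

lemma F_eq {D : ℝ} (hD : 0 < D) (g : ℕ+) (u : ℝ) :
    F D g u = E u * (if ((g : ℕ) : ℝ) < xu D u then (((g : ℕ) : ℝ))⁻¹ else 0) := by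
  unfold F
  rw [Set.indicator_apply]
  simp only [Set.mem_Ioi, lt_iff hD g u]
  split_ifs <;> simp

lemma F_tsum {D : ℝ} (hD : 0 < D) (u : ℝ) : ∑' g : ℕ+, F D g u = E u * Hs (xu D u) := by
  have h := (Hs_sum (xu D u)).mul_left (E u)
  rw [← h.tsum_eq]
  exact tsum_congr fun g => F_eq hD g u

end OmAsAux

open OmAsAux
theorem om_as : ∃ C : ℝ, 0 < C ∧ ∀ h y : ℝ, 1 ≤ h → h ≤ y → |Om h y - om h y| ≤ C * (h / y) ^ (1 / 2 : ℝ) := by
  have hpi := Real.pi_pos
  have hsp := WMellinAux.sqrt_pi_pos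
  obtain ⟨J, hJ⟩ : ∃ J : ℝ, J = ∫ u : ℝ, Real.exp ((-(1 / 2)) * u - u ^ 2 / 4) := ⟨_, rfl⟩
  have hJint := WMellinAux.integrable_g (-(1 / 2))
  have hJ0 : 0 ≤ J := by
    rw [hJ]
    exact integral_nonneg fun u => (Real.exp_pos _).le
  refine ⟨(Real.sqrt Real.pi)⁻¹ * (2 * Real.sqrt (2 * Real.pi) * J) + 1, by positivity, ?_⟩
  intro h y hh hy
  have hh0 : 0 < h := by linarith
  have hy0 : 0 < y := by linarith
  obtain ⟨D, hD⟩ : ∃ D : ℝ, D = 2 * Real.pi * h / y := ⟨_, rfl⟩
  have hD0 : 0 < D := by rw [hD]; positivity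
  obtain ⟨γ, hγ⟩ : ∃ γ : ℝ, γ = Real.eulerMascheroniConstant := ⟨_, rfl⟩
  -- the series
  have hOm : Om h y = ∑' g : ℕ+, W (D * ((g : ℕ) : ℝ) ^ 2) / ((g : ℕ) : ℝ) := by
    unfold Om
    refine tsum_congr fun g => ?_
    congr 2
    rw [hD]
    ring
  have hsum : Summable fun g : ℕ+ => W (D * ((g : ℕ) : ℝ) ^ 2) / ((g : ℕ) : ℝ) := by
    refine (Om_summable hy0 hh).congr fun g => ?_
    congr 2
    rw [hD]
    ring
  have hFs : HasSum (fun g : ℕ+ => ∫ u, F D g u) (∫ u, ∑' g : ℕ+, F D g u) := by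
    refine hasSum_integral_of_summable_integral_norm (F_int D) ?_
    refine (hsum.mul_left (Real.sqrt Real.pi)).congr fun g => ?_
    rw [← F_integral]
    congr 1
    funext u
    rw [Real.norm_of_nonneg (F_nonneg D g u)]
  have hG : Real.sqrt Real.pi * Om h y = ∫ u, E u * Hs (xu D u) := by
    have h1 : (fun u => ∑' g : ℕ+, F D g u) = fun u => E u * Hs (xu D u) := by
      funext u
      exact F_tsum hD0 u
    rw [← h1, ← hFs.tsum_eq, hOm, ← tsum_mul_left]
    exact tsum_congr fun g => (F_integral D g).symm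
  -- the main part
  have hMint : Integrable fun u : ℝ => E u * ((u - Real.log D) / 2 + γ) := by
    have h1 := (uE_int.mul_const (1 / 2)).add (E_int.mul_const (γ - Real.log D / 2))
    refine h1.congr (Filter.Eventually.of_forall fun u => ?_)
    simp only [Pi.add_apply]
    ring
  have hM : ∫ u, E u * ((u - Real.log D) / 2 + γ) = Real.sqrt Real.pi * om h y := by
    have h1 : ∀ u : ℝ, E u * ((u - Real.log D) / 2 + γ) =
        u * E u * (1 / 2) + E u * (γ - Real.log D / 2) := by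
      intro u
      ring
    simp_rw [h1]
    rw [integral_add (uE_int.mul_const _) (E_int.mul_const _), integral_mul_const, integral_mul_const,
      uE_integral, E_integral]
    unfold om
    have h2 : Real.log (y / (2 * Real.pi * h)) = -Real.log D := by
      rw [← Real.log_inv, hD, inv_div]
    rw [h2, ← hγ]
    ring
  -- the remainder
  have hRb : ∀ u : ℝ, ‖E u * Hs (xu D u) - E u * ((u - Real.log D) / 2 + γ)‖ ≤
      2 * Real.sqrt D * Real.exp ((-(1 / 2)) * u - u ^ 2 / 4) := by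
    intro u
    have hx : 0 < xu D u := Real.exp_pos _
    have h1 := Hs_as hx
    have h2 : Real.log (xu D u) = (u - Real.log D) / 2 := Real.log_exp _
    rw [h2, ← hγ] at h1
    have h3 : E u * Hs (xu D u) - E u * ((u - Real.log D) / 2 + γ) =
        E u * (Hs (xu D u) - (u - Real.log D) / 2 - γ) := by ring
    rw [h3, norm_mul, Real.norm_of_nonneg (E_pos u).le, Real.norm_eq_abs]
    have h4 : E u * (2 / xu D u) = 2 * Real.sqrt D * Real.exp ((-(1 / 2)) * u - u ^ 2 / 4) := by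
      have h5 : Real.sqrt D = Real.exp (Real.log D / 2) := by
        rw [Real.sqrt_eq_rpow, Real.rpow_def_of_pos hD0]
        congr 1
        ring
      rw [h5]
      unfold E xu
      have h6 : (2 : ℝ) / Real.exp ((u - Real.log D) / 2) = 2 * Real.exp (-((u - Real.log D) / 2)) := by
        rw [Real.exp_neg]
        exact div_eq_mul_inv _ _
      rw [h6, mul_left_comm, ← Real.exp_add, mul_assoc, ← Real.exp_add]
      congr 2
      ring
    rw [← h4]
    exact mul_le_mul_of_nonneg_left h1 (E_pos u).le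
  have hGm : Measurable fun u : ℝ => E u * Hs (xu D u) :=
    E_cont.measurable.mul (Hs_meas.comp (xu_cont D).measurable)
  have hMm : Measurable fun u : ℝ => E u * ((u - Real.log D) / 2 + γ) := by
    apply E_cont.measurable.mul
    fun_prop
  have hBint : Integrable fun u : ℝ => 2 * Real.sqrt D * Real.exp ((-(1 / 2)) * u - u ^ 2 / 4) :=
    hJint.const_mul _
  have hRint : Integrable fun u : ℝ => E u * Hs (xu D u) - E u * ((u - Real.log D) / 2 + γ) :=
    hBint.mono' (hGm.sub hMm).aestronglyMeasurable (Filter.Eventually.of_forall hRb)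
  have hGint : Integrable fun u : ℝ => E u * Hs (xu D u) := by
    refine (hRint.add hMint).congr (Filter.Eventually.of_forall fun u => ?_)
    simp only [Pi.add_apply]
    ring
  have hdiff : Real.sqrt Real.pi * (Om h y - om h y) =
      ∫ u, (E u * Hs (xu D u) - E u * ((u - Real.log D) / 2 + γ)) := by
    rw [integral_sub hGint hMint, ← hG, hM]
    ring
  have hfin : ‖Real.sqrt Real.pi * (Om h y - om h y)‖ ≤ 2 * Real.sqrt D * J := by
    rw [hdiff, hJ, ← integral_const_mul]
    exact norm_integral_le_of_norm_le hBint (Filter.Eventually.of_forall hRb)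
  rw [norm_mul, Real.norm_of_nonneg hsp.le, Real.norm_eq_abs] at hfin
  have hsD : Real.sqrt D = Real.sqrt (2 * Real.pi) * (h / y) ^ (1 / 2 : ℝ) := by
    rw [← Real.sqrt_eq_rpow, ← Real.sqrt_mul (by positivity), hD]
    congr 1
    ring
  rw [hsD] at hfin
  have hp : 0 ≤ (h / y) ^ (1 / 2 : ℝ) := by positivity
  have h7 : |Om h y - om h y| ≤
      (Real.sqrt Real.pi)⁻¹ * (2 * (Real.sqrt (2 * Real.pi) * (h / y) ^ (1 / 2 : ℝ)) * J) := by
    rw [le_inv_mul_iff₀ hsp]
    exact hfin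
  calc |Om h y - om h y| ≤ _ := h7
    _ = ((Real.sqrt Real.pi)⁻¹ * (2 * Real.sqrt (2 * Real.pi) * J)) * (h / y) ^ (1 / 2 : ℝ) := by ring
    _ ≤ _ := by
      apply mul_le_mul_of_nonneg_right _ hp
      linarith

end Pool.Agent.P07318v
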