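import Pool.Agent.Lib.P07318v.OmAs
import Pool.Agent.Lib.P07318v.FcV
import Pool.Agent.Lib.P07318v.VolV
import Pool.Agent.Lib.P07318v.OscV
import Pool.Agent.Lib.P07318o.BandExp
import Pool.Agent.Lib.P07318o.LLcut

/-!
# Replacing the coefficients by their asymptotics  (1.8 h)

PROOF. `bd 0 Y y = ∑_{q ∈ qs 0 Y} h^(-1/2) Om h y ex y q` (definition of `tq`), `#qs 0 Y ≤ Y²` (`card_qs`, P07318o/BandExp.lean), `u_j = ct (c j) (bd 0 Y) (pt L κ x j)`, `v_j = ct (c j) (bo Y) (pt L κ x j)`. Both products vanish for `x ∉ Bx L κ T` (`wi_supp`). For `x ∈ Bx`: `y = pt L κ x j ∈ [T/2, 3T]`, `h ≤ Y ≤ T/2 ≤ y`: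
`‖u_j - v_j‖ ≤ ∑_q h^(-1/2) C₀ (h/y)^(1/2) ≤ Y² C₀ (T/2)^(-1/2) ≤ 2 C₀ Y² T^(-1/2)` (`om_as`), `‖v_j‖ ≤ Y² K lg T` (`om_bd`, `h^(-1/2+1/20) ≤ 1`), `‖u_j‖ ≤ M := (K + 2 C₀) Y² lg T`, `M ≥ 1`. `prod_diff`: `‖∏ u - ∏ v‖ ≤ M^(2n+2) (2n+2) 2 C₀ Y² T^(-1/2)`.
`int_v` for the difference (measurable: `ct_cont` of P07318o/LLcut.lean with `bd_contOn`; `c j · bo Y = ∑_q fc (c j) h y ex y q` is continuous by `fc_cont`) gives the bound `C T^(n+1) T^(-1/2) (Y² lg T)^(2n+3)`; `FF(..) - FF(..) = ∫ (∏ u - ∏ v)` needs both products integrable: `int_v` for each of them with the bound `M^(2n+2)`.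
-/

set_option autoImplicit false

namespace Pool.Agent.P07318v

open MeasureTheory Complex Pool.Agent.P07318s Pool.Agent.P07318f Pool.Agent.P07318h Pool.Agent.P07318o

namespace RepVAux

lemma one_le_lg {T : ℝ} (hT : 64 ≤ T) : 1 ≤ lg T := by
  unfold lg
  have := Real.log_nonneg (show (1 : ℝ) ≤ T by linarith)
  linarith

lemma inv_sqrt_le {T y : ℝ} (hT : 64 ≤ T) (hy : T / 2 ≤ y) : (y ^ (1 / 2 : ℝ))⁻¹ ≤ 2 * T ^ (-(1 / 2) : ℝ) := by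
  have hT0 : 0 < T := by linarith
  have h1 : (T / 4) ^ (1 / 2 : ℝ) ≤ y ^ (1 / 2 : ℝ) :=
    Real.rpow_le_rpow (by positivity) (by linarith) (by norm_num)
  have h2 : (T / 4) ^ (1 / 2 : ℝ) = T ^ (1 / 2 : ℝ) / 2 := by
    rw [Real.div_rpow hT0.le (by norm_num)]
    congr 1
    rw [show (4 : ℝ) = 2 ^ (2 : ℝ) by norm_num, ← Real.rpow_mul (by norm_num)]
    norm_num
  rw [h2] at h1
  have h3 : 0 < T ^ (1 / 2 : ℝ) := Real.rpow_pos_of_pos hT0 _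
  calc (y ^ (1 / 2 : ℝ))⁻¹ ≤ (T ^ (1 / 2 : ℝ) / 2)⁻¹ := inv_anti₀ (by positivity) h1
    _ = 2 * T ^ (-(1 / 2) : ℝ) := by
      rw [Real.rpow_neg hT0.le]
      field_simp

/-- one term -/
lemma term_le {C₀ : ℝ} (hC₀ : 0 < C₀) (has : ∀ h y : ℝ, 1 ≤ h → h ≤ y → |Om h y - om h y| ≤ C₀ * (h / y) ^ (1 / 2 : ℝ))
    {T Y y : ℝ} (hT : 64 ≤ T) (hYT : Y ≤ T / 2) (hy : T / 2 ≤ y) {q : Q} (hq : q ∈ qs 0 Y) :
    ‖tq q y - (((hgt q.1) ^ (-(1 / 2) : ℝ) * om (hgt q.1) y : ℝ) : ℂ) * ex y q.1‖ ≤ 2 * C₀ * T ^ (-(1 / 2) : ℝ) := by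
  have hh := one_le_hgt q.1
  have h0 : 0 < hgt q.1 := by linarith
  have hq' := (mem_qs.1 hq).2
  have hy0 : 0 < y := by linarith
  have e : tq q y - (((hgt q.1) ^ (-(1 / 2) : ℝ) * om (hgt q.1) y : ℝ) : ℂ) * ex y q.1 =
      (((hgt q.1) ^ (-(1 / 2) : ℝ) * (Om (hgt q.1) y - om (hgt q.1) y) : ℝ) : ℂ) * ex y q.1 := by
    unfold tq
    push_cast
    ring
  rw [e, norm_mul, norm_ex, mul_one, Complex.norm_real, Real.norm_eq_abs, abs_mul,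
    abs_of_pos (Real.rpow_pos_of_pos h0 _)]
  have h1 := has (hgt q.1) y hh (by linarith)
  calc (hgt q.1) ^ (-(1 / 2) : ℝ) * |Om (hgt q.1) y - om (hgt q.1) y|
      ≤ (hgt q.1) ^ (-(1 / 2) : ℝ) * (C₀ * (hgt q.1 / y) ^ (1 / 2 : ℝ)) :=
        mul_le_mul_of_nonneg_left h1 (Real.rpow_pos_of_pos h0 _).le
    _ = C₀ * (y ^ (1 / 2 : ℝ))⁻¹ := by
        rw [Real.div_rpow h0.le hy0.le, Real.rpow_neg h0.le]
        have : (hgt q.1) ^ (1 / 2 : ℝ) ≠ 0 := (Real.rpow_pos_of_pos h0 _).ne'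
        field_simp
    _ ≤ C₀ * (2 * T ^ (-(1 / 2) : ℝ)) := mul_le_mul_of_nonneg_left (inv_sqrt_le hT hy) hC₀.le
    _ = _ := by ring

/-- the difference of the sums -/
lemma diff_le {C₀ : ℝ} (hC₀ : 0 < C₀) (has : ∀ h y : ℝ, 1 ≤ h → h ≤ y → |Om h y - om h y| ≤ C₀ * (h / y) ^ (1 / 2 : ℝ))
    {T Y y : ℝ} (hT : 64 ≤ T) (hY : 1 ≤ Y) (hYT : Y ≤ T / 2) (hy : T / 2 ≤ y) :
    ‖bd 0 Y y - bo Y y‖ ≤ Y ^ 2 * (2 * C₀ * T ^ (-(1 / 2) : ℝ)) := by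
  unfold bd bo
  rw [← Finset.sum_sub_distrib]
  have h1 : ‖∑ q ∈ qs 0 Y, (tq q y - (((hgt q.1) ^ (-(1 / 2) : ℝ) * om (hgt q.1) y : ℝ) : ℂ) * ex y q.1)‖ ≤
      ∑ _q ∈ qs 0 Y, 2 * C₀ * T ^ (-(1 / 2) : ℝ) :=
    norm_sum_le_of_le _ fun q hq => term_le hC₀ has hT hYT hy hq
  refine h1.trans ?_
  rw [Finset.sum_const, nsmul_eq_mul]
  have hT0 : 0 < T := by linarith
  have h2 : 0 ≤ 2 * C₀ * T ^ (-(1 / 2) : ℝ) := by
    have := Real.rpow_pos_of_pos hT0 (-(1 / 2))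
    positivity
  exact mul_le_mul_of_nonneg_right (card_qs hY) h2

/-- the sum with the asymptotic coefficients -/
lemma bo_le {K : ℝ} (hK : 1 ≤ K) (hbd : ∀ T y h : ℝ, 64 ≤ T → T / 2 ≤ y → y ≤ 3 * T → 1 ≤ h →
    |om h y| ≤ K * lg T * h ^ (1 / 20 : ℝ)) {T Y y : ℝ} (hT : 64 ≤ T) (hY : 1 ≤ Y) (hy : T / 2 ≤ y) (hy' : y ≤ 3 * T) :
    ‖bo Y y‖ ≤ Y ^ 2 * (K * lg T) := by
  unfold bo
  have hl := one_le_lg hT
  have h1 : ‖∑ q ∈ qs 0 Y, (((hgt q.1) ^ (-(1 / 2) : ℝ) * om (hgt q.1) y : ℝ) : ℂ) * ex y q.1‖ ≤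
      ∑ _q ∈ qs 0 Y, K * lg T := by
    refine norm_sum_le_of_le _ fun q _ => ?_
    have hh := one_le_hgt q.1
    have h0 : 0 < hgt q.1 := by linarith
    rw [norm_mul, norm_ex, mul_one, Complex.norm_real, Real.norm_eq_abs, abs_mul,
      abs_of_pos (Real.rpow_pos_of_pos h0 _)]
    calc (hgt q.1) ^ (-(1 / 2) : ℝ) * |om (hgt q.1) y|
        ≤ (hgt q.1) ^ (-(1 / 2) : ℝ) * (K * lg T * (hgt q.1) ^ (1 / 20 : ℝ)) :=
          mul_le_mul_of_nonneg_left (hbd T y _ hT hy hy' hh) (Real.rpow_pos_of_pos h0 _).le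
      _ = K * lg T * (hgt q.1) ^ (-(1 / 2) + 1 / 20 : ℝ) := by
          rw [Real.rpow_add h0]; ring
      _ ≤ K * lg T * 1 := by
          refine mul_le_mul_of_nonneg_left ?_ (by positivity)
          exact Real.rpow_le_one_of_one_le_of_nonpos hh (by norm_num)
      _ = _ := by ring
  refine h1.trans ?_
  rw [Finset.sum_const, nsmul_eq_mul]
  exact mul_le_mul_of_nonneg_right (card_qs hY) (by positivity)

lemma bo_contOn (Y : ℝ) : ContinuousOn (bo Y) (Set.Ioi 0) := by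
  unfold bo
  refine continuousOn_finset_sum _ fun q _ => ?_
  refine ContinuousOn.mul ?_ ?_
  · refine Complex.continuous_ofReal.comp_continuousOn ?_
    exact continuousOn_const.mul (om_cont _ (one_le_hgt q.1))
  · unfold ex
    fun_prop

lemma ct_norm_le {T Λ ℓ : ℝ} {ι : Type} {a : ι → ℝ} {c : ι → ℝ → ℝ} (h : Wi T Λ ℓ a c) (j : ι) (f : ℝ → ℂ) (y : ℝ) :
    ‖ct (c j) f y‖ ≤ ‖f y‖ := by
  unfold ct
  rw [norm_mul, Complex.norm_real, Real.norm_eq_abs, abs_of_nonneg ((h.cut j).nonneg y)]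
  calc c j y * ‖f y‖ ≤ 1 * ‖f y‖ := mul_le_mul_of_nonneg_right ((h.cut j).le_one y) (norm_nonneg _)
    _ = _ := one_mul _

lemma ct_sub (c : ℝ → ℝ) (f g : ℝ → ℂ) (y : ℝ) : ct c f y - ct c g y = ct c (fun z => f z - g z) y := by
  unfold ct
  ring

end RepVAux

open RepVAux

theorem rep_v {n : ℕ} {ι : Type} [Fintype ι] [DecidableEq ι] (hι : Fintype.card ι = 2 * n + 2)
    (L : ι → Fin (n + 1) → ℝ) (hL : GP L) : ∃ C : ℝ, 0 < C ∧ ∀ (κ : ι → ℝ) (T Λ ℓ Y : ℝ) (a : ι → ℝ) (c : ι → ℝ → ℝ), 64 ≤ T → 1 ≤ Λ →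
    0 ≤ ℓ → Wi T Λ ℓ a c → 1 ≤ Y → Y ≤ T / 2 →
    ‖FF L κ (fun j => ct (c j) (bd 0 Y)) - FF L κ (fun j => ct (c j) (bo Y))‖ ≤
      C * T ^ ((n : ℝ) + 1 / 2) * (Y ^ 2 * lg T) ^ (2 * n + 3) := by
  classical
  obtain ⟨C₀, hC₀, has⟩ := om_as
  obtain ⟨K, hK, hbd⟩ := om_bd
  have hcard : n + 1 ≤ Fintype.card ι := by omega
  obtain ⟨Cv, hCv, hiv⟩ := int_v hcard L hL
  refine ⟨Cv * (K + 2 * C₀) ^ (2 * n + 2) * (2 * n + 2) * (2 * C₀), by positivity,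
    fun κ T Λ ℓ Y a c hT hΛ hℓ hc hY hYT => ?_⟩
  have hT0 : 0 < T := by linarith
  have hT1 : 1 ≤ T := by linarith
  have hl := one_le_lg hT
  have hY2 : 1 ≤ Y ^ 2 := one_le_pow₀ hY
  have hYl : 1 ≤ Y ^ 2 * lg T := one_le_mul_of_one_le_of_one_le hY2 hl
  set M : ℝ := (K + 2 * C₀) * (Y ^ 2 * lg T) with hM
  have hM1 : 1 ≤ M := one_le_mul_of_one_le_of_one_le (by linarith) hYl
  have hTh : T ^ (-(1 / 2) : ℝ) ≤ 1 := Real.rpow_le_one_of_one_le_of_nonpos hT1 (by norm_num)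
  have hTh0 : 0 < T ^ (-(1 / 2) : ℝ) := Real.rpow_pos_of_pos hT0 _
  set δ : ℝ := Y ^ 2 * (2 * C₀ * T ^ (-(1 / 2) : ℝ)) with hδ
  have hδ0 : 0 ≤ δ := by positivity
  -- pointwise bounds
  have hd : ∀ (j : ι) (y : ℝ), T / 2 ≤ y → ‖ct (c j) (bd 0 Y) y - ct (c j) (bo Y) y‖ ≤ δ := by
    intro j y hy
    rw [ct_sub]
    exact (ct_norm_le hc j _ y).trans (diff_le hC₀ has hT hY hYT hy)
  have hv : ∀ (j : ι) (y : ℝ), T / 2 ≤ y → y ≤ 3 * T → ‖ct (c j) (bo Y) y‖ ≤ M := by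
    intro j y hy hy'
    refine (ct_norm_le hc j _ y).trans ((bo_le hK hbd hT hY hy hy').trans ?_)
    rw [hM]
    nlinarith [mul_nonneg hC₀.le (zero_le_one.trans hYl)]
  have hu : ∀ (j : ι) (y : ℝ), T / 2 ≤ y → y ≤ 3 * T → ‖ct (c j) (bd 0 Y) y‖ ≤ M := by
    intro j y hy hy'
    have h1 : ‖ct (c j) (bo Y) y‖ ≤ Y ^ 2 * (K * lg T) :=
      (ct_norm_le hc j _ y).trans (bo_le hK hbd hT hY hy hy')
    have h2 := hd j y hy
    have h3 : ‖ct (c j) (bd 0 Y) y‖ ≤ ‖ct (c j) (bd 0 Y) y - ct (c j) (bo Y) y‖ + ‖ct (c j) (bo Y) y‖ := by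
      have := norm_add_le (ct (c j) (bd 0 Y) y - ct (c j) (bo Y) y) (ct (c j) (bo Y) y)
      rwa [sub_add_cancel] at this
    have h4 : δ ≤ 2 * C₀ * (Y ^ 2 * lg T) := by
      rw [hδ]
      calc Y ^ 2 * (2 * C₀ * T ^ (-(1 / 2) : ℝ)) ≤ Y ^ 2 * (2 * C₀ * lg T) := by
            gcongr
            exact hTh.trans hl
        _ = _ := by ring
    calc _ ≤ _ := h3
      _ ≤ δ + Y ^ 2 * (K * lg T) := add_le_add h2 h1
      _ ≤ 2 * C₀ * (Y ^ 2 * lg T) + Y ^ 2 * (K * lg T) := by linarith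
      _ = M := by rw [hM]; ring
  -- continuity
  have hcont : ∀ f : ℝ → ℂ, ContinuousOn f (Set.Ioi 0) →
      Continuous fun x : Fin (n + 1) → ℝ => ∏ j, ct (c j) f (pt L κ x j) := by
    intro f hf
    refine continuous_finset_prod _ fun j _ => ?_
    exact (ct_cont (by positivity) (hc.cut j).smooth.continuous (hc.cut j).supp hf).comp (pt_cont L κ j)
  have hzero : ∀ (f : ℝ → ℂ) (x : Fin (n + 1) → ℝ), x ∉ Bx L κ T → ∏ j, ct (c j) f (pt L κ x j) = 0 := by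
    intro f x hx
    have : ∃ j, ¬ (T / 2 ≤ pt L κ x j ∧ pt L κ x j ≤ 3 * T) := by
      by_contra h
      push Not at h
      exact hx fun j => h j
    obtain ⟨j, hj⟩ := this
    refine Finset.prod_eq_zero (Finset.mem_univ j) ?_
    unfold ct
    rw [wi_supp hc j _ (fun h => hj ⟨h.1, h.2⟩)]
    simp
  have hcu := hcont (bd 0 Y) (bd_contOn 0 Y)
  have hcv := hcont (bo Y) (bo_contOn Y)
  have hcardM : ∀ f : ι → ℂ, (∀ j, ‖f j‖ ≤ M) → ‖∏ j, f j‖ ≤ M ^ (2 * n + 2) := by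
    intro f hf
    rw [norm_prod]
    calc ∏ j, ‖f j‖ ≤ ∏ _j : ι, M := Finset.prod_le_prod (fun j _ => norm_nonneg _) fun j _ => hf j
      _ = M ^ (2 * n + 2) := by rw [Finset.prod_const, Finset.card_univ, hι]
  have iu := (hiv κ T (M ^ (2 * n + 2)) (fun x => ∏ j, ct (c j) (bd 0 Y) (pt L κ x j)) hT1 (by positivity)
    hcu.measurable (hzero _) (fun x hx => hcardM _ fun j => hu j _ (hx j).1 (hx j).2)).1
  have iv := (hiv κ T (M ^ (2 * n + 2)) (fun x => ∏ j, ct (c j) (bo Y) (pt L κ x j)) hT1 (by positivity)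
    hcv.measurable (hzero _) (fun x hx => hcardM _ fun j => hv j _ (hx j).1 (hx j).2)).1
  have id := (hiv κ T (M ^ (2 * n + 2) * ((2 * n + 2) * δ))
    (fun x => ∏ j, ct (c j) (bd 0 Y) (pt L κ x j) - ∏ j, ct (c j) (bo Y) (pt L κ x j)) hT1 (by positivity)
    (hcu.sub hcv).measurable (fun x hx => by rw [hzero _ x hx, hzero _ x hx, sub_zero]) (fun x hx => by
      refine (prod_diff Finset.univ _ _ M hM1 (fun j _ => hu j _ (hx j).1 (hx j).2)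
        (fun j _ => hv j _ (hx j).1 (hx j).2)).trans ?_
      rw [Finset.card_univ, hι]
      refine mul_le_mul_of_nonneg_left ?_ (by positivity)
      calc ∑ j, ‖ct (c j) (bd 0 Y) (pt L κ x j) - ct (c j) (bo Y) (pt L κ x j)‖ ≤ ∑ _j : ι, δ :=
            Finset.sum_le_sum fun j _ => hd j _ (hx j).1
        _ = (2 * n + 2) * δ := by
            rw [Finset.sum_const, Finset.card_univ, hι, nsmul_eq_mul]
            push_cast
            ring)).2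
  unfold FF
  rw [← integral_sub iu iv]
  refine (norm_integral_le_integral_norm _).trans (id.trans ?_)
  have e1 : T ^ ((n : ℝ) + 1 / 2) = T ^ (n + 1) * T ^ (-(1 / 2) : ℝ) := by
    rw [← Real.rpow_natCast T (n + 1), ← Real.rpow_add hT0]
    congr 1
    push_cast
    ring
  have e2 : Y ^ 2 ≤ Y ^ 2 * lg T := le_mul_of_one_le_right (by positivity) hl
  rw [e1, hM, hδ, mul_pow]
  calc Cv * ((K + 2 * C₀) ^ (2 * n + 2) * (Y ^ 2 * lg T) ^ (2 * n + 2) *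
        ((2 * n + 2) * (Y ^ 2 * (2 * C₀ * T ^ (-(1 / 2) : ℝ))))) * T ^ (n + 1)
      ≤ Cv * ((K + 2 * C₀) ^ (2 * n + 2) * (Y ^ 2 * lg T) ^ (2 * n + 2) *
        ((2 * n + 2) * ((Y ^ 2 * lg T) * (2 * C₀ * T ^ (-(1 / 2) : ℝ))))) * T ^ (n + 1) := by
        have : (0 : ℝ) ≤ Y ^ 2 * lg T := by linarith
        gcongr
    _ = _ := by
        rw [show 2 * n + 3 = (2 * n + 2) + 1 by ring, pow_succ (Y ^ 2 * lg T) (2 * n + 2)]
        ring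

end Pool.Agent.P07318v
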