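import Pool.Agent.Lib.P07318v.OmAs
import Pool.Agent.Lib.P07318v.MTb
import Pool.Agent.Lib.P07318v.RepV
import Pool.Agent.Lib.P07318v.OffV

/-!
# All slots with small heights: the main term  (2 h)

PROOF. `Lr = fun j i => (L j i : ℝ)`, `A` from `off_v`, `δ₀ = 1/(8 (A + 4 n + 6))` (so `δ₀ ≤ 1/8`), `Y = T^δ ≥ 1`, `Y ≤ T^(1/8) ≤ T/2`, `η = δ/40`.
(1) `rep_v`: replacing `bd 0 Y` by `bo Y` costs `C T^(n+1/2) T^((4n+6)δ) lg T^(2n+3) ≤ C T^(n + 1/2 + 1/8 + 1/8)` (`lg_pow` with `ε = 1/8`).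
(2) `∏_j ct (c j) (bo Y) (y_j) = ∑_{q ∈ S} (∏_j c_j (y_j)) mt q y`, `S = Fintype.piFinset fun _ : ι => qs 0 Y` (`Finset.prod_univ_sum`, `Finset.mul_sum`), so `FF Lr κ (fun j => ct (c j) (bo Y)) = ∑_{q ∈ S} ∫ (∏ c_j) mt q` (`integral_finset_sum`, each term is integrable: `term_eq` (in OffV), `int_v`, the bound `(K lg T)^(2n+2)` of `fc_bd`, continuity `fc_cont`, `pt_cont`).
(3) the terms with `q ∉ Ker L`: `#S ≤ (Y²)^(2n+2)` (`card_qs` of P07318o/BandExp.lean, `Fintype.card_piFinset_const`), `off_v` (`mem_qs`): total `≤ C Λ T^n lg T^(2n+3) Y^(A + 4n + 4) ≤ C Λ T^(n + 1/8 + 1/8)`.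
(4) the terms with `q ∈ Ker L`: `∑_{q ∈ S ∩ Ker} ∫ (∏ c_j) mt q = ∫ (∏ c_j) ∑_{S ∩ Ker} mt q`, and by `mt_trunc` and `int_v` (the integrand `(∏ c_j)(MT - ∑ mt)` is measurable: `mt_meas`, `pt_cont`; zero outside `Bx` by `wi_supp`; bounded by `C lg T^(2n+2) Y^(-1/20)`, `0 ≤ c_j ≤ 1`) the difference with `∫ (∏ c_j) MT` is
`≤ C T^(n+1) lg T^(2n+2) T^(-δ/20) ≤ C T^(n+1-δ/40)` (`lg_pow` with `ε = δ/40`). For `∫ (f - g) = ∫ f - ∫ g`: `(∏ c_j) MT` is integrable by `int_v` and `mt_bd`.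
All exponents are `≤ n + 1 - η` (`n + 3/4 ≤ n + 1 - η` as `η ≤ 1/320`), `Λ ≥ 1`, `T ≥ 1`.
-/

set_option autoImplicit false

namespace Pool.Agent.P07318v

open MeasureTheory Complex Pool.Agent.P07318s Pool.Agent.P07318f Pool.Agent.P07318h Pool.Agent.P07318o

namespace SmallVAux

variable {n : ℕ} {ι : Type} [Fintype ι]

/-- the product of the windows -/
noncomputable def cx (L : ι → Fin (n + 1) → ℝ) (κ : ι → ℝ) (c : ι → ℝ → ℝ) (x : Fin (n + 1) → ℝ) : ℂ :=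
  ∏ j, (c j (pt L κ x j) : ℂ)

lemma cx_meas {L : ι → Fin (n + 1) → ℝ} {κ : ι → ℝ} {T Λ ℓ : ℝ} {a : ι → ℝ} {c : ι → ℝ → ℝ}
    (h : Wi T Λ ℓ a c) : Measurable (cx L κ c) := by
  unfold cx
  refine Finset.measurable_fun_prod _ fun j _ => ?_
  exact (Complex.continuous_ofReal.comp ((h.cut j).smooth.continuous.comp (pt_cont L κ j))).measurable

lemma cx_zero {L : ι → Fin (n + 1) → ℝ} {κ : ι → ℝ} {T Λ ℓ : ℝ} {a : ι → ℝ} {c : ι → ℝ → ℝ}
    (h : Wi T Λ ℓ a c) {x : Fin (n + 1) → ℝ} (hx : x ∉ Bx L κ T) : cx L κ c x = 0 := by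
  unfold Bx at hx
  have h1 : ∃ j, ¬ (T / 2 ≤ pt L κ x j ∧ pt L κ x j ≤ 3 * T) := by
    by_contra hcon
    push Not at hcon
    exact hx fun j => hcon j
  obtain ⟨j, hj⟩ := h1
  unfold cx
  refine Finset.prod_eq_zero (Finset.mem_univ j) ?_
  rw [wi_supp h j _ hj, Complex.ofReal_zero]

lemma cx_le {L : ι → Fin (n + 1) → ℝ} {κ : ι → ℝ} {T Λ ℓ : ℝ} {a : ι → ℝ} {c : ι → ℝ → ℝ}
    (h : Wi T Λ ℓ a c) (x : Fin (n + 1) → ℝ) : ‖cx L κ c x‖ ≤ 1 := by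
  unfold cx
  rw [norm_prod]
  refine Finset.prod_le_one (fun j _ => norm_nonneg _) fun j _ => ?_
  rw [Complex.norm_real, Real.norm_eq_abs, abs_of_nonneg ((h.cut j).nonneg _)]
  exact (h.cut j).le_one _

lemma one_le_hgt (p : ℕ+ × ℕ+) : 1 ≤ hgt p := by
  unfold hgt
  have h1 : (1 : ℝ) ≤ ((p.1 : ℕ) : ℝ) := by exact_mod_cast p.1.pos
  have h2 : (1 : ℝ) ≤ ((p.2 : ℕ) : ℝ) := by exact_mod_cast p.2.pos
  nlinarith

/-- the expansion of the product -/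
lemma expand (L : ι → Fin (n + 1) → ℝ) (κ : ι → ℝ) (c : ι → ℝ → ℝ) (Y : ℝ) (x : Fin (n + 1) → ℝ)
    [DecidableEq ι] :
    ∏ j, ct (c j) (bo Y) (pt L κ x j) =
      ∑ q ∈ Fintype.piFinset fun _ : ι => qs 0 Y, cx L κ c x * mt q (pt L κ x) := by
  unfold ct bo cx mt
  rw [Finset.prod_mul_distrib, Finset.prod_univ_sum, Finset.mul_sum]

variable [DecidableEq ι]

lemma term_int (hι : Fintype.card ι = 2 * n + 2) (L : ι → Fin (n + 1) → ℤ)
    (hL : GP fun j i => (L j i : ℝ)) {κ : ι → ℝ} {T Λ ℓ : ℝ} {a : ι → ℝ} {c : ι → ℝ → ℝ}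
    (hT : 64 ≤ T) (hΛ : 1 ≤ Λ) (h : Wi T Λ ℓ a c) (q : ι → Q) :
    Integrable fun x => cx (fun j i => (L j i : ℝ)) κ c x * mt q (pt (fun j i => (L j i : ℝ)) κ x) := by
  obtain ⟨Cv, _, hv⟩ := int_v (n := n) (by omega) (fun j i => (L j i : ℝ)) hL
  obtain ⟨K, hK1, hK⟩ := fc_bd
  have hfc := fun j => hK T Λ (hgt (q j).1) (c j) hT hΛ (one_le_hgt _) (h.cut j) (wi_supp h j)
  have hcont := fun j => fc_cont hT (one_le_hgt (q j).1) (h.cut j) (wi_supp h j)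
  have hlg : 0 ≤ K * lg T := (abs_nonneg _).trans ((hK T Λ 1 (fun _ => 0) hT hΛ le_rfl
    ⟨contDiff_const, fun _ => le_rfl, fun _ => zero_le_one, fun _ _ => rfl, fun y => by
      simp; positivity, fun y => by simp; positivity⟩ (fun _ _ => rfl)).1 0)
  have heq : (fun x => cx (fun j i => (L j i : ℝ)) κ c x * mt q (pt (fun j i => (L j i : ℝ)) κ x)) =
      fun x => ((∏ j, fc (c j) (hgt (q j).1) (pt (fun j i => (L j i : ℝ)) κ x j) : ℝ) : ℂ) *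
        cexp (((-(∑ j, κ j * lgr (q j).1 + ∑ k, (∑ j, (L j k : ℝ) * lgr (q j).1) * x k) : ℝ) : ℂ) * I) := by
    funext x
    exact term_eq L κ c q x
  rw [heq]
  refine (hv κ T ((K * lg T) ^ (Fintype.card ι)) _ (by linarith) (by positivity) ?_ ?_ ?_).1
  · refine Continuous.measurable ?_
    refine Continuous.mul ?_ ?_
    · refine Complex.continuous_ofReal.comp ?_
      refine continuous_finset_prod _ fun j _ => ?_
      exact (hcont j).comp (pt_cont _ κ j)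
    · refine Complex.continuous_exp.comp ?_
      refine Continuous.mul ?_ continuous_const
      refine Complex.continuous_ofReal.comp ?_
      fun_prop
  · intro x hx
    have h1 : (∏ j, (c j (pt (fun j i => (L j i : ℝ)) κ x j) : ℂ)) = 0 := cx_zero h hx
    refine (term_eq L κ c q x).symm.trans ?_
    rw [h1, zero_mul]
  · intro x _
    rw [norm_mul, Complex.norm_exp_ofReal_mul_I, mul_one, Complex.norm_real, Real.norm_eq_abs,
      Finset.abs_prod]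
    calc ∏ j, |fc (c j) (hgt (q j).1) (pt (fun j i => (L j i : ℝ)) κ x j)| ≤ ∏ _j : ι, (K * lg T) :=
          Finset.prod_le_prod (fun j _ => abs_nonneg _) fun j _ => (hfc j).1 _
      _ = (K * lg T) ^ (Fintype.card ι) := by
          rw [Finset.prod_const, Finset.card_univ]

end SmallVAux

open SmallVAux

theorem small_v {n : ℕ} (hn : 1 ≤ n) {ι : Type} [Fintype ι] [DecidableEq ι] (hι : Fintype.card ι = 2 * n + 2)
    (L : ι → Fin (n + 1) → ℤ) (hL : GP fun j i => (L j i : ℝ)) : ∃ δ₀ : ℝ, 0 < δ₀ ∧ ∀ δ : ℝ, 0 < δ → δ ≤ δ₀ → ∃ η C : ℝ, 0 < η ∧ 0 < C ∧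
    ∀ (κ : ι → ℝ) (T Λ ℓ : ℝ) (a : ι → ℝ) (c : ι → ℝ → ℝ), 64 ≤ T → 1 ≤ Λ → 0 ≤ ℓ → Wi T Λ ℓ a c →
    ‖FF (fun j i => (L j i : ℝ)) κ (fun j => ct (c j) (bd 0 (T ^ δ))) -
        ∫ x : Fin (n + 1) → ℝ, (∏ j, (c j (pt (fun j i => (L j i : ℝ)) κ x j) : ℂ)) * MT L (pt (fun j i => (L j i : ℝ)) κ x)‖ ≤
      C * Λ * T ^ ((n : ℝ) + 1 - η) := by
  classical
  obtain ⟨A, C₂, hA1, hC₂, hoff⟩ := off_v (n := n) hι L hL
  obtain ⟨C₁, hC₁, hrep⟩ := rep_v (n := n) hι (fun j i => (L j i : ℝ)) hL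
  obtain ⟨Cv, hCv, hv⟩ := int_v (n := n) (ι := ι) (by omega) (fun j i => (L j i : ℝ)) hL
  obtain ⟨Cb, hCb, hMb⟩ := mt_bd hn hι L hL
  obtain ⟨Ct, hCt, hMt⟩ := mt_trunc hn hι L hL
  obtain ⟨C8, hC8, hl8⟩ := lg_pow (2 * n + 3) (1 / 8) (by norm_num)
  have hn0 : (0 : ℝ) ≤ n := Nat.cast_nonneg n
  refine ⟨1 / (8 * (A + 4 * n + 6)), by positivity, fun δ hδ0 hδ => ?_⟩
  have hδA : δ * (A + 4 * n + 6) ≤ 1 / 8 := by
    rw [le_div_iff₀ (by positivity)] at hδ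
    linarith
  have hδ8 : δ ≤ 1 / 8 := by nlinarith
  obtain ⟨Cη, hCη, hlη⟩ := lg_pow (2 * n + 2) (δ / 40) (by positivity)
  refine ⟨δ / 40, C₁ * C8 + C₂ * C8 + Cv * Ct * Cη, by positivity, by positivity, ?_⟩
  intro κ T Λ ℓ a c hT hΛ hℓ hW
  have hT1 : 1 ≤ T := by linarith
  have hT0 : 0 < T := by linarith
  have hΛ0 : 0 < Λ := by linarith
  set Y : ℝ := T ^ δ with hY
  set Lr : ι → Fin (n + 1) → ℝ := fun j i => (L j i : ℝ) with hLr
  have hY1 : 1 ≤ Y := Real.one_le_rpow hT1 hδ0.le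
  have hY0 : 0 < Y := by linarith
  have hYT : Y ≤ T / 2 := by
    have h1 : Y ≤ T ^ (1 / 2 : ℝ) := Real.rpow_le_rpow_of_exponent_le hT1 (by linarith)
    have h2 : T ^ (1 / 2 : ℝ) ≤ T / 2 := by
      rw [← Real.sqrt_eq_rpow, Real.sqrt_le_left (by positivity)]
      nlinarith
    exact h1.trans h2
  have hlg0 : 0 ≤ lg T := by
    unfold lg
    have := Real.log_nonneg hT1
    linarith
  have hYk : ∀ k : ℕ, Y ^ k = T ^ (δ * k) := by
    intro k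
    rw [hY, ← Real.rpow_natCast, ← Real.rpow_mul hT0.le]
  have hYr : ∀ r : ℝ, Y ^ r = T ^ (δ * r) := by
    intro r
    rw [hY, ← Real.rpow_mul hT0.le]
  -- the integrals
  set S := Fintype.piFinset fun _ : ι => qs 0 Y with hS
  set Iq : (ι → Q) → ℂ := fun q => ∫ x, cx Lr κ c x * mt q (pt Lr κ x) with hIq
  have hint : ∀ q, Integrable fun x => cx Lr κ c x * mt q (pt Lr κ x) :=
    fun q => term_int hι L hL hT hΛ hW q
  have hFF : FF Lr κ (fun j => ct (c j) (bo Y)) = ∑ q ∈ S, Iq q := by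
    unfold FF
    rw [hIq, ← integral_finset_sum _ fun q _ => hint q]
    refine integral_congr_ae (Filter.Eventually.of_forall fun x => ?_)
    exact expand Lr κ c Y x
  -- measurability and integrability of the main term
  have hptm : Measurable fun x : Fin (n + 1) → ℝ => pt Lr κ x :=
    measurable_pi_lambda _ fun j => (pt_cont Lr κ j).measurable
  have hMTm : Measurable fun x => MT L (pt Lr κ x) := (mt_meas L).comp hptm
  have hcxm : Measurable (cx Lr κ c) := cx_meas hW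
  have hMTi : Integrable fun x => cx Lr κ c x * MT L (pt Lr κ x) := by
    refine (hv κ T (Cb * lg T ^ (2 * n + 2)) _ hT1 (by positivity) (hcxm.mul hMTm) ?_ ?_).1
    · intro x hx
      show cx Lr κ c x * MT L (pt Lr κ x) = 0
      rw [cx_zero hW hx, zero_mul]
    · intro x hx
      show ‖cx Lr κ c x * MT L (pt Lr κ x)‖ ≤ _
      rw [norm_mul]
      calc ‖cx Lr κ c x‖ * ‖MT L (pt Lr κ x)‖ ≤ 1 * (Cb * lg T ^ (2 * n + 2)) :=
            mul_le_mul (cx_le hW x) (hMb T _ hT hx) (norm_nonneg _) zero_le_one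
        _ = _ := one_mul _
  -- the kernel part
  have hker : ‖∑ q ∈ S.filter (fun q => q ∈ Ker L), Iq q - ∫ x, cx Lr κ c x * MT L (pt Lr κ x)‖ ≤
      Cv * (Ct * lg T ^ (2 * n + 2) * Y ^ (-(1 / 20) : ℝ)) * T ^ (n + 1) := by
    rw [hIq, ← integral_finset_sum _ fun q _ => hint q, ← integral_sub
      (integrable_finset_sum _ fun q _ => hint q) hMTi]
    refine (norm_integral_le_integral_norm _).trans ?_
    refine (hv κ T (Ct * lg T ^ (2 * n + 2) * Y ^ (-(1 / 20) : ℝ)) _ hT1 (by positivity) ?_ ?_ ?_).2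
    · refine Measurable.sub ?_ (hcxm.mul hMTm)
      refine Finset.measurable_fun_sum _ fun q _ => ?_
      refine hcxm.mul ?_
      have hmtm : Measurable fun y : ι → ℝ => mt q y := by
        unfold mt
        refine Finset.measurable_fun_prod _ fun j _ => ?_
        refine Measurable.mul ?_ ?_
        · refine Complex.measurable_ofReal.comp ?_
          refine Measurable.mul measurable_const ?_
          unfold om
          refine Measurable.add ?_ measurable_const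
          exact Real.measurable_log.comp ((measurable_pi_apply j).div_const _)
        · unfold ex
          refine Complex.measurable_exp.comp ?_
          refine Measurable.mul ?_ measurable_const
          refine Complex.measurable_ofReal.comp ?_
          exact ((measurable_pi_apply j).mul_const _).neg
      exact hmtm.comp hptm
    · intro x hx
      simp only [cx_zero hW hx, zero_mul, Finset.sum_const_zero, sub_zero]
    · intro x hx
      rw [← Finset.mul_sum, ← mul_sub, norm_mul]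
      calc ‖cx Lr κ c x‖ * ‖∑ q ∈ S.filter (fun q => q ∈ Ker L), mt q (pt Lr κ x) -
            MT L (pt Lr κ x)‖ ≤ 1 * (Ct * lg T ^ (2 * n + 2) * Y ^ (-(1 / 20) : ℝ)) := by
              refine mul_le_mul (cx_le hW x) ?_ (norm_nonneg _) zero_le_one
              rw [norm_sub_rev]
              exact hMt T Y _ hT hY1 hx
        _ = _ := one_mul _
  -- the other terms
  have hoffs : ‖∑ q ∈ S.filter (fun q => ¬ q ∈ Ker L), Iq q‖ ≤
      (Y ^ 2) ^ (2 * n + 2) * (C₂ * Λ * T ^ n * lg T ^ (2 * n + 3) * Y ^ A) := by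
    have hB0 : 0 ≤ C₂ * Λ * T ^ n * lg T ^ (2 * n + 3) * Y ^ A := by positivity
    refine (norm_sum_le _ _).trans ?_
    have h1 : ∀ q ∈ S.filter (fun q => ¬ q ∈ Ker L), ‖Iq q‖ ≤
        C₂ * Λ * T ^ n * lg T ^ (2 * n + 3) * Y ^ A := by
      intro q hq
      obtain ⟨hq1, hq2⟩ := Finset.mem_filter.1 hq
      refine hoff κ T Λ ℓ Y a c q hT hΛ hℓ hW hY1 (fun j => ?_) hq2
      exact (mem_qs.1 (Fintype.mem_piFinset.1 hq1 j)).2
    refine (Finset.sum_le_sum h1).trans ?_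
    rw [Finset.sum_const, nsmul_eq_mul]
    refine mul_le_mul_of_nonneg_right ?_ hB0
    have h2 : ((S.filter (fun q => ¬ q ∈ Ker L)).card : ℝ) ≤ (S.card : ℝ) := by
      exact_mod_cast Finset.card_filter_le _ _
    refine h2.trans ?_
    have h3 : S.card = (qs 0 Y).card ^ (2 * n + 2) := by
      rw [hS, Fintype.card_piFinset, Finset.prod_const, Finset.card_univ, hι]
    rw [h3, Nat.cast_pow]
    exact pow_le_pow_left₀ (Nat.cast_nonneg _) (card_qs hY1) _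
  -- decomposition
  have hdec : FF Lr κ (fun j => ct (c j) (bd 0 Y)) - ∫ x, cx Lr κ c x * MT L (pt Lr κ x) =
      (FF Lr κ (fun j => ct (c j) (bd 0 Y)) - FF Lr κ (fun j => ct (c j) (bo Y))) +
      (∑ q ∈ S.filter (fun q => ¬ q ∈ Ker L), Iq q) +
      (∑ q ∈ S.filter (fun q => q ∈ Ker L), Iq q - ∫ x, cx Lr κ c x * MT L (pt Lr κ x)) := by
    rw [hFF, ← Finset.sum_filter_add_sum_filter_not S (fun q => q ∈ Ker L)]
    ring
  have hr := hrep κ T Λ ℓ Y a c hT hΛ hℓ hW hY1 hYT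
  -- numerics
  have e1 : T ^ ((n : ℝ) + 1 / 2) * (Y ^ 2 * lg T) ^ (2 * n + 3) ≤
      C8 * T ^ ((n : ℝ) + 1 - δ / 40) := by
    have h1 : (Y ^ 2 * lg T) ^ (2 * n + 3) = Y ^ (2 * (2 * n + 3)) * lg T ^ (2 * n + 3) := by
      rw [mul_pow, ← pow_mul]
    have h2 : Y ^ (2 * (2 * n + 3)) ≤ T ^ (1 / 8 : ℝ) := by
      rw [hYk]
      refine Real.rpow_le_rpow_of_exponent_le hT1 ?_
      push_cast
      nlinarith
    have h3 := hl8 T hT1
    calc T ^ ((n : ℝ) + 1 / 2) * (Y ^ 2 * lg T) ^ (2 * n + 3) =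
        T ^ ((n : ℝ) + 1 / 2) * (Y ^ (2 * (2 * n + 3)) * lg T ^ (2 * n + 3)) := by rw [h1]
      _ ≤ T ^ ((n : ℝ) + 1 / 2) * (T ^ (1 / 8 : ℝ) * (C8 * T ^ (1 / 8 : ℝ))) := by
          gcongr
      _ = C8 * (T ^ ((n : ℝ) + 1 / 2) * T ^ (1 / 8 : ℝ) * T ^ (1 / 8 : ℝ)) := by ring
      _ = C8 * T ^ ((n : ℝ) + 1 / 2 + 1 / 8 + 1 / 8) := by
          rw [← Real.rpow_add hT0, ← Real.rpow_add hT0]
      _ ≤ C8 * T ^ ((n : ℝ) + 1 - δ / 40) := by
          refine mul_le_mul_of_nonneg_left ?_ (by linarith)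
          exact Real.rpow_le_rpow_of_exponent_le hT1 (by linarith)
  have e2 : (Y ^ 2) ^ (2 * n + 2) * (C₂ * Λ * T ^ n * lg T ^ (2 * n + 3) * Y ^ A) ≤
      C₂ * C8 * Λ * T ^ ((n : ℝ) + 1 - δ / 40) := by
    have h2 : (Y ^ 2) ^ (2 * n + 2) * Y ^ A ≤ T ^ (1 / 8 : ℝ) := by
      rw [← pow_mul, hYk, hYr, ← Real.rpow_add hT0]
      refine Real.rpow_le_rpow_of_exponent_le hT1 ?_
      push_cast
      nlinarith
    have h3 := hl8 T hT1
    have h4 : (T : ℝ) ^ n = T ^ (n : ℝ) := (Real.rpow_natCast T n).symm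
    calc (Y ^ 2) ^ (2 * n + 2) * (C₂ * Λ * T ^ n * lg T ^ (2 * n + 3) * Y ^ A) =
        C₂ * Λ * T ^ n * lg T ^ (2 * n + 3) * ((Y ^ 2) ^ (2 * n + 2) * Y ^ A) := by ring
      _ ≤ C₂ * Λ * T ^ n * (C8 * T ^ (1 / 8 : ℝ)) * T ^ (1 / 8 : ℝ) := by
          gcongr
      _ = C₂ * C8 * Λ * (T ^ (n : ℝ) * T ^ (1 / 8 : ℝ) * T ^ (1 / 8 : ℝ)) := by
          rw [h4]
          ring
      _ = C₂ * C8 * Λ * T ^ ((n : ℝ) + 1 / 8 + 1 / 8) := by
          rw [← Real.rpow_add hT0, ← Real.rpow_add hT0]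
      _ ≤ C₂ * C8 * Λ * T ^ ((n : ℝ) + 1 - δ / 40) := by
          refine mul_le_mul_of_nonneg_left ?_ (by positivity)
          exact Real.rpow_le_rpow_of_exponent_le hT1 (by linarith)
  have e3 : Cv * (Ct * lg T ^ (2 * n + 2) * Y ^ (-(1 / 20) : ℝ)) * T ^ (n + 1) ≤
      Cv * Ct * Cη * T ^ ((n : ℝ) + 1 - δ / 40) := by
    have h3 := hlη T hT1
    have h4 : (T : ℝ) ^ (n + 1) = T ^ ((n : ℝ) + 1) := by
      rw [← Real.rpow_natCast]
      push_cast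
      rfl
    calc Cv * (Ct * lg T ^ (2 * n + 2) * Y ^ (-(1 / 20) : ℝ)) * T ^ (n + 1) =
        Cv * Ct * lg T ^ (2 * n + 2) * (Y ^ (-(1 / 20) : ℝ) * T ^ ((n : ℝ) + 1)) := by
          rw [h4]
          ring
      _ ≤ Cv * Ct * (Cη * T ^ (δ / 40)) * (Y ^ (-(1 / 20) : ℝ) * T ^ ((n : ℝ) + 1)) := by
          gcongr
      _ = Cv * Ct * Cη * (T ^ (δ / 40) * T ^ (δ * (-(1 / 20))) * T ^ ((n : ℝ) + 1)) := by
          rw [hYr]
          ring
      _ = Cv * Ct * Cη * T ^ ((n : ℝ) + 1 - δ / 40) := by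
          rw [← Real.rpow_add hT0, ← Real.rpow_add hT0]
          congr 2
          ring
  have hX : 0 < T ^ ((n : ℝ) + 1 - δ / 40) := Real.rpow_pos_of_pos hT0 _
  show ‖FF Lr κ (fun j => ct (c j) (bd 0 Y)) - ∫ x, cx Lr κ c x * MT L (pt Lr κ x)‖ ≤ _
  rw [hdec]
  refine (norm_add_le _ _).trans ?_
  refine (add_le_add (norm_add_le _ _) le_rfl).trans ?_
  have f1 : C₁ * T ^ ((n : ℝ) + 1 / 2) * (Y ^ 2 * lg T) ^ (2 * n + 3) ≤
      C₁ * C8 * T ^ ((n : ℝ) + 1 - δ / 40) := by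
    calc C₁ * T ^ ((n : ℝ) + 1 / 2) * (Y ^ 2 * lg T) ^ (2 * n + 3) =
        C₁ * (T ^ ((n : ℝ) + 1 / 2) * (Y ^ 2 * lg T) ^ (2 * n + 3)) := by ring
      _ ≤ C₁ * (C8 * T ^ ((n : ℝ) + 1 - δ / 40)) := mul_le_mul_of_nonneg_left e1 hC₁.le
      _ = _ := by ring
  have g1 : C₁ * C8 * T ^ ((n : ℝ) + 1 - δ / 40) ≤ C₁ * C8 * Λ * T ^ ((n : ℝ) + 1 - δ / 40) := by
    have h1 : 0 ≤ C₁ * C8 * T ^ ((n : ℝ) + 1 - δ / 40) := by positivity
    nlinarith
  have g3 : Cv * Ct * Cη * T ^ ((n : ℝ) + 1 - δ / 40) ≤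
      Cv * Ct * Cη * Λ * T ^ ((n : ℝ) + 1 - δ / 40) := by
    have h1 : 0 ≤ Cv * Ct * Cη * T ^ ((n : ℝ) + 1 - δ / 40) := by positivity
    nlinarith
  have hfin : (C₁ * C8 + C₂ * C8 + Cv * Ct * Cη) * Λ * T ^ ((n : ℝ) + 1 - δ / 40) =
      C₁ * C8 * Λ * T ^ ((n : ℝ) + 1 - δ / 40) + C₂ * C8 * Λ * T ^ ((n : ℝ) + 1 - δ / 40) +
        Cv * Ct * Cη * Λ * T ^ ((n : ℝ) + 1 - δ / 40) := by ring
  rw [hfin]
  exact add_le_add (add_le_add ((hr.trans f1).trans g1) (hoffs.trans e2)) ((hker.trans e3).trans g3)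

end Pool.Agent.P07318v
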