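import Pool.Agent.Lib.P07318v.AbsV
import Pool.Agent.Lib.P07318o.Norms

/-!
# All slots with top heights

PROOF (compare `TopB` of P07318o, whose proof can be followed). `abs_v` and `nm_band` with `A = N₂ = n2 C₀ T`: `nm ≤ ofReal (C U (1 + log U) (1 + C₀ log L)^4) ≤ ofReal (C T L^(1 + ε'))`, `(2n+2) ε' = ε`; the product of the `2n+2` norms is `≤ C T^(2n+2) L^(2n+2+ε)`.
-/

set_option autoImplicit false

namespace Pool.Agent.P07318v

open MeasureTheory Complex Pool.Agent.P07318s Pool.Agent.P07318f Pool.Agent.P07318h Pool.Agent.P07318o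

namespace TopVAux

lemma ev (C₀ : ℝ) (hC₀ : 0 < C₀) : ∃ T₀ : ℝ, 64 ≤ T₀ ∧ ∀ T, T₀ ≤ T → 4 * lg T ^ C₀ ≤ T := by
  have h1 := isLittleO_log_rpow_rpow_atTop C₀ (show (0 : ℝ) < 1 by norm_num)
  have h2 := h1.bound (show (0 : ℝ) < 1 / (4 * 2 ^ C₀) by positivity)
  rw [Filter.eventually_atTop] at h2
  obtain ⟨T₁, hT₁⟩ := h2
  refine ⟨max 64 T₁, le_max_left _ _, fun T hT => ?_⟩
  have hT64 : (64 : ℝ) ≤ T := (le_max_left _ _).trans hT
  have h3 := hT₁ T ((le_max_right _ _).trans hT)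
  have hlog : 1 ≤ Real.log T := by
    rw [Real.le_log_iff_exp_le (by linarith)]
    have := Real.exp_one_lt_d9
    linarith
  rw [Real.rpow_one, Real.norm_of_nonneg (Real.rpow_nonneg (by linarith) _), Real.norm_of_nonneg (by linarith : (0 : ℝ) ≤ T)] at h3
  have h4 : lg T ^ C₀ ≤ (2 * Real.log T) ^ C₀ := by
    refine Real.rpow_le_rpow ?_ ?_ hC₀.le
    · unfold lg; linarith
    · unfold lg; linarith
  rw [Real.mul_rpow (by norm_num) (by linarith)] at h4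
  have h5 : (0 : ℝ) < 2 ^ C₀ := by positivity
  have h6 : 2 ^ C₀ * Real.log T ^ C₀ ≤ 2 ^ C₀ * (1 / (4 * 2 ^ C₀) * T) := mul_le_mul_of_nonneg_left h3 h5.le
  have h7 : 2 ^ C₀ * (1 / (4 * 2 ^ C₀) * T) = T / 4 := by
    field_simp
  linarith

end TopVAux

open TopVAux

theorem top_v {n : ℕ} {ι : Type} [Fintype ι] [DecidableEq ι] (hι : Fintype.card ι = 2 * n + 2)
    (L : ι → Fin (n + 1) → ℝ) (hL : GP L) (C₀ ε : ℝ) (hC₀ : 0 < C₀) (hε : 0 < ε) : ∃ C T₀ : ℝ, 0 < C ∧ 64 ≤ T₀ ∧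
    ∀ (κ : ι → ℝ) (T Λ : ℝ) (c : ι → ℝ → ℝ), T₀ ≤ T → (∀ j, Cut (T / 4) Λ (c j)) →
    FA L κ (fun j => ct (c j) (bd (n2 C₀ T) ((T / 4) ^ 2))) ^ 2 ≤ ENNReal.ofReal (C * T ^ (2 * n + 2) * lg T ^ (2 * (n : ℝ) + 2 + ε)) := by
  obtain ⟨C₁, hC₁, hA⟩ := abs_v hι L hL
  obtain ⟨C₂, hC₂, hB⟩ := nm_band
  obtain ⟨T₀, hT₀, hE⟩ := ev C₀ hC₀
  have hm2 : (0 : ℝ) < 2 * (n : ℝ) + 2 := by positivity
  obtain ⟨d, hd⟩ : ∃ d : ℝ, d = ε / (4 * (2 * (n : ℝ) + 2)) := ⟨_, rfl⟩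
  have hd0 : 0 < d := by rw [hd]; positivity
  obtain ⟨K, hK⟩ : ∃ K : ℝ, K = C₂ / 4 * (1 + C₀ / d) ^ 4 := ⟨_, rfl⟩
  have hK0 : 0 < K := by rw [hK]; positivity
  refine ⟨C₁ * K ^ (2 * n + 2), T₀, by positivity, hT₀, fun κ T Λ c hT hc => ?_⟩
  have hT64 : (64 : ℝ) ≤ T := hT₀.trans hT
  have hTp : (0 : ℝ) < T := by linarith
  have hL1 : 1 ≤ lg T := by
    unfold lg
    have := Real.log_nonneg (by linarith : (1 : ℝ) ≤ T)
    linarith
  have hL0 : 0 < lg T := by linarith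
  have hLC : 1 ≤ lg T ^ C₀ := Real.one_le_rpow hL1 hC₀.le
  have hE' := hE T hT
  have hN : n2 C₀ T = T / (4 * lg T ^ C₀) := rfl
  have hN1 : 1 ≤ n2 C₀ T := by
    rw [hN, le_div_iff₀ (by positivity)]
    linarith
  have hNU : n2 C₀ T ≤ T / 4 := by
    rw [hN]
    exact div_le_div_of_nonneg_left hTp.le (by norm_num) (by linarith)
  have hUU : T / 4 ≤ (T / 4) ^ 2 := by nlinarith
  have hq : T / 4 / n2 C₀ T = lg T ^ C₀ := by
    rw [hN]
    field_simp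
  have hnm : ∀ j, nm (ct (c j) (bd (n2 C₀ T) ((T / 4) ^ 2))) ≤ ENNReal.ofReal (K * T * lg T ^ (1 + 4 * d)) := by
    intro j
    refine (hB (T / 4) Λ (n2 C₀ T) ((T / 4) ^ 2) (c j) (by linarith) (hc j) hN1 hNU (hNU.trans hUU)).trans ?_
    refine ENNReal.ofReal_le_ofReal ?_
    rw [hq, Real.log_rpow hL0]
    have h1 : 1 + Real.log (T / 4) ≤ lg T := by
      unfold lg
      have := Real.log_le_log (by linarith : (0 : ℝ) < T / 4) (by linarith : T / 4 ≤ T)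
      linarith
    have h1' : 0 ≤ 1 + Real.log (T / 4) := by
      have := Real.log_nonneg (by linarith : (1 : ℝ) ≤ T / 4)
      linarith
    have h2 : 1 + C₀ * Real.log (lg T) ≤ (1 + C₀ / d) * lg T ^ d := by
      have h3 := Real.log_le_rpow_div hL0.le hd0
      have h4 : C₀ * Real.log (lg T) ≤ C₀ * (lg T ^ d / d) := mul_le_mul_of_nonneg_left h3 hC₀.le
      have h5 : 1 ≤ lg T ^ d := Real.one_le_rpow hL1 hd0.le
      have h6 : (1 + C₀ / d) * lg T ^ d = lg T ^ d + C₀ * (lg T ^ d / d) := by ring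
      linarith
    have h2' : 0 ≤ 1 + C₀ * Real.log (lg T) := by
      have := mul_nonneg hC₀.le (Real.log_nonneg hL1)
      linarith
    have h3 : (1 + C₀ * Real.log (lg T)) ^ 4 ≤ ((1 + C₀ / d) * lg T ^ d) ^ 4 := pow_le_pow_left₀ h2' h2 4
    have h4 : C₂ * (T / 4) * (1 + Real.log (T / 4)) ≤ C₂ * (T / 4) * lg T := mul_le_mul_of_nonneg_left h1 (by positivity)
    refine (mul_le_mul h4 h3 (by positivity) (by positivity)).trans (le_of_eq ?_)
    have h5 : lg T ^ (1 + 4 * d) = lg T * (lg T ^ d) ^ 4 := by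
      rw [Real.rpow_add hL0, Real.rpow_one, ← Real.rpow_natCast (lg T ^ d) 4, ← Real.rpow_mul hL0.le]
      congr 2
      push_cast
      ring
    rw [h5, hK]
    ring
  refine (hA κ _ fun j => NormsAux.ct_meas (hc j) (NormsAux.bd_meas _ _)).trans ?_
  have hprod : ∏ j, nm (ct (c j) (bd (n2 C₀ T) ((T / 4) ^ 2))) ≤ ENNReal.ofReal ((K * T * lg T ^ (1 + 4 * d)) ^ (2 * n + 2)) := by
    rw [ENNReal.ofReal_pow (by positivity)]
    refine (Finset.prod_le_prod' fun j _ => hnm j).trans ?_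
    rw [Finset.prod_const, Finset.card_univ, hι]
  refine (mul_le_mul_right hprod _).trans ?_
  rw [← ENNReal.ofReal_mul hC₁.le]
  refine ENNReal.ofReal_le_ofReal (le_of_eq ?_)
  have h6 : (lg T ^ (1 + 4 * d)) ^ (2 * n + 2) = lg T ^ (2 * (n : ℝ) + 2 + ε) := by
    rw [← Real.rpow_natCast, ← Real.rpow_mul hL0.le]
    congr 1
    push_cast
    rw [hd]
    field_simp
  rw [mul_pow, mul_pow, h6]
  ring

end Pool.Agent.P07318v
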