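import Pool.Agent.Lib.P07318v.BadV
import Pool.Agent.Lib.P07318v.TopV
import Pool.Agent.Lib.P07318v.SmallV

/-!
# Smooth windows

PROOF. `δ = min δ₀ (1/100)` with `δ₀` of `small_v`; `bad_v` with `B = 0`, `top_v` with `2 ε`, `Lr = fun j i => (L j i : ℝ)`. `FF (ct c gz) = ∫ x, (∏ j, c j (pt x j)) * ∏ j, gz (pt x j)` (`Finset.prod_mul_distrib`). `pat_v` (all hypotheses from `bad_v`, first part; `badV ι` is not empty: e.g. the constant pattern `1`, `ι` is not empty).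
`‖FF (ct c gz) - FF (ct c (bd 0 T^δ))‖ ≤ (C T^(2n+2) L^(2n+2+2ε))^(1/2) + #badV (C T^(2n+2))^(1/2) ≤ C T^(n+1) L^(n+1+ε)`, `small_v`: `≤ C L^C₁ T^(n+1-η) ≤ C T^(n+1)` for `T ≥ T₀`. Integrability to write the difference of the two integrals as one integral: `∏ c j (pt x j) * MT (pt x)`: continuous
(`mt_cont`; where `∏ c ≠ 0` all `pt x j ≥ T/2 > 0`), bounded (`mt_bd`) by `C L^(2n+2)` times the indicator of `{x : all pt x j ∈ [T/2, 3T]}`, which has finite volume (`indep_v`).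
Measurability of `x ↦ ∏ c j (pt x j) * MT (pt x)`: e.g. `Measurable` of `MT L` as a `tsum` of measurable functions (`Measurable.tsum`, as in P07318h/DgM.lean) or continuity.
-/

set_option autoImplicit false

namespace Pool.Agent.P07318v

open MeasureTheory Complex Pool.Agent.P07318s Pool.Agent.P07318f Pool.Agent.P07318h Pool.Agent.P07318o

namespace OneVAux

lemma lg_pos {T : ℝ} (hT : 1 ≤ T) : 1 ≤ lg T := by
  unfold lg
  have := Real.log_nonneg hT
  linarith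

lemma lg_pow {C₁ η : ℝ} (hC₁ : 0 ≤ C₁) (hη : 0 < η) : ∃ K : ℝ, 0 < K ∧ ∀ T : ℝ, 1 ≤ T → lg T ^ C₁ ≤ K * T ^ η := by
  have hs : 0 < η / (C₁ + 1) := by positivity
  refine ⟨(1 + 1 / (η / (C₁ + 1))) ^ C₁, by positivity, fun T hT => ?_⟩
  have hT0 : 0 ≤ T := by linarith
  have h1 : lg T ≤ (1 + 1 / (η / (C₁ + 1))) * T ^ (η / (C₁ + 1)) := by
    have h2 := Real.log_le_rpow_div hT0 hs
    have h3 : 1 ≤ T ^ (η / (C₁ + 1)) := Real.one_le_rpow hT hs.le
    unfold lg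
    have h4 : (1 + 1 / (η / (C₁ + 1))) * T ^ (η / (C₁ + 1)) =
        T ^ (η / (C₁ + 1)) + T ^ (η / (C₁ + 1)) / (η / (C₁ + 1)) := by ring
    rw [h4]
    linarith
  calc lg T ^ C₁ ≤ ((1 + 1 / (η / (C₁ + 1))) * T ^ (η / (C₁ + 1))) ^ C₁ :=
        Real.rpow_le_rpow (by have := lg_pos hT; linarith) h1 hC₁
    _ = (1 + 1 / (η / (C₁ + 1))) ^ C₁ * T ^ (η / (C₁ + 1) * C₁) := by
        rw [Real.mul_rpow (by positivity) (by positivity), ← Real.rpow_mul hT0]
    _ ≤ (1 + 1 / (η / (C₁ + 1))) ^ C₁ * T ^ η := by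
        refine mul_le_mul_of_nonneg_left ?_ (by positivity)
        refine Real.rpow_le_rpow_of_exponent_le hT ?_
        rw [div_mul_eq_mul_div, div_le_iff₀ (by positivity)]
        nlinarith

lemma enorm_sq {x : ENNReal} {M : ℝ} (h : x ^ 2 ≤ ENNReal.ofReal M) : x ≤ ENNReal.ofReal (Real.sqrt M) := by
  by_contra hc
  push Not at hc
  have h1 : ENNReal.ofReal (Real.sqrt M) ^ 2 < x ^ 2 := by
    gcongr
  have h2 : ENNReal.ofReal M ≤ ENNReal.ofReal (Real.sqrt M) ^ 2 := by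
    rw [← ENNReal.ofReal_pow (Real.sqrt_nonneg _)]
    rcases le_total 0 M with h3 | h3
    · rw [Real.sq_sqrt h3]
    · rw [ENNReal.ofReal_of_nonpos h3]
      exact zero_le
  exact absurd h (not_le.2 (lt_of_le_of_lt h2 h1))

/-- integrability of continuous bounded functions supported where all points are in a fixed interval -/
lemma integ {n : ℕ} {ι : Type} [Fintype ι] [DecidableEq ι] (hι : Fintype.card ι = 2 * n + 2)
    (L : ι → Fin (n + 1) → ℝ) (hL : GP L) (κ : ι → ℝ) {F : (Fin (n + 1) → ℝ) → ℂ} (hF : Continuous F)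
    {B u v : ℝ} (hb : ∀ x, ‖F x‖ ≤ B) (hs : ∀ x, (∃ j, pt L κ x j ∉ Set.Icc u v) → F x = 0) : Integrable F := by
  obtain ⟨C, hC, hind⟩ := indep_v L hL
  obtain ⟨σ⟩ := Function.Embedding.nonempty_of_card_le (α := Fin (n + 1)) (β := ι)
    (by rw [Fintype.card_fin, hι]; omega)
  refine ⟨hF.aestronglyMeasurable, ?_⟩
  rw [hasFiniteIntegral_iff_enorm]
  have h1 := hind κ σ (fun _ => (Set.Icc u v).indicator fun _ => 1) σ.injective
    (fun _ => measurable_const.indicator measurableSet_Icc)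
  have h2 : ∀ x, ‖F x‖ₑ ≤ ENNReal.ofReal B * ∏ i, (Set.Icc u v).indicator (fun _ => (1 : ENNReal)) (pt L κ x (σ i)) := by
    intro x
    by_cases hx : ∃ j, pt L κ x j ∉ Set.Icc u v
    · rw [hs x hx, enorm_zero]
      exact zero_le
    · push Not at hx
      rw [Finset.prod_eq_one fun i _ => Set.indicator_of_mem (hx (σ i)) _, mul_one, ← ofReal_norm]
      exact ENNReal.ofReal_le_ofReal (hb x)
  refine lt_of_le_of_lt (lintegral_mono h2) ?_
  rw [lintegral_const_mul' _ _ ENNReal.ofReal_ne_top]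
  refine ENNReal.mul_lt_top ENNReal.ofReal_lt_top (lt_of_le_of_lt h1 ?_)
  refine ENNReal.mul_lt_top ENNReal.ofReal_lt_top ?_
  refine ENNReal.prod_lt_top fun i _ => ?_
  rw [lintegral_indicator measurableSet_Icc, setLIntegral_const, Real.volume_Icc, one_mul]
  exact ENNReal.ofReal_lt_top

end OneVAux

open OneVAux

theorem one_v {n : ℕ} (hn : 1 ≤ n) {ι : Type} [Fintype ι] [DecidableEq ι] (hι : Fintype.card ι = 2 * n + 2)
    (L : ι → Fin (n + 1) → ℤ) (hL : GP fun j i => (L j i : ℝ)) (C₁ ε : ℝ) (hC₁ : 0 ≤ C₁) (hε : 0 < ε) :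
    ∃ c₀ C T₀ : ℝ, 0 < c₀ ∧ 0 < C ∧ 64 ≤ T₀ ∧ ∀ (κ : ι → ℝ) (T ℓ : ℝ) (a : ι → ℝ) (c : ι → ℝ → ℝ), T₀ ≤ T → 0 ≤ ℓ → ℓ ≤ c₀ * T →
    Wi T (lg T ^ C₁) ℓ a c →
    ‖∫ x : Fin (n + 1) → ℝ, (∏ j, (c j (pt (fun j i => (L j i : ℝ)) κ x j) : ℂ)) *
      (((∏ j, gz (pt (fun j i => (L j i : ℝ)) κ x j) : ℝ) : ℂ) - MT L (pt (fun j i => (L j i : ℝ)) κ x))‖ ≤
      C * T ^ (n + 1) * lg T ^ ((n : ℝ) + 1 + ε) := by

  classical
  obtain ⟨δ₀, hδ₀, hsm0⟩ := small_v hn hι L hL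
  have hδ : 0 < min δ₀ (1 / 100) := lt_min hδ₀ (by norm_num)
  obtain ⟨η, Cs, hη, hCs, hsm⟩ := hsm0 (min δ₀ (1 / 100)) hδ (min_le_left _ _)
  obtain ⟨c₀, C₀, Cb, Tb, hc₀, hC₀, hCb, hTb, hbad⟩ := bad_v hn hι (fun j i => (L j i : ℝ)) hL C₁ 0
    (min δ₀ (1 / 100)) hC₁ le_rfl hδ (min_le_right _ _)
  obtain ⟨Ct, Tt, hCt, hTt, htop⟩ := top_v hι (fun j i => (L j i : ℝ)) hL C₀ (2 * ε) hC₀ (by linarith)
  obtain ⟨K, hK, hlg⟩ := OneVAux.lg_pow hC₁ hη
  obtain ⟨Cm, hCm, hmt⟩ := mt_bd hn hι L hL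
  generalize min δ₀ (1 / 100) = δ at *
  clear hsm0
  refine ⟨c₀, Real.sqrt Ct + (badV ι).card * Real.sqrt Cb + Cs * K, max Tb Tt, hc₀, by positivity,
    hTb.trans (le_max_left _ _), ?_⟩
  intro κ T ℓ a c hT hℓ hℓc hW
  have hT1 : Tb ≤ T := (le_max_left _ _).trans hT
  have hT2 : Tt ≤ T := (le_max_right _ _).trans hT
  have hT64 : 64 ≤ T := hTb.trans hT1
  have hT0 : 0 < T := by linarith
  have hlg1 : 1 ≤ lg T := lg_pos (by linarith)
  have hΛ : 1 ≤ lg T ^ C₁ := Real.one_le_rpow hlg1 hC₁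
  -- a bad pattern
  have hne : Nonempty ι := by
    rw [← Fintype.card_pos_iff, hι]
    omega
  obtain ⟨j₀⟩ := hne
  have hP0 : (fun _ => 1 : ι → Fin 4) ∈ badV ι := by
    unfold badV
    rw [Finset.mem_filter]
    exact ⟨Finset.mem_univ _, ⟨j₀, by simp⟩, ⟨j₀, by simp⟩⟩
  obtain ⟨⟨hA1, hA2, hA3⟩, -⟩ := hbad κ T ℓ a c _ hT1 hℓ hℓc hW hP0
  -- the expansion
  have hpat := pat_v hι (fun j i => (L j i : ℝ)) hL κ T (lg T ^ C₁) (T ^ δ) (n2 C₀ T) c (by linarith) hW.cut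
    (by linarith) hA2 hA3
  have hsq : ∀ M e : ℝ, 0 ≤ M → Real.sqrt (M * T ^ (2 * n + 2) * lg T ^ (2 * e)) =
      Real.sqrt M * T ^ (n + 1) * lg T ^ e := by
    intro M e hM
    have h1 : M * T ^ (2 * n + 2) * lg T ^ (2 * e) = (Real.sqrt M * T ^ (n + 1) * lg T ^ e) ^ 2 := by
      rw [mul_pow, mul_pow, Real.sq_sqrt hM, ← pow_mul, ← Real.rpow_natCast (lg T ^ e) 2,
        ← Real.rpow_mul (by linarith)]
      congr 2
      · congr 1
        ring
      · push_cast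
        ring
    rw [h1, Real.sqrt_sq (by positivity)]
  have h1 : FA (fun j i => (L j i : ℝ)) κ (fun j => ct (c j) (bd (n2 C₀ T) ((T / 4) ^ 2))) ≤
      ENNReal.ofReal (Real.sqrt Ct * T ^ (n + 1) * lg T ^ ((n : ℝ) + 1 + ε)) := by
    have h2 := enorm_sq (htop κ T (lg T ^ C₁) c hT2 hW.cut)
    rw [show 2 * (n : ℝ) + 2 + 2 * ε = 2 * ((n : ℝ) + 1 + ε) by ring, hsq _ _ hCt.le] at h2
    exact h2
  have h2 : ∀ P ∈ badV ι, ‖FF (fun j i => (L j i : ℝ)) κ (zp (T / 4) (T ^ δ) (n2 C₀ T) c P)‖ₑ ≤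
      ENNReal.ofReal (Real.sqrt Cb * T ^ (n + 1)) := by
    intro P hP
    have h3 := enorm_sq (hbad κ T ℓ a c P hT1 hℓ hℓc hW hP).2
    have h4 := hsq Cb 0 hCb.le
    rw [mul_zero, Real.rpow_zero, mul_one, mul_one] at h4
    rw [neg_zero, Real.rpow_zero, mul_one, h4] at h3
    exact h3
  have h3 : ‖FF (fun j i => (L j i : ℝ)) κ (fun j => ct (c j) fun y => (gz y : ℂ)) -
      FF (fun j i => (L j i : ℝ)) κ (fun j => ct (c j) (bd 0 (T ^ δ)))‖ ≤
      Real.sqrt Ct * T ^ (n + 1) * lg T ^ ((n : ℝ) + 1 + ε) + (badV ι).card * (Real.sqrt Cb * T ^ (n + 1)) := by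
    rw [← ENNReal.ofReal_le_ofReal_iff (by positivity), ofReal_norm]
    refine hpat.trans ?_
    have hcd : ENNReal.ofReal ((badV ι).card * (Real.sqrt Cb * T ^ (n + 1))) =
        ∑ _P ∈ badV ι, ENNReal.ofReal (Real.sqrt Cb * T ^ (n + 1)) := by
      rw [Finset.sum_const, nsmul_eq_mul, ENNReal.ofReal_mul (by positivity), ENNReal.ofReal_natCast]
    rw [ENNReal.ofReal_add (by positivity) (by positivity), hcd]
    exact add_le_add h1 (Finset.sum_le_sum h2)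
  have h4 := hsm κ T (lg T ^ C₁) ℓ a c hT64 hΛ hℓ hW
  -- integrability
  have hU : (0 : ℝ) < T / 4 := by linarith
  have hcc : ∀ j, Continuous (c j) := fun j => (hW.cut j).smooth.continuous
  have hptc : ∀ j, Continuous fun x : Fin (n + 1) → ℝ => pt (fun j i => (L j i : ℝ)) κ x j :=
    fun j => pt_cont _ κ j
  have hcz : ∀ j y, y ∉ Set.Icc (T / 4) (16 * (T / 4)) → c j y = 0 := fun j => (hW.cut j).supp
  have hpc : Continuous fun x : Fin (n + 1) → ℝ =>
      ∏ j, (c j (pt (fun j i => (L j i : ℝ)) κ x j) : ℂ) :=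
    continuous_finsetProd _ fun j _ => Complex.continuous_ofReal.comp ((hcc j).comp (hptc j))
  have hpz : ∀ x : Fin (n + 1) → ℝ, (∃ j, pt (fun j i => (L j i : ℝ)) κ x j ∉ Set.Icc (T / 4) (16 * (T / 4))) →
      ∏ j, (c j (pt (fun j i => (L j i : ℝ)) κ x j) : ℂ) = 0 := by
    rintro x ⟨j, hj⟩
    exact Finset.prod_eq_zero (Finset.mem_univ j) (by rw [hcz j _ hj, Complex.ofReal_zero])
  have hp1 : ∀ x : Fin (n + 1) → ℝ, ‖∏ j, (c j (pt (fun j i => (L j i : ℝ)) κ x j) : ℂ)‖ ≤ 1 := by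
    intro x
    rw [norm_prod]
    refine Finset.prod_le_one (fun _ _ => norm_nonneg _) fun j _ => ?_
    rw [Complex.norm_real, Real.norm_of_nonneg ((hW.cut j).nonneg _)]
    exact (hW.cut j).le_one _
  have i1 : Integrable fun x : Fin (n + 1) → ℝ => (∏ j, (c j (pt (fun j i => (L j i : ℝ)) κ x j) : ℂ)) *
      ((∏ j, gz (pt (fun j i => (L j i : ℝ)) κ x j) : ℝ) : ℂ) := by
    obtain ⟨G, hG⟩ := (isCompact_Icc (a := T / 4) (b := 16 * (T / 4))).exists_bound_of_continuousOn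
      gz_cont.continuousOn
    refine integ hι (fun j i => (L j i : ℝ)) hL κ (B := max G 0 ^ Fintype.card ι) (u := T / 4)
      (v := 16 * (T / 4)) ?_ ?_ ?_
    · exact hpc.mul (Complex.continuous_ofReal.comp
        (continuous_finsetProd _ fun j _ => gz_cont.comp (hptc j)))
    · intro x
      by_cases hx : ∃ j, pt (fun j i => (L j i : ℝ)) κ x j ∉ Set.Icc (T / 4) (16 * (T / 4))
      · rw [hpz x hx, zero_mul, norm_zero]
        positivity
      · push Not at hx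
        rw [norm_mul, Complex.norm_real, norm_prod (f := fun j => gz (pt (fun j i => (L j i : ℝ)) κ x j))]
        have h5 : ∏ j, ‖gz (pt (fun j i => (L j i : ℝ)) κ x j)‖ ≤ max G 0 ^ Fintype.card ι := by
          rw [← Finset.card_univ, ← Finset.prod_const]
          exact Finset.prod_le_prod (fun _ _ => norm_nonneg _) fun j _ =>
            (hG _ (hx j)).trans (le_max_left _ _)
        calc ‖∏ j, (c j (pt (fun j i => (L j i : ℝ)) κ x j) : ℂ)‖ *
              ∏ j, ‖gz (pt (fun j i => (L j i : ℝ)) κ x j)‖ ≤ 1 * max G 0 ^ Fintype.card ι :=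
              mul_le_mul (hp1 x) h5 (Finset.prod_nonneg fun _ _ => norm_nonneg _) zero_le_one
          _ = _ := one_mul _
    · intro x hx
      rw [hpz x hx, zero_mul]
  have i2 : Integrable fun x : Fin (n + 1) → ℝ => (∏ j, (c j (pt (fun j i => (L j i : ℝ)) κ x j) : ℂ)) *
      MT L (pt (fun j i => (L j i : ℝ)) κ x) := by
    refine integ hι (fun j i => (L j i : ℝ)) hL κ (B := Cm * lg T ^ (2 * n + 2)) (u := T / 4)
      (v := 16 * (T / 4)) ?_ ?_ ?_
    · rw [continuous_iff_continuousAt]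
      intro x
      by_cases hx : ∀ j, 0 < pt (fun j i => (L j i : ℝ)) κ x j
      · refine hpc.continuousAt.mul ?_
        have ho : IsOpen {y : ι → ℝ | ∀ j, 0 < y j} := by
          rw [Set.ofPred_forall]
          exact isOpen_iInter_of_finite fun j => isOpen_lt continuous_const (continuous_apply j)
        have h5 : ContinuousAt (MT L) (pt (fun j i => (L j i : ℝ)) κ x) :=
          (mt_cont hn hι L hL).continuousAt (ho.mem_nhds hx)
        exact ContinuousAt.comp (f := fun x : Fin (n + 1) → ℝ => pt (fun j i => (L j i : ℝ)) κ x) h5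
          (continuous_pi hptc).continuousAt
      · push Not at hx
        obtain ⟨j, hj⟩ := hx
        have h5 : (fun x : Fin (n + 1) → ℝ => (∏ j, (c j (pt (fun j i => (L j i : ℝ)) κ x j) : ℂ)) *
            MT L (pt (fun j i => (L j i : ℝ)) κ x)) =ᶠ[nhds x] fun _ => 0 := by
          have h6 : ∀ᶠ y in nhds x, pt (fun j i => (L j i : ℝ)) κ y j < T / 4 :=
            (hptc j).continuousAt.eventually (Iio_mem_nhds (lt_of_le_of_lt hj hU))
          filter_upwards [h6] with y hy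
          rw [hpz y ⟨j, fun h => absurd h.1 (not_le.2 hy)⟩, zero_mul]
        exact continuousAt_const.congr h5.symm
    · intro x
      by_cases hx : ∃ j, pt (fun j i => (L j i : ℝ)) κ x j ∉ Set.Icc (a j) (a j + ℓ)
      · obtain ⟨j, hj⟩ := hx
        rw [Finset.prod_eq_zero (Finset.mem_univ j) (by rw [hW.supp j _ hj, Complex.ofReal_zero]), zero_mul,
          norm_zero]
        positivity
      · push Not at hx
        rw [norm_mul]
        have h5 := hmt T (pt (fun j i => (L j i : ℝ)) κ x) hT64 fun j =>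
          ⟨(hW.lo j).trans (hx j).1, (hx j).2.trans (hW.hi j)⟩
        calc ‖∏ j, (c j (pt (fun j i => (L j i : ℝ)) κ x j) : ℂ)‖ *
              ‖MT L (pt (fun j i => (L j i : ℝ)) κ x)‖ ≤ 1 * (Cm * lg T ^ (2 * n + 2)) :=
              mul_le_mul (hp1 x) h5 (norm_nonneg _) zero_le_one
          _ = _ := one_mul _
    · intro x hx
      rw [hpz x hx, zero_mul]
  -- assembly
  have e1 : FF (fun j i => (L j i : ℝ)) κ (fun j => ct (c j) fun y => (gz y : ℂ)) =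
      ∫ x : Fin (n + 1) → ℝ, (∏ j, (c j (pt (fun j i => (L j i : ℝ)) κ x j) : ℂ)) *
        ((∏ j, gz (pt (fun j i => (L j i : ℝ)) κ x j) : ℝ) : ℂ) := by
    unfold FF
    refine integral_congr_ae (Filter.Eventually.of_forall fun x => ?_)
    simp only [ct, Finset.prod_mul_distrib, Complex.ofReal_prod]
  have e2 : (∫ x : Fin (n + 1) → ℝ, (∏ j, (c j (pt (fun j i => (L j i : ℝ)) κ x j) : ℂ)) *
      (((∏ j, gz (pt (fun j i => (L j i : ℝ)) κ x j) : ℝ) : ℂ) - MT L (pt (fun j i => (L j i : ℝ)) κ x))) =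
      (FF (fun j i => (L j i : ℝ)) κ (fun j => ct (c j) fun y => (gz y : ℂ)) -
        FF (fun j i => (L j i : ℝ)) κ (fun j => ct (c j) (bd 0 (T ^ δ)))) +
      (FF (fun j i => (L j i : ℝ)) κ (fun j => ct (c j) (bd 0 (T ^ δ))) -
        ∫ x : Fin (n + 1) → ℝ, (∏ j, (c j (pt (fun j i => (L j i : ℝ)) κ x j) : ℂ)) *
          MT L (pt (fun j i => (L j i : ℝ)) κ x)) := by
    rw [e1]
    simp only [mul_sub]
    rw [integral_sub i1 i2]
    ring
  rw [e2]
  refine (norm_add_le _ _).trans ((add_le_add h3 h4).trans ?_)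
  have h5 : Cs * lg T ^ C₁ * T ^ ((n : ℝ) + 1 - η) ≤ Cs * K * T ^ (n + 1) := by
    have h6 : T ^ ((n : ℝ) + 1 - η) = T ^ (n + 1) / T ^ η := by
      rw [Real.rpow_sub hT0]
      congr 1
      rw [← Real.rpow_natCast]
      push_cast
      rfl
    have h7 : 0 < T ^ η := Real.rpow_pos_of_pos hT0 _
    rw [h6, mul_div_assoc', div_le_iff₀ h7]
    calc Cs * lg T ^ C₁ * T ^ (n + 1) ≤ Cs * (K * T ^ η) * T ^ (n + 1) := by
          refine mul_le_mul_of_nonneg_right (mul_le_mul_of_nonneg_left (hlg T (by linarith)) hCs.le)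
            (by positivity)
      _ = Cs * K * T ^ (n + 1) * T ^ η := by ring
  have h6 : 1 ≤ lg T ^ ((n : ℝ) + 1 + ε) := Real.one_le_rpow hlg1 (by positivity)
  have h7 : (badV ι).card * (Real.sqrt Cb * T ^ (n + 1)) + Cs * K * T ^ (n + 1) ≤
      ((badV ι).card * (Real.sqrt Cb * T ^ (n + 1)) + Cs * K * T ^ (n + 1)) * lg T ^ ((n : ℝ) + 1 + ε) :=
    le_mul_of_one_le_right (by positivity) h6
  calc Real.sqrt Ct * T ^ (n + 1) * lg T ^ ((n : ℝ) + 1 + ε) + (badV ι).card * (Real.sqrt Cb * T ^ (n + 1)) +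
        Cs * lg T ^ C₁ * T ^ ((n : ℝ) + 1 - η)
      ≤ Real.sqrt Ct * T ^ (n + 1) * lg T ^ ((n : ℝ) + 1 + ε) +
        ((badV ι).card * (Real.sqrt Cb * T ^ (n + 1)) + Cs * K * T ^ (n + 1)) := by linarith
    _ ≤ Real.sqrt Ct * T ^ (n + 1) * lg T ^ ((n : ℝ) + 1 + ε) +
        ((badV ι).card * (Real.sqrt Cb * T ^ (n + 1)) + Cs * K * T ^ (n + 1)) * lg T ^ ((n : ℝ) + 1 + ε) := by
        linarith
    _ = _ := by ring

end Pool.Agent.P07318v
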