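import Pool.Agent.Lib.P07318v.Defs

/-!
# From smooth windows to a sharp domain (pure measure theory)

PROOF. Everything is integrable (`w⁻ ≤ 1_K ≤ w⁺`, measurable). `F ≥ 0`: `∫_K F ≤ ∫ w⁺ F = Re ∫ w⁺ (F - M) + Re ∫ w⁺ M ≤ E + Re ∫_K M + ∫ (w⁺ - 1_K) ‖M‖ ≤ E + Re ∫_K M + E'` (`w⁺ - 1_K ≤ w⁺ - w⁻`), and `∫_K F ≥ ∫ w⁻ F ≥ Re ∫_K M - E - E'`. So `|Re ∫_K (F - M)| ≤ E + E'`.
`Im ∫_K (F - M) = - Im ∫_K M`, `|Im ∫_K M| ≤ |Im ∫ w⁺ M| + E' = |Im ∫ w⁺ (F - M)| + E' ≤ E + E'`. Sum of the two.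
-/

set_option autoImplicit false

namespace Pool.Agent.P07318v

open MeasureTheory Complex Pool.Agent.P07318s Pool.Agent.P07318f Pool.Agent.P07318h Pool.Agent.P07318o

theorem sandwich {X : Type} [MeasurableSpace X] (μ : Measure X) (F : X → ℝ) (M : X → ℂ) (wp wm : X → ℝ) (K : Set X) (E E' : ℝ)
    (hK : MeasurableSet K) (hwp : Measurable wp) (hwm : Measurable wm) (hF : Measurable F) (hM : Measurable M) (hF0 : ∀ x, 0 ≤ F x)
    (h0 : ∀ x, 0 ≤ wm x) (h1 : ∀ x, wm x ≤ wp x) (h2 : ∀ x ∈ K, 1 ≤ wp x) (h3 : ∀ x, x ∉ K → wm x = 0) (h4 : ∀ x, wm x ≤ 1)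
    (h5 : ∀ x, wp x ≤ 1)
    (hi1 : Integrable (fun x => wp x * F x) μ) (hi2 : Integrable (fun x => (wp x : ℂ) * M x) μ)
    (hE1 : ‖∫ x, (wp x : ℂ) * ((F x : ℂ) - M x) ∂μ‖ ≤ E) (hE2 : ‖∫ x, (wm x : ℂ) * ((F x : ℂ) - M x) ∂μ‖ ≤ E)
    (hE' : ∫ x, (wp x - wm x) * ‖M x‖ ∂μ ≤ E') :
    ‖∫ x in K, ((F x : ℂ) - M x) ∂μ‖ ≤ 2 * E + 2 * E' := by
  -- integrability
  have iKF : Integrable (K.indicator F) μ := by
    refine Integrable.mono hi1 (hF.indicator hK).aestronglyMeasurable (Filter.Eventually.of_forall fun x => ?_)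
    by_cases hx : x ∈ K
    · rw [Set.indicator_of_mem hx, Real.norm_eq_abs, Real.norm_eq_abs, abs_of_nonneg (hF0 x),
        abs_of_nonneg (mul_nonneg ((h0 x).trans (h1 x)) (hF0 x))]
      nlinarith [h2 x hx, hF0 x]
    · rw [Set.indicator_of_notMem hx, norm_zero]; exact norm_nonneg _
  have iwmF : Integrable (fun x => wm x * F x) μ := by
    refine Integrable.mono hi1 (hwm.mul hF).aestronglyMeasurable (Filter.Eventually.of_forall fun x => ?_)
    rw [Real.norm_eq_abs, Real.norm_eq_abs, abs_of_nonneg (mul_nonneg (h0 x) (hF0 x)),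
        abs_of_nonneg (mul_nonneg ((h0 x).trans (h1 x)) (hF0 x))]
    exact mul_le_mul_of_nonneg_right (h1 x) (hF0 x)
  have iKM : Integrable (K.indicator M) μ := by
    refine Integrable.mono hi2 (hM.indicator hK).aestronglyMeasurable (Filter.Eventually.of_forall fun x => ?_)
    by_cases hx : x ∈ K
    · rw [Set.indicator_of_mem hx, norm_mul, Complex.norm_real, Real.norm_eq_abs,
        abs_of_nonneg ((h0 x).trans (h1 x))]
      nlinarith [h2 x hx, norm_nonneg (M x)]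
    · rw [Set.indicator_of_notMem hx, norm_zero]; exact norm_nonneg _
  have mwm : Measurable (fun x => ((wm x : ℝ) : ℂ)) := Complex.measurable_ofReal.comp hwm
  have iwmM : Integrable (fun x => (wm x : ℂ) * M x) μ := by
    refine Integrable.mono hi2 (mwm.mul hM).aestronglyMeasurable (Filter.Eventually.of_forall fun x => ?_)
    rw [norm_mul, norm_mul, Complex.norm_real, Complex.norm_real, Real.norm_eq_abs, Real.norm_eq_abs,
        abs_of_nonneg (h0 x), abs_of_nonneg ((h0 x).trans (h1 x))]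
    exact mul_le_mul_of_nonneg_right (h1 x) (norm_nonneg _)
  have id : Integrable (fun x => (wp x - wm x) * ‖M x‖) μ := by
    refine Integrable.mono hi2 (((hwp.sub hwm).mul hM.norm)).aestronglyMeasurable
      (Filter.Eventually.of_forall fun x => ?_)
    rw [norm_mul, norm_mul, Complex.norm_real, norm_norm, Real.norm_eq_abs, Real.norm_eq_abs,
        abs_of_nonneg (sub_nonneg.mpr (h1 x)), abs_of_nonneg ((h0 x).trans (h1 x))]
    exact mul_le_mul_of_nonneg_right (by linarith [h0 x]) (norm_nonneg _)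
  -- differences of the main terms
  have dM : ∀ w : X → ℝ, Integrable (fun x => (w x : ℂ) * M x) μ → (∀ x, wm x ≤ w x) → (∀ x, w x ≤ wp x) →
      ‖(∫ x, (w x : ℂ) * M x ∂μ) - ∫ x, K.indicator M x ∂μ‖ ≤ E' := by
    intro w hw hw1 hw2
    rw [← integral_sub hw iKM]
    refine (norm_integral_le_of_norm_le id (Filter.Eventually.of_forall fun x => ?_)).trans hE'
    by_cases hx : x ∈ K
    · rw [Set.indicator_of_mem hx]
      have e : (w x : ℂ) * M x - M x = ((w x - 1 : ℝ) : ℂ) * M x := by push_cast; ring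
      rw [e, norm_mul, Complex.norm_real, Real.norm_eq_abs]
      refine mul_le_mul_of_nonneg_right ?_ (norm_nonneg _)
      rw [abs_le]
      constructor <;> linarith [h2 x hx, h5 x, hw1 x, hw2 x, h4 x]
    · rw [Set.indicator_of_notMem hx, sub_zero, norm_mul, Complex.norm_real, Real.norm_eq_abs]
      refine mul_le_mul_of_nonneg_right ?_ (norm_nonneg _)
      rw [abs_le]
      constructor <;> linarith [h3 x hx, hw1 x, hw2 x, h0 x, h1 x]
  have dp := dM wp hi2 h1 (fun x => le_refl _)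
  have dm := dM wm iwmM (fun x => le_refl _) h1
  -- the F-integrals
  have eF : ∀ w : X → ℝ, Integrable (fun x => w x * F x) μ → Integrable (fun x => (w x : ℂ) * M x) μ →
      (∫ x, (w x : ℂ) * ((F x : ℂ) - M x) ∂μ) = ((∫ x, w x * F x ∂μ : ℝ) : ℂ) - ∫ x, (w x : ℂ) * M x ∂μ := by
    intro w hwF hwM
    have e1 : ((∫ x, w x * F x ∂μ : ℝ) : ℂ) = ∫ x, ((w x * F x : ℝ) : ℂ) ∂μ := integral_ofReal.symm
    have e2 : (∫ x, ((w x * F x : ℝ) : ℂ) ∂μ) - ∫ x, (w x : ℂ) * M x ∂μ = ∫ x, (((w x * F x : ℝ) : ℂ) - (w x : ℂ) * M x) ∂μ :=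
      (integral_sub (Integrable.ofReal (𝕜 := ℂ) hwF) hwM).symm
    rw [e1, e2]
    refine integral_congr_ae (Filter.Eventually.of_forall fun x => ?_)
    simp only []
    push_cast
    ring
  rw [eF wp hi1 hi2] at hE1
  rw [eF wm iwmF iwmM] at hE2
  have eK : (∫ x in K, ((F x : ℂ) - M x) ∂μ) = ((∫ x, K.indicator F x ∂μ : ℝ) : ℂ) - ∫ x, K.indicator M x ∂μ := by
    have e1 : ((∫ x, K.indicator F x ∂μ : ℝ) : ℂ) = ∫ x, ((K.indicator F x : ℝ) : ℂ) ∂μ := integral_ofReal.symm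
    have e2 : (∫ x, ((K.indicator F x : ℝ) : ℂ) ∂μ) - ∫ x, K.indicator M x ∂μ = ∫ x, (((K.indicator F x : ℝ) : ℂ) - K.indicator M x) ∂μ := (integral_sub (Integrable.ofReal (𝕜 := ℂ) iKF) iKM).symm
    rw [← integral_indicator hK, e1, e2]
    refine integral_congr_ae (Filter.Eventually.of_forall fun x => ?_)
    simp only []
    by_cases hx : x ∈ K
    · rw [Set.indicator_of_mem hx, Set.indicator_of_mem hx, Set.indicator_of_mem hx]
    · rw [Set.indicator_of_notMem hx, Set.indicator_of_notMem hx, Set.indicator_of_notMem hx]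
      simp
  rw [eK]
  have u1 : ∫ x, K.indicator F x ∂μ ≤ ∫ x, wp x * F x ∂μ := by
    refine integral_mono iKF hi1 fun x => ?_
    simp only []
    by_cases hx : x ∈ K
    · rw [Set.indicator_of_mem hx]; nlinarith [h2 x hx, hF0 x]
    · rw [Set.indicator_of_notMem hx]; exact mul_nonneg ((h0 x).trans (h1 x)) (hF0 x)
  have u2 : ∫ x, wm x * F x ∂μ ≤ ∫ x, K.indicator F x ∂μ := by
    refine integral_mono iwmF iKF fun x => ?_
    simp only []
    by_cases hx : x ∈ K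
    · rw [Set.indicator_of_mem hx]; nlinarith [h4 x, hF0 x]
    · rw [Set.indicator_of_notMem hx, h3 x hx, zero_mul]
  set J : ℝ := ∫ x, K.indicator F x ∂μ
  set MK : ℂ := ∫ x, K.indicator M x ∂μ
  set Ip : ℝ := ∫ x, wp x * F x ∂μ
  set Im' : ℝ := ∫ x, wm x * F x ∂μ
  set Mp : ℂ := ∫ x, (wp x : ℂ) * M x ∂μ
  set Mm : ℂ := ∫ x, (wm x : ℂ) * M x ∂μ
  have r1 := (abs_re_le_norm _).trans hE1
  have r2 := (abs_re_le_norm _).trans hE2
  have r3 := (abs_re_le_norm _).trans dp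
  have r4 := (abs_re_le_norm _).trans dm
  have i1 := (abs_im_le_norm _).trans hE1
  have i3 := (abs_im_le_norm _).trans dp
  simp only [sub_re, sub_im, ofReal_re, ofReal_im] at r1 r2 r3 r4 i1 i3
  rw [abs_le] at r1 r2 r3 r4 i1 i3
  refine (norm_le_abs_re_add_abs_im _).trans ?_
  simp only [sub_re, sub_im, ofReal_re, ofReal_im]
  have a1 : |J - MK.re| ≤ E + E' := by
    rw [abs_le]; constructor <;> linarith [r1.1, r1.2, r2.1, r2.2, r3.1, r3.2, r4.1, r4.2]
  have a2 : |0 - MK.im| ≤ E + E' := by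
    rw [abs_le]; constructor <;> linarith [i1.1, i1.2, i3.1, i3.2]
  linarith

end Pool.Agent.P07318v
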