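import Pool.Agent.Lib.P07318v.Geo
import Pool.Agent.Lib.P07318o.Win

/-!
# The windows of a box

PROOFS. `win_cut`: `win Δ a b y = win Δ (a - T) (b - T) (y - T)`; `win_wn` (`a - T - Δ ≥ -T/8`, `b - T + Δ ≤ 9T/8`) and `wn_cut` with `α = T`.
`win_le`: `win Δ (a + Δ) (b - Δ) y ≤ win Δ a b y` (`Real.smoothTransition` is monotone: `Real.smoothTransition.monotone`, nonnegative). `win_in`: `win Δ (a + Δ) (b - Δ) y = 0` for `y ∉ (a, b)` (`smoothTransition (≤ 0) = 0`: the factors are `st ((y - a)/Δ)`, `st ((b - y)/Δ)`).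
`edge_v`: `∏ wp - ∏ wm ≤ ∑_j 1[pt x j ∈ E_j] ∏_{l ≠ j} 1[pt x l ∈ [T/2, 3T]]`, `E_j = [a_j - Δ, a_j + Δ] ∪ [b_j - Δ, b_j + Δ]` (if no `pt x j` is in `E_j` then for every `j` both windows at `pt x j` are `1` (if `a_j + Δ ≤ y ≤ b_j - Δ`) or both are `0`, note `win_in`, `win_zero`; if `b_j - a_j < 2 Δ` the two edges cover).
If the product `∏ wp` is not `0` then all `pt x l ∈ [a_l - Δ, b_l + Δ] ⊆ [T/2, 3T]`. For fixed `j` choose an injective `σ` with `σ 0 = j`, bound the product over `l ≠ j` by the product over the other `σ i`, and `indep_v`: the volume is `≤ C (4Δ) (5T/2)^n`. Sum over the `2n+2` slots.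
-/

set_option autoImplicit false

namespace Pool.Agent.P07318v

open MeasureTheory Complex Pool.Agent.P07318s Pool.Agent.P07318f Pool.Agent.P07318h Pool.Agent.P07318o

theorem win_cut : ∃ C : ℝ, 1 ≤ C ∧ ∀ T Δ a b : ℝ, 1 ≤ T → 0 < Δ → Δ ≤ T / 8 → T ≤ a → b ≤ 2 * T → Cut (T / 4) (C * (T / Δ) ^ 2) (win Δ a b) := by
  obtain ⟨C, hC, h⟩ := win_wn
  refine ⟨C, hC, fun T Δ a b hT hΔ hΔT ha hb => ?_⟩
  have h1 := h T Δ (a - T) (b - T) hT hΔ (by linarith) (by linarith) (by linarith)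
  have h2 := wn_cut (α := T) hT (by positivity) h1 le_rfl (by linarith)
  have h3 : (fun y => win Δ (a - T) (b - T) (y - T)) = win Δ a b := by
    funext y
    unfold win
    congr 3
    · ring
    · ring
  rw [h3] at h2
  exact h2

theorem win_le {Δ a b y : ℝ} (hΔ : 0 < Δ) : win Δ (a + Δ) (b - Δ) y ≤ win Δ a b y := by
  unfold win
  have h1 : (y - (a + Δ)) / Δ + 1 ≤ (y - a) / Δ + 1 := by
    have := div_le_div_of_nonneg_right (show y - (a + Δ) ≤ y - a by linarith) hΔ.le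
    linarith
  have h2 : (b - Δ - y) / Δ + 1 ≤ (b - y) / Δ + 1 := by
    have := div_le_div_of_nonneg_right (show b - Δ - y ≤ b - y by linarith) hΔ.le
    linarith
  exact mul_le_mul (Real.smoothTransition.monotone h1) (Real.smoothTransition.monotone h2)
    (Real.smoothTransition.nonneg _) (Real.smoothTransition.nonneg _)

theorem win_in {Δ a b y : ℝ} (hΔ : 0 < Δ) (hy : y ∉ Set.Ioo a b) : win Δ (a + Δ) (b - Δ) y = 0 := by
  unfold win
  by_cases h1 : a < y
  · have h2 : b ≤ y := by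
      by_contra h3
      exact hy ⟨h1, not_le.1 h3⟩
    rw [mul_comm, Real.smoothTransition.zero_of_nonpos, zero_mul]
    have : (b - Δ - y) / Δ ≤ -1 := by rw [div_le_iff₀ hΔ]; linarith
    linarith
  · rw [Real.smoothTransition.zero_of_nonpos, zero_mul]
    have : (y - (a + Δ)) / Δ ≤ -1 := by rw [div_le_iff₀ hΔ]; linarith
    linarith

namespace WinVAux

/-- the edges -/
def Ed (Δ a b : ℝ) : Set ℝ := Set.Icc (a - Δ) (a + Δ) ∪ Set.Icc (b - Δ) (b + Δ)

lemma Ed_meas (Δ a b : ℝ) : MeasurableSet (Ed Δ a b) := measurableSet_Icc.union measurableSet_Icc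

lemma win_eq {Δ a b y : ℝ} (hΔ : 0 < Δ) (h0 : win Δ a b y ≠ 0) (hy : y ∉ Ed Δ a b) :
    win Δ (a + Δ) (b - Δ) y = win Δ a b y := by
  have h1 : y ∈ Set.Icc (a - Δ) (b + Δ) := by
    by_contra h
    exact h0 (win_zero hΔ h)
  have h2 : a + Δ < y := by
    by_contra h
    exact hy (Or.inl ⟨h1.1, not_lt.1 h⟩)
  have h3 : y < b - Δ := by
    by_contra h
    exact hy (Or.inr ⟨not_lt.1 h, h1.2⟩)
  rw [win_one hΔ h2.le h3.le, win_one hΔ (by linarith) (by linarith)]

/-- the weights -/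
noncomputable def Fw {n : ℕ} (T Δ a b : ℝ) (i : Fin (n + 1)) (y : ℝ) : ENNReal :=
  if i = 0 then (Ed Δ a b).indicator 1 y else (Set.Icc (T / 2) (3 * T)).indicator 1 y

lemma Fw_meas {n : ℕ} (T Δ a b : ℝ) (i : Fin (n + 1)) : Measurable (Fw T Δ a b i) := by
  unfold Fw
  by_cases h : i = 0
  · simp only [h, if_true]
    exact measurable_one.indicator (Ed_meas Δ a b)
  · simp only [h, if_false]
    exact measurable_one.indicator measurableSet_Icc

lemma Fw_int {n : ℕ} {T Δ a b : ℝ} (hT : 1 ≤ T) (hΔ : 0 < Δ) :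
    ∏ i : Fin (n + 1), ∫⁻ y, Fw T Δ a b i y ≤ ENNReal.ofReal (4 * Δ * (5 / 2 * T) ^ n) := by
  rw [Fin.prod_univ_succ]
  have h0 : ∫⁻ y, Fw (n := n) T Δ a b 0 y ≤ ENNReal.ofReal (4 * Δ) := by
    unfold Fw
    simp only [if_true]
    rw [lintegral_indicator_one (Ed_meas Δ a b)]
    unfold Ed
    refine (measure_union_le _ _).trans ?_
    rw [Real.volume_Icc, Real.volume_Icc, ← ENNReal.ofReal_add (by linarith) (by linarith)]
    apply ENNReal.ofReal_le_ofReal
    linarith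
  have h1 : ∀ i : Fin n, ∫⁻ y, Fw (n := n) T Δ a b i.succ y = ENNReal.ofReal (5 / 2 * T) := by
    intro i
    unfold Fw
    simp only [Fin.succ_ne_zero, if_false]
    rw [lintegral_indicator_one measurableSet_Icc, Real.volume_Icc]
    congr 1
    ring
  have h2 : ENNReal.ofReal (4 * Δ * (5 / 2 * T) ^ n) =
      ENNReal.ofReal (4 * Δ) * ENNReal.ofReal (5 / 2 * T) ^ n := by
    rw [ENNReal.ofReal_mul (by positivity), ENNReal.ofReal_pow (by positivity)]
  rw [Finset.prod_congr rfl fun i _ => h1 i, Finset.prod_const, Finset.card_univ, Fintype.card_fin, h2]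
  exact mul_le_mul_left h0 _

lemma exists_sig {n : ℕ} {ι : Type} [Fintype ι] [DecidableEq ι] (hι : Fintype.card ι = 2 * n + 2) (j : ι) :
    ∃ σ : Fin (n + 1) → ι, Function.Injective σ ∧ σ 0 = j := by
  have e : Fin (2 * n + 2) ≃ ι := (Fintype.equivFinOfCardEq hι).symm
  let τ : Fin (n + 1) → ι := fun i => e ⟨i, by omega⟩
  have hτ : Function.Injective τ := by
    intro x y hxy
    have := e.injective hxy
    rw [Fin.mk.injEq] at this
    exact Fin.ext this
  refine ⟨fun i => Equiv.swap (τ 0) j (τ i), (Equiv.injective _).comp hτ, ?_⟩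
  exact Equiv.swap_apply_left _ _

end WinVAux

open WinVAux

theorem edge_v {n : ℕ} {ι : Type} [Fintype ι] [DecidableEq ι] (hι : Fintype.card ι = 2 * n + 2)
    (L : ι → Fin (n + 1) → ℝ) (hL : GP L) : ∃ C : ℝ, 0 < C ∧ ∀ (κ a b : ι → ℝ) (T Δ : ℝ), 1 ≤ T → 0 < Δ → Δ ≤ T / 8 →
    (∀ j, T ≤ a j) → (∀ j, b j ≤ 2 * T) → (∀ j, a j ≤ b j) →
    ∫⁻ x, ENNReal.ofReal (∏ j, win Δ (a j) (b j) (pt L κ x j) - ∏ j, win Δ (a j + Δ) (b j - Δ) (pt L κ x j)) ≤
      ENNReal.ofReal (C * Δ * T ^ n) := by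
  obtain ⟨C, hC, hind⟩ := indep_v L hL
  choose σ hσ hσ0 using exists_sig (n := n) hι
  refine ⟨(2 * n + 2) * (C * (4 * (5 / 2) ^ n)), by positivity, ?_⟩
  intro κ a b T Δ hT hΔ hΔT ha hb _
  have hT0 : 0 < T := by linarith
  have hpt : ∀ x : Fin (n + 1) → ℝ,
      ENNReal.ofReal (∏ j, win Δ (a j) (b j) (pt L κ x j) - ∏ j, win Δ (a j + Δ) (b j - Δ) (pt L κ x j)) ≤
      ∑ j, ∏ i, Fw T Δ (a j) (b j) i (pt L κ x (σ j i)) := by
    intro x
    by_cases hle : ∏ j, win Δ (a j) (b j) (pt L κ x j) ≤ ∏ j, win Δ (a j + Δ) (b j - Δ) (pt L κ x j)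
    · rw [ENNReal.ofReal_of_nonpos (by linarith)]
      exact zero_le
    · have hm0 : 0 ≤ ∏ j, win Δ (a j + Δ) (b j - Δ) (pt L κ x j) :=
        Finset.prod_nonneg fun j _ => win_nonneg _ _ _ _
      have hp1 : ∏ j, win Δ (a j) (b j) (pt L κ x j) ≤ 1 :=
        Finset.prod_le_one (fun j _ => win_nonneg _ _ _ _) fun j _ => win_le_one _ _ _ _
      have hne : ∏ j, win Δ (a j) (b j) (pt L κ x j) ≠ 0 := by
        intro h
        apply hle
        rw [h]
        exact hm0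
      have hne' : ∀ j, win Δ (a j) (b j) (pt L κ x j) ≠ 0 := fun j =>
        Finset.prod_ne_zero_iff.1 hne j (Finset.mem_univ j)
      have hin : ∀ j, pt L κ x j ∈ Set.Icc (T / 2) (3 * T) := by
        intro j
        have h1 : pt L κ x j ∈ Set.Icc (a j - Δ) (b j + Δ) := by
          by_contra h
          exact hne' j (win_zero hΔ h)
        have := ha j
        have := hb j
        exact ⟨by linarith [h1.1], by linarith [h1.2]⟩
      obtain ⟨j, hj⟩ : ∃ j, pt L κ x j ∈ Ed Δ (a j) (b j) := by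
        by_contra h
        push Not at h
        apply hle
        exact le_of_eq (Finset.prod_congr rfl fun j _ => (win_eq hΔ (hne' j) (h j)).symm)
      have hone : ∏ i, Fw T Δ (a j) (b j) i (pt L κ x (σ j i)) = 1 := by
        refine Finset.prod_eq_one fun i _ => ?_
        unfold Fw
        by_cases hi : i = 0
        · subst hi
          rw [if_pos rfl, hσ0 j, Set.indicator_of_mem hj]
          rfl
        · rw [if_neg hi, Set.indicator_of_mem (hin _)]
          rfl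
      calc ENNReal.ofReal (∏ j, win Δ (a j) (b j) (pt L κ x j) - ∏ j, win Δ (a j + Δ) (b j - Δ) (pt L κ x j))
          ≤ 1 := by
            rw [← ENNReal.ofReal_one]
            exact ENNReal.ofReal_le_ofReal (by linarith)
        _ = ∏ i, Fw T Δ (a j) (b j) i (pt L κ x (σ j i)) := hone.symm
        _ ≤ _ := Finset.single_le_sum (f := fun j => ∏ i, Fw T Δ (a j) (b j) i (pt L κ x (σ j i)))
            (fun _ _ => zero_le) (Finset.mem_univ j)
  have hmeas : ∀ j, Measurable fun x => ∏ i, Fw T Δ (a j) (b j) i (pt L κ x (σ j i)) := by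
    intro j
    exact Finset.measurable_fun_prod _ fun i _ => (Fw_meas T Δ (a j) (b j) i).comp (pt_cont L κ (σ j i)).measurable
  calc _ ≤ ∫⁻ x, ∑ j, ∏ i, Fw T Δ (a j) (b j) i (pt L κ x (σ j i)) := lintegral_mono hpt
    _ = ∑ j, ∫⁻ x, ∏ i, Fw T Δ (a j) (b j) i (pt L κ x (σ j i)) :=
        lintegral_finsetSum _ fun j _ => hmeas j
    _ ≤ ∑ _j : ι, ENNReal.ofReal C * ENNReal.ofReal (4 * Δ * (5 / 2 * T) ^ n) := by
        refine Finset.sum_le_sum fun j _ => ?_
        refine (hind κ (σ j) (Fw T Δ (a j) (b j)) (hσ j) (fun i => Fw_meas _ _ _ _ i)).trans ?_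
        exact mul_le_mul_right (Fw_int hT hΔ) _
    _ = ENNReal.ofReal ((2 * n + 2) * (C * (4 * (5 / 2) ^ n)) * Δ * T ^ n) := by
        rw [Finset.sum_const, Finset.card_univ, hι, nsmul_eq_mul, ← ENNReal.ofReal_mul hC.le,
          ← ENNReal.ofReal_natCast, ← ENNReal.ofReal_mul (by positivity)]
        congr 1
        push_cast
        rw [mul_pow]
        ring

end Pool.Agent.P07318v
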