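import Pool.Agent.Lib.P07318v.OneV
import Pool.Agent.Lib.P07318v.Sandw
import Pool.Agent.Lib.P07318v.WinV

/-!
# Sharp short boxes

PROOF. `Lr = fun j i => (L j i : ℝ)`, `K = {x | ∀ j, pt Lr κ x j ∈ S j}`. `Δ = T / lg T ^ (2n+2)`, `Λ = C (T/Δ)² = C lg T ^ (4n+4) ≤ lg T ^ C₁` with `C₁ = 4n + 5` for `T ≥ T₀` (`Cut` is monotone in `Λ`). `wp x = ∏ j, win Δ (a j) (b j) (pt x j)`, `wm x = ∏ j, win Δ (a j + Δ) (b j - Δ) (pt x j)`.
Both families are `Wi T (lg T ^ C₁) ℓ (fun j => a j - Δ)` with `ℓ = c₀ T` (`c₀` of `one_v`), if `b j - a j ≤ c₀' T`, `c₀' = c₀/2`, and `2Δ ≤ c₀ T/2`, `Δ ≤ T/8` (`T ≥ T₀`), `c₀ ≤ 1/4` (decrease `c₀`): the supports are in `[a j - Δ, b j + Δ] ⊆ [a j - Δ, a j - Δ + ℓ] ⊆ [T/2, 3T]` (`win_zero`, `win_in`).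
`sandwich` with `F x = ∏ gz (pt x j)`, `M x = MT (pt x)`, `K` (`wm = 0` off `K` by `win_in` and `Ioo ⊆ S j`, `wp = 1` on `K` by `win_one` and `S j ⊆ Icc`), `E = C T^(n+1) L^(n+1+ε)` (`one_v`), `E' = C L^(2n+2) C Δ T^n ≤ C T^(n+1)` (`edge_v`, `mt_bd`: where `wp ≠ 0` all `pt x j ∈ [T/2, 3T]`; `ofReal` of the integral = lintegral for
nonnegative functions). Integrability: bounded and supported in a set of finite volume (`indep_v`), measurable. If the measurability of `M` on all of `ℝ^d` is inconvenient replace `M` by `M` times the indicator of `{all pt x j ∈ [T/2, 3T]}`, or use `Measurable (MT L)` (tsum of measurable functions).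
-/

set_option autoImplicit false

namespace Pool.Agent.P07318v

open MeasureTheory Complex Pool.Agent.P07318s Pool.Agent.P07318f Pool.Agent.P07318h Pool.Agent.P07318o

private theorem int_bd {X E : Type} [MeasurableSpace X] [NormedAddCommGroup E] {μ : Measure X}
    {f : X → E} {D : Set X} (hD : MeasurableSet D) (hDv : μ D < ⊤)
    (hf : AEStronglyMeasurable f μ) {C : ℝ} (hb : ∀ x ∈ D, ‖f x‖ ≤ C)
    (h0 : ∀ x, x ∉ D → f x = 0) : Integrable f μ := by
  have h1 : IntegrableOn f D μ := Measure.integrableOn_of_bounded hDv.ne hf (by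
    filter_upwards [ae_restrict_mem hD] with x hx using hb x hx)
  rwa [integrableOn_iff_integrable_of_support_subset] at h1
  intro x hx
  by_contra h
  exact hx (h0 x h)

private theorem cut_mono {U Λ Λ' : ℝ} {c : ℝ → ℝ} (hU : 0 < U) (h : Λ ≤ Λ') (hc : Cut U Λ c) :
    Cut U Λ' c :=
  ⟨hc.smooth, hc.nonneg, hc.le_one, hc.supp,
    fun y => (hc.d1 y).trans (div_le_div_of_nonneg_right h hU.le),
    fun y => (hc.d2 y).trans (div_le_div_of_nonneg_right h (by positivity))⟩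

/-- the domain where all points are in `[T/2, 3T]` -/
private def DD {ι : Type} {d : ℕ} (Lr : ι → Fin d → ℝ) (κ : ι → ℝ) (T : ℝ) : Set (Fin d → ℝ) :=
  {x | ∀ j, pt Lr κ x j ∈ Set.Icc (T / 2) (3 * T)}

private theorem DD_meas {ι : Type} [Fintype ι] {d : ℕ} (Lr : ι → Fin d → ℝ) (κ : ι → ℝ) (T : ℝ) :
    MeasurableSet (DD Lr κ T) := by
  have h : DD Lr κ T = ⋂ j, (fun x => pt Lr κ x j) ⁻¹' Set.Icc (T / 2) (3 * T) := by
    ext x
    simp only [Set.mem_iInter, Set.mem_preimage]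
    exact Iff.rfl
  rw [h]
  exact MeasurableSet.iInter fun j => (pt_cont Lr κ j).measurable measurableSet_Icc

private theorem DD_fin {n : ℕ} {ι : Type} [Fintype ι] [DecidableEq ι]
    (hι : Fintype.card ι = 2 * n + 2) (Lr : ι → Fin (n + 1) → ℝ) (hL : GP Lr) (κ : ι → ℝ) (T : ℝ) :
    volume (DD Lr κ T) < ⊤ := by
  obtain ⟨C, hC, h⟩ := indep_v Lr hL
  have hne : Nonempty (Fin (n + 1) ↪ ι) :=
    Function.Embedding.nonempty_of_card_le (by rw [Fintype.card_fin, hι]; omega)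
  obtain ⟨σ⟩ := hne
  have h1 := h κ σ (fun _ => (Set.Icc (T / 2) (3 * T)).indicator 1) σ.injective
    (fun _ => measurable_one.indicator measurableSet_Icc)
  calc volume (DD Lr κ T) = ∫⁻ x, (DD Lr κ T).indicator 1 x :=
        (lintegral_indicator_one (DD_meas Lr κ T)).symm
    _ ≤ ∫⁻ x, ∏ i, (Set.Icc (T / 2) (3 * T)).indicator (1 : ℝ → ENNReal) (pt Lr κ x (σ i)) := by
        apply lintegral_mono
        intro x
        by_cases hx : x ∈ DD Lr κ T
        · simp only [Set.indicator_of_mem hx, Pi.one_apply]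
          apply le_of_eq
          symm
          apply Finset.prod_eq_one
          intro i _
          rw [Set.indicator_of_mem (hx (σ i)), Pi.one_apply]
        · simp only [Set.indicator_of_notMem hx]
          exact bot_le
    _ ≤ ENNReal.ofReal C * ∏ _i : Fin (n + 1), ∫⁻ y, (Set.Icc (T / 2) (3 * T)).indicator (1 : ℝ → ENNReal) y := h1
    _ < ⊤ := by
        apply ENNReal.mul_lt_top ENNReal.ofReal_lt_top
        apply ENNReal.prod_lt_top
        intro i _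
        rw [lintegral_indicator_one measurableSet_Icc, Real.volume_Icc]
        exact ENNReal.ofReal_lt_top

private theorem prod_out {ι : Type} [Fintype ι] {d : ℕ} {Lr : ι → Fin d → ℝ} {κ : ι → ℝ}
    {T Λ ℓ : ℝ} {a : ι → ℝ} {c : ι → ℝ → ℝ} (h : Wi T Λ ℓ a c) {x : Fin d → ℝ}
    (hx : x ∉ DD Lr κ T) : ∏ j, c j (pt Lr κ x j) = 0 := by
  have h1 : ∃ j, pt Lr κ x j ∉ Set.Icc (T / 2) (3 * T) := by
    by_contra h2
    push Not at h2
    exact hx h2
  obtain ⟨j, hj⟩ := h1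
  apply Finset.prod_eq_zero (Finset.mem_univ j)
  exact h.supp j _ (fun h' => hj ⟨(h.lo j).trans h'.1, h'.2.trans (h.hi j)⟩)

theorem sharp_v {n : ℕ} (hn : 1 ≤ n) {ι : Type} [Fintype ι] [DecidableEq ι] (hι : Fintype.card ι = 2 * n + 2)
    (L : ι → Fin (n + 1) → ℤ) (hL : GP fun j i => (L j i : ℝ)) (ε : ℝ) (hε : 0 < ε) :
    ∃ c₀ C T₀ : ℝ, 0 < c₀ ∧ 0 < C ∧ 64 ≤ T₀ ∧ ∀ (κ a b : ι → ℝ) (S : ι → Set ℝ) (T : ℝ), T₀ ≤ T → (∀ j, T ≤ a j) → (∀ j, b j ≤ 2 * T) →
    (∀ j, a j ≤ b j) → (∀ j, b j - a j ≤ c₀ * T) → (∀ j, MeasurableSet (S j)) → (∀ j, Set.Ioo (a j) (b j) ⊆ S j) → (∀ j, S j ⊆ Set.Icc (a j) (b j)) →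
    ‖∫ x in {x : Fin (n + 1) → ℝ | ∀ j, pt (fun j i => (L j i : ℝ)) κ x j ∈ S j},
      (((∏ j, gz (pt (fun j i => (L j i : ℝ)) κ x j) : ℝ) : ℂ) - MT L (pt (fun j i => (L j i : ℝ)) κ x))‖ ≤
      C * T ^ (n + 1) * lg T ^ ((n : ℝ) + 1 + ε) := by
  obtain ⟨Cw, hCw, hwin⟩ := win_cut
  obtain ⟨c₀, C, T₀, hc₀, hC, hT₀, hone⟩ := one_v hn hι L hL (4 * n + 5) ε (by positivity) hε
  obtain ⟨Ce, hCe, hedge⟩ := edge_v hι (fun j i => (L j i : ℝ)) hL
  obtain ⟨Cm, hCm, hmt⟩ := mt_bd hn hι L hL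
  have hcc := mt_cont hn hι L hL
  refine ⟨min (c₀ / 2) (1 / 2), 2 * C + 2 * (Cm * Ce),
    max T₀ (max (Real.exp 8) (max (Real.exp Cw) (Real.exp (4 / c₀)))), ?_, by positivity,
    hT₀.trans (le_max_left _ _), ?_⟩
  · exact lt_min (by positivity) (by norm_num)
  intro κ a b S T hT ha hb hab hbc hSm hSI hSC
  have hTT₀ : T₀ ≤ T := (le_max_left _ _).trans hT
  have hT1 : Real.exp 8 ≤ T := (le_max_left _ _).trans ((le_max_right _ _).trans hT)
  have hT2 : Real.exp Cw ≤ T :=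
    (le_max_left _ _).trans ((le_max_right _ _).trans ((le_max_right _ _).trans hT))
  have hT3 : Real.exp (4 / c₀) ≤ T :=
    (le_max_right _ _).trans ((le_max_right _ _).trans ((le_max_right _ _).trans hT))
  have hT64 : 64 ≤ T := hT₀.trans hTT₀
  have hT0 : 0 < T := by linarith
  have hg1 : 8 ≤ lg T := by
    have := (Real.le_log_iff_exp_le hT0).mpr hT1
    unfold lg; linarith
  have hg2 : Cw ≤ lg T := by
    have := (Real.le_log_iff_exp_le hT0).mpr hT2
    unfold lg; linarith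
  have hg3 : 4 / c₀ ≤ lg T := by
    have := (Real.le_log_iff_exp_le hT0).mpr hT3
    unfold lg; linarith
  have hg0 : 0 < lg T := by linarith
  have hgp : lg T ≤ lg T ^ (2 * n + 2) := le_self_pow₀ (by linarith) (by omega)
  have hgpp : 0 < lg T ^ (2 * n + 2) := by positivity
  obtain ⟨Δ, hΔ⟩ : ∃ Δ, Δ = T / lg T ^ (2 * n + 2) := ⟨_, rfl⟩
  have hΔ0 : 0 < Δ := by rw [hΔ]; positivity
  have hΔ8 : Δ ≤ T / 8 := by
    rw [hΔ]
    exact div_le_div_of_nonneg_left hT0.le (by norm_num) (hg1.trans hgp)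
  have hΔc : Δ ≤ c₀ * T / 4 := by
    rw [hΔ]
    have h1 : T / lg T ^ (2 * n + 2) ≤ T / (4 / c₀) :=
      div_le_div_of_nonneg_left hT0.le (by positivity) (hg3.trans hgp)
    refine h1.trans (le_of_eq ?_)
    field_simp
  have hTΔ : T / Δ = lg T ^ (2 * n + 2) := by
    rw [hΔ]; field_simp
  have hΛ : Cw * (T / Δ) ^ 2 ≤ lg T ^ (4 * (n : ℝ) + 5) := by
    have e1 : lg T ^ (4 * (n : ℝ) + 5) = lg T ^ (4 * n + 5) := by
      rw [← Real.rpow_natCast]; push_cast; rfl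
    rw [e1, hTΔ, ← pow_mul, show 4 * n + 5 = (2 * n + 2) * 2 + 1 by ring, pow_succ (lg T) ((2 * n + 2) * 2),
      mul_comm (lg T ^ ((2 * n + 2) * 2))]
    exact mul_le_mul_of_nonneg_right hg2 (by positivity)
  have ha2 : ∀ j, a j ≤ 2 * T := fun j => (hab j).trans (hb j)
  have hm1 : min (c₀ / 2) (1 / 2) ≤ c₀ / 2 := min_le_left _ _
  have hm2 : min (c₀ / 2) (1 / 2) ≤ 1 / 2 := min_le_right _ _
  have hm0 : 0 < min (c₀ / 2) (1 / 2) := lt_min (by positivity) (by norm_num)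
  obtain ⟨m, hm⟩ : ∃ m, m = min (c₀ / 2) (1 / 2) := ⟨_, rfl⟩
  rw [← hm] at hm1 hm2 hm0 hbc
  have hmT1 : m * T ≤ c₀ / 2 * T := mul_le_mul_of_nonneg_right hm1 hT0.le
  have hmT2 : m * T ≤ 1 / 2 * T := mul_le_mul_of_nonneg_right hm2 hT0.le
  have hmT0 : 0 < m * T := by positivity
  have hWp : Wi T (lg T ^ (4 * (n : ℝ) + 5)) (m * T + 2 * Δ) (fun j => a j - Δ)
      (fun j => win Δ (a j) (b j)) := by
    refine ⟨fun j => ?_, fun j => ?_, fun j => ?_, fun j y hy => ?_⟩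
    · exact cut_mono (by positivity) hΛ
        (hwin T Δ (a j) (b j) (by linarith) hΔ0 hΔ8 (ha j) (hb j))
    · have := ha j
      show T / 2 ≤ a j - Δ
      linarith
    · have := ha2 j
      show a j - Δ + (m * T + 2 * Δ) ≤ 3 * T
      linarith
    · apply win_zero hΔ0
      intro h
      apply hy
      have h1 := h.1
      have h2 := h.2
      have h3 := hbc j
      exact ⟨h1, by show y ≤ a j - Δ + (m * T + 2 * Δ); linarith⟩
  have hWm : Wi T (lg T ^ (4 * (n : ℝ) + 5)) (m * T + 2 * Δ) (fun j => a j - Δ)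
      (fun j => win Δ (a j + Δ) (b j - Δ)) := by
    refine ⟨fun j => ?_, fun j => ?_, fun j => ?_, fun j y hy => ?_⟩
    · have h1 := ha j
      have h2 := hb j
      exact cut_mono (by positivity) hΛ
        (hwin T Δ (a j + Δ) (b j - Δ) (by linarith) hΔ0 hΔ8 (by linarith) (by linarith))
    · have := ha j
      show T / 2 ≤ a j - Δ
      linarith
    · have := ha2 j
      show a j - Δ + (m * T + 2 * Δ) ≤ 3 * T
      linarith
    · apply win_zero hΔ0
      intro h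
      apply hy
      have h1 := h.1
      have h2 := h.2
      have h3 := hbc j
      exact ⟨by show a j - Δ ≤ y; linarith, by show y ≤ a j - Δ + (m * T + 2 * Δ); linarith⟩
  have hℓ : m * T + 2 * Δ ≤ c₀ * T := by linarith
  have hP := hone κ T (m * T + 2 * Δ) _ _ hTT₀ (by positivity) hℓ hWp
  have hM := hone κ T (m * T + 2 * Δ) _ _ hTT₀ (by positivity) hℓ hWm
  obtain ⟨Lr, hLr⟩ : ∃ Lr : ι → Fin (n + 1) → ℝ, Lr = fun j i => (L j i : ℝ) := ⟨_, rfl⟩
  rw [← hLr] at hP hM hedge hL ⊢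
  -- the domain
  have hDm := DD_meas Lr κ T
  have hDf := DD_fin hι Lr hL κ T
  let F : (Fin (n + 1) → ℝ) → ℝ := fun x => ∏ j, gz (pt Lr κ x j)
  let M : (Fin (n + 1) → ℝ) → ℂ := (DD Lr κ T).indicator fun x => MT L (pt Lr κ x)
  let wp : (Fin (n + 1) → ℝ) → ℝ := fun x => ∏ j, win Δ (a j) (b j) (pt Lr κ x j)
  let wm : (Fin (n + 1) → ℝ) → ℝ := fun x => ∏ j, win Δ (a j + Δ) (b j - Δ) (pt Lr κ x j)
  have hFc : Continuous F := continuous_finsetProd _ fun j _ => gz_cont.comp (pt_cont Lr κ j)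
  have hwpc : Continuous wp := continuous_finsetProd _ fun j _ =>
    (hWp.cut j).smooth.continuous.comp (pt_cont Lr κ j)
  have hwmc : Continuous wm := continuous_finsetProd _ fun j _ =>
    (hWm.cut j).smooth.continuous.comp (pt_cont Lr κ j)
  have hMm : Measurable M := by
    have h1 : ContinuousOn (fun x => MT L (pt Lr κ x)) (DD Lr κ T) := by
      apply hcc.comp (continuous_pi fun j => pt_cont Lr κ j).continuousOn
      intro x hx j
      have := (hx j).1
      show 0 < pt Lr κ x j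
      linarith
    classical
    have h2 : M = (DD Lr κ T).piecewise (fun x => MT L (pt Lr κ x)) 0 :=
      (Set.piecewise_eq_indicator).symm
    rw [h2]
    exact h1.measurable_piecewise continuousOn_const hDm
  have hMb : ∀ x, ‖M x‖ ≤ Cm * lg T ^ (2 * n + 2) := by
    intro x
    by_cases hx : x ∈ DD Lr κ T
    · have h1 : M x = MT L (pt Lr κ x) := Set.indicator_of_mem hx _
      rw [h1]
      exact hmt T _ hT64 (fun j => ⟨(hx j).1, (hx j).2⟩)
    · have h1 : M x = 0 := Set.indicator_of_notMem hx _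
      rw [h1, norm_zero]
      positivity
  have hwp0 : ∀ x, 0 ≤ wp x := fun x => Finset.prod_nonneg fun j _ => win_nonneg _ _ _ _
  have hwm0 : ∀ x, 0 ≤ wm x := fun x => Finset.prod_nonneg fun j _ => win_nonneg _ _ _ _
  have hwp1 : ∀ x, wp x ≤ 1 := fun x =>
    Finset.prod_le_one (fun j _ => win_nonneg _ _ _ _) (fun j _ => win_le_one _ _ _ _)
  have hwm1 : ∀ x, wm x ≤ 1 := fun x =>
    Finset.prod_le_one (fun j _ => win_nonneg _ _ _ _) (fun j _ => win_le_one _ _ _ _)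
  have hwmp : ∀ x, wm x ≤ wp x := fun x =>
    Finset.prod_le_prod (fun j _ => win_nonneg _ _ _ _) (fun j _ => win_le hΔ0)
  have hwpout : ∀ x, x ∉ DD Lr κ T → wp x = 0 := fun x hx => prod_out hWp hx
  have hwmout : ∀ x, x ∉ DD Lr κ T → wm x = 0 := fun x hx => prod_out hWm hx
  have hF0 : ∀ x, 0 ≤ F x := fun x => Finset.prod_nonneg fun j _ => gz_nonneg _
  obtain ⟨G, hG⟩ := (isCompact_Icc (a := T / 2) (b := 3 * T)).exists_bound_of_continuousOn
    gz_cont.continuousOn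
  have hFb : ∀ x ∈ DD Lr κ T, F x ≤ G ^ Fintype.card ι := by
    intro x hx
    calc F x ≤ ∏ _j : ι, G := by
          apply Finset.prod_le_prod (fun j _ => gz_nonneg _)
          intro j _
          have := hG _ (hx j)
          rw [Real.norm_eq_abs] at this
          exact (le_abs_self _).trans this
      _ = G ^ Fintype.card ι := by rw [Finset.prod_const, Finset.card_univ]
  have hKm : MeasurableSet {x : Fin (n + 1) → ℝ | ∀ j, pt Lr κ x j ∈ S j} := by
    have h : {x : Fin (n + 1) → ℝ | ∀ j, pt Lr κ x j ∈ S j} =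
        ⋂ j, (fun x => pt Lr κ x j) ⁻¹' S j := by
      ext x
      simp only [Set.mem_iInter, Set.mem_preimage]
      exact Iff.rfl
    rw [h]
    exact MeasurableSet.iInter fun j => (pt_cont Lr κ j).measurable (hSm j)
  have hKD : ∀ x ∈ {x : Fin (n + 1) → ℝ | ∀ j, pt Lr κ x j ∈ S j}, x ∈ DD Lr κ T := by
    intro x hx j
    have h1 := hSC j (hx j)
    have h2 := ha j
    have h3 := hb j
    exact ⟨by linarith [h1.1], by linarith [h1.2]⟩
  have hkey : ∀ (c : ι → ℝ → ℝ), (∀ x, x ∉ DD Lr κ T → ∏ j, c j (pt Lr κ x j) = 0) →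
      (∫ x, (((∏ j, c j (pt Lr κ x j) : ℝ)) : ℂ) * ((F x : ℂ) - M x)) =
      ∫ x : Fin (n + 1) → ℝ, (∏ j, (c j (pt Lr κ x j) : ℂ)) *
        (((∏ j, gz (pt Lr κ x j) : ℝ) : ℂ) - MT L (pt Lr κ x)) := by
    intro c hc
    congr 1
    funext x
    by_cases hx : x ∈ DD Lr κ T
    · have h1 : M x = MT L (pt Lr κ x) := Set.indicator_of_mem hx _
      rw [h1, Complex.ofReal_prod]
    · have h2 := hc x hx
      have h3 : (∏ j, (c j (pt Lr κ x j) : ℂ)) = 0 := by
        rw [← Complex.ofReal_prod, h2, Complex.ofReal_zero]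
      rw [h2, h3, Complex.ofReal_zero, zero_mul, zero_mul]
  have hE1 : ‖∫ x, (wp x : ℂ) * ((F x : ℂ) - M x)‖ ≤
      C * T ^ (n + 1) * lg T ^ ((n : ℝ) + 1 + ε) := by
    have h1 := hkey (fun j => win Δ (a j) (b j)) hwpout
    have h2 : (∫ x, (wp x : ℂ) * ((F x : ℂ) - M x)) = _ := h1
    rw [h2]
    exact hP
  have hE2 : ‖∫ x, (wm x : ℂ) * ((F x : ℂ) - M x)‖ ≤
      C * T ^ (n + 1) * lg T ^ ((n : ℝ) + 1 + ε) := by
    have h1 := hkey (fun j => win Δ (a j + Δ) (b j - Δ)) hwmout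
    have h2 : (∫ x, (wm x : ℂ) * ((F x : ℂ) - M x)) = _ := h1
    rw [h2]
    exact hM
  have hBnn : 0 ≤ Cm * lg T ^ (2 * n + 2) := by positivity
  have hE' : ∫ x, (wp x - wm x) * ‖M x‖ ≤ Cm * Ce * T ^ (n + 1) := by
    rw [integral_eq_lintegral_of_nonneg_ae
      (Filter.Eventually.of_forall fun x => mul_nonneg (sub_nonneg.mpr (hwmp x)) (norm_nonneg _))
      ((hwpc.sub hwmc).measurable.mul hMm.norm).aestronglyMeasurable]
    apply ENNReal.toReal_le_of_le_ofReal (by positivity)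
    have h1 := hedge κ a b T Δ (by linarith) hΔ0 hΔ8 ha hb hab
    calc ∫⁻ x, ENNReal.ofReal ((wp x - wm x) * ‖M x‖)
        ≤ ∫⁻ x, ENNReal.ofReal (Cm * lg T ^ (2 * n + 2)) * ENNReal.ofReal (wp x - wm x) := by
          apply lintegral_mono
          intro x
          show ENNReal.ofReal ((wp x - wm x) * ‖M x‖) ≤
            ENNReal.ofReal (Cm * lg T ^ (2 * n + 2)) * ENNReal.ofReal (wp x - wm x)
          rw [← ENNReal.ofReal_mul hBnn, mul_comm (Cm * lg T ^ (2 * n + 2))]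
          exact ENNReal.ofReal_le_ofReal
            (mul_le_mul_of_nonneg_left (hMb x) (sub_nonneg.mpr (hwmp x)))
      _ = ENNReal.ofReal (Cm * lg T ^ (2 * n + 2)) * ∫⁻ x, ENNReal.ofReal (wp x - wm x) :=
          lintegral_const_mul _ (ENNReal.measurable_ofReal.comp (hwpc.sub hwmc).measurable)
      _ ≤ ENNReal.ofReal (Cm * lg T ^ (2 * n + 2)) * ENNReal.ofReal (Ce * Δ * T ^ n) := by
          gcongr
      _ = ENNReal.ofReal (Cm * Ce * T ^ (n + 1)) := by
          rw [← ENNReal.ofReal_mul hBnn]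
          congr 1
          rw [hΔ]
          field_simp
          ring
  have hi1 : Integrable fun x => wp x * F x := by
    refine int_bd (f := fun x => wp x * F x) hDm hDf (hwpc.mul hFc).aestronglyMeasurable
      (C := G ^ Fintype.card ι) ?_ ?_
    · intro x hx
      rw [Real.norm_eq_abs, abs_of_nonneg (mul_nonneg (hwp0 x) (hF0 x))]
      calc wp x * F x ≤ 1 * F x := mul_le_mul_of_nonneg_right (hwp1 x) (hF0 x)
        _ = F x := one_mul _
        _ ≤ _ := hFb x hx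
    · intro x hx
      show wp x * F x = 0
      rw [hwpout x hx, zero_mul]
  have hi2 : Integrable fun x => (wp x : ℂ) * M x := by
    refine int_bd (f := fun x => (wp x : ℂ) * M x) hDm hDf
      ((Complex.measurable_ofReal.comp hwpc.measurable).mul hMm).aestronglyMeasurable
      (C := Cm * lg T ^ (2 * n + 2)) ?_ ?_
    · intro x hx
      rw [norm_mul, Complex.norm_real, Real.norm_eq_abs, abs_of_nonneg (hwp0 x)]
      calc wp x * ‖M x‖ ≤ 1 * ‖M x‖ := mul_le_mul_of_nonneg_right (hwp1 x) (norm_nonneg _)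
        _ = ‖M x‖ := one_mul _
        _ ≤ _ := hMb x
    · intro x hx
      show (wp x : ℂ) * M x = 0
      rw [hwpout x hx, Complex.ofReal_zero, zero_mul]
  have hfin := sandwich volume F M wp wm {x : Fin (n + 1) → ℝ | ∀ j, pt Lr κ x j ∈ S j}
    (C * T ^ (n + 1) * lg T ^ ((n : ℝ) + 1 + ε)) (Cm * Ce * T ^ (n + 1)) hKm hwpc.measurable
    hwmc.measurable hFc.measurable hMm hF0 hwm0 hwmp (by
      intro x hx
      apply le_of_eq
      symm
      apply Finset.prod_eq_one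
      intro j _
      have h1 := hSC j (hx j)
      exact win_one hΔ0 h1.1 h1.2) (by
      intro x hx
      have h1 : ∃ j, pt Lr κ x j ∉ S j := by
        by_contra h2
        push Not at h2
        exact hx h2
      obtain ⟨j, hj⟩ := h1
      apply Finset.prod_eq_zero (Finset.mem_univ j)
      exact win_in hΔ0 (fun h => hj (hSI j h))) hwm1 hwp1 hi1 hi2 hE1 hE2 hE'
  have hcongr : (∫ x in {x : Fin (n + 1) → ℝ | ∀ j, pt Lr κ x j ∈ S j},
      (((∏ j, gz (pt Lr κ x j) : ℝ) : ℂ) - MT L (pt Lr κ x))) =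
      ∫ x in {x : Fin (n + 1) → ℝ | ∀ j, pt Lr κ x j ∈ S j}, ((F x : ℂ) - M x) := by
    apply setIntegral_congr_fun hKm
    intro x hx
    have h1 : M x = MT L (pt Lr κ x) := Set.indicator_of_mem (hKD x hx) _
    show (((∏ j, gz (pt Lr κ x j) : ℝ) : ℂ) - MT L (pt Lr κ x)) = ((F x : ℂ) - M x)
    rw [h1]
  rw [hcongr]
  refine hfin.trans ?_
  have hge : 1 ≤ lg T ^ ((n : ℝ) + 1 + ε) := Real.one_le_rpow (by linarith) (by positivity)
  have h1 : Cm * Ce * T ^ (n + 1) ≤ Cm * Ce * T ^ (n + 1) * lg T ^ ((n : ℝ) + 1 + ε) :=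
    le_mul_of_one_le_right (by positivity) hge
  calc 2 * (C * T ^ (n + 1) * lg T ^ ((n : ℝ) + 1 + ε)) + 2 * (Cm * Ce * T ^ (n + 1))
      ≤ 2 * (C * T ^ (n + 1) * lg T ^ ((n : ℝ) + 1 + ε)) +
        2 * (Cm * Ce * T ^ (n + 1) * lg T ^ ((n : ℝ) + 1 + ε)) := by linarith
    _ = (2 * C + 2 * (Cm * Ce)) * T ^ (n + 1) * lg T ^ ((n : ℝ) + 1 + ε) := by ring

end Pool.Agent.P07318v
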