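import Pool.Agent.Lib.P07318v.SubV

/-!
# The leading term for homogeneous forms

PROOF. `Lr = fun j i => (L j i : ℝ)`, `κ = 0`: `pt Lr 0 x j = ∑ i, L j i * x i`, so for `q ∈ Ker L` `∏ j, ex (pt x j) (q j) = exp(-i ∑_j (∑_i L j i x i) lgr q_j) = exp(-i ∑_i x_i ∑_j L j i lgr q_j) = 1`, and `MT L (pt x) = ∑' q, ∏ j, h_j^(-1/2) om(h_j, y_j)`, `h_j = hgt (q j)`.
For `y_j ∈ [T, 2T]`: `om(h_j, y_j) = log T + r_j`, `|r_j| ≤ 5 + log h_j` (`0 ≤ log (y_j/T) ≤ log 2`, `|log 2π| ≤ 2`, `γ ≤ 1`), so `|∏ om(h_j, y_j) - (log T)^(2n+2)| ≤ (log T)^(2n+1) 2^(2n+2) ∏ (5 + log h_j) ≤ C (log T)^(2n+1) N^(1/10)` (`log T ≥ 1`; `5 + log h ≤ C h^(1/10)`); `∑' N^(-1/2+1/10) < ∞` (`ker_sum`).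
So `|MT L (pt x) - S (log T)^(2n+2)| ≤ C (log T)^(2n+1)` on `K`, `vol K ≤ C T^(n+1)` (`indep_v`), integrate; `sub_v` with `ε = 1/2` (`lg T ^ (n + 3/2) ≤ C (log T)^(2n+1)` as `n ≥ 1`).
-/

set_option autoImplicit false

namespace Pool.Agent.P07318v

open MeasureTheory Complex Pool.Agent.P07318s Pool.Agent.P07318f Pool.Agent.P07318h Pool.Agent.P07318o

/-- the singular series -/
noncomputable def SS {ι : Type} [Fintype ι] {d : ℕ} (L : ι → Fin d → ℤ) : ℝ := ∑' q : Ker L, (hN q.1) ^ (-(1 / 2) : ℝ)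

namespace SingVAux

lemma prod_bd {ι : Type} (s : Finset ι) {l : ℝ} (hl : 1 ≤ l) (r ρ : ι → ℝ) (hr : ∀ j, |r j| ≤ ρ j) (hρ : ∀ j, 1 ≤ ρ j) :
    l * |∏ j ∈ s, (l + r j) - l ^ s.card| ≤ l ^ s.card * (3 ^ s.card * ∏ j ∈ s, ρ j) := by
  classical
  induction s using Finset.induction_on with
  | empty => simp
  | insert a s ha ih =>
    rw [Finset.prod_insert ha, Finset.prod_insert ha, Finset.card_insert_of_notMem ha]
    have hP : 1 ≤ ∏ j ∈ s, ρ j := by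
      have h1 : ∏ _j ∈ s, (1 : ℝ) ≤ ∏ j ∈ s, ρ j := Finset.prod_le_prod (fun _ _ => zero_le_one) fun j _ => hρ j
      rwa [Finset.prod_const_one] at h1
    set P := ∏ j ∈ s, (l + r j)
    set PP := ∏ j ∈ s, ρ j
    have h3 : (1 : ℝ) ≤ 3 ^ s.card := one_le_pow₀ (by norm_num)
    have hls : 0 < l ^ s.card := by positivity
    have ha1 := hr a
    have ha2 := hρ a
    have e1 : (l + r a) * P - l ^ (s.card + 1) = (l + r a) * (P - l ^ s.card) + r a * l ^ s.card := by ring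
    have e2 : |(l + r a) * P - l ^ (s.card + 1)| ≤ (l + ρ a) * |P - l ^ s.card| + ρ a * l ^ s.card := by
      rw [e1]
      refine (abs_add_le _ _).trans ?_
      rw [abs_mul, abs_mul, abs_of_pos hls]
      have h5 : |l + r a| ≤ l + ρ a := by
        refine (abs_add_le _ _).trans ?_
        rw [abs_of_pos (by linarith)]
        linarith
      exact add_le_add (mul_le_mul_of_nonneg_right h5 (abs_nonneg _)) (mul_le_mul_of_nonneg_right ha1 hls.le)
    have e3 : l * |(l + r a) * P - l ^ (s.card + 1)| ≤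
        (l + ρ a) * (l ^ s.card * (3 ^ s.card * PP)) + ρ a * l * l ^ s.card := by
      calc l * |(l + r a) * P - l ^ (s.card + 1)| ≤ l * ((l + ρ a) * |P - l ^ s.card| + ρ a * l ^ s.card) :=
            mul_le_mul_of_nonneg_left e2 (by linarith)
        _ = (l + ρ a) * (l * |P - l ^ s.card|) + ρ a * l * l ^ s.card := by ring
        _ ≤ _ := by
            have := mul_le_mul_of_nonneg_left ih (show 0 ≤ l + ρ a by linarith)
            linarith
    refine e3.trans ?_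
    have h6 : l + ρ a ≤ 2 * (l * ρ a) := by nlinarith
    have h7 : (1 : ℝ) ≤ 3 ^ s.card * PP := by nlinarith
    have h8 : (l + ρ a) * (3 ^ s.card * PP) + ρ a * l ≤ 3 * (l * ρ a) * (3 ^ s.card * PP) := by
      have h9 : 0 < l * ρ a := by positivity
      nlinarith [mul_le_mul_of_nonneg_right h6 (show (0:ℝ) ≤ 3 ^ s.card * PP by linarith), mul_le_mul_of_nonneg_left h7 h9.le]
    calc (l + ρ a) * (l ^ s.card * (3 ^ s.card * PP)) + ρ a * l * l ^ s.card
        = l ^ s.card * ((l + ρ a) * (3 ^ s.card * PP) + ρ a * l) := by ring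
      _ ≤ l ^ s.card * (3 * (l * ρ a) * (3 ^ s.card * PP)) := mul_le_mul_of_nonneg_left h8 hls.le
      _ = l ^ (s.card + 1) * (3 ^ (s.card + 1) * (ρ a * PP)) := by ring

lemma om_bd {T h y : ℝ} (hT : 1 ≤ T) (hh : 1 ≤ h) (h1 : T ≤ y) (h2 : y ≤ 2 * T) :
    |om h y - Real.log T| ≤ 5 + Real.log h := by
  have hT0 : 0 < T := by linarith
  have hy0 : 0 < y := by linarith
  have hh0 : 0 < h := by linarith
  have e : om h y - Real.log T = Real.log (y / T) - Real.log (2 * Real.pi) - Real.log h + 2 * Real.eulerMascheroniConstant := by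
    unfold om
    rw [Real.log_div hy0.ne' (by positivity), Real.log_mul (by positivity) hh0.ne', Real.log_div hy0.ne' hT0.ne']
    ring
  have a1 : 0 ≤ Real.log (y / T) := Real.log_nonneg (by rw [le_div_iff₀ hT0]; linarith)
  have a2 : Real.log (y / T) ≤ 1 := by
    have h3 : Real.log (y / T) ≤ Real.log 2 := Real.log_le_log (by positivity) (by rw [div_le_iff₀ hT0]; linarith)
    linarith [Real.log_two_lt_d9]
  have b1 : 0 ≤ Real.log (2 * Real.pi) := Real.log_nonneg (by linarith [Real.pi_gt_three])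
  have b2 : Real.log (2 * Real.pi) ≤ 2 := by
    rw [Real.log_le_iff_le_exp (by positivity)]
    have h3 : Real.exp 2 = Real.exp 1 * Real.exp 1 := by rw [← Real.exp_add]; norm_num
    have h4 := Real.exp_one_gt_d9
    have h5 := Real.pi_lt_d2
    rw [h3]
    nlinarith
  have c1 : 0 ≤ Real.log h := Real.log_nonneg hh
  have d1 := Real.one_half_lt_eulerMascheroniConstant
  have d2 := Real.eulerMascheroniConstant_lt_two_thirds
  rw [e, abs_le]
  constructor <;> linarith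

lemma rho_bd {h : ℝ} (hh : 1 ≤ h) : 5 + Real.log h ≤ 15 * h ^ (1 / 10 : ℝ) := by
  have h1 := Real.log_le_rpow_div (show 0 ≤ h by linarith) (show (0 : ℝ) < 1 / 10 by norm_num)
  have h2 : (1 : ℝ) ≤ h ^ (1 / 10 : ℝ) := Real.one_le_rpow hh (by norm_num)
  have h3 : h ^ (1 / 10 : ℝ) / (1 / 10) = 10 * h ^ (1 / 10 : ℝ) := by ring
  rw [h3] at h1
  linarith

lemma hN_ge {ι : Type} [Fintype ι] (q : ι → Q) : 1 ≤ hN q := by
  unfold hN
  have h1 : ∏ _j : ι, (1 : ℝ) ≤ ∏ j, hgt (q j).1 := Finset.prod_le_prod (fun _ _ => zero_le_one) fun j _ => one_le_hgt _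
  rwa [Finset.prod_const_one] at h1

lemma hN_rpow {ι : Type} [Fintype ι] (q : ι → Q) (r : ℝ) : ∏ j, (hgt (q j).1) ^ r = hN q ^ r := by
  unfold hN
  exact Real.finset_prod_rpow _ _ (fun j _ => (hgt_pos _).le) _

/-- the oscillating factors cancel -/
lemma prod_ex {ι : Type} [Fintype ι] {d : ℕ} (L : ι → Fin d → ℤ) (q : ι → Q) (hq : q ∈ Ker L) (x : Fin d → ℝ) :
    ∏ j, ex (pt (fun j i => (L j i : ℝ)) 0 x j) (q j).1 = 1 := by
  unfold ex
  rw [← Complex.exp_sum]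
  have h1 : ∑ j, pt (fun j i => (L j i : ℝ)) 0 x j * lgr (q j).1 = 0 := by
    have h2 : ∀ j, pt (fun j i => (L j i : ℝ)) 0 x j * lgr (q j).1 = ∑ i, x i * ((L j i : ℝ) * lgr (q j).1) := by
      intro j
      unfold pt
      rw [Pi.zero_apply, zero_add, Finset.sum_mul]
      refine Finset.sum_congr rfl fun i _ => ?_
      ring
    rw [Finset.sum_congr rfl fun j _ => h2 j, Finset.sum_comm]
    refine Finset.sum_eq_zero fun i _ => ?_
    rw [← Finset.mul_sum, hq i, mul_zero]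
  have h3 : ∑ j, (((-(pt (fun j i => (L j i : ℝ)) 0 x j * lgr (q j).1) : ℝ) : ℂ) * I) = 0 := by
    rw [← Finset.sum_mul, ← Complex.ofReal_sum, Finset.sum_neg_distrib, h1]
    simp
  rw [h3, Complex.exp_zero]

lemma mt_eq {ι : Type} [Fintype ι] {d : ℕ} (L : ι → Fin d → ℤ) (q : ι → Q) (hq : q ∈ Ker L) (x : Fin d → ℝ) :
    mt q (pt (fun j i => (L j i : ℝ)) 0 x) =
      ((hN q ^ (-(1 / 2) : ℝ) * ∏ j, om (hgt (q j).1) (pt (fun j i => (L j i : ℝ)) 0 x j) : ℝ) : ℂ) := by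
  unfold mt
  rw [Finset.prod_mul_distrib, prod_ex L q hq x, mul_one, ← Complex.ofReal_prod, Finset.prod_mul_distrib, hN_rpow]

/-- one term of the main term -/
lemma term_bd {n : ℕ} {ι : Type} [Fintype ι] (hι : Fintype.card ι = 2 * n + 2) (q : ι → Q) (y : ι → ℝ) {T : ℝ}
    (hT : 1 ≤ T) (hl : 1 ≤ Real.log T) (hy : ∀ j, T ≤ y j ∧ y j ≤ 2 * T) :
    |hN q ^ (-(1 / 2) : ℝ) * ∏ j, om (hgt (q j).1) (y j) - hN q ^ (-(1 / 2) : ℝ) * Real.log T ^ (2 * n + 2)| ≤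
      45 ^ (2 * n + 2) * Real.log T ^ (2 * n + 1) * hN q ^ (-(2 / 5) : ℝ) := by
  have hN1 := hN_ge q
  have hN0 : 0 < hN q := by linarith
  have hρ1 : ∀ j, 1 ≤ 5 + Real.log (hgt (q j).1) := fun j => by
    have := Real.log_nonneg (one_le_hgt (q j).1)
    linarith
  have h1 := prod_bd Finset.univ hl (fun j => om (hgt (q j).1) (y j) - Real.log T) (fun j => 5 + Real.log (hgt (q j).1))
    (fun j => om_bd hT (one_le_hgt _) (hy j).1 (hy j).2) hρ1
  simp only [add_sub_cancel] at h1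
  rw [Finset.card_univ, hι] at h1
  have h2 : ∏ j, (5 + Real.log (hgt (q j).1)) ≤ 15 ^ (2 * n + 2) * hN q ^ (1 / 10 : ℝ) := by
    rw [← hN_rpow, ← hι, ← Finset.card_univ, ← Finset.prod_const, ← Finset.prod_mul_distrib]
    exact Finset.prod_le_prod (fun j _ => by linarith [hρ1 j]) fun j _ => rho_bd (one_le_hgt _)
  have hl0 : 0 < Real.log T := by linarith
  have h3 : |∏ j, om (hgt (q j).1) (y j) - Real.log T ^ (2 * n + 2)| ≤
      Real.log T ^ (2 * n + 1) * (45 ^ (2 * n + 2) * hN q ^ (1 / 10 : ℝ)) := by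
    have h4 : Real.log T * |∏ j, om (hgt (q j).1) (y j) - Real.log T ^ (2 * n + 2)| ≤
        Real.log T * (Real.log T ^ (2 * n + 1) * (45 ^ (2 * n + 2) * hN q ^ (1 / 10 : ℝ))) := by
      refine h1.trans ?_
      have h5 : (3 : ℝ) ^ (2 * n + 2) * ∏ j, (5 + Real.log (hgt (q j).1)) ≤
          3 ^ (2 * n + 2) * (15 ^ (2 * n + 2) * hN q ^ (1 / 10 : ℝ)) := mul_le_mul_of_nonneg_left h2 (by positivity)
      refine (mul_le_mul_of_nonneg_left h5 (by positivity)).trans (le_of_eq ?_)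
      rw [show (45 : ℝ) = 3 * 15 by norm_num, mul_pow]
      ring
    exact le_of_mul_le_mul_left h4 hl0
  rw [← mul_sub, abs_mul, abs_of_pos (by positivity)]
  calc hN q ^ (-(1 / 2) : ℝ) * |∏ j, om (hgt (q j).1) (y j) - Real.log T ^ (2 * n + 2)|
      ≤ hN q ^ (-(1 / 2) : ℝ) * (Real.log T ^ (2 * n + 1) * (45 ^ (2 * n + 2) * hN q ^ (1 / 10 : ℝ))) :=
        mul_le_mul_of_nonneg_left h3 (by positivity)
    _ = 45 ^ (2 * n + 2) * Real.log T ^ (2 * n + 1) * (hN q ^ (-(1 / 2) : ℝ) * hN q ^ (1 / 10 : ℝ)) := by ring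
    _ = _ := by
        rw [← Real.rpow_add hN0]
        norm_num

/-- the main term is the leading term up to one logarithm -/
lemma MT_bd {n : ℕ} (hn : 1 ≤ n) {ι : Type} [Fintype ι] [DecidableEq ι] (hι : Fintype.card ι = 2 * n + 2)
    (L : ι → Fin (n + 1) → ℤ) (hL : GP fun j i => (L j i : ℝ)) :
    ∃ C : ℝ, 0 < C ∧ ∀ (x : Fin (n + 1) → ℝ) (T : ℝ), 1 ≤ T → 1 ≤ Real.log T →
      (∀ j, T ≤ pt (fun j i => (L j i : ℝ)) 0 x j ∧ pt (fun j i => (L j i : ℝ)) 0 x j ≤ 2 * T) →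
      ‖MT L (pt (fun j i => (L j i : ℝ)) 0 x) - ((SS L * Real.log T ^ (2 * n + 2) : ℝ) : ℂ)‖ ≤
        C * Real.log T ^ (2 * n + 1) := by
  have hs := ker_sum hn hι L hL
  have hs0 : 0 ≤ ∑' q : Ker L, hN q.1 ^ (-(2 / 5) : ℝ) :=
    tsum_nonneg fun q => Real.rpow_nonneg (by linarith [hN_ge q.1]) _
  refine ⟨45 ^ (2 * n + 2) * ((∑' q : Ker L, hN q.1 ^ (-(2 / 5) : ℝ)) + 1), by positivity, ?_⟩
  intro x T hT hl hy
  have hs2 : Summable fun q : Ker L => hN q.1 ^ (-(1 / 2) : ℝ) := by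
    refine Summable.of_nonneg_of_le (fun q => Real.rpow_nonneg (by linarith [hN_ge q.1]) _) (fun q => ?_) hs
    exact Real.rpow_le_rpow_of_exponent_le (hN_ge q.1) (by norm_num)
  set y := pt (fun j i => (L j i : ℝ)) 0 x with hyd
  have hb : ∀ q : Ker L, ‖mt q.1 y - ((hN q.1 ^ (-(1 / 2) : ℝ) * Real.log T ^ (2 * n + 2) : ℝ) : ℂ)‖ ≤
      45 ^ (2 * n + 2) * Real.log T ^ (2 * n + 1) * hN q.1 ^ (-(2 / 5) : ℝ) := by
    intro q
    rw [hyd, mt_eq L q.1 q.2 x, ← Complex.ofReal_sub, Complex.norm_real, Real.norm_eq_abs]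
    exact term_bd hι q.1 _ hT hl hy
  have hsb : Summable fun q : Ker L => 45 ^ (2 * n + 2) * Real.log T ^ (2 * n + 1) * hN q.1 ^ (-(2 / 5) : ℝ) := hs.mul_left _
  have hsf : Summable fun q : Ker L => mt q.1 y - ((hN q.1 ^ (-(1 / 2) : ℝ) * Real.log T ^ (2 * n + 2) : ℝ) : ℂ) :=
    Summable.of_norm_bounded hsb hb
  have hsg : Summable fun q : Ker L => ((hN q.1 ^ (-(1 / 2) : ℝ) * Real.log T ^ (2 * n + 2) : ℝ) : ℂ) :=
    Complex.summable_ofReal.2 (hs2.mul_right _)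
  have e1 : MT L y - ((SS L * Real.log T ^ (2 * n + 2) : ℝ) : ℂ) =
      ∑' q : Ker L, (mt q.1 y - ((hN q.1 ^ (-(1 / 2) : ℝ) * Real.log T ^ (2 * n + 2) : ℝ) : ℂ)) := by
    have e2 : MT L y = ∑' q : Ker L, ((mt q.1 y - ((hN q.1 ^ (-(1 / 2) : ℝ) * Real.log T ^ (2 * n + 2) : ℝ) : ℂ)) +
        ((hN q.1 ^ (-(1 / 2) : ℝ) * Real.log T ^ (2 * n + 2) : ℝ) : ℂ)) := by
      unfold MT
      refine tsum_congr fun q => ?_
      rw [sub_add_cancel]
    have e3 : ((SS L * Real.log T ^ (2 * n + 2) : ℝ) : ℂ) =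
        ∑' q : Ker L, ((hN q.1 ^ (-(1 / 2) : ℝ) * Real.log T ^ (2 * n + 2) : ℝ) : ℂ) := by
      rw [← Complex.ofReal_tsum, tsum_mul_right]
      rfl
    rw [e2, e3, hsf.tsum_add hsg, add_sub_cancel_right]
  rw [e1]
  refine (tsum_of_norm_bounded hsb.hasSum hb).trans ?_
  rw [tsum_mul_left]
  have h9 : 0 < Real.log T ^ (2 * n + 1) := by positivity
  have h10 : (0:ℝ) < 45 ^ (2 * n + 2) * Real.log T ^ (2 * n + 1) := by positivity
  nlinarith

/-- the volume of the domain -/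
lemma vol_bd {n : ℕ} {ι : Type} [Fintype ι] [DecidableEq ι] (hι : Fintype.card ι = 2 * n + 2)
    (L : ι → Fin (n + 1) → ℝ) (hL : GP L) : ∃ C : ℝ, 0 < C ∧ ∀ (κ a b : ι → ℝ) (T : ℝ), 0 < T →
    (∀ j, T ≤ a j) → (∀ j, b j ≤ 2 * T) →
    volume {x : Fin (n + 1) → ℝ | ∀ j, a j ≤ pt L κ x j ∧ pt L κ x j ≤ b j} ≤ ENNReal.ofReal (C * T ^ (n + 1)) := by
  obtain ⟨C, hC, hind⟩ := indep_v L hL
  obtain ⟨σ⟩ : Nonempty (Fin (n + 1) ↪ ι) := Function.Embedding.nonempty_of_card_le (by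
    rw [Fintype.card_fin, hι]
    omega)
  refine ⟨C, hC, ?_⟩
  intro κ a b T hT ha hb
  set K := {x : Fin (n + 1) → ℝ | ∀ j, a j ≤ pt L κ x j ∧ pt L κ x j ≤ b j} with hK
  set F : Fin (n + 1) → ℝ → ENNReal := fun _ => (Set.Icc T (2 * T)).indicator fun _ => 1 with hF
  have hFm : ∀ i, Measurable (F i) := fun i => measurable_const.indicator measurableSet_Icc
  have hKm : MeasurableSet K := by
    rw [hK, Set.setOf_forall]
    refine MeasurableSet.iInter fun j => ?_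
    exact (measurableSet_le measurable_const (pt_cont L κ j).measurable).inter
      (measurableSet_le (pt_cont L κ j).measurable measurable_const)
  have h1 : volume K = ∫⁻ x, K.indicator (fun _ => (1 : ENNReal)) x := by
    rw [lintegral_indicator hKm, setLIntegral_const, one_mul]
  rw [h1]
  have h2 : ∀ x, K.indicator (fun _ => (1 : ENNReal)) x ≤ ∏ i, F i (pt L κ x (σ i)) := by
    intro x
    by_cases hx : x ∈ K
    · rw [Set.indicator_of_mem hx]
      refine le_of_eq (Finset.prod_eq_one fun i _ => ?_).symm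
      rw [hF]
      have h3 := hx (σ i)
      exact Set.indicator_of_mem (show pt L κ x (σ i) ∈ Set.Icc T (2 * T) from
        ⟨(ha _).trans h3.1, h3.2.trans (hb _)⟩) _
    · rw [Set.indicator_of_notMem hx]
      exact zero_le
  refine (lintegral_mono h2).trans ((hind κ σ F σ.injective hFm).trans (le_of_eq ?_))
  have h4 : ∀ i : Fin (n + 1), ∫⁻ y, F i y = ENNReal.ofReal T := by
    intro i
    rw [hF, lintegral_indicator measurableSet_Icc, setLIntegral_const, one_mul, Real.volume_Icc]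
    congr 1
    ring
  rw [Finset.prod_congr rfl fun i _ => h4 i, Finset.prod_const, Finset.card_univ, Fintype.card_fin,
    ← ENNReal.ofReal_pow hT.le, ← ENNReal.ofReal_mul hC.le]

end SingVAux

open SingVAux

theorem sing_v {n : ℕ} (hn : 1 ≤ n) {ι : Type} [Fintype ι] [DecidableEq ι] (hι : Fintype.card ι = 2 * n + 2)
    (L : ι → Fin (n + 1) → ℤ) (hL : GP fun j i => (L j i : ℝ)) :
    ∃ C T₀ : ℝ, 0 < C ∧ 64 ≤ T₀ ∧ ∀ (a b : ι → ℝ) (T : ℝ), T₀ ≤ T → (∀ j, T ≤ a j) → (∀ j, b j ≤ 2 * T) →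
    (∀ j, a j ≤ b j) →
    |(∫ x in {x : Fin (n + 1) → ℝ | ∀ j, a j ≤ pt (fun j i => (L j i : ℝ)) 0 x j ∧ pt (fun j i => (L j i : ℝ)) 0 x j ≤ b j},
      ∏ j, gz (pt (fun j i => (L j i : ℝ)) 0 x j)) -
      SS L * (volume {x : Fin (n + 1) → ℝ | ∀ j, a j ≤ pt (fun j i => (L j i : ℝ)) 0 x j ∧ pt (fun j i => (L j i : ℝ)) 0 x j ≤ b j}).toReal *
        Real.log T ^ (2 * n + 2)| ≤
      C * T ^ (n + 1) * Real.log T ^ (2 * n + 1) := by
  obtain ⟨C₁, T₁, hC₁, hT₁, hsub⟩ := sub_v hn hι L hL (1 / 2) (by norm_num)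
  obtain ⟨C₂, hC₂, hMT⟩ := MT_bd hn hι L hL
  obtain ⟨C₃, hC₃, hvol⟩ := vol_bd hι (fun j i => (L j i : ℝ)) hL
  refine ⟨C₁ * 2 ^ ((n : ℝ) + 1 + 1 / 2) + C₂ * C₃, T₁, by positivity, hT₁, ?_⟩
  intro a b T hT ha hb hab
  have hT64 : 64 ≤ T := hT₁.trans hT
  have hT0 : 0 < T := by linarith
  have hl : 1 ≤ Real.log T := by
    rw [Real.le_log_iff_exp_le hT0]
    linarith [Real.exp_one_lt_d9]
  have hl0 : 0 < Real.log T := by linarith
  have hs := hsub 0 a b T hT ha hb hab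
  have hv := hvol 0 a b T hT0 ha hb
  set K := {x : Fin (n + 1) → ℝ | ∀ j, a j ≤ pt (fun j i => (L j i : ℝ)) 0 x j ∧ pt (fun j i => (L j i : ℝ)) 0 x j ≤ b j} with hK
  have hKm : MeasurableSet K := by
    rw [hK, Set.setOf_forall]
    refine MeasurableSet.iInter fun j => ?_
    exact (measurableSet_le measurable_const (pt_cont _ _ j).measurable).inter
      (measurableSet_le (pt_cont _ _ j).measurable measurable_const)
  have hKf : volume K < ⊤ := lt_of_le_of_lt hv ENNReal.ofReal_lt_top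
  have hKv : (volume K).toReal ≤ C₃ * T ^ (n + 1) := by
    refine ENNReal.toReal_le_of_le_ofReal (by positivity) hv
  have hK2 : ∀ x ∈ K, ∀ j, T ≤ pt (fun j i => (L j i : ℝ)) 0 x j ∧ pt (fun j i => (L j i : ℝ)) 0 x j ≤ 2 * T :=
    fun x hx j => ⟨(ha j).trans (hx j).1, (hx j).2.trans (hb j)⟩
  -- integrability
  have hMb : ∀ x ∈ K, ‖MT L (pt (fun j i => (L j i : ℝ)) 0 x)‖ ≤
      C₂ * Real.log T ^ (2 * n + 1) + ‖((SS L * Real.log T ^ (2 * n + 2) : ℝ) : ℂ)‖ := by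
    intro x hx
    have h1 := hMT x T (by linarith) hl (hK2 x hx)
    have h2 := norm_add_le (MT L (pt (fun j i => (L j i : ℝ)) 0 x) - ((SS L * Real.log T ^ (2 * n + 2) : ℝ) : ℂ))
      ((SS L * Real.log T ^ (2 * n + 2) : ℝ) : ℂ)
    rw [sub_add_cancel] at h2
    linarith
  have hMc : ContinuousOn (fun x => MT L (pt (fun j i => (L j i : ℝ)) 0 x)) K := by
    refine (mt_cont hn hι L hL).comp ?_ ?_
    · exact (continuous_pi fun j => pt_cont (fun j i => (L j i : ℝ)) 0 j).continuousOn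
    · intro x hx j
      exact lt_of_lt_of_le hT0 (hK2 x hx j).1
  have hMi : IntegrableOn (fun x => MT L (pt (fun j i => (L j i : ℝ)) 0 x)) K :=
    Integrable.mono' (integrableOn_const (C := C₂ * Real.log T ^ (2 * n + 1) +
      ‖((SS L * Real.log T ^ (2 * n + 2) : ℝ) : ℂ)‖) hKf.ne) (hMc.aestronglyMeasurable hKm)
      ((ae_restrict_iff' hKm).2 (Filter.Eventually.of_forall hMb))
  obtain ⟨B, hB⟩ := (isCompact_Icc (a := T) (b := 2 * T)).exists_bound_of_continuousOn gz_cont.continuousOn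
  have hgc : Continuous fun x => ((∏ j, gz (pt (fun j i => (L j i : ℝ)) 0 x j) : ℝ) : ℂ) :=
    Complex.continuous_ofReal.comp (continuous_finset_prod _ fun j _ => gz_cont.comp (pt_cont _ _ j))
  have hgi : IntegrableOn (fun x => ((∏ j, gz (pt (fun j i => (L j i : ℝ)) 0 x j) : ℝ) : ℂ)) K := by
    refine Measure.integrableOn_of_bounded hKf.ne hgc.aestronglyMeasurable (M := ∏ _j : ι, B)
      ((ae_restrict_iff' hKm).2 (Filter.Eventually.of_forall fun x hx => ?_))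
    rw [Complex.norm_real, norm_prod]
    exact Finset.prod_le_prod (fun j _ => norm_nonneg _) fun j _ => hB _ ⟨(hK2 x hx j).1, (hK2 x hx j).2⟩
  have hci : IntegrableOn (fun _ : Fin (n + 1) → ℝ => ((SS L * Real.log T ^ (2 * n + 2) : ℝ) : ℂ)) K :=
    integrableOn_const hKf.ne
  have e1 : ∫ x in K, (((∏ j, gz (pt (fun j i => (L j i : ℝ)) 0 x j) : ℝ) : ℂ) - MT L (pt (fun j i => (L j i : ℝ)) 0 x)) =
      (∫ x in K, ((∏ j, gz (pt (fun j i => (L j i : ℝ)) 0 x j) : ℝ) : ℂ)) -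
        ∫ x in K, MT L (pt (fun j i => (L j i : ℝ)) 0 x) := integral_sub hgi hMi
  have e2 : ∫ x in K, (MT L (pt (fun j i => (L j i : ℝ)) 0 x) - ((SS L * Real.log T ^ (2 * n + 2) : ℝ) : ℂ)) =
      (∫ x in K, MT L (pt (fun j i => (L j i : ℝ)) 0 x)) -
        ∫ _x in K, ((SS L * Real.log T ^ (2 * n + 2) : ℝ) : ℂ) := integral_sub hMi hci
  have e3 : ∫ _x in K, ((SS L * Real.log T ^ (2 * n + 2) : ℝ) : ℂ) =
      ((SS L * (volume K).toReal * Real.log T ^ (2 * n + 2) : ℝ) : ℂ) := by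
    rw [setIntegral_const, Measure.real, Complex.real_smul, ← Complex.ofReal_mul]
    congr 1
    ring
  have h5 : ‖∫ x in K, (MT L (pt (fun j i => (L j i : ℝ)) 0 x) - ((SS L * Real.log T ^ (2 * n + 2) : ℝ) : ℂ))‖ ≤
      C₂ * Real.log T ^ (2 * n + 1) * (volume K).toReal :=
    norm_setIntegral_le_of_norm_le_const hKf fun x hx => hMT x T (by linarith) hl (hK2 x hx)
  have h6 : ((((∫ x in K, ∏ j, gz (pt (fun j i => (L j i : ℝ)) 0 x j)) -
      SS L * (volume K).toReal * Real.log T ^ (2 * n + 2) : ℝ)) : ℂ) =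
      (∫ x in K, (((∏ j, gz (pt (fun j i => (L j i : ℝ)) 0 x j) : ℝ) : ℂ) - MT L (pt (fun j i => (L j i : ℝ)) 0 x))) +
      ∫ x in K, (MT L (pt (fun j i => (L j i : ℝ)) 0 x) - ((SS L * Real.log T ^ (2 * n + 2) : ℝ) : ℂ)) := by
    rw [e1, e2, e3, integral_complex_ofReal, Complex.ofReal_sub]
    ring
  have h7 : lg T ^ ((n : ℝ) + 1 + 1 / 2) ≤ 2 ^ ((n : ℝ) + 1 + 1 / 2) * Real.log T ^ (2 * n + 1) := by
    have h8 : lg T ≤ 2 * Real.log T := by
      unfold lg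
      linarith
    have h9 : 0 ≤ lg T := by
      unfold lg
      linarith
    calc lg T ^ ((n : ℝ) + 1 + 1 / 2) ≤ (2 * Real.log T) ^ ((n : ℝ) + 1 + 1 / 2) :=
          Real.rpow_le_rpow h9 h8 (by positivity)
      _ = 2 ^ ((n : ℝ) + 1 + 1 / 2) * Real.log T ^ ((n : ℝ) + 1 + 1 / 2) := Real.mul_rpow (by norm_num) hl0.le
      _ ≤ 2 ^ ((n : ℝ) + 1 + 1 / 2) * Real.log T ^ ((2 * n + 1 : ℕ) : ℝ) := by
          refine mul_le_mul_of_nonneg_left (Real.rpow_le_rpow_of_exponent_le hl ?_) (by positivity)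
          have : (1 : ℝ) ≤ n := by exact_mod_cast hn
          push_cast
          linarith
      _ = _ := by rw [Real.rpow_natCast]
  rw [← Real.norm_eq_abs, ← Complex.norm_real, h6]
  refine (norm_add_le _ _).trans ?_
  have hTn : 0 < T ^ (n + 1) := by positivity
  calc _ ≤ C₁ * T ^ (n + 1) * lg T ^ ((n : ℝ) + 1 + 1 / 2) + C₂ * Real.log T ^ (2 * n + 1) * (volume K).toReal :=
        add_le_add hs h5
    _ ≤ C₁ * T ^ (n + 1) * (2 ^ ((n : ℝ) + 1 + 1 / 2) * Real.log T ^ (2 * n + 1)) +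
        C₂ * Real.log T ^ (2 * n + 1) * (C₃ * T ^ (n + 1)) := by
        gcongr
    _ = _ := by ring

end Pool.Agent.P07318v
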