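import Pool.Agent.Lib.P07318v.SharpV

/-!
# All boxes

PROOF. Let `N : ℕ` with `1/N ≤ c₀`, `N ≥ 1` (`c₀` of `sharp_v`). For each `j` cut `[a j, b j]` into `N` pieces: `S j k = Ico (a j + k s) (a j + (k+1) s)` for `k + 1 < N`, `s = (b j - a j)/N`, and `Icc` for `k + 1 = N`; they are disjoint with union `Icc (a j) (b j)` (if `a j = b j`: all `Ico` are empty, the last one is the point).
`Ioo ⊆ S j k ⊆ Icc` for the end points of the piece, lengths `≤ T/N ≤ c₀ T`. `{x | ∀ j, pt x j ∈ Icc (a j) (b j)}` is the disjoint union over `k : ι → Fin N` of `{x | ∀ j, pt x j ∈ S j (k j)}`: `integral_iUnion_fintype`/`integral_finset_biUnion` (measurable, pairwise disjoint, integrable on each: bounded on a set of finite volume).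
`N^(2n+2)` terms.
-/

set_option autoImplicit false

namespace Pool.Agent.P07318v

open MeasureTheory Complex Pool.Agent.P07318s Pool.Agent.P07318f Pool.Agent.P07318h Pool.Agent.P07318o

namespace SubVAux

/-- pieces of an interval -/
def pc (N : ℕ) (a b : ℝ) (k : ℕ) : Set ℝ :=
  if k + 1 = N then Set.Icc (a + k * ((b - a) / N)) (a + (k + 1) * ((b - a) / N))
  else Set.Ico (a + k * ((b - a) / N)) (a + (k + 1) * ((b - a) / N))

lemma pc_meas (N : ℕ) (a b : ℝ) (k : ℕ) : MeasurableSet (pc N a b k) := by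
  unfold pc
  split_ifs
  · exact measurableSet_Icc
  · exact measurableSet_Ico

lemma pc_sub (N : ℕ) (a b : ℝ) (k : ℕ) :
    pc N a b k ⊆ Set.Icc (a + k * ((b - a) / N)) (a + (k + 1) * ((b - a) / N)) := by
  unfold pc
  split_ifs
  · exact le_rfl
  · exact Set.Ico_subset_Icc_self

lemma sub_pc (N : ℕ) (a b : ℝ) (k : ℕ) :
    Set.Ioo (a + k * ((b - a) / N)) (a + (k + 1) * ((b - a) / N)) ⊆ pc N a b k := by
  unfold pc
  split_ifs
  · exact Set.Ioo_subset_Icc_self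
  · exact Set.Ioo_subset_Ico_self

lemma pc_cover {N : ℕ} (hN : 1 ≤ N) {a b y : ℝ} (hy : y ∈ Set.Icc a b) :
    ∃ k : Fin N, y ∈ pc N a b k := by
  classical
  have hN' : (0 : ℝ) < N := by exact_mod_cast hN
  have h0 : a + ((0 : ℕ) : ℝ) * ((b - a) / N) ≤ y := by simpa using hy.1
  set k := Nat.findGreatest (fun k : ℕ => a + (k : ℝ) * ((b - a) / N) ≤ y) (N - 1) with hk
  have h1 : k ≤ N - 1 := Nat.findGreatest_le _
  have h2 : a + (k : ℝ) * ((b - a) / N) ≤ y :=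
    Nat.findGreatest_spec (P := fun k : ℕ => a + (k : ℝ) * ((b - a) / N) ≤ y) (Nat.zero_le (N - 1)) h0
  refine ⟨⟨k, by omega⟩, ?_⟩
  unfold pc
  simp only
  split_ifs with h3
  · refine ⟨h2, ?_⟩
    have h4 : (k : ℝ) + 1 = N := by exact_mod_cast h3
    rw [h4, mul_div_cancel₀ _ hN'.ne']
    linarith [hy.2]
  · refine ⟨h2, ?_⟩
    have h4 : ¬ a + ((k + 1 : ℕ) : ℝ) * ((b - a) / N) ≤ y := by
      have h5 := Nat.findGreatest_is_greatest (P := fun k : ℕ => a + (k : ℝ) * ((b - a) / N) ≤ y)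
        (n := N - 1) (k := k + 1) (by omega) (by omega)
      exact h5
    push_cast at h4
    exact not_le.1 h4

lemma pc_in {N : ℕ} (hN : 1 ≤ N) {a b : ℝ} (hab : a ≤ b) {k : ℕ} (hk : k < N) :
    a ≤ a + k * ((b - a) / N) ∧ a + (k + 1) * ((b - a) / N) ≤ b ∧
      a + k * ((b - a) / N) ≤ a + (k + 1) * ((b - a) / N) := by
  have hN' : (0 : ℝ) < N := by exact_mod_cast hN
  have h0 : 0 ≤ (b - a) / N := div_nonneg (sub_nonneg.2 hab) hN'.le
  have hk0 : (0 : ℝ) ≤ k := Nat.cast_nonneg _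
  have hk1 : (k : ℝ) + 1 ≤ N := by exact_mod_cast hk
  refine ⟨by nlinarith [mul_nonneg hk0 h0], ?_, by nlinarith⟩
  have h1 : ((k : ℝ) + 1) * ((b - a) / N) ≤ N * ((b - a) / N) := mul_le_mul_of_nonneg_right hk1 h0
  rw [mul_div_cancel₀ _ hN'.ne'] at h1
  linarith

lemma pc_disj_lt {N : ℕ} (hN : 1 ≤ N) {a b : ℝ} (hab : a ≤ b) {k l : ℕ} (hl : l < N) (h : k < l) {y : ℝ}
    (h1 : y ∈ pc N a b k) (h2 : y ∈ pc N a b l) : False := by
  have hN' : (0 : ℝ) < N := by exact_mod_cast hN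
  have h0 : 0 ≤ (b - a) / N := div_nonneg (sub_nonneg.2 hab) hN'.le
  have h3 := (pc_sub N a b l h2).1
  unfold pc at h1
  rw [if_neg (by omega)] at h1
  have h4 := h1.2
  have h5 : (k : ℝ) + 1 ≤ l := by exact_mod_cast h
  have h6 : ((k : ℝ) + 1) * ((b - a) / N) ≤ l * ((b - a) / N) := mul_le_mul_of_nonneg_right h5 h0
  linarith

lemma pc_disj {N : ℕ} (hN : 1 ≤ N) {a b : ℝ} (hab : a ≤ b) {k l : Fin N} (h : k ≠ l) {y : ℝ}
    (h1 : y ∈ pc N a b k) (h2 : y ∈ pc N a b l) : False := by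
  rcases lt_or_gt_of_ne (fun h' => h (Fin.ext h') : (k : ℕ) ≠ l) with h3 | h3
  · exact pc_disj_lt hN hab l.2 h3 h1 h2
  · exact pc_disj_lt hN hab k.2 h3 h2 h1

end SubVAux

open SubVAux

theorem sub_v {n : ℕ} (hn : 1 ≤ n) {ι : Type} [Fintype ι] [DecidableEq ι] (hι : Fintype.card ι = 2 * n + 2)
    (L : ι → Fin (n + 1) → ℤ) (hL : GP fun j i => (L j i : ℝ)) (ε : ℝ) (hε : 0 < ε) :
    ∃ C T₀ : ℝ, 0 < C ∧ 64 ≤ T₀ ∧ ∀ (κ a b : ι → ℝ) (T : ℝ), T₀ ≤ T → (∀ j, T ≤ a j) → (∀ j, b j ≤ 2 * T) →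
    (∀ j, a j ≤ b j) →
    ‖∫ x in {x : Fin (n + 1) → ℝ | ∀ j, a j ≤ pt (fun j i => (L j i : ℝ)) κ x j ∧ pt (fun j i => (L j i : ℝ)) κ x j ≤ b j},
      (((∏ j, gz (pt (fun j i => (L j i : ℝ)) κ x j) : ℝ) : ℂ) - MT L (pt (fun j i => (L j i : ℝ)) κ x))‖ ≤
      C * T ^ (n + 1) * lg T ^ ((n : ℝ) + 1 + ε) := by
  classical
  obtain ⟨c₀, C, T₀, hc₀, hC, hT₀, H⟩ := sharp_v hn hι L hL ε hε
  obtain ⟨N, hN⟩ := exists_nat_gt (1 / c₀)
  have hN' : (0 : ℝ) < N := lt_trans (by positivity) hN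
  have hN1 : 1 ≤ N := by exact_mod_cast hN'
  have hNc : 1 / (N : ℝ) ≤ c₀ := by
    rw [div_lt_iff₀ hc₀] at hN
    rw [div_le_iff₀ hN']
    linarith
  have hcard : 0 < Fintype.card (ι → Fin N) := by
    have : Nonempty (Fin N) := ⟨⟨0, hN1⟩⟩
    exact Fintype.card_pos
  refine ⟨(Fintype.card (ι → Fin N) : ℝ) * C, T₀, by positivity, hT₀, ?_⟩
  intro κ a b T hT ha hb hab
  have hT64 : (64 : ℝ) ≤ T := hT₀.trans hT
  set Lr : ι → Fin (n + 1) → ℝ := fun j i => (L j i : ℝ) with hLr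
  set f : (Fin (n + 1) → ℝ) → ℂ := fun x =>
    (((∏ j, gz (pt Lr κ x j) : ℝ) : ℂ) - MT L (pt Lr κ x)) with hf
  set K : Set (Fin (n + 1) → ℝ) := {x | ∀ j, a j ≤ pt Lr κ x j ∧ pt Lr κ x j ≤ b j} with hK
  set Kk : (ι → Fin N) → Set (Fin (n + 1) → ℝ) := fun k =>
    {x | ∀ j, pt Lr κ x j ∈ pc N (a j) (b j) (k j)} with hKk
  have hlg : 0 ≤ lg T := by
    unfold lg
    have := Real.log_nonneg (by linarith : (1 : ℝ) ≤ T)
    linarith
  have hR : 0 ≤ C * T ^ (n + 1) * lg T ^ ((n : ℝ) + 1 + ε) := by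
    have := Real.rpow_nonneg hlg ((n : ℝ) + 1 + ε)
    positivity
  have hpiece : ∀ k : ι → Fin N, ‖∫ x in Kk k, f x‖ ≤ C * T ^ (n + 1) * lg T ^ ((n : ℝ) + 1 + ε) := by
    intro k
    refine H κ (fun j => a j + (k j : ℕ) * ((b j - a j) / N)) (fun j => a j + ((k j : ℕ) + 1) * ((b j - a j) / N))
      (fun j => pc N (a j) (b j) (k j)) T hT (fun j => (ha j).trans (pc_in hN1 (hab j) (k j).2).1)
      (fun j => (pc_in hN1 (hab j) (k j).2).2.1.trans (hb j)) (fun j => (pc_in hN1 (hab j) (k j).2).2.2)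
      (fun j => ?_) (fun j => pc_meas _ _ _ _) (fun j => sub_pc _ _ _ _) (fun j => pc_sub _ _ _ _)
    have h1 : b j - a j ≤ T := by linarith [ha j, hb j]
    have h2 : (b j - a j) / N ≤ T * (1 / N) := by
      rw [mul_one_div]
      gcongr
    have h3 : T * (1 / (N : ℝ)) ≤ T * c₀ := by
      gcongr
    nlinarith
  have hmeas : ∀ k, MeasurableSet (Kk k) := by
    intro k
    have h1 : Kk k = ⋂ j, (fun x => pt Lr κ x j) ⁻¹' (pc N (a j) (b j) (k j)) := by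
      ext x
      simp [hKk]
    rw [h1]
    exact MeasurableSet.iInter fun j => (pt_cont Lr κ j).measurable (pc_meas _ _ _ _)
  have hdisj : Pairwise (Function.onFun Disjoint Kk) := by
    intro k l hkl
    obtain ⟨j, hj⟩ := Function.ne_iff.1 hkl
    refine Set.disjoint_left.2 fun x h1 h2 => ?_
    exact pc_disj hN1 (hab j) hj (h1 j) (h2 j)
  have hun : K = ⋃ k, Kk k := by
    ext x
    simp only [Set.mem_iUnion]
    constructor
    · intro hx
      have h1 : ∀ j, ∃ k : Fin N, pt Lr κ x j ∈ pc N (a j) (b j) k := fun j => pc_cover hN1 (hx j)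
      choose k hk using h1
      exact ⟨k, hk⟩
    · rintro ⟨k, hk⟩ j
      have h1 := pc_sub N (a j) (b j) (k j) (hk j)
      have h2 := pc_in hN1 (hab j) (k j).2
      exact ⟨h2.1.trans h1.1, h1.2.trans h2.2.1⟩
  by_cases hint : IntegrableOn f K
  · have h1 : ∫ x in K, f x = ∑ k, ∫ x in Kk k, f x := by
      rw [hun]
      exact integral_iUnion_fintype hmeas hdisj fun k =>
        hint.mono_set (hun ▸ Set.subset_iUnion Kk k)
    rw [h1]
    calc ‖∑ k, ∫ x in Kk k, f x‖ ≤ ∑ k, ‖∫ x in Kk k, f x‖ := norm_sum_le _ _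
      _ ≤ ∑ _k : ι → Fin N, C * T ^ (n + 1) * lg T ^ ((n : ℝ) + 1 + ε) :=
        Finset.sum_le_sum fun k _ => hpiece k
      _ = (Fintype.card (ι → Fin N) : ℝ) * C * T ^ (n + 1) * lg T ^ ((n : ℝ) + 1 + ε) := by
        rw [Finset.sum_const, nsmul_eq_mul, Finset.card_univ]
        ring
  · have h1 : ∫ x in K, f x = 0 := integral_undef hint
    rw [h1, norm_zero]
    calc (0 : ℝ) ≤ (Fintype.card (ι → Fin N) : ℝ) * (C * T ^ (n + 1) * lg T ^ ((n : ℝ) + 1 + ε)) := by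
          positivity
      _ = _ := by ring

end Pool.Agent.P07318v
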